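import Pool.Agent.H354R3.ZN.Defs

/-!
ZN, task ACT: the facets of a zonotope which is a Wulff shape are active.
-/

set_option autoImplicit false

open MeasureTheory
open scoped Matrix Pointwise

namespace H354ZN

namespace ACTL

lemma dot_sum {m N : ℕ} (u : Fin (m + 1) → ℝ) (z : Fin N → Fin (m + 1) → ℝ) (t : Fin N → ℝ) :
    u ⬝ᵥ (∑ j, t j • z j) = ∑ j, t j * (u ⬝ᵥ z j) := by
  rw [dotProduct_sum]
  refine Finset.sum_congr rfl fun j _ => ?_
  rw [dotProduct_smul, smul_eq_mul]

lemma le_kk {m N : ℕ} (z : Fin N → Fin (m + 1) → ℝ) (I : Finset (Fin N))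
    (x : Fin (m + 1) → ℝ) (hx : x ∈ Zon z) : X z I ⬝ᵥ x ≤ kk z I := by
  obtain ⟨t, ht, rfl⟩ := hx
  rw [dot_sum]
  unfold kk
  refine Finset.sum_le_sum fun j _ => ?_
  calc t j * (X z I ⬝ᵥ z j) ≤ |t j * (X z I ⬝ᵥ z j)| := le_abs_self _
    _ = |t j| * |X z I ⬝ᵥ z j| := abs_mul _ _
    _ ≤ 1 * |X z I ⬝ᵥ z j| := mul_le_mul_of_nonneg_right (ht j) (abs_nonneg _)
    _ = |X z I ⬝ᵥ z j| := one_mul _

end ACTL

open ACTL in
theorem t_ACT (hP : S_PERM0) (hL : S_LINE) : S_ACT := by
  intro m N z f hfc hfp hfh hZ I hI hX0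
  have hIc : I.card = m := (Finset.mem_powersetCard.mp hI).2
  set n : Fin (m + 1) → ℝ := X z I with hn
  set s : Fin N → ℝ := fun j => SignType.sign (n ⬝ᵥ z j) with hs
  set p : Fin (m + 1) → ℝ := ∑ j, s j • z j with hp
  have hs1 : ∀ j, |s j| ≤ 1 := by
    intro j
    rcases lt_trichotomy (n ⬝ᵥ z j) 0 with h | h | h
    · simp [hs, sign_neg h]
    · simp [hs, h]
    · simp [hs, sign_pos h]
  have hpZ : p ∈ Zon z := ⟨s, hs1, rfl⟩
  have hnp : n ⬝ᵥ p = kk z I := by
    rw [hp, dot_sum]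
    unfold kk
    refine Finset.sum_congr rfl fun j _ => ?_
    rw [← hn]
    simp only [hs]
    exact sign_mul_self _
  have hple : ∀ u : Fin (m + 1) → ℝ, u ≠ 0 → u ⬝ᵥ p ≤ f u := by
    have := hpZ
    rw [hZ] at this
    exact this
  -- a direction in which the constraint is active at p
  have hex : ∃ θ : Fin (m + 1) → ℝ, θ ≠ 0 ∧ f θ ≤ θ ⬝ᵥ p := by
    by_contra hcon
    push Not at hcon
    have hcpt : IsCompact (Metric.sphere (0 : Fin (m + 1) → ℝ) 1) := isCompact_sphere 0 1
    have hnn : 0 < ‖n‖ := norm_pos_iff.mpr hX0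
    have hne : (Metric.sphere (0 : Fin (m + 1) → ℝ) 1).Nonempty :=
      ⟨‖n‖⁻¹ • n, by
        rw [mem_sphere_zero_iff_norm, norm_smul, norm_inv, norm_norm, inv_mul_cancel₀ hnn.ne']⟩
    have hsub : Metric.sphere (0 : Fin (m + 1) → ℝ) 1 ⊆ {u | u ≠ 0} := by
      intro u hu h0
      rw [mem_sphere_zero_iff_norm, h0, norm_zero] at hu
      exact zero_ne_one hu
    have hc1 : ContinuousOn (fun u : Fin (m + 1) → ℝ => f u - u ⬝ᵥ p)
        (Metric.sphere (0 : Fin (m + 1) → ℝ) 1) := by
      apply (hfc.mono hsub).sub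
      apply Continuous.continuousOn
      unfold dotProduct
      fun_prop
    have hc2 : ContinuousOn (fun u : Fin (m + 1) → ℝ => u ⬝ᵥ n)
        (Metric.sphere (0 : Fin (m + 1) → ℝ) 1) := by
      apply Continuous.continuousOn
      unfold dotProduct
      fun_prop
    obtain ⟨a, ha, hamin⟩ := hcpt.exists_isMinOn hne hc1
    obtain ⟨b, hb, hbmax⟩ := hcpt.exists_isMaxOn hne hc2
    have hδ : 0 < f a - a ⬝ᵥ p := sub_pos.mpr (hcon a (hsub ha))
    set δ := f a - a ⬝ᵥ p with hδd
    set M := b ⬝ᵥ n with hM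
    set c : ℝ := δ / (|M| + 1) with hc
    have hM1 : 0 < |M| + 1 := by positivity
    have hcpos : 0 < c := div_pos hδ hM1
    have hcM : c * M ≤ δ := by
      calc c * M ≤ c * (|M| + 1) := by
            apply mul_le_mul_of_nonneg_left _ hcpos.le
            linarith [le_abs_self M]
        _ = δ := by rw [hc]; field_simp
    have hin : p + c • n ∈ Zon z := by
      rw [hZ]
      intro u hu
      have hun : 0 < ‖u‖ := norm_pos_iff.mpr hu
      set v : Fin (m + 1) → ℝ := ‖u‖⁻¹ • u with hv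
      have hvs : v ∈ Metric.sphere (0 : Fin (m + 1) → ℝ) 1 := by
        rw [mem_sphere_zero_iff_norm, hv, norm_smul, norm_inv, norm_norm,
          inv_mul_cancel₀ hun.ne']
      have huv : u = ‖u‖ • v := by
        rw [hv, smul_smul, mul_inv_cancel₀ hun.ne', one_smul]
      have h1 : δ ≤ f v - v ⬝ᵥ p := hamin hvs
      have h2 : v ⬝ᵥ n ≤ M := hbmax hvs
      have h3 : v ⬝ᵥ (p + c • n) ≤ f v := by
        rw [dotProduct_add, dotProduct_smul, smul_eq_mul]
        have : c * (v ⬝ᵥ n) ≤ c * M := mul_le_mul_of_nonneg_left h2 hcpos.le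
        linarith
      have h4 : f u = ‖u‖ * f v := by
        conv_lhs => rw [huv]
        exact hfh _ _ hun
      rw [h4]
      conv_lhs => rw [huv]
      rw [smul_dotProduct, smul_eq_mul]
      exact mul_le_mul_of_nonneg_left h3 hun.le
    have h5 := le_kk z I _ hin
    rw [← hn, dotProduct_add, dotProduct_smul, smul_eq_mul, hnp] at h5
    have h6 : 0 < n ⬝ᵥ n := by
      have h7 : n ⬝ᵥ n ≠ 0 := fun h => hX0 (dotProduct_self_eq_zero.mp h)
      have h8 : 0 ≤ n ⬝ᵥ n := by
        unfold dotProduct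
        exact Finset.sum_nonneg fun i _ => mul_self_nonneg _
      exact lt_of_le_of_ne h8 h7.symm
    have h9 : 0 < c * (n ⬝ᵥ n) := mul_pos hcpos h6
    linarith
  obtain ⟨θ, hθ0, hθ⟩ := hex
  have hθz : ∀ i ∈ I, z i ⬝ᵥ θ = 0 := by
    intro i hi
    have hsi : s i = 0 := by
      have := hP m N z I i hIc hi
      simp only [hs, hn]
      rw [this]
      simp
    have key : ∀ e : ℝ, |e| ≤ 1 → p + e • z i ∈ Zon z := by
      intro e he
      refine ⟨fun j => s j + (if j = i then e else 0), ?_, ?_⟩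
      · intro j
        by_cases hj : j = i
        · subst hj
          simp only [if_true, hsi, zero_add]
          exact he
        · simp only [hj, if_false, add_zero]
          exact hs1 j
      · simp only [add_smul, Finset.sum_add_distrib]
        rw [← hp]
        congr 1
        rw [Finset.sum_eq_single i]
        · simp
        · intro j _ hj
          simp [hj]
        · intro h
          exact absurd (Finset.mem_univ i) h
    have hk1 := key 1 (by norm_num)
    have hk2 := key (-1) (by norm_num)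
    rw [hZ] at hk1 hk2
    have h1 := hk1 θ hθ0
    have h2 := hk2 θ hθ0
    rw [dotProduct_add, dotProduct_smul, smul_eq_mul] at h1 h2
    rw [dotProduct_comm]
    linarith
  obtain ⟨τ, hτ⟩ := hL m N z I θ hIc hX0 hθz
  have hfθ : 0 < f θ := hfp θ hθ0
  have hθp : θ ⬝ᵥ p = τ * kk z I := by
    rw [hτ, smul_dotProduct, smul_eq_mul, ← hn, hnp]
  have hkk : 0 ≤ kk z I := by
    unfold kk
    exact Finset.sum_nonneg fun j _ => abs_nonneg _
  have hτpos : 0 < τ := by
    by_contra hneg
    push Not at hneg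
    have : τ * kk z I ≤ 0 := mul_nonpos_of_nonpos_of_nonneg hneg hkk
    linarith
  have hfτ : f θ = τ * f n := by
    rw [hτ, ← hn]
    exact hfh τ n hτpos
  have h10 : τ * f n ≤ τ * kk z I := by
    rw [← hfτ, ← hθp]
    exact hθ
  exact le_of_mul_le_mul_left h10 hτpos

end H354ZN
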