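import Pool.Agent.H354R3.ZN.Defs

/-!
# Zonotopes given by finitely many slabs: every facet is active
-/

set_option autoImplicit false

open MeasureTheory
open scoped Matrix Pointwise

namespace H354ZN

theorem acts_eps {p : ℕ} (a b : Fin p → ℝ) (hb : ∀ i, 0 < b i) :
    ∃ ε : ℝ, 0 < ε ∧ ∀ i, ε * a i ≤ b i := by
  have h1 : ∀ᶠ ε in nhdsWithin (0 : ℝ) (Set.Ioi 0), ∀ i, ε * a i < b i := by
    rw [Filter.eventually_all]
    intro i
    have h2 : Filter.Tendsto (fun ε : ℝ => ε * a i) (nhdsWithin (0 : ℝ) (Set.Ioi 0)) (nhds 0) := by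
      have h3 : Filter.Tendsto (fun ε : ℝ => ε * a i) (nhds 0) (nhds (0 * a i)) :=
        (continuous_id.mul continuous_const).tendsto 0
      rw [zero_mul] at h3
      exact h3.mono_left nhdsWithin_le_nhds
    exact h2.eventually_lt_const (hb i)
  obtain ⟨ε, h4, h5⟩ := (h1.and self_mem_nhdsWithin).exists
  exact ⟨ε, h5, fun i => (h4 i).le⟩

theorem acts_sign_abs (r : ℝ) : |Real.sign r| ≤ 1 := by
  rcases Real.sign_apply_eq r with h | h | h <;> rw [h] <;> simp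

theorem acts_sign_mul (r : ℝ) : Real.sign r * r = |r| := by
  rcases lt_trichotomy r 0 with h | h | h
  · rw [Real.sign_of_neg h, abs_of_neg h]; ring
  · rw [h]; simp
  · rw [Real.sign_of_pos h, abs_of_pos h]; ring

theorem acts_le {m N : ℕ} (z : Fin N → Fin (m + 1) → ℝ) (w : Fin (m + 1) → ℝ)
    {x : Fin (m + 1) → ℝ} (hx : x ∈ Zon z) : w ⬝ᵥ x ≤ ∑ j, |w ⬝ᵥ z j| := by
  obtain ⟨t, ht, rfl⟩ := hx
  rw [dotProduct_sum]
  refine Finset.sum_le_sum fun j _ => ?_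
  rw [dotProduct_smul, smul_eq_mul]
  calc t j * (w ⬝ᵥ z j) ≤ |t j * (w ⬝ᵥ z j)| := le_abs_self _
    _ = |t j| * |w ⬝ᵥ z j| := abs_mul _ _
    _ ≤ 1 * |w ⬝ᵥ z j| := mul_le_mul_of_nonneg_right (ht j) (abs_nonneg _)
    _ = |w ⬝ᵥ z j| := one_mul _

/-- the face point -/
noncomputable def actsP {m N : ℕ} (z : Fin N → Fin (m + 1) → ℝ) (w : Fin (m + 1) → ℝ) :
    Fin (m + 1) → ℝ := ∑ j, Real.sign (w ⬝ᵥ z j) • z j

theorem acts_P_mem {m N : ℕ} (z : Fin N → Fin (m + 1) → ℝ) (w : Fin (m + 1) → ℝ) :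
    actsP z w ∈ Zon z := ⟨fun j => Real.sign (w ⬝ᵥ z j), fun _ => acts_sign_abs _, rfl⟩

theorem acts_P_dot {m N : ℕ} (z : Fin N → Fin (m + 1) → ℝ) (w : Fin (m + 1) → ℝ) :
    w ⬝ᵥ actsP z w = ∑ j, |w ⬝ᵥ z j| := by
  unfold actsP
  rw [dotProduct_sum]
  refine Finset.sum_congr rfl fun j _ => ?_
  rw [dotProduct_smul, smul_eq_mul, acts_sign_mul]

theorem acts_P_add {m N : ℕ} (z : Fin N → Fin (m + 1) → ℝ) (w : Fin (m + 1) → ℝ) (k : Fin N)
    (hk : w ⬝ᵥ z k = 0) (s : ℝ) (hs : |s| ≤ 1) : actsP z w + s • z k ∈ Zon z := by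
  classical
  refine ⟨fun j => Real.sign (w ⬝ᵥ z j) + if j = k then s else 0, fun j => ?_, ?_⟩
  · by_cases hj : j = k
    · subst hj
      simp [hk, hs]
    · simp only [hj, if_false, add_zero]
      exact acts_sign_abs _
  · unfold actsP
    simp only [add_smul, Finset.sum_add_distrib, ite_smul, zero_smul, Finset.sum_ite_eq',
      Finset.mem_univ, if_true]

theorem t_ACTS (hP : S_PERM0) (hL : S_LINE) : S_ACTS := by
  intro m N p z v r hr hZ I hI hX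
  have hcard : I.card = m := (Finset.mem_powersetCard.mp hI).2
  set w := X z I with hw
  have hkk : kk z I = ∑ j, |w ⬝ᵥ z j| := rfl
  -- positivity
  have hww : 0 < w ⬝ᵥ w := by
    have h1 : 0 ≤ w ⬝ᵥ w := by
      unfold dotProduct
      exact Finset.sum_nonneg fun i _ => mul_self_nonneg _
    refine lt_of_le_of_ne h1 fun h => hX ?_
    exact dotProduct_self_eq_zero.mp h.symm
  have hkpos : 0 < kk z I := by
    obtain ⟨ε, hε, h1⟩ := acts_eps (fun i => |v i ⬝ᵥ w|) r hr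
    have h2 : ε • w ∈ Zon z := by
      rw [hZ]
      intro i
      rw [dotProduct_smul, smul_eq_mul, abs_mul, abs_of_pos hε]
      exact h1 i
    have h3 := acts_le z w h2
    rw [dotProduct_smul, smul_eq_mul] at h3
    rw [hkk]
    exact lt_of_lt_of_le (mul_pos hε hww) h3
  set P := actsP z w with hPd
  have hPk : w ⬝ᵥ P = kk z I := acts_P_dot z w
  have hPmem : ∀ i, |v i ⬝ᵥ P| ≤ r i := by
    have h1 : P ∈ Zon z := acts_P_mem z w
    rw [hZ] at h1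
    exact h1
  obtain ⟨i, hi⟩ : ∃ i, |v i ⬝ᵥ P| = r i := by
    by_contra hcon
    have hcon : ∀ i, |v i ⬝ᵥ P| ≠ r i := fun i hi => hcon ⟨i, hi⟩
    have h1 : ∀ i, 0 < r i - |v i ⬝ᵥ P| := fun i =>
      sub_pos.mpr (lt_of_le_of_ne (hPmem i) (hcon i))
    obtain ⟨ε, hε, h2⟩ := acts_eps (fun i => |v i ⬝ᵥ P|) _ h1
    have h3 : (1 + ε) • P ∈ Zon z := by
      rw [hZ]
      intro i
      rw [dotProduct_smul, smul_eq_mul, abs_mul, abs_of_pos (by linarith : (0 : ℝ) < 1 + ε)]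
      have := h2 i
      linarith
    have h4 := acts_le z w h3
    rw [dotProduct_smul, smul_eq_mul, hPk, ← hkk] at h4
    nlinarith [mul_pos hε hkpos]
  have hort : ∀ k ∈ I, z k ⬝ᵥ v i = 0 := by
    intro k hk
    have h0 : w ⬝ᵥ z k = 0 := hP m N z I k hcard hk
    have h1 : P + (1 : ℝ) • z k ∈ Zon z := acts_P_add z w k h0 1 (by simp)
    have h2 : P + (-1 : ℝ) • z k ∈ Zon z := acts_P_add z w k h0 (-1) (by simp)
    rw [hZ] at h1 h2
    have h3 := h1 i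
    have h4 := h2 i
    rw [dotProduct_add, dotProduct_smul, smul_eq_mul, ← hi] at h3 h4
    have h5 := sq_le_sq' (by linarith [neg_abs_le (v i ⬝ᵥ P + 1 * (v i ⬝ᵥ z k)), abs_nonneg (v i ⬝ᵥ P)]) (le_trans (le_abs_self _) h3)
    have h6 := sq_le_sq' (by linarith [neg_abs_le (v i ⬝ᵥ P + (-1) * (v i ⬝ᵥ z k)), abs_nonneg (v i ⬝ᵥ P)]) (le_trans (le_abs_self _) h4)
    rw [sq_abs] at h5 h6
    rw [dotProduct_comm]
    nlinarith [sq_nonneg (v i ⬝ᵥ z k)]
  obtain ⟨τ, hτ⟩ := hL m N z I (v i) hcard hX hort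
  have hτ0 : τ ≠ 0 := by
    intro h
    rw [h, zero_smul] at hτ
    rw [hτ, zero_dotProduct, abs_zero] at hi
    exact (hr i).ne hi
  refine ⟨i, τ⁻¹, inv_ne_zero hτ0, ?_, ?_⟩
  · rw [hτ, smul_smul, inv_mul_cancel₀ hτ0, one_smul]
  · rw [← hi, hτ, smul_dotProduct, smul_eq_mul, ← hw, hPk, abs_mul, abs_of_pos hkpos, ← mul_assoc,
      ← abs_mul, inv_mul_cancel₀ hτ0, abs_one, one_mul]

end H354ZN
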