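import Pool.Agent.H354R3.ZN.Defs3

/-!
# The support function of a Wulff shape agrees with the given function at almost all normals
-/

set_option autoImplicit false

open MeasureTheory Filter
open scoped Matrix Pointwise Topology

namespace H354ZN

namespace ACTZx

variable {n : ℕ}

/-- a boundary point of a Wulff shape touches one of the half-spaces -/
theorem touch (hn : 1 ≤ n) {f : EuclideanSpace ℝ (Fin n) → ℝ} (hf : PH f)
    (hm : ∀ x, x ∈ Wu f ↔ gauge (Wu f) x ≤ 1) {y : EuclideanSpace ℝ (Fin n)}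
    (hy : gauge (Wu f) y = 1) :
    ∃ u : EuclideanSpace ℝ (Fin n), ‖u‖ = 1 ∧ inner ℝ y u = f u := by
  classical
  have hyM : y ∈ Wu f := (hm y).2 hy.le
  by_contra hcon
  push Not at hcon
  have hlt : ∀ u : EuclideanSpace ℝ (Fin n), ‖u‖ = 1 → inner ℝ y u < f u := by
    intro u hu
    have hu0 : u ≠ 0 := by
      intro h
      rw [h, norm_zero] at hu
      exact zero_ne_one hu
    exact lt_of_le_of_ne (hyM u hu0) (hcon u hu)
  have hne0 : ∀ u ∈ Metric.sphere (0 : EuclideanSpace ℝ (Fin n)) 1, u ≠ 0 := by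
    intro u hu h
    rw [h] at hu
    simp at hu
  have hcomp : IsCompact (Metric.sphere (0 : EuclideanSpace ℝ (Fin n)) 1) := isCompact_sphere _ _
  have hne : (Metric.sphere (0 : EuclideanSpace ℝ (Fin n)) 1).Nonempty := by
    refine ⟨EuclideanSpace.single (⟨0, hn⟩ : Fin n) (1 : ℝ), ?_⟩
    simp
  have hcf : ContinuousOn (fun u : EuclideanSpace ℝ (Fin n) => inner ℝ y u / f u)
      (Metric.sphere (0 : EuclideanSpace ℝ (Fin n)) 1) := by
    apply ContinuousOn.div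
    · exact (continuous_const.inner continuous_id).continuousOn
    · exact hf.cont.mono fun u hu => hne0 u hu
    · intro u hu
      exact (hf.pos u (hne0 u hu)).ne'
  obtain ⟨u0, hu0, hmax⟩ := hcomp.exists_isMaxOn hne hcf
  have hq1 : inner ℝ y u0 / f u0 < 1 := by
    rw [div_lt_one (hf.pos u0 (hne0 u0 hu0))]
    exact hlt u0 (by simpa using hu0)
  set q : ℝ := max (inner ℝ y u0 / f u0) (1 / 2) with hq
  have hq0 : 0 < q := lt_of_lt_of_le (by norm_num) (le_max_right _ _)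
  have hq1' : q < 1 := max_lt hq1 (by norm_num)
  have hmem : q⁻¹ • y ∈ Wu f := by
    intro u hu
    have hnu : 0 < ‖u‖ := norm_pos_iff.2 hu
    have hunit : ‖u‖⁻¹ • u ∈ Metric.sphere (0 : EuclideanSpace ℝ (Fin n)) 1 := by
      rw [mem_sphere_zero_iff_norm, norm_smul, norm_inv, norm_norm]
      exact inv_mul_cancel₀ hnu.ne'
    have h1 : inner ℝ y (‖u‖⁻¹ • u) / f (‖u‖⁻¹ • u) ≤ inner ℝ y u0 / f u0 := hmax hunit
    have h2 : inner ℝ y (‖u‖⁻¹ • u) / f (‖u‖⁻¹ • u) ≤ q := h1.trans (le_max_left _ _)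
    rw [hf.hom _ _ (inv_ne_zero hnu.ne'), real_inner_smul_right, abs_of_pos (inv_pos.2 hnu),
      mul_div_mul_left _ _ (inv_ne_zero hnu.ne'), div_le_iff₀ (hf.pos u hu)] at h2
    rw [real_inner_smul_left, inv_mul_le_iff₀ hq0]
    exact h2
  have h3 := (hm _).1 hmem
  rw [gauge_smul_of_nonneg (inv_nonneg.2 hq0.le), hy, smul_eq_mul, mul_one] at h3
  have h4 : 1 < q⁻¹ := (one_lt_inv₀ hq0).2 hq1'
  linarith

end ACTZx

open ACTZx in
theorem t_ACTZ (hHH : S_HH) (hWSB : S_WSB) (hGRAD : S_GRAD) : S_ACTZ := by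
  intro n f hn hf
  have hM : SB (Wu f) := (hWSB n f hf).1
  obtain ⟨-, -, -, -, -, h1, h2, hm, hpos, -⟩ := hHH n (Wu f) hM
  filter_upwards [hGRAD n (Wu f) hn hM] with x hx
  obtain ⟨-, hx0, -, -, -, -, huniq⟩ := hx
  have hp := hpos x hx0
  set p := gauge (Wu f) x with hpdef
  have hy : gauge (Wu f) (p⁻¹ • x) = 1 := by
    rw [gauge_smul_of_nonneg (inv_nonneg.2 hp.le), smul_eq_mul, ← hpdef]
    exact inv_mul_cancel₀ hp.ne'
  obtain ⟨u, hu, hyu⟩ := touch hn hf hm hy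
  have hu0 : u ≠ 0 := by
    intro h
    rw [h, norm_zero] at hu
    exact zero_ne_one hu
  have hfu := hf.pos u hu0
  have hv1 : ∀ y ∈ Wu f, inner ℝ y ((f u)⁻¹ • u) ≤ 1 := by
    intro y hy'
    rw [real_inner_smul_right, inv_mul_le_iff₀ hfu, mul_one]
    exact hy' u hu0
  have hv2 : ∀ y, inner ℝ y ((f u)⁻¹ • u) ≤ gauge (Wu f) y := (h2 _).1 ((h1 _).1 hv1)
  have hv3 : inner ℝ x ((f u)⁻¹ • u) = gauge (Wu f) x := by
    rw [real_inner_smul_left, inv_mul_eq_iff_eq_mul₀ hp.ne'] at hyu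
    rw [real_inner_smul_right, hyu, ← hpdef]
    field_simp
  rw [← huniq _ hv2 hv3, hf.hom _ _ (inv_ne_zero hfu.ne'), abs_of_pos (inv_pos.2 hfu)]
  exact inv_mul_cancel₀ hfu.ne'

end H354ZN
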