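import Pool.Agent.H354R3.ZN.Defs3

set_option autoImplicit false

open MeasureTheory Filter
open scoped Matrix Pointwise Topology

namespace H354ZN

namespace ALEX

/-- `|e^{-a} - e^{-b}| ≤ |b - a| e^{-m}` if `m ≤ a, b` -/
theorem exp_diff (a b m : ℝ) (ha : m ≤ a) (hb : m ≤ b) :
    |Real.exp (-a) - Real.exp (-b)| ≤ |b - a| * Real.exp (-m) := by
  have key : ∀ a b : ℝ, a ≤ b → m ≤ a →
      |Real.exp (-a) - Real.exp (-b)| ≤ |b - a| * Real.exp (-m) := by
    intro a b hab hma
    have h1 : Real.exp (-b) ≤ Real.exp (-a) := Real.exp_le_exp.2 (by linarith)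
    rw [abs_of_nonneg (by linarith), abs_of_nonneg (by linarith)]
    have h2 : Real.exp (-b) = Real.exp (-a) * Real.exp (-(b - a)) := by
      rw [← Real.exp_add]; congr 1; ring
    have h3 := Real.add_one_le_exp (-(b - a))
    have h4 : Real.exp (-a) ≤ Real.exp (-m) := Real.exp_le_exp.2 (by linarith)
    have h5 := Real.exp_pos (-a)
    calc Real.exp (-a) - Real.exp (-b) = Real.exp (-a) * (1 - Real.exp (-(b - a))) := by
          rw [h2]; ring
      _ ≤ Real.exp (-a) * (b - a) := mul_le_mul_of_nonneg_left (by linarith) h5.le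
      _ ≤ Real.exp (-m) * (b - a) := mul_le_mul_of_nonneg_right h4 (by linarith)
      _ = _ := mul_comm _ _
  rcases le_total a b with h | h
  · exact key a b h ha
  · have := key b a h hb
    rwa [abs_sub_comm, abs_sub_comm a b] at this

/-- the difference quotient -/
theorem exp_lim (p L : ℝ) (P : ℝ → ℝ)
    (h : Tendsto (fun t => (P t - p) / t) (𝓝[>] (0 : ℝ)) (𝓝 L)) :
    Tendsto (fun t => (Real.exp (-p) - Real.exp (-(P t))) / t) (𝓝[>] (0 : ℝ))
      (𝓝 (Real.exp (-p) * L)) := by
  have hd : HasDerivAt (fun s : ℝ => -Real.exp (-s)) 1 0 := by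
    have h1 : HasDerivAt (fun s : ℝ => -s) (-1) 0 := (hasDerivAt_id (0 : ℝ)).neg
    have h2 : HasDerivAt (fun s : ℝ => -Real.exp (-s)) (-(Real.exp (-0) * -1)) 0 := (h1.exp).neg
    have h3 : -(Real.exp (-0) * -1) = 1 := by simp
    rwa [h3] at h2
  have hc : ContinuousAt (dslope (fun s : ℝ => -Real.exp (-s)) 0) 0 :=
    continuousAt_dslope_same.2 hd.differentiableAt
  have hv : dslope (fun s : ℝ => -Real.exp (-s)) 0 0 = 1 := by
    rw [dslope_same, hd.deriv]
  have hs : Tendsto (fun t : ℝ => P t - p) (𝓝[>] (0 : ℝ)) (𝓝 0) := by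
    have h3 : Tendsto (fun t : ℝ => t) (𝓝[>] (0 : ℝ)) (𝓝 0) := tendsto_nhdsWithin_of_tendsto_nhds
      tendsto_id
    have h4 := h.mul h3
    rw [mul_zero] at h4
    refine h4.congr' ?_
    filter_upwards [self_mem_nhdsWithin] with t ht
    have : t ≠ 0 := ne_of_gt ht
    field_simp
  have h5 : Tendsto (fun t => dslope (fun s : ℝ => -Real.exp (-s)) 0 (P t - p)) (𝓝[>] (0 : ℝ))
      (𝓝 1) := by
    rw [← hv]
    exact hc.tendsto.comp hs
  have h6 := (h.mul h5).const_mul (Real.exp (-p))
  rw [mul_one] at h6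
  refine h6.congr' ?_
  filter_upwards [self_mem_nhdsWithin] with t ht
  have ht0 : t ≠ 0 := ne_of_gt ht
  have h7 := sub_smul_dslope (fun s : ℝ => -Real.exp (-s)) 0 (P t - p)
  simp only [smul_eq_mul, sub_zero, neg_zero, Real.exp_zero] at h7
  have h8 : Real.exp (-(P t)) = Real.exp (-p) * Real.exp (-(P t - p)) := by
    rw [← Real.exp_add]; congr 1; ring
  have h9 : (P t - p) * dslope (fun s : ℝ => -Real.exp (-s)) 0 (P t - p) =
      1 - Real.exp (-(P t - p)) := by linarith
  calc Real.exp (-p) * ((P t - p) / t * dslope (fun s : ℝ => -Real.exp (-s)) 0 (P t - p))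
      = Real.exp (-p) * ((P t - p) * dslope (fun s : ℝ => -Real.exp (-s)) 0 (P t - p)) / t := by
        ring
    _ = _ := by rw [h9, h8]; ring

end ALEX

open ALEX in
/-- (ALEX) Alexandrov's variational formula -/
theorem t_ALEX (hHH : S_HH) (hVEXP : S_VEXP) (hPOL : S_POL) (hPTB : S_PTB) (hPTL : S_PTL)
    (hGRH : S_GRH) (hGRAD : S_GRAD) : S_ALEX := by
  intro n K g hn hK hg
  obtain ⟨hKt, C, hC, hPt⟩ := hPTB n K g hn hK hg
  obtain ⟨hint, hvol⟩ := hVEXP n K hn hK
  have hcK : Continuous (gauge K) := (hHH n K hK).2.2.2.2.2.2.2.2.2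
  have hcKt : ∀ t, Continuous (gauge (Kt K g t)) := fun t =>
    (hHH n _ (hKt t)).2.2.2.2.2.2.2.2.2
  have hp0 : ∀ x, 0 ≤ gauge K x := fun x => gauge_nonneg x
  -- the bounded function
  classical
  set G : EuclideanSpace ℝ (Fin n) → ℝ := fun x => if gg K x ≠ 0 then g (gg K x) else 0 with hG
  obtain ⟨hggm, hggh, -⟩ := hGRH n K hK
  have hGm : Measurable G := by
    have h1 : Measurable (Set.piecewise {u : EuclideanSpace ℝ (Fin n) | u ≠ 0} g
        (fun _ => (0 : ℝ))) :=
      hg.cont.measurable_piecewise continuousOn_const (isOpen_ne.measurableSet)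
    exact h1.comp hggm
  have hGb : ∃ B : ℝ, ∀ x, |G x| ≤ B := by
    have hcomp : IsCompact (Metric.sphere (0 : EuclideanSpace ℝ (Fin n)) 1) := isCompact_sphere _ _
    have hcont : ContinuousOn g (Metric.sphere (0 : EuclideanSpace ℝ (Fin n)) 1) := by
      apply hg.cont.mono
      intro u hu hu0
      rw [mem_sphere_zero_iff_norm, hu0, norm_zero] at hu
      exact zero_ne_one hu
    obtain ⟨B, hB⟩ := hcomp.exists_bound_of_continuousOn hcont
    refine ⟨max B 0, fun x => ?_⟩
    by_cases hx : gg K x ≠ 0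
    · simp only [hG, if_pos hx]
      have hx0 : 0 < ‖gg K x‖ := norm_pos_iff.2 hx
      have h1 := hg.hom ‖gg K x‖⁻¹ (gg K x) (inv_ne_zero hx0.ne')
      rw [← h1]
      refine le_trans (hB _ ?_) (le_max_left _ _)
      rw [mem_sphere_zero_iff_norm, norm_smul, norm_inv, norm_norm, inv_mul_cancel₀ hx0.ne']
    · simp only [hG, if_neg hx, abs_zero]
      exact le_max_right _ _
  have hGh : ∀ (c : ℝ) x, 0 < c → G (c • x) = G x := by
    intro c x hc
    simp only [hG, hggh c x hc]
  obtain ⟨hpint, hpol⟩ := hPOL n K G hn hK hGm hGb hGh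
  have hGae : ∀ᵐ x : EuclideanSpace ℝ (Fin n), G x = g (gg K x) := by
    filter_upwards [hGRAD n K hn hK] with x hx
    simp only [hG, if_pos hx.2.2.1]
  have hfac : (0 : ℝ) < n.factorial := by exact_mod_cast n.factorial_pos
  -- the main limit
  have hmain : Tendsto (fun t => ∫ x : EuclideanSpace ℝ (Fin n),
      (Real.exp (-gauge K x) - Real.exp (-gauge (Kt K g t) x)) / t) (𝓝[>] (0 : ℝ))
      (𝓝 (∫ x : EuclideanSpace ℝ (Fin n), Real.exp (-gauge K x) * gauge K x * G x)) := by
    apply tendsto_integral_filter_of_dominated_convergence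
      (fun x => C * Real.exp C * (Real.exp (-(Real.exp (-C) * gauge K x)) * gauge K x))
    · filter_upwards with t
      apply Continuous.aestronglyMeasurable
      have := hcKt t
      fun_prop
    · have h1 : ∀ᶠ t : ℝ in 𝓝[>] (0 : ℝ), t ≤ 1 :=
        nhdsWithin_le_nhds (Iic_mem_nhds (by norm_num))
      filter_upwards [h1, self_mem_nhdsWithin] with t ht1 ht
      have ht0 : 0 < t := ht
      filter_upwards with x
      have hb := hPt t ht0.le x
      have hm1 : Real.exp (-C) * gauge K x ≤ gauge K x := by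
        have h2 : Real.exp (-C) ≤ 1 := Real.exp_le_one_iff.2 (by linarith)
        have := mul_le_mul_of_nonneg_right h2 (hp0 x)
        linarith
      have hm2 : Real.exp (-C) * gauge K x ≤ gauge (Kt K g t) x := by
        refine le_trans ?_ hb.1
        apply mul_le_mul_of_nonneg_right _ (hp0 x)
        apply Real.exp_le_exp.2
        nlinarith
      have h3 := exp_diff (gauge K x) (gauge (Kt K g t) x) _ hm1 hm2
      have h4 : |gauge (Kt K g t) x - gauge K x| ≤ C * Real.exp C * t * gauge K x := by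
        have e1 : Real.exp (C * t) - 1 ≤ C * Real.exp C * t := by
          have h5 := Real.add_one_le_exp (-(C * t))
          have h6 : Real.exp (C * t) * Real.exp (-(C * t)) = 1 := by
            rw [← Real.exp_add]; simp
          have h7 : Real.exp (C * t) ≤ Real.exp C := Real.exp_le_exp.2 (by nlinarith)
          have h8 : Real.exp (C * t) * (-(C * t) + 1) ≤ 1 := by
            calc _ ≤ Real.exp (C * t) * Real.exp (-(C * t)) :=
                  mul_le_mul_of_nonneg_left h5 (Real.exp_pos _).le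
              _ = 1 := h6
          have h9 : C * t * Real.exp (C * t) ≤ C * t * Real.exp C :=
            mul_le_mul_of_nonneg_left h7 (by positivity)
          linarith
        have e2 : 1 - Real.exp (-(C * t)) ≤ C * Real.exp C * t := by
          have h5 := Real.add_one_le_exp (-(C * t))
          have h6 : (1 : ℝ) ≤ Real.exp C := Real.one_le_exp hC
          have h7 : C * t * 1 ≤ C * t * Real.exp C :=
            mul_le_mul_of_nonneg_left h6 (by positivity)
          linarith
        have e3 := mul_le_mul_of_nonneg_right e1 (hp0 x)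
        have e4 := mul_le_mul_of_nonneg_right e2 (hp0 x)
        rw [abs_le]
        constructor
        · linarith [hb.1]
        · linarith [hb.2]
      rw [Real.norm_eq_abs, abs_div, abs_of_pos ht0, div_le_iff₀ ht0]
      calc _ ≤ _ := h3
        _ ≤ (C * Real.exp C * t * gauge K x) * Real.exp (-(Real.exp (-C) * gauge K x)) :=
            mul_le_mul_of_nonneg_right h4 (Real.exp_pos _).le
        _ = _ := by ring
    · exact (hpint _ (Real.exp_pos _)).const_mul _
    · filter_upwards [hPTL n K g hn hK hg, hGae] with x hx hGx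
      have h1 := exp_lim (gauge K x) _ (fun t => gauge (Kt K g t) x) hx
      rw [hGx, mul_assoc]
      exact h1
  -- conclusion
  have hlim := hmain.const_mul ((n.factorial : ℝ)⁻¹)
  have hval : (n.factorial : ℝ)⁻¹ * (∫ x : EuclideanSpace ℝ (Fin n),
      Real.exp (-gauge K x) * gauge K x * G x) = n * ∫ x in K, g (gg K x) := by
    rw [hpol]
    have h1 : ∫ x in K, G x = ∫ x in K, g (gg K x) := by
      apply integral_congr_ae
      exact ae_restrict_of_ae hGae
    rw [h1]
    field_simp
  rw [hval] at hlim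
  refine hlim.congr ?_
  intro t
  obtain ⟨hint', hvol'⟩ := hVEXP n (Kt K g t) hn (hKt t)
  rw [integral_div, integral_sub hint hint', ← hvol, ← hvol']
  field_simp

end H354ZN
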