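import Pool.Agent.H354R3.ZN.Defs2

set_option autoImplicit false

open MeasureTheory
open scoped Matrix Pointwise

namespace H354ZN

namespace BCaux

variable {n : ℕ}

theorem hh_cont {K : Set (EuclideanSpace ℝ (Fin n))} (hK : SB K) : Continuous (hh K) := by
  have : Continuous fun u : EuclideanSpace ℝ (Fin n) => sSup ((fun y => inner ℝ y u) '' K) :=
    IsCompact.continuous_sSup (f := fun (u : EuclideanSpace ℝ (Fin n)) y => inner ℝ y u) hK.comp
      (by
        show Continuous fun p : EuclideanSpace ℝ (Fin n) × EuclideanSpace ℝ (Fin n) =>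
          inner ℝ p.2 p.1
        fun_prop)
  exact this

theorem bdd {K : Set (EuclideanSpace ℝ (Fin n))} (hK : SB K) (u : EuclideanSpace ℝ (Fin n)) :
    BddAbove ((fun y => inner ℝ y u) '' K) :=
  (hK.comp.image (by fun_prop)).bddAbove

theorem le_hh {K : Set (EuclideanSpace ℝ (Fin n))} (hK : SB K) {x : EuclideanSpace ℝ (Fin n)}
    (hx : x ∈ K) (u : EuclideanSpace ℝ (Fin n)) : inner ℝ x u ≤ hh K u :=
  le_csSup (bdd hK u) ⟨x, hx, rfl⟩

theorem abs_le_hh {K : Set (EuclideanSpace ℝ (Fin n))} (hK : SB K)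
    {x : EuclideanSpace ℝ (Fin n)} (hx : x ∈ K) (u : EuclideanSpace ℝ (Fin n)) :
    |inner ℝ x u| ≤ hh K u := by
  rw [abs_le]
  have h1 := le_hh hK hx u
  have h2 := le_hh hK (hK.symm x hx) u
  rw [inner_neg_left] at h2
  exact ⟨by linarith, h1⟩

theorem zero_mem {K : Set (EuclideanSpace ℝ (Fin n))} (hK : SB K) :
    (0 : EuclideanSpace ℝ (Fin n)) ∈ K := interior_subset hK.zero

theorem hh_pos {K : Set (EuclideanSpace ℝ (Fin n))} (hK : SB K) {u : EuclideanSpace ℝ (Fin n)}
    (hu : u ≠ 0) : 0 < hh K u := by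
  have h1 : ∀ᶠ c : ℝ in nhds 0, c • u ∈ K := by
    have h2 : Filter.Tendsto (fun c : ℝ => c • u) (nhds 0) (nhds ((0 : ℝ) • u)) :=
      (Continuous.tendsto (by fun_prop) 0)
    rw [zero_smul] at h2
    exact h2.eventually (mem_interior_iff_mem_nhds.1 hK.zero)
  obtain ⟨c, hc, hc0⟩ : ∃ c : ℝ, c • u ∈ K ∧ 0 < c := by
    have h3 : ∀ᶠ c : ℝ in nhdsWithin 0 (Set.Ioi 0), c • u ∈ K := h1.filter_mono nhdsWithin_le_nhds
    obtain ⟨c, hc⟩ := (h3.and self_mem_nhdsWithin).exists
    exact ⟨c, hc.1, hc.2⟩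
  have h4 := le_hh hK hc u
  rw [real_inner_smul_left, real_inner_self_eq_norm_sq] at h4
  have h5 : 0 < ‖u‖ := norm_pos_iff.2 hu
  have : 0 < c * ‖u‖ ^ 2 := by positivity
  linarith

theorem hh_smul {K : Set (EuclideanSpace ℝ (Fin n))} {c : ℝ} (hc : 0 < c)
    (u : EuclideanSpace ℝ (Fin n)) : hh K (c • u) = c * hh K u := by
  unfold hh
  rw [← smul_eq_mul, ← Real.sSup_smul_of_nonneg hc.le]
  congr 1
  ext y
  constructor
  · rintro ⟨x, hx, rfl⟩
    refine ⟨inner ℝ x u, ⟨x, hx, rfl⟩, ?_⟩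
    simp only [smul_eq_mul, real_inner_smul_right]
  · rintro ⟨_, ⟨x, hx, rfl⟩, rfl⟩
    refine ⟨x, hx, ?_⟩
    simp only [smul_eq_mul, real_inner_smul_right]

theorem hh_smul_set {K : Set (EuclideanSpace ℝ (Fin n))} {c : ℝ} (hc : 0 < c)
    (u : EuclideanSpace ℝ (Fin n)) : hh (c • K) u = c * hh K u := by
  unfold hh
  rw [← smul_eq_mul, ← Real.sSup_smul_of_nonneg hc.le]
  congr 1
  ext y
  constructor
  · rintro ⟨_, ⟨x, hx, rfl⟩, rfl⟩
    refine ⟨inner ℝ x u, ⟨x, hx, rfl⟩, ?_⟩
    simp only [smul_eq_mul, real_inner_smul_left]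
  · rintro ⟨_, ⟨x, hx, rfl⟩, rfl⟩
    refine ⟨c • x, ⟨x, hx, rfl⟩, ?_⟩
    simp only [smul_eq_mul, real_inner_smul_left]

theorem SB_smul {K : Set (EuclideanSpace ℝ (Fin n))} (hK : SB K) {c : ℝ} (hc : 0 < c) :
    SB (c • K) where
  conv := hK.conv.smul c
  comp := hK.comp.smul c
  zero := by
    rw [interior_smul₀ hc.ne']
    exact ⟨0, hK.zero, smul_zero _⟩
  symm := by
    rintro _ ⟨x, hx, rfl⟩
    exact ⟨-x, hK.symm x hx, by simp⟩

theorem SB_inter {K M : Set (EuclideanSpace ℝ (Fin n))} (hK : SB K) (hM : SB M) :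
    SB (K ∩ M) where
  conv := hK.conv.inter hM.conv
  comp := hK.comp.inter hM.comp
  zero := by
    rw [interior_inter]
    exact ⟨hK.zero, hM.zero⟩
  symm := fun x hx => ⟨hK.symm x hx.1, hM.symm x hx.2⟩

theorem vol_pos {K : Set (EuclideanSpace ℝ (Fin n))} (hK : SB K) : 0 < volume.real K := by
  refine ENNReal.toReal_pos ?_ hK.comp.measure_lt_top.ne
  have h1 : 0 < volume (interior K) := isOpen_interior.measure_pos volume ⟨0, hK.zero⟩
  exact (h1.trans_le (measure_mono interior_subset)).ne'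

theorem mem_iff {K : Set (EuclideanSpace ℝ (Fin n))} (hK : SB K)
    (x : EuclideanSpace ℝ (Fin n)) : (∀ u, u ≠ 0 → inner ℝ x u ≤ hh K u) ↔ x ∈ K := by
  constructor
  · intro h
    by_contra hx
    obtain ⟨g, c, hg1, hg2⟩ := geometric_hahn_banach_closed_point hK.conv hK.comp.isClosed hx
    obtain ⟨v, rfl⟩ := (InnerProductSpace.toDual ℝ (EuclideanSpace ℝ (Fin n))).surjective g
    simp only [InnerProductSpace.toDual_apply_apply] at hg1 hg2
    have hv : v ≠ 0 := by
      rintro rfl
      have := hg1 0 (zero_mem hK)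
      simp at this hg2
      linarith
    have h1 := h v hv
    have h2 : hh K v ≤ c := by
      refine csSup_le ⟨_, ⟨0, zero_mem hK, rfl⟩⟩ ?_
      rintro _ ⟨y, hy, rfl⟩
      have := hg1 y hy
      rw [real_inner_comm] at this
      exact this.le
    rw [real_inner_comm] at hg2
    linarith
  · intro hx u _
    exact le_hh hK hx u

end BCaux

open BCaux

theorem t_BC (hZM : S_ZM) : S_BC := by
  intro n K M hn hK hM a b θ hθ0 hθ1 hZ
  set r := θ * a + (1 - θ) * b with hr
  have hKr := SB_smul hK (Real.exp_pos r)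
  have hKa := SB_smul hK (Real.exp_pos a)
  have hKb := SB_smul hK (Real.exp_pos b)
  have hset : {x : EuclideanSpace ℝ (Fin n) | ∀ u, u ≠ 0 →
      inner ℝ x u ≤ min (hh (Real.exp r • K) u) (hh M u)} = (Real.exp r • K) ∩ M := by
    ext x
    simp only [Set.mem_setOf_eq, le_min_iff, Set.mem_inter_iff, ← mem_iff hKr, ← mem_iff hM]
    exact ⟨fun h => ⟨fun u hu => (h u hu).1, fun u hu => (h u hu).2⟩,
      fun h u hu => ⟨h.1 u hu, h.2 u hu⟩⟩
  have key := hZM n 2 (fun u => min (hh (Real.exp r • K) u) (hh M u))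
    ![(Real.exp a • K) ∩ M, (Real.exp b • K) ∩ M]
    ![fun u => min (hh (Real.exp a • K) u) (hh M u), fun u => min (hh (Real.exp b • K) u) (hh M u)]
    ![θ, 1 - θ] hn (((hh_cont hKr).min (hh_cont hM)).continuousOn)
    (fun u hu => lt_min (hh_pos hKr hu) (hh_pos hM hu))
    (fun c u hc => by
      show min (hh (Real.exp r • K) (c • u)) (hh M (c • u)) = _
      rw [hh_smul hc, hh_smul hc, mul_min_of_nonneg _ _ hc.le])
    (by rw [hset]; exact hZ)
    (by
      intro i
      fin_cases i
      · exact (SB_inter hKa hM).comp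
      · exact (SB_inter hKb hM).comp)
    (by
      intro i
      fin_cases i
      · exact vol_pos (SB_inter hKa hM)
      · exact vol_pos (SB_inter hKb hM))
    (by
      intro i
      fin_cases i
      · exact hθ0.le
      · exact sub_nonneg.2 hθ1.le)
    (by simp)
    (by
      intro i u hu
      fin_cases i
      · refine ⟨lt_min (hh_pos hKa hu) (hh_pos hM hu), fun x hx => ?_⟩
        exact le_min (abs_le_hh hKa hx.1 u) (abs_le_hh hM hx.2 u)
      · refine ⟨lt_min (hh_pos hKb hu) (hh_pos hM hu), fun x hx => ?_⟩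
        exact le_min (abs_le_hh hKb hx.1 u) (abs_le_hh hM hx.2 u))
    (by
      intro u hu
      rw [Fin.prod_univ_two]
      show min (hh (Real.exp a • K) u) (hh M u) ^ θ * min (hh (Real.exp b • K) u) (hh M u) ^ (1 - θ) ≤
        min (hh (Real.exp r • K) u) (hh M u)
      have p0 := hh_pos hK hu
      have pm := hh_pos hM hu
      have pa := hh_pos hKa hu
      have pb := hh_pos hKb hu
      have q0 : 0 < min (hh (Real.exp a • K) u) (hh M u) := lt_min pa pm
      have q1 : 0 < min (hh (Real.exp b • K) u) (hh M u) := lt_min pb pm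
      refine le_min ?_ ?_
      · calc min (hh (Real.exp a • K) u) (hh M u) ^ θ *
              min (hh (Real.exp b • K) u) (hh M u) ^ (1 - θ)
            ≤ (hh (Real.exp a • K) u) ^ θ * (hh (Real.exp b • K) u) ^ (1 - θ) :=
              mul_le_mul (Real.rpow_le_rpow q0.le (min_le_left _ _) hθ0.le)
                (Real.rpow_le_rpow q1.le (min_le_left _ _) (sub_nonneg.2 hθ1.le))
                (Real.rpow_nonneg q1.le _) (Real.rpow_nonneg pa.le _)
          _ = hh (Real.exp r • K) u := by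
              rw [hh_smul_set (Real.exp_pos a), hh_smul_set (Real.exp_pos b),
                hh_smul_set (Real.exp_pos r), Real.mul_rpow (Real.exp_pos a).le p0.le,
                Real.mul_rpow (Real.exp_pos b).le p0.le, ← Real.exp_mul, ← Real.exp_mul]
              have e1 : (hh K u) ^ θ * (hh K u) ^ (1 - θ) = hh K u := by
                rw [← Real.rpow_add p0]
                simp
              have e2 : Real.exp (a * θ) * Real.exp (b * (1 - θ)) = Real.exp r := by
                rw [← Real.exp_add, hr]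
                congr 1
                ring
              calc Real.exp (a * θ) * hh K u ^ θ * (Real.exp (b * (1 - θ)) * hh K u ^ (1 - θ))
                  = (Real.exp (a * θ) * Real.exp (b * (1 - θ))) *
                    (hh K u ^ θ * hh K u ^ (1 - θ)) := by ring
                _ = _ := by rw [e1, e2]
      · calc min (hh (Real.exp a • K) u) (hh M u) ^ θ *
              min (hh (Real.exp b • K) u) (hh M u) ^ (1 - θ)
            ≤ (hh M u) ^ θ * (hh M u) ^ (1 - θ) :=
              mul_le_mul (Real.rpow_le_rpow q0.le (min_le_right _ _) hθ0.le)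
                (Real.rpow_le_rpow q1.le (min_le_right _ _) (sub_nonneg.2 hθ1.le))
                (Real.rpow_nonneg q1.le _) (Real.rpow_nonneg pm.le _)
          _ = hh M u := by
              rw [← Real.rpow_add pm]
              simp)
  rw [hset, Fin.prod_univ_two] at key
  have fa : volume ((Real.exp a • K) ∩ M) ≠ ⊤ := (SB_inter hKa hM).comp.measure_lt_top.ne
  have fb : volume ((Real.exp b • K) ∩ M) ≠ ⊤ := (SB_inter hKb hM).comp.measure_lt_top.ne
  have fr : volume ((Real.exp r • K) ∩ M) ≠ ⊤ := (SB_inter hKr hM).comp.measure_lt_top.ne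
  have key2 : (volume ((Real.exp a • K) ∩ M)).toReal ^ θ *
      (volume ((Real.exp b • K) ∩ M)).toReal ^ (1 - θ) ≤
        (volume ((Real.exp r • K) ∩ M)).toReal := key
  rw [ENNReal.toReal_rpow, ENNReal.toReal_rpow, ← ENNReal.toReal_mul] at key2
  refine (ENNReal.toReal_le_toReal ?_ fr).1 key2
  exact ENNReal.mul_ne_top (ENNReal.rpow_ne_top_of_nonneg hθ0.le fa)
    (ENNReal.rpow_ne_top_of_nonneg (sub_nonneg.2 hθ1.le) fb)

end H354ZN
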