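import Pool.Agent.H354R3.ZN.Defs2

set_option autoImplicit false

open MeasureTheory Metric Set
open scoped Matrix Pointwise

namespace H354ZN

namespace BMaux

variable {n : ℕ} {K : Set (EuclideanSpace ℝ (Fin n))}

theorem bdd (hK : SB K) (u : EuclideanSpace ℝ (Fin n)) :
    BddAbove ((fun y => inner ℝ y u) '' K) := by
  apply (hK.comp.image ?_).bddAbove
  fun_prop

theorem le_hh (hK : SB K) {x : EuclideanSpace ℝ (Fin n)} (hx : x ∈ K)
    (u : EuclideanSpace ℝ (Fin n)) : inner ℝ x u ≤ hh K u :=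
  le_csSup (bdd hK u) ⟨x, hx, rfl⟩

theorem zero_mem (hK : SB K) : (0 : EuclideanSpace ℝ (Fin n)) ∈ K := interior_subset hK.zero

theorem hh_nonneg (hK : SB K) (u : EuclideanSpace ℝ (Fin n)) : 0 ≤ hh K u := by
  have := le_hh hK (zero_mem hK) u
  simpa using this

theorem hh_pos (hK : SB K) {u : EuclideanSpace ℝ (Fin n)} (hu : u ≠ 0) : 0 < hh K u := by
  have h1 : K ∈ nhds (0 : EuclideanSpace ℝ (Fin n)) := mem_interior_iff_mem_nhds.mp hK.zero
  obtain ⟨δ, hδ, hb⟩ := Metric.mem_nhds_iff.mp h1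
  have hun : 0 < ‖u‖ := norm_pos_iff.mpr hu
  have h2 : (δ / 2 / ‖u‖) • u ∈ K := by
    apply hb
    rw [mem_ball_zero_iff, norm_smul, Real.norm_of_nonneg (by positivity)]
    have : δ / 2 / ‖u‖ * ‖u‖ = δ / 2 := by field_simp
    rw [this]
    linarith
  have h3 := le_hh hK h2 u
  rw [inner_smul_left, real_inner_self_eq_norm_sq] at h3
  simp only [conj_trivial] at h3
  have h4 : 0 < δ / 2 / ‖u‖ * ‖u‖ ^ 2 := by positivity
  linarith

theorem hh_smul (c : ℝ) (hc : 0 < c) (u : EuclideanSpace ℝ (Fin n)) :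
    hh K (c • u) = c * hh K u := by
  unfold hh
  have h1 : (fun y => inner ℝ y (c • u)) '' K = c • ((fun y => inner ℝ y u) '' K) := by
    ext z
    constructor
    · rintro ⟨y, hy, rfl⟩
      refine ⟨inner ℝ y u, ⟨y, hy, rfl⟩, ?_⟩
      simp only [smul_eq_mul, inner_smul_right]
    · rintro ⟨_, ⟨y, hy, rfl⟩, rfl⟩
      refine ⟨y, hy, ?_⟩
      simp only [smul_eq_mul, inner_smul_right]
  rw [h1, Real.sSup_smul_of_nonneg hc.le, smul_eq_mul]

theorem hh_cont (hK : SB K) : Continuous (hh K) := by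
  obtain ⟨R, hR⟩ := hK.comp.isBounded.subset_closedBall (0 : EuclideanSpace ℝ (Fin n))
  have hne : K.Nonempty := ⟨0, zero_mem hK⟩
  have hR0 : 0 ≤ R := by
    have := hR (zero_mem hK)
    simpa using this
  have key : ∀ u v, hh K u ≤ hh K v + (⟨R, hR0⟩ : NNReal) * dist u v := by
    intro u v
    apply csSup_le (hne.image _)
    rintro _ ⟨y, hy, rfl⟩
    have h1 : inner ℝ y u = inner ℝ y v + inner ℝ y (u - v) := by
      rw [inner_sub_right]; ring
    have h2 : inner ℝ y (u - v) ≤ R * dist u v := by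
      rw [dist_eq_norm]
      refine (real_inner_le_norm _ _).trans ?_
      apply mul_le_mul_of_nonneg_right _ (norm_nonneg _)
      simpa using hR hy
    show inner ℝ y u ≤ hh K v + R * dist u v
    rw [h1]
    have := le_hh hK hy v
    linarith
  exact (LipschitzWith.of_le_add_mul _ key).continuous

end BMaux

open BMaux in
theorem t_BM (hZM : S_ZM) : S_BM := by
  intro n q K t hn hK ht hsum hZ
  set f : EuclideanSpace ℝ (Fin n) → ℝ := fun u => ∏ i, hh (K i) u ^ t i with hf
  have hfh : ∀ (c : ℝ) u, 0 < c → f (c • u) = c * f u := by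
    intro c u hc
    show ∏ i, hh (K i) (c • u) ^ t i = c * ∏ i, hh (K i) u ^ t i
    have h1 : ∀ i ∈ Finset.univ, hh (K i) (c • u) ^ t i = c ^ t i * hh (K i) u ^ t i := by
      intro i _
      rw [hh_smul c hc, Real.mul_rpow hc.le (hh_nonneg (hK i) u)]
    rw [Finset.prod_congr rfl h1, Finset.prod_mul_distrib, ← Real.rpow_sum_of_pos hc, hsum,
      Real.rpow_one]
  have hW : {x : EuclideanSpace ℝ (Fin n) |
      ∀ u : EuclideanSpace ℝ (Fin n), ‖u‖ = 1 → inner ℝ x u ≤ ∏ i, hh (K i) u ^ t i} =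
      {x : EuclideanSpace ℝ (Fin n) | ∀ u, u ≠ 0 → inner ℝ x u ≤ f u} := by
    ext x
    constructor
    · intro hx u hu
      have hun : 0 < ‖u‖ := norm_pos_iff.mpr hu
      have h1 : ‖‖u‖⁻¹ • u‖ = 1 := by
        rw [norm_smul, norm_inv, norm_norm, inv_mul_cancel₀ hun.ne']
      have h2 := hx _ h1
      have h3 : u = ‖u‖ • (‖u‖⁻¹ • u) := by
        rw [smul_smul, mul_inv_cancel₀ hun.ne', one_smul]
      rw [h3, hfh _ _ hun, inner_smul_right]
      exact mul_le_mul_of_nonneg_left h2 hun.le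
    · intro hx u hu
      exact hx u (by
        intro h0
        rw [h0, norm_zero] at hu
        exact zero_ne_one hu)
  rw [hW] at hZ ⊢
  have hvol : ∀ i, 0 < volume.real (K i) := by
    intro i
    apply ENNReal.toReal_pos
    · exact (Measure.measure_pos_of_nonempty_interior volume ⟨0, (hK i).zero⟩).ne'
    · exact (hK i).comp.measure_lt_top.ne
  exact hZM n q f K (fun i u => hh (K i) u) t hn
    (by
      apply Continuous.continuousOn
      apply continuous_finsetProd
      intro i _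
      exact (hh_cont (hK i)).rpow_const fun x => Or.inr (ht i))
    (by
      intro u hu
      apply Finset.prod_pos
      intro i _
      exact Real.rpow_pos_of_pos (hh_pos (hK i) hu) _)
    hfh hZ (fun i => (hK i).comp) hvol ht hsum
    (by
      intro i u hu
      refine ⟨hh_pos (hK i) hu, ?_⟩
      intro x hx
      rw [abs_le]
      constructor
      · have h1 := le_hh (hK i) ((hK i).symm x hx) u
        rw [inner_neg_left] at h1
        linarith
      · exact le_hh (hK i) hx u)
    (fun u _ => le_refl _)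

end H354ZN
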