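import Pool.Agent.H354R3.ZN.Defs

/-!
# Project ZN, task CHAIN: ordered sets on a line
-/

open MeasureTheory Set

namespace H354ZN

theorem t_CHAIN : S_CHAIN := by
  intro κ _ t T a b hab ht hord hne hT
  have hbdA : ∀ k, BddAbove (T k) := fun k => ⟨b, fun x hx => (hT k x hx).2⟩
  have hbdB : ∀ k, BddBelow (T k) := fun k => ⟨a, fun x hx => (hT k x hx).1⟩
  have hw : ∀ k, ∀ x ∈ T k, ∀ y ∈ T k, x - y ≤ sSup (T k) - sInf (T k) := by
    intro k x hx y hy
    have h1 := le_csSup (hbdA k) hx
    have h2 := csInf_le (hbdB k) hy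
    linarith
  have hw0 : ∀ k, 0 ≤ sSup (T k) - sInf (T k) := by
    intro k
    obtain ⟨x, hx⟩ := hne k
    have := hw k x hx x hx
    linarith
  refine ⟨fun k => sSup (T k) - sInf (T k), hw0, hw, ?_⟩
  have key : ∀ k l, t l < t k →
      Disjoint (Ioo (sInf (T k)) (sSup (T k))) (Ioo (sInf (T l)) (sSup (T l))) := by
    intro k l h
    have hle : sSup (T l) ≤ sInf (T k) :=
      le_csInf (hne k) fun x hx => csSup_le (hne l) fun y hy => hord k l h x hx y hy
    rw [Set.disjoint_left]
    intro x hx hx'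
    linarith [hx.1, hx'.2]
  have hdisj : Pairwise (Function.onFun Disjoint fun k => Ioo (sInf (T k)) (sSup (T k))) := by
    intro k l hkl
    rcases lt_or_gt_of_ne (ht.ne hkl) with h | h
    · exact (key l k h).symm
    · exact key k l h
  have hsub : (⋃ k, Ioo (sInf (T k)) (sSup (T k))) ⊆ Icc a b := by
    refine iUnion_subset fun k x hx => ?_
    have h1 : a ≤ sInf (T k) := le_csInf (hne k) fun x hx => (hT k x hx).1
    have h2 : sSup (T k) ≤ b := csSup_le (hne k) fun x hx => (hT k x hx).2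
    exact ⟨by linarith [hx.1], by linarith [hx.2]⟩
  have hm := measure_iUnion (μ := (volume : Measure ℝ)) hdisj (fun k => measurableSet_Ioo)
  have hfin : ∑ k, ENNReal.ofReal (sSup (T k) - sInf (T k)) ≤ ENNReal.ofReal (b - a) := by
    calc ∑ k, ENNReal.ofReal (sSup (T k) - sInf (T k))
        = ∑ k, volume (Ioo (sInf (T k)) (sSup (T k))) := by simp only [Real.volume_Ioo]
      _ = volume (⋃ k, Ioo (sInf (T k)) (sSup (T k))) := by rw [hm, tsum_fintype]
      _ ≤ volume (Icc a b) := measure_mono hsub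
      _ = ENNReal.ofReal (b - a) := Real.volume_Icc
  rw [← ENNReal.ofReal_sum_of_nonneg (fun k _ => hw0 k)] at hfin
  exact (ENNReal.ofReal_le_ofReal_iff (by linarith)).1 hfin

end H354ZN
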