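import Pool.Agent.H354R3.ZN.Defs

/-! COF: the determinant of the cross products. -/

set_option autoImplicit false

open scoped Matrix

namespace H354ZN

theorem t_COF (h0 : S_PERM0) (h1 : S_PERM1) : S_COF := by
  intro m N z A h hD
  set e := A.orderEmbOfFin h with he
  have hmem : ∀ i, e i ∈ A := fun i => Finset.orderEmbOfFin_mem A h i
  have hcard : ∀ i, (A.erase (e i)).card = m := by
    intro i
    rw [Finset.card_erase_of_mem (hmem i), h]
    rfl
  set P : Matrix (Fin (m + 1)) (Fin (m + 1)) ℝ := Matrix.of fun i => X z (A.erase (e i)) with hP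
  set Z : Matrix (Fin (m + 1)) (Fin (m + 1)) ℝ := Matrix.of fun i => z (e i) with hZ
  have hZD : |Z.det| = DD z A := by
    unfold DD
    rw [dif_pos h]
  have hprod : P * Zᵀ = Matrix.diagonal (fun i => X z (A.erase (e i)) ⬝ᵥ z (e i)) := by
    ext i k
    have e1 : (P * Zᵀ) i k = X z (A.erase (e i)) ⬝ᵥ z (e k) := by
      rw [Matrix.mul_apply]
      rfl
    rw [e1]
    by_cases hik : i = k
    · subst hik
      rw [Matrix.diagonal_apply_eq]
    · rw [Matrix.diagonal_apply_ne _ hik]
      apply h0 m N z _ _ (hcard i)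
      rw [Finset.mem_erase]
      exact ⟨fun h2 => hik (e.injective h2).symm, hmem k⟩
  have hdet : |P.det| * DD z A = DD z A ^ (m + 1) := by
    have h2 := congrArg (fun M : Matrix (Fin (m + 1)) (Fin (m + 1)) ℝ => |M.det|) hprod
    simp only [Matrix.det_mul, Matrix.det_transpose, Matrix.det_diagonal, abs_mul,
      Finset.abs_prod] at h2
    rw [hZD] at h2
    rw [h2]
    have h3 : ∀ i, |X z (A.erase (e i)) ⬝ᵥ z (e i)| = DD z A := by
      intro i
      rw [h1 m N z _ _ (hcard i) (Finset.notMem_erase _ _), Finset.insert_erase (hmem i)]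
    rw [Finset.prod_congr rfl fun i _ => h3 i, Finset.prod_const, Finset.card_univ,
      Fintype.card_fin]
  rw [pow_succ] at hdet
  exact mul_right_cancel₀ hD hdet

end H354ZN
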