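import Pool.Agent.H354R3.ZN.Defs
import Pool.Agent.H801R3.NS.PART

/-! Task CORE (helper666): the core inequality. -/

set_option autoImplicit false

open MeasureTheory
open scoped Matrix Pointwise

namespace H354ZN

namespace COREaux

variable {m N : ℕ}

theorem mem_Ps {I : Finset (Fin N)} : I ∈ Ps m N ↔ I.card = m := by
  simp [Ps, Finset.mem_powersetCard]

theorem dot_pos {n : ℕ} {v : Fin n → ℝ} (hv : v ≠ 0) : 0 < v ⬝ᵥ v := by
  have h0 : 0 ≤ v ⬝ᵥ v := Finset.sum_nonneg fun i _ => mul_self_nonneg (v i)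
  exact lt_of_le_of_ne h0 fun h => hv (dotProduct_self_eq_zero.1 h.symm)

/-- the widths of the cells in the direction `X z I` -/
theorem exists_W (hPERM1 : S_PERM1) (hLINE : S_LINE) (hCHAIN : S_CHAIN)
    (z : Fin N → Fin (m + 1) → ℝ) (L : Set (Fin (m + 1) → ℝ)) (hL : IsCompact L)
    (hLne : L.Nonempty) (c : Fin N → ℝ) (ξ : Finset (Fin N) → Fin (m + 1) → ℝ)
    (hξ : ∀ A, DD z A ≠ 0 → ∀ i ∈ A, z i ⬝ᵥ ξ A = c i)
    (hinj : ∀ A B, DD z A ≠ 0 → DD z B ≠ 0 → ξ A = ξ B → A = B)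
    (S : Finset (Fin N) → Set (Fin (m + 1) → ℝ))
    (hS : ∀ A, A.card = m + 1 → DD z A ≠ 0 → (S A).Nonempty ∧ S A ⊆ L)
    (hmono : ∀ A B, A.card = m + 1 → B.card = m + 1 → DD z A ≠ 0 → DD z B ≠ 0 →
      ∀ x ∈ S A, ∀ y ∈ S B, 0 ≤ (ξ A - ξ B) ⬝ᵥ (x - y))
    (I : Finset (Fin N)) (hI : I.card = m) (wI : ℝ)
    (hw : ∀ x ∈ L, ∀ y ∈ L, X z I ⬝ᵥ x - X z I ⬝ᵥ y ≤ wI) :
    ∃ W : Fin N → ℝ, (∀ j, 0 ≤ W j) ∧
      (∀ j, j ∉ I → DD z (insert j I) ≠ 0 → ∀ x ∈ S (insert j I), ∀ y ∈ S (insert j I),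
        X z I ⬝ᵥ x - X z I ⬝ᵥ y ≤ W j) ∧ ∑ j ∈ Iᶜ, W j ≤ wI := by
  classical
  let κ : Type := {j : Fin N // j ∉ I ∧ DD z (insert j I) ≠ 0}
  have hcont : Continuous fun x : Fin (m + 1) → ℝ => X z I ⬝ᵥ x :=
    Continuous.dotProduct continuous_const continuous_id
  obtain ⟨x0, hx0, hmin⟩ := hL.exists_isMinOn hLne hcont.continuousOn
  obtain ⟨y0, hy0, hmax⟩ := hL.exists_isMaxOn hLne hcont.continuousOn
  have hcard : ∀ k : κ, (insert k.1 I).card = m + 1 := fun k => by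
    rw [Finset.card_insert_of_notMem k.2.1, hI]
  have hXne : ∀ k : κ, X z I ≠ 0 := by
    intro k h
    have := hPERM1 m N z I k.1 hI k.2.1
    rw [h, zero_dotProduct, abs_zero] at this
    exact k.2.2 this.symm
  have hline : ∀ k l : κ, ∃ τ : ℝ, ξ (insert k.1 I) - ξ (insert l.1 I) = τ • X z I := by
    intro k l
    refine hLINE m N z I _ hI (hXne k) fun i hi => ?_
    rw [dotProduct_sub, hξ _ k.2.2 i (Finset.mem_insert_of_mem hi),
      hξ _ l.2.2 i (Finset.mem_insert_of_mem hi), sub_self]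
  obtain ⟨w', hw'0, hw'1, hw'2⟩ := hCHAIN κ (fun k => X z I ⬝ᵥ ξ (insert k.1 I))
    (fun k => (fun x => X z I ⬝ᵥ x) '' S (insert k.1 I)) (X z I ⬝ᵥ x0) (X z I ⬝ᵥ y0)
    (hmin hy0) (by
      intro k l hkl
      obtain ⟨τ, hτ⟩ := hline k l
      have h1 : τ * (X z I ⬝ᵥ X z I) = 0 := by
        have h2 : X z I ⬝ᵥ (ξ (insert k.1 I) - ξ (insert l.1 I)) = 0 := by
          rw [dotProduct_sub]; exact sub_eq_zero.2 hkl
        rw [hτ, dotProduct_smul, smul_eq_mul] at h2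
        exact h2
      have h3 : τ = 0 := (mul_eq_zero.1 h1).resolve_right (dot_pos (hXne k)).ne'
      rw [h3, zero_smul, sub_eq_zero] at hτ
      have h4 := hinj _ _ k.2.2 l.2.2 hτ
      have h5 : k.1 ∈ insert l.1 I := h4 ▸ Finset.mem_insert_self k.1 I
      rcases Finset.mem_insert.1 h5 with h6 | h6
      · exact Subtype.ext h6
      · exact absurd h6 k.2.1)
    (by
      rintro k l hkl _ ⟨x, hx, rfl⟩ _ ⟨y, hy, rfl⟩
      obtain ⟨τ, hτ⟩ := hline k l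
      have h1 : 0 < τ * (X z I ⬝ᵥ X z I) := by
        have h2 : 0 < X z I ⬝ᵥ (ξ (insert k.1 I) - ξ (insert l.1 I)) := by
          rw [dotProduct_sub]; exact sub_pos.2 hkl
        rw [hτ, dotProduct_smul, smul_eq_mul] at h2
        exact h2
      have h3 : 0 < τ := (pos_iff_pos_of_mul_pos h1).2 (dot_pos (hXne k))
      have h4 := hmono _ _ (hcard k) (hcard l) k.2.2 l.2.2 x hx y hy
      rw [hτ, smul_dotProduct, smul_eq_mul, dotProduct_sub] at h4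
      have h5 := nonneg_of_mul_nonneg_right h4 h3
      change X z I ⬝ᵥ y ≤ X z I ⬝ᵥ x
      linarith)
    (fun k => (hS _ (hcard k) k.2.2).1.image _)
    (by
      rintro k _ ⟨x, hx, rfl⟩
      have hxL := (hS _ (hcard k) k.2.2).2 hx
      exact ⟨hmin hxL, hmax hxL⟩)
  refine ⟨fun j => if h : j ∉ I ∧ DD z (insert j I) ≠ 0 then w' ⟨j, h⟩ else 0, ?_, ?_, ?_⟩
  · intro j
    dsimp only
    split_ifs with h
    · exact hw'0 _
    · exact le_rfl
  · intro j hj hD x hx y hy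
    dsimp only
    rw [dif_pos ⟨hj, hD⟩]
    exact hw'1 ⟨j, hj, hD⟩ _ ⟨x, hx, rfl⟩ _ ⟨y, hy, rfl⟩
  · have h1 : ∑ j ∈ Iᶜ, (if h : j ∉ I ∧ DD z (insert j I) ≠ 0 then w' ⟨j, h⟩ else 0) = ∑ k, w' k := by
      have h2 : ∑ j ∈ Iᶜ, (if h : j ∉ I ∧ DD z (insert j I) ≠ 0 then w' ⟨j, h⟩ else 0) =
          ∑ j : Fin N, (if h : j ∉ I ∧ DD z (insert j I) ≠ 0 then w' ⟨j, h⟩ else 0) := by
        apply Finset.sum_subset (Finset.subset_univ _)
        intro j _ hj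
        rw [dif_neg]
        rintro ⟨h, -⟩
        exact hj (Finset.mem_compl.2 h)
      rw [h2]
      have h3 : ∀ k : κ, w' k = (fun j : Fin N => if h : j ∉ I ∧ DD z (insert j I) ≠ 0 then w' ⟨j, h⟩ else 0) k.1 := by
        intro k
        dsimp only
        rw [dif_pos k.2]
      rw [Finset.sum_congr rfl fun k _ => h3 k]
      rw [← Finset.sum_subtype (Finset.univ.filter fun j : Fin N => j ∉ I ∧ DD z (insert j I) ≠ 0)
        (fun j => by simp)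
        (fun j : Fin N => if h : j ∉ I ∧ DD z (insert j I) ≠ 0 then w' ⟨j, h⟩ else 0)]
      symm
      apply Finset.sum_subset (Finset.subset_univ _)
      intro j _ hj
      rw [dif_neg]
      intro h
      exact hj (Finset.mem_filter.2 ⟨Finset.mem_univ _, h⟩)
    rw [h1]
    refine hw'2.trans (hw y0 hy0 x0 hx0)

/-- one cell -/
theorem one_cell (hCOF : S_COF) (hPARA : S_PARA) (z : Fin N → Fin (m + 1) → ℝ)
    (A : Finset (Fin N)) (hA : A.card = m + 1) (hD : DD z A ≠ 0)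
    (S : Set (Fin (m + 1) → ℝ)) (W : Finset (Fin N) → Fin N → ℝ)
    (hW0 : ∀ j ∈ A, 0 ≤ W (A.erase j) j)
    (hW : ∀ j ∈ A, ∀ x ∈ S, ∀ y ∈ S, X z (A.erase j) ⬝ᵥ x - X z (A.erase j) ⬝ᵥ y ≤ W (A.erase j) j)
    (ν : ℝ) (hν : ν ≤ volume.real S) (s : Finset (Fin N) → ℝ)
    (hs : ∀ j ∈ A, 0 ≤ s (A.erase j)) (hν0 : 0 ≤ ν) :
    ((m : ℝ) + 1) * ((∏ j ∈ A, s (A.erase j)) * (DD z A ^ m * ν)) ^ (1 / ((m : ℝ) + 1)) ≤
      ∑ j ∈ A, s (A.erase j) * W (A.erase j) j := by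
  have hm : (0 : ℝ) < (m : ℝ) + 1 := by positivity
  have hprod : ∀ g : Fin N → ℝ, ∏ i, g (A.orderEmbOfFin hA i) = ∏ j ∈ A, g j := by
    intro g
    have h1 : A = Finset.univ.map (A.orderEmbOfFin hA).toEmbedding := by
      ext x
      simp only [Finset.mem_map, Finset.mem_univ, true_and]
      have h2 := Finset.range_orderEmbOfFin A hA
      constructor
      · intro hx
        have : x ∈ Set.range (A.orderEmbOfFin hA) := by rw [h2]; exact hx
        exact this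
      · intro hx
        have : x ∈ Set.range (A.orderEmbOfFin hA) := hx
        rw [h2] at this
        exact this
    conv_rhs => rw [h1]
    rw [Finset.prod_map]
    rfl
  have h1 := hPARA (m + 1) (fun i => X z (A.erase (A.orderEmbOfFin hA i))) S
    (fun i => W (A.erase (A.orderEmbOfFin hA i)) (A.orderEmbOfFin hA i))
    (fun i => hW0 _ (Finset.orderEmbOfFin_mem A hA i))
    (fun i => hW _ (Finset.orderEmbOfFin_mem A hA i))
  rw [hCOF m N z A hA hD, hprod (fun j => W (A.erase j) j)] at h1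
  have hDD : 0 ≤ DD z A := by
    unfold DD
    split_ifs
    exact abs_nonneg _
  have h2 : DD z A ^ m * ν ≤ ∏ j ∈ A, W (A.erase j) j :=
    (mul_le_mul_of_nonneg_left hν (pow_nonneg hDD m)).trans h1
  have h3 : (∏ j ∈ A, s (A.erase j)) * (DD z A ^ m * ν) ≤
      ∏ j ∈ A, s (A.erase j) * W (A.erase j) j := by
    rw [Finset.prod_mul_distrib]
    exact mul_le_mul_of_nonneg_left h2 (Finset.prod_nonneg hs)
  have h0 : 0 ≤ (∏ j ∈ A, s (A.erase j)) * (DD z A ^ m * ν) :=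
    mul_nonneg (Finset.prod_nonneg hs) (mul_nonneg (pow_nonneg hDD m) hν0)
  have h4 := Real.geom_mean_le_arith_mean_weighted A (fun _ => 1 / ((m : ℝ) + 1))
    (fun j => s (A.erase j) * W (A.erase j) j) (fun _ _ => by positivity)
    (by rw [Finset.sum_const, hA, nsmul_eq_mul]; push_cast; field_simp)
    (fun j hj => mul_nonneg (hs j hj) (hW0 j hj))
  rw [Real.finsetProd_rpow A _ (fun j hj => mul_nonneg (hs j hj) (hW0 j hj)),
    ← Finset.mul_sum] at h4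
  have h5 := (Real.rpow_le_rpow h0 h3 (by positivity : 0 ≤ 1 / ((m : ℝ) + 1))).trans h4
  calc ((m : ℝ) + 1) * ((∏ j ∈ A, s (A.erase j)) * (DD z A ^ m * ν)) ^ (1 / ((m : ℝ) + 1))
      ≤ ((m : ℝ) + 1) * (1 / ((m : ℝ) + 1) * ∑ j ∈ A, s (A.erase j) * W (A.erase j) j) :=
        mul_le_mul_of_nonneg_left h5 hm.le
    _ = ∑ j ∈ A, s (A.erase j) * W (A.erase j) j := by field_simp

end COREaux

open COREaux in
theorem t_CORE (hPERM1 : S_PERM1) (hCOF : S_COF) (hSITE : S_SITE) (hLINE : S_LINE) (hGEN : S_GEN)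
    (hSWAP : S_SWAP) (hCHAIN : S_CHAIN) (hPARA : S_PARA) : S_CORE := by
  classical
  intro m N z L s w ν hL hDt hs hw hwid hν hsum
  obtain ⟨c, hc⟩ := hGEN m N z
  -- the sites
  have hsite : ∀ A : Finset (Fin N), ∃ ξ : Fin (m + 1) → ℝ, DD z A ≠ 0 → ∀ i ∈ A, z i ⬝ᵥ ξ = c i := by
    intro A
    by_cases h : DD z A = 0
    · exact ⟨0, fun h' => absurd h h'⟩
    · obtain ⟨ξ, hξ⟩ := hSITE m N z A c h
      exact ⟨ξ, fun _ => hξ⟩
  choose ξ hξ using hsite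
  have hinj : ∀ A B, DD z A ≠ 0 → DD z B ≠ 0 → ξ A = ξ B → A = B := by
    intro A B hA hB h
    by_contra hne
    exact hc A B hA hB hne (ξ A) (hξ A hA) (by rw [h]; exact hξ B hB)
  let κ : Type := {A : Finset (Fin N) // A ∈ Ps (m + 1) N ∧ DD z A ≠ 0}
  have hκ : Nonempty κ := by
    unfold Dt at hDt
    obtain ⟨A, hA, hA0⟩ := Finset.exists_ne_zero_of_sum_ne_zero hDt.ne'
    exact ⟨⟨A, hA, hA0⟩⟩
  have hμ : ∑ k : κ, ν k.1 = volume.real L := by
    rw [← hsum]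
    have h1 : ∑ A ∈ Ps (m + 1) N, (if DD z A = 0 then 0 else ν A) =
        ∑ A ∈ Finset.univ.filter (fun A : Finset (Fin N) => A ∈ Ps (m + 1) N ∧ DD z A ≠ 0), ν A := by
      rw [Finset.sum_filter, ← Finset.sum_subset (Finset.subset_univ (Ps (m + 1) N))]
      · refine Finset.sum_congr rfl fun A hA => ?_
        by_cases h : DD z A = 0
        · rw [if_pos h, if_neg (fun h' => h'.2 h)]
        · rw [if_neg h, if_pos ⟨hA, h⟩]
      · intro A _ hA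
        rw [if_neg (fun h' => hA h'.1)]
    rw [h1]
    exact (Finset.sum_subtype (p := fun A : Finset (Fin N) => A ∈ Ps (m + 1) N ∧ DD z A ≠ 0)
      (Finset.univ.filter (fun A : Finset (Fin N) => A ∈ Ps (m + 1) N ∧ DD z A ≠ 0))
      (fun A => by simp) ν).symm
  obtain ⟨c', hc'⟩ := H801NS.t_PART (m + 1) κ (fun k => ξ k.1) L (fun k => ν k.1)
    (fun k l h => Subtype.ext (hinj _ _ k.2.2 l.2.2 h)) hL (fun k => hν k.1 k.2.1 k.2.2) hμ
  -- the cells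
  let S : Finset (Fin N) → Set (Fin (m + 1) → ℝ) := fun A =>
    if h : A ∈ Ps (m + 1) N ∧ DD z A ≠ 0 then L ∩ H801NS.cell (fun k : κ => ξ k.1) c' ⟨A, h⟩ else ∅
  have hSeq : ∀ A (h : A ∈ Ps (m + 1) N ∧ DD z A ≠ 0),
      S A = L ∩ H801NS.cell (fun k : κ => ξ k.1) c' ⟨A, h⟩ := fun A h => dif_pos h
  have hSν : ∀ A (h : A ∈ Ps (m + 1) N ∧ DD z A ≠ 0), ν A ≤ volume.real (S A) := by
    intro A h
    rw [hSeq A h]
    exact hc' ⟨A, h⟩
  have hSne : ∀ A, A.card = m + 1 → DD z A ≠ 0 → (S A).Nonempty ∧ S A ⊆ L := by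
    intro A hA hD
    have hh : A ∈ Ps (m + 1) N ∧ DD z A ≠ 0 := ⟨mem_Ps.2 hA, hD⟩
    refine ⟨?_, ?_⟩
    · rw [Set.nonempty_iff_ne_empty]
      intro h0
      have h1 := hSν A hh
      rw [h0, measureReal_empty] at h1
      exact absurd (hν A hh.1 hD) (not_lt.2 h1)
    · rw [hSeq A hh]
      exact Set.inter_subset_left
  have hLne : L.Nonempty := by
    obtain ⟨k⟩ := hκ
    obtain ⟨⟨x, hx⟩, hsub⟩ := hSne k.1 (mem_Ps.1 k.2.1) k.2.2
    exact ⟨x, hsub hx⟩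
  have hmono : ∀ A B, A.card = m + 1 → B.card = m + 1 → DD z A ≠ 0 → DD z B ≠ 0 →
      ∀ x ∈ S A, ∀ y ∈ S B, 0 ≤ (ξ A - ξ B) ⬝ᵥ (x - y) := by
    intro A B hA hB hDA hDB x hx y hy
    have hhA : A ∈ Ps (m + 1) N ∧ DD z A ≠ 0 := ⟨mem_Ps.2 hA, hDA⟩
    have hhB : B ∈ Ps (m + 1) N ∧ DD z B ≠ 0 := ⟨mem_Ps.2 hB, hDB⟩
    rw [hSeq A hhA] at hx
    rw [hSeq B hhB] at hy
    have h1 := hx.2 ⟨B, hhB⟩
    have h2 := hy.2 ⟨A, hhA⟩
    dsimp only at h1 h2
    rw [sub_dotProduct, dotProduct_sub, dotProduct_sub]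
    linarith
  -- the widths
  have hWex : ∀ I : Finset (Fin N), ∃ W : Fin N → ℝ, I ∈ Ps m N → (∀ j, 0 ≤ W j) ∧
      (∀ j, j ∉ I → DD z (insert j I) ≠ 0 → ∀ x ∈ S (insert j I), ∀ y ∈ S (insert j I),
        X z I ⬝ᵥ x - X z I ⬝ᵥ y ≤ W j) ∧ ∑ j ∈ Iᶜ, W j ≤ w I := by
    intro I
    by_cases hI : I ∈ Ps m N
    · obtain ⟨W, hW⟩ := exists_W hPERM1 hLINE hCHAIN z L hL hLne c ξ hξ hinj S hSne hmono I
        (mem_Ps.1 hI) (w I) (hwid I hI)
      exact ⟨W, fun _ => hW⟩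
    · exact ⟨fun _ => 0, fun h => absurd h hI⟩
  choose W hW using hWex
  have herase : ∀ A ∈ Ps (m + 1) N, ∀ j ∈ A, A.erase j ∈ Ps m N := by
    intro A hA j hj
    rw [mem_Ps, Finset.card_erase_of_mem hj, mem_Ps.1 hA]
    rfl
  -- sum over `A`
  have hA : ∀ A ∈ Ps (m + 1) N, ((m : ℝ) + 1) *
      (if DD z A = 0 then 0 else
        ((∏ j ∈ A, s (A.erase j)) * (DD z A ^ m * ν A)) ^ (1 / ((m : ℝ) + 1))) ≤
      ∑ j ∈ A, s (A.erase j) * W (A.erase j) j := by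
    intro A hA
    by_cases hD : DD z A = 0
    · rw [if_pos hD, mul_zero]
      exact Finset.sum_nonneg fun j hj =>
        mul_nonneg (hs _ (herase A hA j hj)) ((hW _ (herase A hA j hj)).1 j)
    · rw [if_neg hD]
      refine one_cell hCOF hPARA z A (mem_Ps.1 hA) hD (S A) W
        (fun j hj => (hW _ (herase A hA j hj)).1 j) ?_ (ν A) (hSν A ⟨hA, hD⟩) s
        (fun j hj => hs _ (herase A hA j hj)) (hν A hA hD).le
      intro j hj x hx y hy
      have h1 := (hW _ (herase A hA j hj)).2.1 j (Finset.notMem_erase j A)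
      rw [Finset.insert_erase hj] at h1
      exact h1 hD x hx y hy
  refine (Finset.sum_le_sum hA).trans ?_
  rw [← hSWAP m N (fun I j => s I * W I j)]
  refine Finset.sum_le_sum fun I hI => ?_
  rw [← Finset.mul_sum]
  exact mul_le_mul_of_nonneg_left (hW I hI).2.2 (hs I hI)

end H354ZN
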