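import Pool.Agent.H354R3.ZN.Defs

set_option autoImplicit false

open MeasureTheory
open scoped Matrix Pointwise

namespace H354ZN

theorem t_DOT : S_DOT := by
  intro m N z I h x
  set φ : (Fin (m + 1) → ℝ) →ₗ[ℝ] ℝ :=
    (Matrix.detRowAlternating (R := ℝ) (n := Fin (m + 1))).toMultilinearMap.toLinearMap
      (rows z I h 0) 0 with hφ
  have hrow : ∀ y, rows z I h y = Function.update (rows z I h 0) 0 y := by
    intro y
    unfold rows
    exact (Fin.update_cons_zero _ _ _).symm
  have happ : ∀ y, Matrix.det (Matrix.of (rows z I h y)) = φ y := by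
    intro y
    rw [hrow y]
    rfl
  rw [happ, LinearMap.pi_apply_eq_sum_univ φ x]
  unfold X
  rw [dif_pos h]
  unfold dotProduct
  refine Finset.sum_congr rfl fun k _ => ?_
  show Matrix.det (Matrix.of (rows z I h (Pi.single k 1))) * x k = _
  rw [happ, smul_eq_mul, mul_comm]
  congr 2
  funext j
  rw [Pi.single_apply]
  by_cases hjk : j = k
  · rw [if_pos hjk, if_pos hjk.symm]
  · rw [if_neg hjk, if_neg (fun e => hjk e.symm)]

end H354ZN
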