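import Pool.Agent.H354R3.ZN.Defs

set_option autoImplicit false

open MeasureTheory
open scoped Matrix Pointwise

namespace H354ZN

namespace GENaux

variable {m N : ℕ}

/-- the right-hand sides for which the two systems have a common solution -/
def W (z : Fin N → Fin (m + 1) → ℝ) (A B : Finset (Fin N)) : Submodule ℝ (Fin N → ℝ) where
  carrier := {c | ∃ ξ : Fin (m + 1) → ℝ, (∀ i ∈ A, z i ⬝ᵥ ξ = c i) ∧ ∀ i ∈ B, z i ⬝ᵥ ξ = c i}
  add_mem' := by
    rintro c d ⟨ξ, h1, h2⟩ ⟨η, h3, h4⟩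
    refine ⟨ξ + η, fun i hi => ?_, fun i hi => ?_⟩
    · rw [dotProduct_add, h1 i hi, h3 i hi, Pi.add_apply]
    · rw [dotProduct_add, h2 i hi, h4 i hi, Pi.add_apply]
  zero_mem' := ⟨0, fun i _ => by simp, fun i _ => by simp⟩
  smul_mem' := by
    rintro t c ⟨ξ, h1, h2⟩
    refine ⟨t • ξ, fun i hi => ?_, fun i hi => ?_⟩
    · rw [dotProduct_smul, h1 i hi, Pi.smul_apply]
    · rw [dotProduct_smul, h2 i hi, Pi.smul_apply]

theorem card_of {z : Fin N → Fin (m + 1) → ℝ} {A : Finset (Fin N)} (h : DD z A ≠ 0) :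
    A.card = m + 1 := by
  by_contra h'
  exact h (by rw [DD, dif_neg h'])

theorem inj_of {z : Fin N → Fin (m + 1) → ℝ} {A : Finset (Fin N)} (h : DD z A ≠ 0)
    (ξ : Fin (m + 1) → ℝ) (hξ : ∀ i ∈ A, z i ⬝ᵥ ξ = 0) : ξ = 0 := by
  have hc := card_of h
  rw [DD, dif_pos hc] at h
  have hd : Matrix.det (Matrix.of fun i => z (A.orderEmbOfFin hc i)) ≠ 0 := by
    intro h0
    exact h (by rw [h0, abs_zero])
  refine Matrix.eq_zero_of_mulVec_eq_zero hd ?_
  ext i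
  exact hξ _ (Finset.orderEmbOfFin_mem A hc i)

theorem W_ne {z : Fin N → Fin (m + 1) → ℝ} {A B : Finset (Fin N)} (hA : DD z A ≠ 0)
    (hB : DD z B ≠ 0) (hne : A ≠ B) : W z A B ≠ ⊤ := by
  intro htop
  have hcA := card_of hA
  have hcB := card_of hB
  obtain ⟨j, hjB, hjA⟩ : ∃ j ∈ B, j ∉ A := by
    by_contra hcon
    push Not at hcon
    exact hne (Finset.eq_of_subset_of_card_le hcon (by rw [hcA, hcB])).symm
  have hmem : (Pi.single j 1 : Fin N → ℝ) ∈ W z A B := by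
    rw [htop]
    trivial
  obtain ⟨ξ, h1, h2⟩ := hmem
  have h3 : ξ = 0 := inj_of hA ξ fun i hi => by
    rw [h1 i hi, Pi.single_eq_of_ne]
    rintro rfl
    exact hjA hi
  have h4 := h2 j hjB
  rw [h3, Pi.single_eq_same] at h4
  simp at h4

end GENaux

theorem t_GEN : S_GEN := by
  intro m N z
  classical
  set s : Finset (Subspace ℝ (Fin N → ℝ)) :=
    ((Finset.univ : Finset (Finset (Fin N) × Finset (Fin N))).filter
      (fun p => DD z p.1 ≠ 0 ∧ DD z p.2 ≠ 0 ∧ p.1 ≠ p.2)).image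
      (fun p => GENaux.W z p.1 p.2) with hs
  have hcov : ⋃ p ∈ s, (p : Set (Fin N → ℝ)) ≠ Set.univ := by
    refine Subspace.biUnion_ne_univ_of_top_notMem ?_
    intro hmem
    rw [hs, Finset.mem_image] at hmem
    obtain ⟨p, hp, hp'⟩ := hmem
    rw [Finset.mem_filter] at hp
    exact GENaux.W_ne hp.2.1 hp.2.2.1 hp.2.2.2 hp'
  obtain ⟨c, hc⟩ := (Set.ne_univ_iff_exists_notMem _).1 hcov
  refine ⟨c, fun A B hA hB hne ξ h1 h2 => hc ?_⟩
  rw [Set.mem_iUnion₂]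
  refine ⟨GENaux.W z A B, ?_, ⟨ξ, h1, h2⟩⟩
  rw [hs, Finset.mem_image]
  exact ⟨(A, B), by simp [hA, hB, hne], rfl⟩

end H354ZN
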