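import Pool.Agent.H354R3.ZN.Defs

/-! Task KSUM: sum of the support numbers. -/

set_option autoImplicit false

open MeasureTheory
open scoped Matrix Pointwise

namespace H354ZN

theorem t_KSUM (h0 : S_PERM0) (h1 : S_PERM1) (h2 : S_SWAP) : S_KSUM := by
  intro m N z
  have hk : ∀ I ∈ Ps m N, kk z I = ∑ j ∈ Iᶜ, DD z (insert j I) := by
    intro I hI
    have hc : I.card = m := (Finset.mem_powersetCard.1 hI).2
    unfold kk
    rw [← Finset.sum_add_sum_compl I]
    have e1 : ∑ j ∈ I, |X z I ⬝ᵥ z j| = 0 :=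
      Finset.sum_eq_zero fun j hj => by rw [h0 m N z I j hc hj, abs_zero]
    rw [e1, zero_add]
    refine Finset.sum_congr rfl fun j hj => ?_
    exact h1 m N z I j hc (Finset.mem_compl.1 hj)
  rw [Finset.sum_congr rfl hk, h2 m N (fun I j => DD z (insert j I))]
  unfold Dt
  rw [Finset.mul_sum]
  refine Finset.sum_congr rfl fun A hA => ?_
  have hc : A.card = m + 1 := (Finset.mem_powersetCard.1 hA).2
  have e2 : ∑ j ∈ A, DD z (insert j (A.erase j)) = ∑ _j ∈ A, DD z A :=
    Finset.sum_congr rfl fun j hj => by rw [Finset.insert_erase hj]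
  rw [e2, Finset.sum_const, hc, nsmul_eq_mul]
  push_cast
  ring

end H354ZN
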