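import Pool.Agent.H354R3.ZN.Defs

/-! LINE: the orthogonal complement of the generators `z i`, `i ∈ I`, is spanned by the cross
product (helper368). -/

set_option autoImplicit false

open MeasureTheory
open scoped Matrix Pointwise

namespace H354ZN

theorem t_LINE (h1 : S_DOT) (h2 : S_PERM0) : S_LINE := by
  intro m N z I η hI hX hη
  obtain ⟨v, hv⟩ : ∃ v, v = X z I := ⟨_, rfl⟩
  have hv0 : v ≠ 0 := by rw [hv]; exact hX
  have hvv : v ⬝ᵥ v ≠ 0 := fun h => hv0 (dotProduct_self_eq_zero.1 h)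
  have hdet : Matrix.det (Matrix.of (rows z I hI v)) ≠ 0 := by
    rw [← h1 m N z I hI v, ← hv]; exact hvv
  refine ⟨(v ⬝ᵥ η) / (v ⬝ᵥ v), ?_⟩
  rw [← hv, ← sub_eq_zero]
  refine Matrix.eq_zero_of_mulVec_eq_zero hdet ?_
  funext i
  refine Fin.cases ?_ (fun i => ?_) i
  · show v ⬝ᵥ (η - (v ⬝ᵥ η / v ⬝ᵥ v) • v) = 0
    rw [dotProduct_sub, dotProduct_smul, smul_eq_mul]
    field_simp
    ring
  · show z (I.orderEmbOfFin hI i) ⬝ᵥ (η - (v ⬝ᵥ η / v ⬝ᵥ v) • v) = 0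
    have hmem : I.orderEmbOfFin hI i ∈ I := Finset.orderEmbOfFin_mem I hI i
    have h3 : z (I.orderEmbOfFin hI i) ⬝ᵥ v = 0 := by
      rw [dotProduct_comm, hv]
      exact h2 m N z I _ hI hmem
    rw [dotProduct_sub, dotProduct_smul, smul_eq_mul, hη _ hmem, h3]
    ring

end H354ZN
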