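import Pool.Agent.H354R3.ZN.Defs

set_option autoImplicit false

open MeasureTheory
open scoped Matrix Pointwise

namespace H354ZN

theorem LOG_DDnn {m N : ℕ} (z : Fin N → Fin (m + 1) → ℝ) (A : Finset (Fin N)) : 0 ≤ DD z A := by
  unfold DD
  split_ifs
  · exact abs_nonneg _
  · exact le_rfl

theorem LOG_kknn {m N : ℕ} (z : Fin N → Fin (m + 1) → ℝ) (I : Finset (Fin N)) : 0 ≤ kk z I :=
  Finset.sum_nonneg fun _ _ => abs_nonneg _

theorem LOG_est (m : ℕ) {D V d P : ℝ} (hD : 0 < D) (hV : 0 < V) (hd : 0 < d) (hP : 0 < P) :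
    d / D * (Real.log P + Real.log (V / D)) ≤ ((m : ℝ) + 1) * (d / D) * (Real.log 2 - 1) +
      ((m : ℝ) + 1) / (2 * D) * (P * (d ^ m * (V * (d / D)))) ^ (1 / ((m : ℝ) + 1)) := by
  have hn : (0 : ℝ) < (m : ℝ) + 1 := by positivity
  set y : ℝ := (P * (d ^ m * (V * (d / D)))) ^ (1 / ((m : ℝ) + 1)) with hy
  have hb : 0 < P * (d ^ m * (V * (d / D))) := by positivity
  have hy0 : 0 < y := Real.rpow_pos_of_pos hb _
  have hlog : Real.log y = (1 / ((m : ℝ) + 1)) * (Real.log P + Real.log (V / D)) + Real.log d := by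
    rw [hy, Real.log_rpow hb, Real.log_mul hP.ne' (by positivity),
      Real.log_mul (by positivity) (by positivity), Real.log_mul hV.ne' (by positivity),
      Real.log_div hd.ne' hD.ne', Real.log_div hV.ne' hD.ne', Real.log_pow]
    field_simp
    ring
  have h1 : Real.log (y / d / 2) ≤ y / d / 2 - 1 := Real.log_le_sub_one_of_pos (by positivity)
  rw [Real.log_div (by positivity) (by norm_num), Real.log_div hy0.ne' hd.ne', hlog] at h1
  have h2 : (1 / ((m : ℝ) + 1)) * (Real.log P + Real.log (V / D)) ≤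
      y / d / 2 - 1 + Real.log 2 := by linarith
  have h3 := mul_le_mul_of_nonneg_left h2 (by positivity : 0 ≤ ((m : ℝ) + 1) * (d / D))
  have e1 : ((m : ℝ) + 1) * (d / D) * ((1 / ((m : ℝ) + 1)) *
      (Real.log P + Real.log (V / D))) = d / D * (Real.log P + Real.log (V / D)) := by
    field_simp
  have e2 : ((m : ℝ) + 1) * (d / D) * (y / d / 2 - 1 + Real.log 2) =
      ((m : ℝ) + 1) * (d / D) * (Real.log 2 - 1) + ((m : ℝ) + 1) / (2 * D) * y := by
    field_simp
    ring
  rw [e1, e2] at h3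
  exact h3

theorem t_LOG (hcore : S_CORE) (hk : S_KSUM) (h0 : S_PERM0) (h1 : S_PERM1) (hsw : S_SWAP) :
    S_LOG := by
  intro m N z L l hL hV hD hl hlL
  have hn : (0 : ℝ) < (m : ℝ) + 1 := by positivity
  set V := volume.real L with hVdef
  set D := Dt z with hDdef
  have kk0 : ∀ I, X z I = 0 → kk z I = 0 := by
    intro I hI
    unfold kk
    rw [hI]
    simp
  let s : Finset (Fin N) → ℝ := fun I => kk z I / l I
  let w : Finset (Fin N) → ℝ := fun I => if X z I = 0 then 0 else 2 * l I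
  have hs : ∀ I ∈ Ps m N, 0 ≤ s I := by
    intro I hI
    by_cases hX : X z I = 0
    · show 0 ≤ kk z I / l I
      rw [kk0 I hX, zero_div]
    · exact div_nonneg (LOG_kknn z I) (hl I hI hX).le
  have hw : ∀ I ∈ Ps m N, 0 ≤ w I := by
    intro I hI
    show 0 ≤ if X z I = 0 then 0 else 2 * l I
    split_ifs with hX
    · exact le_rfl
    · exact (mul_pos two_pos (hl I hI hX)).le
  have hwx : ∀ I ∈ Ps m N, ∀ x ∈ L, ∀ y ∈ L, X z I ⬝ᵥ x - X z I ⬝ᵥ y ≤ w I := by
    intro I hI x hx y hy
    show _ ≤ if X z I = 0 then 0 else 2 * l I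
    split_ifs with hX
    · rw [hX]; simp
    · have a1 := abs_le.1 (hlL I hI hX x hx)
      have a2 := abs_le.1 (hlL I hI hX y hy)
      linarith
  have hnu : ∀ A ∈ Ps (m + 1) N, DD z A ≠ 0 → 0 < V * (DD z A / D) := by
    intro A _ hA
    have : 0 < DD z A := lt_of_le_of_ne (LOG_DDnn z A) (Ne.symm hA)
    positivity
  have hsumD : ∑ A ∈ Ps (m + 1) N, DD z A / D = 1 := by
    rw [← Finset.sum_div]
    exact div_self hD.ne'
  have hnuV : (∑ A ∈ Ps (m + 1) N, if DD z A = 0 then 0 else V * (DD z A / D)) = V := by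
    have : ∀ A ∈ Ps (m + 1) N, (if DD z A = 0 then 0 else V * (DD z A / D)) =
        V * (DD z A / D) := by
      intro A _
      split_ifs with h
      · rw [h]; simp
      · rfl
    rw [Finset.sum_congr rfl this, ← Finset.mul_sum, hsumD, mul_one]
  have hC := hcore m N z L s w (fun A => V * (DD z A / D)) hL hD hs hw hwx hnu hnuV
  have hsw2 : ∑ I ∈ Ps m N, s I * w I = 2 * (((m : ℝ) + 1) * D) := by
    rw [← hk m N z, Finset.mul_sum]
    refine Finset.sum_congr rfl fun I hI => ?_
    show kk z I / l I * (if X z I = 0 then 0 else 2 * l I) = 2 * kk z I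
    split_ifs with hX
    · rw [kk0 I hX]; simp
    · have := (hl I hI hX).ne'
      field_simp
  rw [hsw2] at hC
  -- the sum of the logarithms
  have hcard : ∀ A ∈ Ps (m + 1) N, A.card = m + 1 := by
    intro A hA
    exact (Finset.mem_powersetCard.1 hA).2
  have hXz : ∀ A ∈ Ps (m + 1) N, ∀ j ∈ A, |X z (A.erase j) ⬝ᵥ z j| = DD z A := by
    intro A hA j hj
    rw [h1 m N z (A.erase j) j (by rw [Finset.card_erase_of_mem hj, hcard A hA]; rfl)
      (Finset.notMem_erase j A), Finset.insert_erase hj]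
  have hspos : ∀ A ∈ Ps (m + 1) N, DD z A ≠ 0 → ∀ j ∈ A, 0 < s (A.erase j) := by
    intro A hA hA0 j hj
    have hpos : 0 < DD z A := lt_of_le_of_ne (LOG_DDnn z A) (Ne.symm hA0)
    have hX : X z (A.erase j) ≠ 0 := by
      intro h
      have := hXz A hA j hj
      rw [h] at this
      simp at this
      exact hA0 this.symm
    have hI : A.erase j ∈ Ps m N := Finset.mem_powersetCard.2 ⟨Finset.subset_univ _, by
      rw [Finset.card_erase_of_mem hj, hcard A hA]; rfl⟩
    have hkk : 0 < kk z (A.erase j) := by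
      refine lt_of_lt_of_le hpos ?_
      rw [← hXz A hA j hj]
      exact Finset.single_le_sum (f := fun i => |X z (A.erase j) ⬝ᵥ z i|)
        (fun i _ => abs_nonneg _) (Finset.mem_univ j)
    exact div_pos hkk (hl _ hI hX)
  have hmain : ∑ A ∈ Ps (m + 1) N, DD z A / D *
      (∑ j ∈ A, Real.log (s (A.erase j)) + Real.log (V / D)) ≤ ((m : ℝ) + 1) * Real.log 2 := by
    calc ∑ A ∈ Ps (m + 1) N, DD z A / D *
        (∑ j ∈ A, Real.log (s (A.erase j)) + Real.log (V / D))
        ≤ ∑ A ∈ Ps (m + 1) N, (((m : ℝ) + 1) * (DD z A / D) * (Real.log 2 - 1) +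
          1 / (2 * D) * (((m : ℝ) + 1) * (if DD z A = 0 then 0 else
            ((∏ j ∈ A, s (A.erase j)) * (DD z A ^ m * (V * (DD z A / D)))) ^
              (1 / ((m : ℝ) + 1))))) := by
          refine Finset.sum_le_sum fun A hA => ?_
          split_ifs with hA0
          · rw [hA0]; simp
          · have hpos : 0 < DD z A := lt_of_le_of_ne (LOG_DDnn z A) (Ne.symm hA0)
            have h := LOG_est m hD hV hpos (Finset.prod_pos fun j hj => hspos A hA hA0 j hj)
            rw [Real.log_prod (fun j hj => (hspos A hA hA0 j hj).ne')] at h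
            refine h.trans (le_of_eq ?_)
            ring
      _ = ((m : ℝ) + 1) * (Real.log 2 - 1) + 1 / (2 * D) *
          ∑ A ∈ Ps (m + 1) N, (((m : ℝ) + 1) * (if DD z A = 0 then 0 else
            ((∏ j ∈ A, s (A.erase j)) * (DD z A ^ m * (V * (DD z A / D)))) ^
              (1 / ((m : ℝ) + 1)))) := by
          rw [Finset.sum_add_distrib, ← Finset.mul_sum, ← Finset.sum_mul, ← Finset.mul_sum, hsumD,
            mul_one]
      _ ≤ ((m : ℝ) + 1) * (Real.log 2 - 1) + 1 / (2 * D) * (2 * (((m : ℝ) + 1) * D)) := by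
          gcongr
      _ = ((m : ℝ) + 1) * Real.log 2 := by
          field_simp
          ring
  have hsplit : ∑ A ∈ Ps (m + 1) N, DD z A / D *
      (∑ j ∈ A, Real.log (s (A.erase j)) + Real.log (V / D)) =
      (∑ A ∈ Ps (m + 1) N, ∑ j ∈ A, |X z (A.erase j) ⬝ᵥ z j| / D * Real.log (s (A.erase j))) +
        Real.log (V / D) := by
    simp only [mul_add]
    rw [Finset.sum_add_distrib, ← Finset.sum_mul, hsumD, one_mul]
    congr 1
    refine Finset.sum_congr rfl fun A hA => ?_
    rw [Finset.mul_sum]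
    refine Finset.sum_congr rfl fun j hj => ?_
    rw [hXz A hA j hj]
  have hswap := hsw m N (fun I j => |X z I ⬝ᵥ z j| / D * Real.log (s I))
  rw [hsplit, ← hswap] at hmain
  have hfin : ∑ I ∈ Ps m N, ∑ j ∈ Iᶜ, |X z I ⬝ᵥ z j| / D * Real.log (s I) =
      ∑ I ∈ Ps m N, kk z I / D * Real.log (kk z I / l I) := by
    refine Finset.sum_congr rfl fun I hI => ?_
    rw [← Finset.sum_mul, ← Finset.sum_div]
    congr 2
    unfold kk
    rw [← Finset.sum_add_sum_compl I]
    have : ∑ j ∈ I, |X z I ⬝ᵥ z j| = 0 := by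
      refine Finset.sum_eq_zero fun j hj => ?_
      rw [h0 m N z I j (Finset.mem_powersetCard.1 hI).2 hj, abs_zero]
    rw [this, zero_add]
  rw [hfin] at hmain
  have e : Real.log (2 ^ (m + 1) * D / V) = ((m : ℝ) + 1) * Real.log 2 - Real.log (V / D) := by
    rw [Real.log_div (by positivity) hV.ne', Real.log_mul (by positivity) hD.ne', Real.log_pow,
      Real.log_div hV.ne' hD.ne']
    push_cast
    ring
  rw [e]
  linarith

end H354ZN
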