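import Pool.Agent.H354R3.ZN.Defs2

/-!
LPF: the L_p inequality.
-/

set_option autoImplicit false

open MeasureTheory
open scoped Matrix Pointwise

namespace H354ZN

namespace LPFh

open WithLp

/-- the linear isometry class free coordinate map, as a homeomorphism -/
noncomputable def tl (n : ℕ) : (Fin n → ℝ) ≃ₜ EuclideanSpace ℝ (Fin n) :=
  (PiLp.homeomorph 2 fun _ : Fin n => ℝ).symm

theorem tl_apply {n : ℕ} (v : Fin n → ℝ) : tl n v = toLp 2 v := rfl

theorem vol_pre {n : ℕ} (S : Set (EuclideanSpace ℝ (Fin n))) :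
    volume (tl n ⁻¹' S) = volume S :=
  (EuclideanSpace.volume_preserving_symm_measurableEquiv_toLp (Fin n)).symm.measure_preimage_equiv S

theorem inner_tl {n : ℕ} (x y : Fin n → ℝ) : inner ℝ (tl n x) (tl n y) = x ⬝ᵥ y := by
  rw [tl_apply, tl_apply, EuclideanSpace.inner_toLp_toLp]
  simp [dotProduct_comm]

section supp

variable {n : ℕ} {K : Set (EuclideanSpace ℝ (Fin n))}

theorem bdd (hK : SB K) (u : EuclideanSpace ℝ (Fin n)) :
    BddAbove ((fun y => inner ℝ y u) '' K) := by
  have hc : IsCompact ((fun y => inner ℝ y u) '' K) :=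
    hK.comp.image (by fun_prop)
  exact hc.bddAbove

theorem zero_mem (hK : SB K) : (0 : EuclideanSpace ℝ (Fin n)) ∈ K := interior_subset hK.zero

theorem le_hh (hK : SB K) {x : EuclideanSpace ℝ (Fin n)} (hx : x ∈ K)
    (u : EuclideanSpace ℝ (Fin n)) : inner ℝ x u ≤ hh K u :=
  le_csSup (bdd hK u) ⟨x, hx, rfl⟩

theorem abs_le_hh (hK : SB K) {x : EuclideanSpace ℝ (Fin n)} (hx : x ∈ K)
    (u : EuclideanSpace ℝ (Fin n)) : |inner ℝ x u| ≤ hh K u := by
  rw [abs_le]
  have h1 := le_hh hK hx u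
  have h2 := le_hh hK (hK.symm x hx) u
  rw [inner_neg_left] at h2
  constructor <;> linarith

theorem hh_smul (hK : SB K) {c : ℝ} (hc : 0 < c) (u : EuclideanSpace ℝ (Fin n)) :
    hh K (c • u) = c * hh K u := by
  apply le_antisymm
  · refine csSup_le ⟨_, 0, zero_mem hK, rfl⟩ ?_
    rintro _ ⟨y, hy, rfl⟩
    simp only [inner_smul_right]
    exact mul_le_mul_of_nonneg_left (le_hh hK hy u) hc.le
  · rw [← le_div_iff₀' hc]
    refine csSup_le ⟨_, 0, zero_mem hK, rfl⟩ ?_
    rintro _ ⟨y, hy, rfl⟩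
    rw [le_div_iff₀' hc]
    have := le_hh hK hy (c • u)
    simpa only [inner_smul_right] using this

theorem ball (hK : SB K) : ∃ r : ℝ, 0 < r ∧ Metric.closedBall 0 r ⊆ K := by
  obtain ⟨ε, hε, h⟩ := Metric.isOpen_iff.1 isOpen_interior 0 hK.zero
  refine ⟨ε / 2, by positivity, ?_⟩
  intro x hx
  apply interior_subset
  apply h
  rw [Metric.mem_closedBall] at hx
  rw [Metric.mem_ball]
  linarith

theorem low (hK : SB K) : ∃ r : ℝ, 0 < r ∧ ∀ u, r * ‖u‖ ≤ hh K u := by
  obtain ⟨r, hr, h⟩ := ball hK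
  refine ⟨r, hr, fun u => ?_⟩
  by_cases hu : u = 0
  · subst hu
    have := le_hh hK (zero_mem hK) (0 : EuclideanSpace ℝ (Fin n))
    simpa using this
  have hn : 0 < ‖u‖ := norm_pos_iff.2 hu
  have h1 : (r / ‖u‖) • u ∈ K := by
    apply h
    rw [mem_closedBall_zero_iff, norm_smul, Real.norm_eq_abs, abs_of_pos (by positivity)]
    rw [div_mul_cancel₀ _ hn.ne']
  have h2 := le_hh hK h1 u
  rw [real_inner_smul_left, real_inner_self_eq_norm_sq] at h2
  have e : r / ‖u‖ * ‖u‖ ^ 2 = r * ‖u‖ := by field_simp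
  rwa [e] at h2

theorem lip (hK : SB K) : ∃ R : ℝ, 0 < R ∧ ∀ u v, hh K u ≤ hh K v + R * ‖u - v‖ := by
  obtain ⟨R, hR⟩ := hK.comp.isBounded.subset_closedBall 0
  refine ⟨max R 1, by positivity, fun u v => ?_⟩
  refine csSup_le ⟨_, 0, zero_mem hK, rfl⟩ ?_
  rintro _ ⟨y, hy, rfl⟩
  have h1 := le_hh hK hy v
  have h2 : inner ℝ y (u - v) ≤ ‖y‖ * ‖u - v‖ := real_inner_le_norm _ _
  have h3 : ‖y‖ ≤ max R 1 := (mem_closedBall_zero_iff.1 (hR hy)).trans (le_max_left _ _)
  have h4 : ‖y‖ * ‖u - v‖ ≤ max R 1 * ‖u - v‖ := mul_le_mul_of_nonneg_right h3 (norm_nonneg _)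
  simp only [inner_sub_right] at h2
  simp only
  linarith

theorem hh_cont (hK : SB K) : Continuous (hh K) := by
  obtain ⟨R, hR, h⟩ := lip hK
  have : LipschitzWith (Real.toNNReal R) (hh K) := by
    refine LipschitzWith.of_dist_le_mul fun u v => ?_
    rw [Real.coe_toNNReal _ hR.le, Real.dist_eq, dist_eq_norm, abs_le]
    have h1 := h u v
    have h2 := h v u
    rw [norm_sub_rev] at h2
    constructor <;> linarith
  exact this.continuous

theorem hh_pos (hK : SB K) {u : EuclideanSpace ℝ (Fin n)} (hu : u ≠ 0) : 0 < hh K u := by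
  obtain ⟨r, hr, h⟩ := low hK
  exact (mul_pos hr (norm_pos_iff.2 hu)).trans_le (h u)

end supp

/-- the weighted form of the logarithmic inequality -/
theorem jensen (hLOG : S_LOG) {m N : ℕ} {z : Fin N → Fin (m + 1) → ℝ} (hDt : 0 < Dt z)
    (hks : ∑ I ∈ Ps m N, kk z I = (m + 1) * Dt z) (hk0 : ∀ I, 0 ≤ kk z I)
    {K : Set (EuclideanSpace ℝ (Fin (m + 1)))} (hK : SB K) {p : ℝ} (hp : 0 < p) :
    ((volume K).toReal / (2 ^ (m + 1) * Dt z)) ^ (p / ((m : ℝ) + 1)) ≤
      ∑ I ∈ Ps m N, kk z I / ((m + 1) * Dt z) *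
        Real.exp (p * Real.log (hh K (tl _ (X z I)) / kk z I)) := by
  set L : Set (Fin (m + 1) → ℝ) := tl (m + 1) ⁻¹' K with hL
  have hLc : IsCompact L := (tl (m + 1)).isCompact_preimage.2 hK.comp
  have hvol : volume.real L = (volume K).toReal := by
    rw [Measure.real, hL, vol_pre]
  have hVpos : 0 < (volume K).toReal := by
    apply ENNReal.toReal_pos
    · intro h0
      have h1 : volume (interior K) = 0 := measure_mono_null interior_subset h0
      have h2 := (isOpen_interior.measure_eq_zero_iff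
        (volume : Measure (EuclideanSpace ℝ (Fin (m + 1))))).1 h1
      have := hK.zero
      rw [h2] at this
      exact this
    · exact hK.comp.measure_lt_top.ne
  have hX : ∀ I, X z I ≠ 0 → tl (m + 1) (X z I) ≠ 0 := by
    intro I h h2
    apply h
    have h3 : tl (m + 1) (X z I) = tl (m + 1) 0 := by rw [h2]; rfl
    exact (tl (m + 1)).injective h3
  have h1 := hLOG m N z L (fun I => hh K (tl _ (X z I))) hLc (by rw [hvol]; exact hVpos) hDt
    (fun I _ hI => hh_pos hK (hX I hI)) (fun I _ _ x hx => by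
      have h2 := abs_le_hh hK hx (tl _ (X z I))
      rw [inner_tl, dotProduct_comm] at h2
      exact h2)
  rw [hvol] at h1
  set V : ℝ := (volume K).toReal with hV
  set D : ℝ := 2 ^ (m + 1) * Dt z with hD
  have hD0 : 0 < D := by positivity
  have hm : (0 : ℝ) < (m : ℝ) + 1 := by positivity
  have hw : ∑ I ∈ Ps m N, kk z I / ((m + 1) * Dt z) = 1 := by
    rw [← Finset.sum_div, hks, div_self (by positivity)]
  have hJ := convexOn_exp.map_sum_le (t := Ps m N)
    (w := fun I => kk z I / ((m + 1) * Dt z))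
    (p := fun I => p * Real.log (hh K (tl _ (X z I)) / kk z I))
    (fun I _ => div_nonneg (hk0 I) (by positivity)) hw (fun I _ => Set.mem_univ _)
  simp only [smul_eq_mul] at hJ
  refine le_trans ?_ hJ
  rw [Real.rpow_def_of_pos (by positivity)]
  apply Real.exp_le_exp.2
  have h2 : ∑ I ∈ Ps m N, kk z I / ((m + 1) * Dt z) *
      (p * Real.log (hh K (tl _ (X z I)) / kk z I)) =
      -(p / ((m : ℝ) + 1)) * ∑ I ∈ Ps m N, kk z I / Dt z *
        Real.log (kk z I / hh K (tl _ (X z I))) := by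
    rw [Finset.mul_sum]
    refine Finset.sum_congr rfl fun I _ => ?_
    have h3 : Real.log (hh K (tl _ (X z I)) / kk z I) =
        -Real.log (kk z I / hh K (tl _ (X z I))) := by
      rw [← Real.log_inv, inv_div]
    rw [h3]
    field_simp
  rw [h2]
  have h4 : Real.log (V / D) = -Real.log (D / V) := by rw [← Real.log_inv, inv_div]
  rw [h4]
  have h5 : 0 < p / ((m : ℝ) + 1) := by positivity
  have h6 := mul_le_mul_of_nonneg_left h1 h5.le
  linarith

end LPFh

open LPFh in
theorem t_LPF (hLOG : S_LOG) (hKSUM : S_KSUM) (hTILE : S_TILE) (hACT : S_ACT) (hPOS : S_POS) :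
    S_LP := by
  intro n K C p α β hn hK hC hp hp1 hα hβ hZ
  obtain ⟨m, rfl⟩ : ∃ m, n = m + 1 := ⟨n - 1, by omega⟩
  obtain ⟨N, z, hz⟩ := hZ
  set M : Set (EuclideanSpace ℝ (Fin (m + 1))) := {x | ∀ u, ‖u‖ = 1 →
    inner ℝ x u ≤ (α * hh K u ^ p + β * hh C u ^ p) ^ (1 / p)} with hM
  set F : EuclideanSpace ℝ (Fin (m + 1)) → ℝ :=
    fun u => (α * hh K u ^ p + β * hh C u ^ p) ^ (1 / p) with hF
  set z' : Fin N → Fin (m + 1) → ℝ := fun j => (tl (m + 1)).symm (z j) with hz'
  have hFpos : ∀ u, u ≠ 0 → 0 < F u := by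
    intro u hu
    have h1 := hh_pos hK hu
    have h2 := hh_pos hC hu
    simp only [hF]
    positivity
  have hhK0 : ∀ u, 0 ≤ hh K u := fun u => by
    obtain ⟨r, hr, h⟩ := low hK
    exact (mul_nonneg hr.le (norm_nonneg _)).trans (h u)
  have hhC0 : ∀ u, 0 ≤ hh C u := fun u => by
    obtain ⟨r, hr, h⟩ := low hC
    exact (mul_nonneg hr.le (norm_nonneg _)).trans (h u)
  have hFh : ∀ (c : ℝ) u, 0 < c → F (c • u) = c * F u := by
    intro c u hc
    simp only [hF]
    rw [hh_smul hK hc, hh_smul hC hc, Real.mul_rpow hc.le (hhK0 u), Real.mul_rpow hc.le (hhC0 u)]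
    have e : α * (c ^ p * hh K u ^ p) + β * (c ^ p * hh C u ^ p) =
        c ^ p * (α * hh K u ^ p + β * hh C u ^ p) := by ring
    rw [e, Real.mul_rpow (by positivity) (by
      have := Real.rpow_nonneg (hhK0 u) p
      have := Real.rpow_nonneg (hhC0 u) p
      positivity), ← Real.rpow_mul hc.le, mul_one_div_cancel hp.ne', Real.rpow_one]
  have hFc : Continuous F := by
    simp only [hF]
    have c1 : Continuous fun u => hh K u ^ p := (hh_cont hK).rpow_const fun _ => Or.inr hp.le
    have c2 : Continuous fun u => hh C u ^ p := (hh_cont hC).rpow_const fun _ => Or.inr hp.le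
    exact ((continuous_const.mul c1).add (continuous_const.mul c2)).rpow_const
      fun _ => Or.inr (by positivity)
  have hMZ : tl (m + 1) ⁻¹' M = Zon z' := by
    rw [hz]
    ext x
    have key : ∀ t : Fin N → ℝ, (tl (m + 1)).symm (∑ j, t j • z j) = ∑ j, t j • z' j := by
      intro t
      show (∑ j, t j • z j).ofLp = ∑ j, t j • (z j).ofLp
      rw [WithLp.ofLp_sum]
      rfl
    show (∃ t : Fin N → ℝ, (∀ j, |t j| ≤ 1) ∧ tl (m + 1) x = ∑ j, t j • z j) ↔
      ∃ t : Fin N → ℝ, (∀ j, |t j| ≤ 1) ∧ x = ∑ j, t j • z' j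
    refine exists_congr fun t => and_congr Iff.rfl ?_
    rw [← key, Homeomorph.eq_symm_apply]
  have hMf : tl (m + 1) ⁻¹' M = {x | ∀ u : Fin (m + 1) → ℝ, u ≠ 0 →
      u ⬝ᵥ x ≤ F (tl (m + 1) u)} := by
    ext x
    show (∀ u, ‖u‖ = 1 → inner ℝ (tl (m + 1) x) u ≤
      (α * hh K u ^ p + β * hh C u ^ p) ^ (1 / p)) ↔
      ∀ u : Fin (m + 1) → ℝ, u ≠ 0 → u ⬝ᵥ x ≤ F (tl (m + 1) u)
    constructor
    · intro h u hu
      have hu' : tl (m + 1) u ≠ 0 := by
        intro h2
        apply hu
        have h3 : tl (m + 1) u = tl (m + 1) 0 := by rw [h2]; rfl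
        exact (tl (m + 1)).injective h3
      have hn : 0 < ‖tl (m + 1) u‖ := norm_pos_iff.2 hu'
      have h1 := h ((‖tl (m + 1) u‖)⁻¹ • tl (m + 1) u) (by
        rw [norm_smul, norm_inv, norm_norm, inv_mul_cancel₀ hn.ne'])
      have h2 := hFh (‖tl (m + 1) u‖)⁻¹ (tl (m + 1) u) (by positivity)
      simp only [hF] at h2
      rw [h2, real_inner_smul_right, inner_tl] at h1
      have h3 := le_of_mul_le_mul_left h1 (by positivity)
      rw [dotProduct_comm]
      exact h3
    · intro h u hu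
      have hu' : (tl (m + 1)).symm u ≠ 0 := by
        intro h2
        have h3 : u = tl (m + 1) 0 := by rw [← h2]; simp
        have h4 : tl (m + 1) 0 = 0 := rfl
        rw [h3, h4, norm_zero] at hu
        exact zero_ne_one hu
      have h1 := h ((tl (m + 1)).symm u) hu'
      rw [Homeomorph.apply_symm_apply] at h1
      have h2 : inner ℝ (tl (m + 1) x) u = (tl (m + 1)).symm u ⬝ᵥ x := by
        rw [← inner_tl, Homeomorph.apply_symm_apply, real_inner_comm]
      rw [h2]
      exact h1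
  have hf0 : ∀ u : Fin (m + 1) → ℝ, u ≠ 0 → tl (m + 1) u ≠ 0 := by
    intro u h h2
    apply h
    have h3 : tl (m + 1) u = tl (m + 1) 0 := by rw [h2]; rfl
    exact (tl (m + 1)).injective h3
  -- positivity
  have hint : (interior (Zon z')).Nonempty := by
    obtain ⟨r, hr, hr'⟩ := low hK
    have hball : Metric.ball (0 : EuclideanSpace ℝ (Fin (m + 1))) ((α * r ^ p) ^ (1 / p)) ⊆ M := by
      intro x hx u hu
      rw [mem_ball_zero_iff] at hx
      have h1 : inner ℝ x u ≤ ‖x‖ * ‖u‖ := real_inner_le_norm _ _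
      rw [hu, mul_one] at h1
      refine h1.trans (hx.le.trans ?_)
      apply Real.rpow_le_rpow (by positivity) _ (by positivity)
      have h2 : r ^ p ≤ hh K u ^ p := Real.rpow_le_rpow hr.le (by
        have := hr' u; rw [hu, mul_one] at this; exact this) hp.le
      have h3 := Real.rpow_nonneg (hhC0 u) p
      nlinarith [mul_nonneg hβ.le h3, mul_le_mul_of_nonneg_left h2 hα.le]
    rw [← hMZ]
    refine ⟨0, ?_⟩
    rw [← (tl (m + 1)).preimage_interior]
    show tl (m + 1) 0 ∈ interior M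
    have h0 : tl (m + 1) 0 = 0 := rfl
    rw [h0]
    exact interior_maximal hball Metric.isOpen_ball (Metric.mem_ball_self (by positivity))
  have hDt : 0 < Dt z' := hPOS m N z' hint
  have hks := hKSUM m N z'
  have hk0 : ∀ I, 0 ≤ kk z' I := fun I => Finset.sum_nonneg fun j _ => abs_nonneg _
  have hact := hACT m N z' (fun u => F (tl (m + 1) u)) (hFc.comp (tl (m + 1)).continuous).continuousOn
    (fun u hu => hFpos _ (hf0 u hu)) (fun c u hc => by
      have : tl (m + 1) (c • u) = c • tl (m + 1) u := rfl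
      simp only [this]
      exact hFh c _ hc) (hMZ.symm.trans hMf)
  have hJK := jensen hLOG hDt hks hk0 hK hp
  have hJC := jensen hLOG hDt hks hk0 hC hp
  set D : ℝ := 2 ^ (m + 1) * Dt z' with hD
  have hD0 : 0 < D := by positivity
  have hsum : α * ((volume K).toReal / D) ^ (p / ((m : ℝ) + 1)) +
      β * ((volume C).toReal / D) ^ (p / ((m : ℝ) + 1)) ≤ 1 := by
    calc α * ((volume K).toReal / D) ^ (p / ((m : ℝ) + 1)) +
      β * ((volume C).toReal / D) ^ (p / ((m : ℝ) + 1))
        ≤ α * (∑ I ∈ Ps m N, kk z' I / ((m + 1) * Dt z') *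
        Real.exp (p * Real.log (hh K (tl _ (X z' I)) / kk z' I))) +
          β * (∑ I ∈ Ps m N, kk z' I / ((m + 1) * Dt z') *
        Real.exp (p * Real.log (hh C (tl _ (X z' I)) / kk z' I))) :=
          add_le_add (mul_le_mul_of_nonneg_left hJK hα.le) (mul_le_mul_of_nonneg_left hJC hβ.le)
      _ = ∑ I ∈ Ps m N, kk z' I / ((m + 1) * Dt z') *
          (α * Real.exp (p * Real.log (hh K (tl _ (X z' I)) / kk z' I)) +
            β * Real.exp (p * Real.log (hh C (tl _ (X z' I)) / kk z' I))) := by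
          rw [Finset.mul_sum, Finset.mul_sum, ← Finset.sum_add_distrib]
          exact Finset.sum_congr rfl fun I _ => by ring
      _ ≤ ∑ I ∈ Ps m N, kk z' I / ((m + 1) * Dt z') := by
          refine Finset.sum_le_sum fun I hI => ?_
          by_cases h0 : kk z' I = 0
          · simp [h0]
          have hkp : 0 < kk z' I := lt_of_le_of_ne (hk0 I) (Ne.symm h0)
          have hX : X z' I ≠ 0 := by
            intro h
            apply h0
            simp [kk, h]
          have h1 := hact I hI hX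
          have hKp := hh_pos hK (hf0 _ hX)
          have hCp := hh_pos hC (hf0 _ hX)
          have e : ∀ t : ℝ, 0 < t → Real.exp (p * Real.log (t / kk z' I)) =
              t ^ p / kk z' I ^ p := by
            intro t ht
            rw [mul_comm, ← Real.rpow_def_of_pos (by positivity), Real.div_rpow ht.le hkp.le]
          rw [e _ hKp, e _ hCp]
          refine mul_le_of_le_one_right (div_nonneg (hk0 I) (by positivity)) ?_
          have hkpp : 0 < kk z' I ^ p := by positivity
          rw [← mul_div_assoc, ← mul_div_assoc, ← add_div, div_le_one hkpp]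
          have h2 := Real.rpow_le_rpow (hFpos _ (hf0 _ hX)).le h1 hp.le
          simp only [hF] at h2
          rw [← Real.rpow_mul (by positivity), one_div_mul_cancel hp.ne', Real.rpow_one] at h2
          exact h2
      _ = 1 := by rw [← Finset.sum_div, hks, div_self (by positivity)]
  have hvM : (volume M).toReal = volume.real (Zon z') := by
    rw [Measure.real, ← hMZ, vol_pre]
  have htile := hTILE m N z'
  rw [← hvM] at htile
  have hcast : ((m + 1 : ℕ) : ℝ) = (m : ℝ) + 1 := by push_cast; ring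
  rw [hcast]
  have hq : 0 < p / ((m : ℝ) + 1) := by positivity
  have hle : D ^ (p / ((m : ℝ) + 1)) ≤ (volume M).toReal ^ (p / ((m : ℝ) + 1)) :=
    Real.rpow_le_rpow hD0.le htile hq.le
  refine le_trans ?_ hle
  rw [Real.div_rpow ENNReal.toReal_nonneg hD0.le, Real.div_rpow ENNReal.toReal_nonneg hD0.le,
    ← mul_div_assoc, ← mul_div_assoc, ← add_div, div_le_one (by positivity)] at hsum
  exact hsum

end H354ZN
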