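import Pool.Agent.H354R3.ZN.Defs

/-!
# (MULT): log-Brunn-Minkowski with a zonotope in the middle
-/

set_option autoImplicit false

open MeasureTheory
open scoped Matrix Pointwise

namespace H354ZN

theorem mult_prod_rpow_eq_exp {q : ℕ} (v t : Fin q → ℝ) (hv : ∀ i, 0 < v i) :
    ∏ i, v i ^ t i = Real.exp (∑ i, t i * Real.log (v i)) := by
  rw [Real.exp_sum]
  apply Finset.prod_congr rfl
  intro i _
  rw [Real.rpow_def_of_pos (hv i), mul_comm]

theorem t_MULT (hLOG : S_LOG) (hTILE : S_TILE) : S_MULT := by
  intro m N q z K l t hD hK hV ht hsum hl hkk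
  have hT := hTILE m N z
  refine le_trans ?_ hT
  rw [mult_prod_rpow_eq_exp _ t hV]
  have hpos : 0 < 2 ^ (m + 1) * Dt z := by positivity
  rw [← Real.exp_log hpos]
  apply Real.exp_le_exp.2
  -- the logarithmic inequality for each `i`
  have h1 : ∀ i, ∑ I ∈ Ps m N, kk z I / Dt z * Real.log (kk z I / l i I) ≤
      Real.log (2 ^ (m + 1) * Dt z) - Real.log (volume.real (K i)) := by
    intro i
    rw [← Real.log_div hpos.ne' (hV i).ne']
    exact hLOG m N z (K i) (l i) (hK i) (hV i) hD (fun I hI hX => (hl i I hI hX).1)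
      (fun I hI hX => (hl i I hI hX).2)
  have h2 : ∑ i, t i * ∑ I ∈ Ps m N, kk z I / Dt z * Real.log (kk z I / l i I) ≤
      ∑ i, t i * (Real.log (2 ^ (m + 1) * Dt z) - Real.log (volume.real (K i))) :=
    Finset.sum_le_sum fun i _ => mul_le_mul_of_nonneg_left (h1 i) (ht i)
  have h3 : ∑ i, t i * (Real.log (2 ^ (m + 1) * Dt z) - Real.log (volume.real (K i))) =
      Real.log (2 ^ (m + 1) * Dt z) - ∑ i, t i * Real.log (volume.real (K i)) := by
    simp only [mul_sub]
    rw [Finset.sum_sub_distrib, ← Finset.sum_mul, hsum, one_mul]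
  have h4 : 0 ≤ ∑ i, t i * ∑ I ∈ Ps m N, kk z I / Dt z * Real.log (kk z I / l i I) := by
    have h5 : ∑ i, t i * ∑ I ∈ Ps m N, kk z I / Dt z * Real.log (kk z I / l i I) =
        ∑ I ∈ Ps m N, kk z I / Dt z * ∑ i, t i * Real.log (kk z I / l i I) := by
      simp only [Finset.mul_sum]
      rw [Finset.sum_comm]
      refine Finset.sum_congr rfl fun I _ => Finset.sum_congr rfl fun i _ => ?_
      ring
    rw [h5]
    apply Finset.sum_nonneg
    intro I hI
    by_cases hX : X z I = 0
    · have h6 : kk z I = 0 := by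
        unfold kk
        simp [hX]
      rw [h6, zero_div, zero_mul]
    · have hl0 : ∀ i, 0 < l i I := fun i => (hl i I hI hX).1
      have h6 := hkk I hI hX
      rw [mult_prod_rpow_eq_exp _ t hl0] at h6
      have h7 : 0 < kk z I := lt_of_lt_of_le (Real.exp_pos _) h6
      apply mul_nonneg (div_nonneg h7.le hD.le)
      have h8 : ∑ i, t i * Real.log (kk z I / l i I) =
          Real.log (kk z I) - ∑ i, t i * Real.log (l i I) := by
        have h9 : ∀ i, t i * Real.log (kk z I / l i I) =
            t i * Real.log (kk z I) - t i * Real.log (l i I) := by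
          intro i
          rw [Real.log_div h7.ne' (hl0 i).ne']
          ring
        simp only [h9]
        rw [Finset.sum_sub_distrib, ← Finset.sum_mul, hsum, one_mul]
      rw [h8]
      have h10 := Real.log_le_log (Real.exp_pos _) h6
      rw [Real.log_exp] at h10
      linarith
  linarith

end H354ZN
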