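import Pool.Agent.H354R3.ZN.Defs

set_option autoImplicit false

/-!
# PARA: the volume of a set with bounded widths
-/

open MeasureTheory
open scoped Matrix Pointwise

namespace H354ZN

theorem t_PARA : S_PARA := by
  intro n a S w hw hS
  have hprod : 0 ≤ ∏ i, w i := Finset.prod_nonneg fun i _ => hw i
  rcases S.eq_empty_or_nonempty with rfl | ⟨x0, hx0⟩
  · simpa using hprod
  set l : Fin n → ℝ := fun i => sInf ((fun x => a i ⬝ᵥ x) '' S) with hl
  have hbdd : ∀ i, BddBelow ((fun x => a i ⬝ᵥ x) '' S) := by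
    intro i
    refine ⟨a i ⬝ᵥ x0 - w i, ?_⟩
    rintro _ ⟨y, hy, rfl⟩
    have := hS i x0 hx0 y hy
    simp only
    linarith
  have hl1 : ∀ i, ∀ x ∈ S, l i ≤ a i ⬝ᵥ x := fun i x hx =>
    csInf_le (hbdd i) ⟨x, hx, rfl⟩
  have hl2 : ∀ i, ∀ x ∈ S, a i ⬝ᵥ x ≤ l i + w i := by
    intro i x hx
    have : a i ⬝ᵥ x - w i ≤ l i := by
      refine le_csInf ⟨_, x0, hx0, rfl⟩ ?_
      rintro _ ⟨y, hy, rfl⟩
      have := hS i x hx y hy
      simp only
      linarith
    linarith
  have hsub : (Matrix.toLin' (Matrix.of a)) '' S ⊆ Set.Icc l (l + w) := by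
    rintro _ ⟨x, hx, rfl⟩
    rw [Set.mem_Icc, Pi.le_def, Pi.le_def]
    refine ⟨fun i => ?_, fun i => ?_⟩
    · rw [Matrix.toLin'_apply]
      exact hl1 i x hx
    · rw [Matrix.toLin'_apply]
      exact hl2 i x hx
  have hle : l ≤ l + w := by
    intro i
    simp only [Pi.add_apply]
    linarith [hw i]
  have h1 : volume ((Matrix.toLin' (Matrix.of a)) '' S) =
      ENNReal.ofReal |LinearMap.det (Matrix.toLin' (Matrix.of a))| * volume S :=
    Measure.addHaar_image_linearMap volume _ S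
  rw [LinearMap.det_toLin'] at h1
  have h2 : (volume ((Matrix.toLin' (Matrix.of a)) '' S)).toReal =
      |Matrix.det (Matrix.of a)| * volume.real S := by
    rw [h1, ENNReal.toReal_mul, ENNReal.toReal_ofReal (abs_nonneg _)]
    rfl
  have h3 : (volume (Set.Icc l (l + w))).toReal = ∏ i, w i := by
    rw [Real.volume_Icc_pi_toReal hle]
    refine Finset.prod_congr rfl fun i _ => ?_
    simp
  have h4 : volume (Set.Icc l (l + w)) ≠ ⊤ := by
    rw [Real.volume_Icc_pi]
    exact (ENNReal.prod_lt_top fun i _ => ENNReal.ofReal_lt_top).ne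
  rw [← h2, ← h3]
  exact ENNReal.toReal_mono h4 (measure_mono hsub)

end H354ZN
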