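import Pool.Agent.H354R3.ZN.Defs

set_option autoImplicit false

open MeasureTheory
open scoped Matrix Pointwise

namespace H354ZN

theorem t_POS : S_POS := by
  classical
  intro m N z hint
  set W : Submodule ℝ (Fin (m + 1) → ℝ) := Submodule.span ℝ (Set.range z) with hW
  have hsub : Zon z ⊆ (W : Set (Fin (m + 1) → ℝ)) := by
    rintro x ⟨t, -, rfl⟩
    refine Submodule.sum_mem _ fun j _ => ?_
    exact Submodule.smul_mem _ _ (Submodule.subset_span ⟨j, rfl⟩)
  have htop : W = ⊤ := by
    apply Submodule.eq_top_of_nonempty_interior'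
    exact hint.mono (interior_mono hsub)
  obtain ⟨b, hbs, hbspan, hbli⟩ := exists_linearIndependent ℝ (Set.range z)
  have hbfin : b.Finite := (Set.finite_range z).subset hbs
  have : Fintype b := hbfin.fintype
  have hbtop : Submodule.span ℝ b = ⊤ := by
    rw [hbspan]
    exact htop
  have hcard : Fintype.card b = m + 1 := by
    have h1 : Module.finrank ℝ (Submodule.span ℝ b) = b.toFinset.card :=
      finrank_span_set_eq_card hbli
    rw [hbtop, finrank_top, Module.finrank_fin_fun] at h1
    rw [Set.toFinset_card] at h1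
    exact h1.symm
  have hch : ∀ v : b, ∃ j : Fin N, z j = v := fun v => hbs v.2
  choose f hf using hch
  have hfinj : Function.Injective f := by
    intro u v huv
    apply Subtype.ext
    rw [← hf u, ← hf v, huv]
  set A : Finset (Fin N) := Finset.univ.image f with hA
  have hAc : A.card = m + 1 := by
    rw [hA, Finset.card_image_of_injective _ hfinj, Finset.card_univ, hcard]
  have hAmem : ∀ x ∈ A, ∃ v : b, f v = x := by
    intro x hx
    rw [hA, Finset.mem_image] at hx
    obtain ⟨v, -, hv⟩ := hx
    exact ⟨v, hv⟩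
  have hmem : ∀ i : Fin (m + 1), z (A.orderEmbOfFin hAc i) ∈ b := by
    intro i
    obtain ⟨v, hv⟩ := hAmem _ (A.orderEmbOfFin_mem hAc i)
    rw [← hv, hf v]
    exact v.2
  have hginj : Function.Injective
      (fun i : Fin (m + 1) => (⟨z (A.orderEmbOfFin hAc i), hmem i⟩ : b)) := by
    intro i j hij
    have h2 : z (A.orderEmbOfFin hAc i) = z (A.orderEmbOfFin hAc j) := congrArg Subtype.val hij
    have h3 : ∀ k : Fin (m + 1), f ⟨z (A.orderEmbOfFin hAc k), hmem k⟩ =
        A.orderEmbOfFin hAc k := by
      intro k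
      obtain ⟨v, hv⟩ := hAmem _ (A.orderEmbOfFin_mem hAc k)
      have h4 : (⟨z (A.orderEmbOfFin hAc k), hmem k⟩ : b) = v := by
        apply Subtype.ext
        show z (A.orderEmbOfFin hAc k) = v
        rw [← hv, hf v]
      rw [h4, hv]
    apply (A.orderEmbOfFin hAc).injective
    rw [← h3 i, ← h3 j]
    exact congrArg f hij
  have hli : LinearIndependent ℝ (fun i : Fin (m + 1) => z (A.orderEmbOfFin hAc i)) :=
    hbli.comp _ hginj
  have hdet : Matrix.det (Matrix.of fun i => z (A.orderEmbOfFin hAc i)) ≠ 0 := by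
    have h1 : IsUnit (Matrix.of fun i => z (A.orderEmbOfFin hAc i)) := by
      rw [← Matrix.linearIndependent_rows_iff_isUnit]
      exact hli
    exact ((Matrix.isUnit_iff_isUnit_det _).mp h1).ne_zero
  have hDDn : ∀ B : Finset (Fin N), 0 ≤ DD z B := by
    intro B
    unfold DD
    split_ifs
    · exact abs_nonneg _
    · exact le_rfl
  have hDA : 0 < DD z A := by
    unfold DD
    rw [dif_pos hAc]
    exact abs_pos.mpr hdet
  unfold Dt
  refine Finset.sum_pos' (fun B _ => hDDn B) ⟨A, ?_, hDA⟩
  unfold Ps
  rw [Finset.mem_powersetCard]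
  exact ⟨Finset.subset_univ _, hAc⟩

end H354ZN
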