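import Pool.Agent.H354R3.ZN.Defs2

/-!
# SECF: sections of rescaled cubes
-/

set_option autoImplicit false

open MeasureTheory
open scoped Matrix Pointwise

namespace H354ZN

namespace SECFh

/-- slabs in coordinates -/
def A {n k : ℕ} (v : Fin n → Fin k → ℝ) (τ : Fin n → ℝ) : Set (Fin k → ℝ) :=
  {x | ∀ i, |v i ⬝ᵥ x| ≤ Real.exp (τ i)}

theorem continuous_dot {k : ℕ} (v : Fin k → ℝ) : Continuous fun x : Fin k → ℝ => v ⬝ᵥ x := by
  unfold dotProduct
  fun_prop

theorem interior_A {n k : ℕ} (v : Fin n → Fin k → ℝ) (τ : Fin n → ℝ) :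
    (interior (A v τ)).Nonempty := by
  have hopen : IsOpen {x : Fin k → ℝ | ∀ i, |v i ⬝ᵥ x| < Real.exp (τ i)} := by
    have : {x : Fin k → ℝ | ∀ i, |v i ⬝ᵥ x| < Real.exp (τ i)} =
        ⋂ i, {x : Fin k → ℝ | |v i ⬝ᵥ x| < Real.exp (τ i)} := by
      ext x; simp
    rw [this]
    apply isOpen_iInter_of_finite
    intro i
    exact isOpen_lt (continuous_dot (v i)).abs continuous_const
  refine ⟨0, ?_⟩
  rw [mem_interior]
  refine ⟨_, ?_, hopen, ?_⟩
  · intro x hx i
    exact (hx i).le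
  · intro i
    simp [Real.exp_pos]

theorem compact_box {n : ℕ} (τ : Fin n → ℝ) :
    IsCompact {x : EuclideanSpace ℝ (Fin n) | ∀ i, |WithLp.ofLp x i| ≤ Real.exp (τ i)} := by
  have h1 : IsCompact (Set.pi Set.univ fun i => Set.Icc (-Real.exp (τ i)) (Real.exp (τ i))) :=
    isCompact_univ_pi fun i => isCompact_Icc
  have h2 := h1.image (PiLp.continuous_toLp 2 (fun _ : Fin n => ℝ))
  convert h2 using 1
  ext x
  constructor
  · intro hx
    refine ⟨WithLp.ofLp x, ?_, rfl⟩
    intro i _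
    exact abs_le.mp (hx i)
  · rintro ⟨y, hy, rfl⟩ i
    exact abs_le.mpr (hy i (Set.mem_univ i))

end SECFh

open SECFh

theorem t_SECF (hMULT : S_MULT) (hACTS : S_ACTS) (hPOS : S_POS) : S_SEC := by
  classical
  intro n k hk hkn H hH s t l hl0 hl1 hZ
  obtain ⟨m, rfl⟩ : ∃ m, k = m + 1 := ⟨k - 1, by omega⟩
  let b : OrthonormalBasis (Fin (m + 1)) ℝ H := (stdOrthonormalBasis ℝ H).reindex (finCongr hH)
  let φ : EuclideanSpace ℝ (Fin (m + 1)) →ₗᵢ[ℝ] EuclideanSpace ℝ (Fin n) :=
    H.subtypeₗᵢ.comp b.repr.symm.toLinearIsometry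
  have hφH : ∀ x, φ x ∈ H := fun x => (b.repr.symm x).2
  have hφs : ∀ y ∈ H, ∃ x, φ x = y := by
    intro y hy
    refine ⟨b.repr ⟨y, hy⟩, ?_⟩
    simp [φ]
  let ψ : (Fin (m + 1) → ℝ) →ₗ[ℝ] EuclideanSpace ℝ (Fin n) :=
    φ.toLinearMap ∘ₗ (WithLp.linearEquiv 2 ℝ (Fin (m + 1) → ℝ)).symm.toLinearMap
  have hψφ : ∀ x, ψ x = φ (WithLp.toLp 2 x) := fun x => rfl
  have hψinj : Function.Injective ψ := by
    intro x y hxy
    rw [hψφ, hψφ] at hxy
    have := φ.injective hxy
    exact (WithLp.toLp_injective 2) this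
  let v : Fin n → Fin (m + 1) → ℝ := fun i j =>
    WithLp.ofLp (ψ (fun j' => if j = j' then 1 else 0)) i
  have hv : ∀ i x, v i ⬝ᵥ x = WithLp.ofLp (ψ x) i := by
    intro i x
    rw [LinearMap.pi_apply_eq_sum_univ ψ x]
    simp only [v, dotProduct, WithLp.ofLp_sum, WithLp.ofLp_smul, Finset.sum_apply, Pi.smul_apply,
      smul_eq_mul]
    refine Finset.sum_congr rfl fun j _ => ?_
    rw [mul_comm]
  have hSec : ∀ τ : Fin n → ℝ, Sec H τ = ψ '' (A v τ) := by
    intro τ
    ext y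
    constructor
    · rintro ⟨hy, hyH⟩
      obtain ⟨x, rfl⟩ := hφs y hyH
      refine ⟨WithLp.ofLp x, ?_, rfl⟩
      intro i
      rw [hv]
      exact hy i
    · rintro ⟨x, hx, rfl⟩
      refine ⟨fun i => ?_, hφH _⟩
      rw [← hv]
      exact hx i
  -- measure
  set c : NNReal := Measure.addHaarScalarFactor
    (Measure.hausdorffMeasure (((m + 1 : ℕ) : ℝ)) : Measure (EuclideanSpace ℝ (Fin (m + 1))))
    volume with hc
  have hcμ : (Measure.hausdorffMeasure (((m + 1 : ℕ) : ℝ)) :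
      Measure (EuclideanSpace ℝ (Fin (m + 1)))) = c • volume :=
    Measure.isAddLeftInvariant_eq_smul _ _
  have hmeas : ∀ S : Set (Fin (m + 1) → ℝ),
      (Measure.hausdorffMeasure (((m + 1 : ℕ) : ℝ)) (ψ '' S)).toReal = c * volume.real S := by
    intro S
    have h1 : ψ '' S = φ '' ((WithLp.toLp 2) '' S) := by
      rw [Set.image_image]; rfl
    rw [h1, φ.isometry.hausdorffMeasure_image (Or.inl (Nat.cast_nonneg _)), hcμ]
    have h2 : volume ((WithLp.toLp 2) '' S : Set (EuclideanSpace ℝ (Fin (m + 1)))) =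
        volume S := by
      have h3 := (EuclideanSpace.volume_preserving_symm_measurableEquiv_toLp
        (Fin (m + 1))).measure_preimage_equiv S
      rw [← h3]
      congr 1
      ext x
      constructor
      · rintro ⟨y, hy, rfl⟩
        exact hy
      · intro hx
        exact ⟨WithLp.ofLp x, hx, rfl⟩
    rw [Measure.smul_apply, h2]
    simp [Measure.real, ENNReal.smul_def]
  have hcomp : ∀ τ, IsCompact (A v τ) := by
    intro τ
    have h1 : A v τ = ψ ⁻¹' {x | ∀ i, |WithLp.ofLp x i| ≤ Real.exp (τ i)} := by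
      ext x
      constructor
      · intro hx i
        rw [← hv]
        exact hx i
      · intro hx i
        rw [hv]
        exact hx i
    rw [h1]
    exact (LinearMap.isClosedEmbedding_of_injective (LinearMap.ker_eq_bot.mpr hψinj)).isCompact_preimage
      (compact_box τ)
  have hpos : ∀ τ, 0 < volume.real (A v τ) := by
    intro τ
    exact ENNReal.toReal_pos (Measure.measure_pos_of_nonempty_interior _ (interior_A v τ)).ne'
      (hcomp τ).measure_lt_top.ne
  -- the zonotope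
  set r : Fin n → ℝ := fun i => l * s i + (1 - l) * t i with hr
  obtain ⟨N, z, hz⟩ := hZ
  have hzH : ∀ j, ∃ x, ψ x = z j := by
    intro j
    have h1 : z j ∈ ZonE z := by
      refine ⟨fun j' => if j' = j then 1 else 0, ?_, ?_⟩
      · intro j'
        beta_reduce
        split_ifs <;> simp
      · simp
    rw [← hz] at h1
    obtain ⟨x, hx⟩ := hφs _ h1.2
    exact ⟨WithLp.ofLp x, hx⟩
  choose z' hz' using hzH
  have hZon : Zon z' = A v r := by
    ext x
    constructor
    · rintro ⟨u, hu, rfl⟩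
      have h1 : ψ (∑ j, u j • z' j) ∈ ZonE z := by
        refine ⟨u, hu, ?_⟩
        rw [map_sum]
        refine Finset.sum_congr rfl fun j _ => ?_
        rw [map_smul, hz']
      rw [← hz, hSec] at h1
      obtain ⟨y, hy, hyx⟩ := h1
      rw [← hψinj hyx]
      exact hy
    · intro hx
      have h1 : ψ x ∈ ZonE z := by
        rw [← hz, hSec]
        exact ⟨x, hx, rfl⟩
      obtain ⟨u, hu, hux⟩ := h1
      refine ⟨u, hu, hψinj ?_⟩
      rw [hux, map_sum]
      refine Finset.sum_congr rfl fun j _ => ?_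
      rw [map_smul, hz']
  have hDt : 0 < Dt z' := hPOS m N z' (by rw [hZon]; exact interior_A v r)
  have hact := hACTS m N n z' v (fun i => Real.exp (r i)) (fun i => Real.exp_pos _) hZon
  -- the bounds
  have hex : ∀ I : Finset (Fin N), ∃ (i : Fin n ⊕ Unit) (c : ℝ), I ∈ Ps m N → X z' I ≠ 0 →
      ∃ i0, i = Sum.inl i0 ∧ c ≠ 0 ∧ X z' I = c • v i0 ∧ kk z' I = |c| * Real.exp (r i0) := by
    intro I
    by_cases h : I ∈ Ps m N ∧ X z' I ≠ 0
    · obtain ⟨i, c, h1, h2, h3⟩ := hact I h.1 h.2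
      exact ⟨Sum.inl i, c, fun _ _ => ⟨i, rfl, h1, h2, h3⟩⟩
    · exact ⟨Sum.inr (), 0, fun h1 h2 => absurd ⟨h1, h2⟩ h⟩
  choose fi fc hf using hex
  let ex : (Fin n → ℝ) → Finset (Fin N) → ℝ := fun τ I =>
    |fc I| * Real.exp (Sum.elim τ (fun _ => 0) (fi I))
  have hbd : ∀ τ : Fin n → ℝ, ∀ I ∈ Ps m N, X z' I ≠ 0 →
      0 < ex τ I ∧ ∀ x ∈ A v τ, |X z' I ⬝ᵥ x| ≤ ex τ I := by
    intro τ I hI hX
    obtain ⟨i0, h1, h2, h3, h4⟩ := hf I hI hX
    simp only [ex, h1, Sum.elim_inl]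
    refine ⟨mul_pos (abs_pos.mpr h2) (Real.exp_pos _), ?_⟩
    intro x hx
    rw [h3, smul_dotProduct, smul_eq_mul, abs_mul]
    exact mul_le_mul_of_nonneg_left (hx i0) (abs_nonneg _)
  have hmain := hMULT m N 2 z' ![A v s, A v t] ![ex s, ex t] ![l, 1 - l] hDt
    (by
      intro i
      fin_cases i
      · exact hcomp s
      · exact hcomp t)
    (by
      intro i
      fin_cases i
      · exact hpos s
      · exact hpos t)
    (by
      intro i
      fin_cases i
      · exact hl0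
      · exact sub_nonneg.mpr hl1)
    (by simp)
    (by
      intro i I hI hX
      fin_cases i
      · exact hbd s I hI hX
      · exact hbd t I hI hX)
    (by
      intro I hI hX
      obtain ⟨i0, h1, h2, h3, h4⟩ := hf I hI hX
      rw [Fin.prod_univ_two]
      simp only [Matrix.cons_val_zero, Matrix.cons_val_one, ex, h1, Sum.elim_inl]
      rw [h4, Real.mul_rpow (abs_nonneg _) (Real.exp_pos _).le,
        Real.mul_rpow (abs_nonneg _) (Real.exp_pos _).le, ← Real.exp_mul, ← Real.exp_mul]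
      have h5 : |fc I| ^ l * |fc I| ^ (1 - l) = |fc I| := by
        rw [← Real.rpow_add (abs_pos.mpr h2)]
        simp
      have h6 : Real.exp (s i0 * l) * Real.exp (t i0 * (1 - l)) = Real.exp (r i0) := by
        rw [← Real.exp_add]
        congr 1
        simp only [hr]
        ring
      calc |fc I| ^ l * Real.exp (s i0 * l) * (|fc I| ^ (1 - l) * Real.exp (t i0 * (1 - l)))
          = (|fc I| ^ l * |fc I| ^ (1 - l)) *
            (Real.exp (s i0 * l) * Real.exp (t i0 * (1 - l))) := by ring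
        _ = |fc I| * Real.exp (r i0) := by rw [h5, h6]
        _ ≤ _ := le_rfl)
  rw [Fin.prod_univ_two, hZon] at hmain
  simp only [Matrix.cons_val_zero, Matrix.cons_val_one] at hmain
  rw [hSec, hSec, hSec, hmeas, hmeas, hmeas]
  have hc0 : (0 : ℝ) ≤ c := c.2
  rw [Real.mul_rpow hc0 (hpos s).le, Real.mul_rpow hc0 (hpos t).le]
  have h7 : (c : ℝ) ^ l * (c : ℝ) ^ (1 - l) = c := by
    rw [← Real.rpow_add' hc0 (by norm_num)]
    simp
  calc (c : ℝ) ^ l * volume.real (A v s) ^ l * ((c : ℝ) ^ (1 - l) * volume.real (A v t) ^ (1 - l))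
      = ((c : ℝ) ^ l * (c : ℝ) ^ (1 - l)) *
        (volume.real (A v s) ^ l * volume.real (A v t) ^ (1 - l)) := by ring
    _ = c * (volume.real (A v s) ^ l * volume.real (A v t) ^ (1 - l)) := by rw [h7]
    _ ≤ c * volume.real (A v r) := mul_le_mul_of_nonneg_left hmain hc0

end H354ZN
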