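import Pool.Agent.H354R3.ZN.Defs

/-!
# SITE: solving the linear system
-/

open scoped Matrix

namespace H354ZN

theorem t_SITE : S_SITE := by
  intro m N z A c hD
  unfold DD at hD
  by_cases h : A.card = m + 1
  · rw [dif_pos h] at hD
    have hdet : Matrix.det (Matrix.of fun i => z (A.orderEmbOfFin h i)) ≠ 0 := by
      intro h0
      exact hD (by rw [h0, abs_zero])
    set M : Matrix (Fin (m + 1)) (Fin (m + 1)) ℝ :=
      Matrix.of fun i => z (A.orderEmbOfFin h i) with hM
    have hu : IsUnit M.det := isUnit_iff_ne_zero.mpr hdet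
    refine ⟨M⁻¹ *ᵥ fun i => c (A.orderEmbOfFin h i), fun a ha => ?_⟩
    have hr : a ∈ Set.range (A.orderEmbOfFin h) := by
      rw [Finset.range_orderEmbOfFin]
      exact ha
    obtain ⟨i, rfl⟩ := hr
    have h1 : M *ᵥ (M⁻¹ *ᵥ fun i => c (A.orderEmbOfFin h i)) =
        fun i => c (A.orderEmbOfFin h i) := by
      rw [Matrix.mulVec_mulVec, Matrix.mul_nonsing_inv M hu, Matrix.one_mulVec]
    exact congrFun h1 i
  · rw [dif_neg h] at hD
    exact absurd rfl hD

end H354ZN
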