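import Pool.Agent.H354R3.ZN.Defs

/-! Project ZN, task STRONG: the power form. -/

set_option autoImplicit false

open MeasureTheory
open scoped Matrix Pointwise

namespace H354ZN

lemma STRONG_kk_nonneg {m N : ℕ} (z : Fin N → Fin (m + 1) → ℝ) (I : Finset (Fin N)) :
    0 ≤ kk z I := Finset.sum_nonneg fun _ _ => abs_nonneg _

lemma STRONG_kk_zero {m N : ℕ} (z : Fin N → Fin (m + 1) → ℝ) (I : Finset (Fin N))
    (h : X z I = 0) : kk z I = 0 := by
  unfold kk
  refine Finset.sum_eq_zero fun j _ => ?_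
  rw [h]; simp

lemma STRONG_DD_nonneg {m N : ℕ} (z : Fin N → Fin (m + 1) → ℝ) (A : Finset (Fin N)) :
    0 ≤ DD z A := by
  unfold DD; split_ifs <;> positivity

theorem t_STRONG (hCORE : S_CORE) (hKSUM : S_KSUM) (hPERM1 : S_PERM1) : S_STRONG := by
  intro m N z L l hm hL hV hD hl hlL
  classical
  have hm0 : (m : ℝ) ≠ 0 := by positivity
  have hmp : (0 : ℝ) < m := by exact_mod_cast hm
  set V := volume.real L with hVdef
  set s : Finset (Fin N) → ℝ := fun I => kk z I / l I with hsdef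
  set w : Finset (Fin N) → ℝ := fun I => if X z I = 0 then 0 else 2 * l I with hwdef
  set P : Finset (Fin N) → ℝ := fun A => ∏ j ∈ A, s (A.erase j) with hPdef
  set b : Finset (Fin N) → ℝ := fun A => DD z A * P A ^ (1 / (m : ℝ)) with hbdef
  set B : ℝ := ∑ A ∈ Ps (m + 1) N, b A with hBdef
  have hs0 : ∀ I ∈ Ps m N, 0 ≤ s I := by
    intro I hI
    by_cases h : X z I = 0
    · simp [hsdef, STRONG_kk_zero z I h]
    · exact div_nonneg (STRONG_kk_nonneg z I) (hl I hI h).le
  have hw0 : ∀ I ∈ Ps m N, 0 ≤ w I := by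
    intro I hI
    by_cases h : X z I = 0
    · simp [hwdef, h]
    · have := hl I hI h
      simp only [hwdef, if_neg h]; positivity
  have hwL : ∀ I ∈ Ps m N, ∀ x ∈ L, ∀ y ∈ L, X z I ⬝ᵥ x - X z I ⬝ᵥ y ≤ w I := by
    intro I hI x hx y hy
    by_cases h : X z I = 0
    · simp [hwdef, h]
    · have h1 := abs_le.1 (hlL I hI h x hx)
      have h2 := abs_le.1 (hlL I hI h y hy)
      simp only [hwdef, if_neg h]; linarith [h1.2, h2.1]
  -- positivity of `P`
  have hPpos : ∀ A ∈ Ps (m + 1) N, DD z A ≠ 0 → 0 < P A := by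
    intro A hA hDA
    have hcard : A.card = m + 1 := (Finset.mem_powersetCard.1 hA).2
    refine Finset.prod_pos fun j hj => ?_
    have hc : (A.erase j).card = m := by rw [Finset.card_erase_of_mem hj, hcard]; rfl
    have hI : A.erase j ∈ Ps m N := Finset.mem_powersetCard.2 ⟨Finset.subset_univ _, hc⟩
    have h1 := hPERM1 m N z (A.erase j) j hc (Finset.notMem_erase j A)
    rw [Finset.insert_erase hj] at h1
    have hX : X z (A.erase j) ≠ 0 := by
      intro h
      rw [h] at h1
      simp at h1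
      exact hDA h1.symm
    have hk : 0 < kk z (A.erase j) := by
      unfold kk
      refine Finset.sum_pos' (fun i _ => abs_nonneg _) ⟨j, Finset.mem_univ _, ?_⟩
      rw [h1]
      exact lt_of_le_of_ne (STRONG_DD_nonneg z A) (Ne.symm hDA)
    exact div_pos hk (hl _ hI hX)
  have hbpos : ∀ A ∈ Ps (m + 1) N, DD z A ≠ 0 → 0 < b A := by
    intro A hA hDA
    exact mul_pos (lt_of_le_of_ne (STRONG_DD_nonneg z A) (Ne.symm hDA))
      (Real.rpow_pos_of_pos (hPpos A hA hDA) _)
  have hb0 : ∀ A, DD z A = 0 → b A = 0 := by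
    intro A h; simp [hbdef, h]
  have hbnn : ∀ A ∈ Ps (m + 1) N, 0 ≤ b A := by
    intro A hA
    by_cases h : DD z A = 0
    · rw [hb0 A h]
    · exact (hbpos A hA h).le
  have hBpos : 0 < B := by
    obtain ⟨A, hA, hDA⟩ : ∃ A ∈ Ps (m + 1) N, DD z A ≠ 0 := by
      by_contra hcon
      push Not at hcon
      have : Dt z = 0 := Finset.sum_eq_zero fun A hA => hcon A hA
      linarith
    exact Finset.sum_pos' hbnn ⟨A, hA, hbpos A hA hDA⟩
  have hν : ∀ A ∈ Ps (m + 1) N, DD z A ≠ 0 → 0 < V * b A / B := by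
    intro A hA hDA
    have := hbpos A hA hDA
    positivity
  have hνsum : (∑ A ∈ Ps (m + 1) N, if DD z A = 0 then 0 else V * b A / B) = volume.real L := by
    have : ∀ A ∈ Ps (m + 1) N, (if DD z A = 0 then 0 else V * b A / B) = V / B * b A := by
      intro A _
      split_ifs with h
      · rw [hb0 A h]; simp
      · ring
    rw [Finset.sum_congr rfl this, ← Finset.mul_sum, ← hBdef]
    field_simp
    rfl
  have hC := hCORE m N z L s w (fun A => V * b A / B) hL hD hs0 hw0 hwL hν hνsum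
  -- the left-hand side
  have hterm : ∀ A ∈ Ps (m + 1) N, ((m : ℝ) + 1) *
      (if DD z A = 0 then 0 else
        ((∏ j ∈ A, s (A.erase j)) * (DD z A ^ m * (V * b A / B))) ^ (1 / ((m : ℝ) + 1))) =
      ((m : ℝ) + 1) * (V / B) ^ (1 / ((m : ℝ) + 1)) * b A := by
    intro A hA
    split_ifs with h
    · rw [hb0 A h]; simp
    · have hP := hPpos A hA h
      have hbA := hbpos A hA h
      have e1 : (∏ j ∈ A, s (A.erase j)) * DD z A ^ m = b A ^ m := by
        simp only [hbdef]
        rw [mul_pow, ← Real.rpow_natCast (P A ^ (1 / (m : ℝ))) m, ← Real.rpow_mul hP.le,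
          one_div_mul_cancel hm0, Real.rpow_one]
        ring
      have e2 : (∏ j ∈ A, s (A.erase j)) * (DD z A ^ m * (V * b A / B)) =
          b A ^ (m + 1) * (V / B) := by
        rw [← mul_assoc, e1]; ring
      rw [e2, Real.mul_rpow (by positivity) (by positivity)]
      have e3 : (b A ^ (m + 1)) ^ (1 / ((m : ℝ) + 1)) = b A := by
        rw [← Real.rpow_natCast, ← Real.rpow_mul hbA.le]
        have : ((m + 1 : ℕ) : ℝ) * (1 / ((m : ℝ) + 1)) = 1 := by
          push_cast; field_simp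
        rw [this, Real.rpow_one]
      rw [e3]; ring
  rw [Finset.sum_congr rfl hterm, ← Finset.mul_sum, ← hBdef] at hC
  -- the right-hand side
  have hR : ∑ I ∈ Ps m N, s I * w I = 2 * ((m + 1) * Dt z) := by
    rw [← hKSUM m N z, Finset.mul_sum]
    refine Finset.sum_congr rfl fun I hI => ?_
    by_cases h : X z I = 0
    · simp [hwdef, h, STRONG_kk_zero z I h]
    · have := hl I hI h
      simp only [hsdef, hwdef, if_neg h]
      field_simp
  rw [hR] at hC
  have hC2 : (V / B) ^ (1 / ((m : ℝ) + 1)) * B ≤ 2 * Dt z := by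
    have h1 : (0 : ℝ) < (m : ℝ) + 1 := by positivity
    have : ((m : ℝ) + 1) * ((V / B) ^ (1 / ((m : ℝ) + 1)) * B) ≤ ((m : ℝ) + 1) * (2 * Dt z) := by
      linarith
    exact le_of_mul_le_mul_left this h1
  have hC3 : V * B ^ m ≤ (2 * Dt z) ^ (m + 1) := by
    have h1 := pow_le_pow_left₀ (by positivity) hC2 (m + 1)
    have h2 : ((V / B) ^ (1 / ((m : ℝ) + 1)) * B) ^ (m + 1) = V * B ^ m := by
      rw [mul_pow, ← Real.rpow_natCast ((V / B) ^ (1 / ((m : ℝ) + 1))) (m + 1),
        ← Real.rpow_mul (by positivity)]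
      have : (1 / ((m : ℝ) + 1)) * ((m + 1 : ℕ) : ℝ) = 1 := by
        push_cast; field_simp
      rw [this, Real.rpow_one, pow_succ]
      field_simp
    rwa [h2] at h1
  have hLHS : ∑ A ∈ Ps (m + 1) N, DD z A / Dt z *
      (∏ j ∈ A, kk z (A.erase j) / l (A.erase j)) ^ (1 / (m : ℝ)) = B / Dt z := by
    rw [hBdef, Finset.sum_div]
    refine Finset.sum_congr rfl fun A _ => ?_
    simp only [hbdef, hPdef, hsdef]
    ring
  rw [hLHS]
  have hq : (B / Dt z) ^ m ≤ 2 ^ (m + 1) * Dt z / V := by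
    rw [div_pow, div_le_div_iff₀ (by positivity) hV]
    calc B ^ m * V ≤ (2 * Dt z) ^ (m + 1) := by linarith
      _ = 2 ^ (m + 1) * Dt z * Dt z ^ m := by rw [mul_pow, pow_succ (Dt z)]; ring
  calc B / Dt z = ((B / Dt z) ^ m) ^ (1 / (m : ℝ)) := by
        rw [← Real.rpow_natCast, ← Real.rpow_mul (by positivity), mul_one_div_cancel hm0,
          Real.rpow_one]
    _ ≤ _ := Real.rpow_le_rpow (by positivity) hq (by positivity)

end H354ZN
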