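import Pool.Agent.H354R3.ZN.Defs

set_option autoImplicit false

namespace H354ZN

theorem t_SWAP : S_SWAP := by
  intro m N g
  rw [Finset.sum_sigma', Finset.sum_sigma']
  refine Finset.sum_bij' (fun x _ => ⟨insert x.2 x.1, x.2⟩) (fun x _ => ⟨x.1.erase x.2, x.2⟩)
    ?_ ?_ ?_ ?_ ?_
  · rintro ⟨I, j⟩ h
    simp only [Finset.mem_sigma, Ps, Finset.mem_powersetCard_univ, Finset.mem_compl] at h ⊢
    exact ⟨by rw [Finset.card_insert_of_notMem h.2, h.1], Finset.mem_insert_self _ _⟩
  · rintro ⟨A, j⟩ h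
    simp only [Finset.mem_sigma, Ps, Finset.mem_powersetCard_univ, Finset.mem_compl] at h ⊢
    exact ⟨by rw [Finset.card_erase_of_mem h.2, h.1]; rfl, Finset.notMem_erase _ _⟩
  · rintro ⟨I, j⟩ h
    simp only [Finset.mem_sigma, Finset.mem_compl] at h
    simp only [Finset.erase_insert h.2]
  · rintro ⟨A, j⟩ h
    simp only [Finset.mem_sigma] at h
    simp only [Finset.insert_erase h.2]
  · rintro ⟨I, j⟩ h
    simp only [Finset.mem_sigma, Finset.mem_compl] at h
    simp only [Finset.erase_insert h.2]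

end H354ZN
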