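import Pool.Agent.H354R3.ZN.Defs2

/-!
# The strengthened logarithmic Minkowski inequality
-/

set_option autoImplicit false

open MeasureTheory
open scoped Matrix Pointwise

namespace H354ZN

theorem t1f_cont {n : ℕ} (v : Fin n → ℝ) : Continuous fun x : Fin n → ℝ => v ⬝ᵥ x := by
  unfold dotProduct
  fun_prop

theorem t1f_bdd {n : ℕ} (v : Fin n → ℝ) {L : Set (Fin n → ℝ)} (hL : IsCompact L) :
    BddAbove ((fun x => v ⬝ᵥ x) '' L) :=
  (hL.image (t1f_cont v)).bddAbove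

theorem t1f_abs {n : ℕ} (v : Fin n → ℝ) {L : Set (Fin n → ℝ)} (hL : IsCompact L)
    (hs : ∀ x ∈ L, -x ∈ L) (x : Fin n → ℝ) (hx : x ∈ L) :
    |v ⬝ᵥ x| ≤ sSup ((fun x => v ⬝ᵥ x) '' L) := by
  rw [abs_le']
  constructor
  · exact le_csSup (t1f_bdd v hL) ⟨x, hx, rfl⟩
  · refine le_csSup (t1f_bdd v hL) ⟨-x, hs x hx, ?_⟩
    simp

theorem t1f_pos {n : ℕ} (v : Fin n → ℝ) (hv : v ≠ 0) {L : Set (Fin n → ℝ)} (hL : IsCompact L)
    (hs : ∀ x ∈ L, -x ∈ L) (hi : (interior L).Nonempty) :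
    0 < sSup ((fun x => v ⬝ᵥ x) '' L) := by
  by_contra hcon
  rw [not_lt] at hcon
  have h0 : ∀ x ∈ L, v ⬝ᵥ x = 0 := by
    intro x hx
    have := (t1f_abs v hL hs x hx).trans hcon
    exact abs_eq_zero.1 (le_antisymm this (abs_nonneg _))
  obtain ⟨y, hy⟩ := hi
  have hyL : y ∈ L := interior_subset hy
  have hcont : Continuous fun ε : ℝ => y + ε • v := by fun_prop
  have hnh : (fun ε : ℝ => y + ε • v) ⁻¹' interior L ∈ nhds (0 : ℝ) := by
    apply (isOpen_interior.preimage hcont).mem_nhds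
    simpa using hy
  obtain ⟨ε, hε, hε2⟩ := Metric.mem_nhds_iff.1 hnh
  have hmem : (ε / 2) ∈ Metric.ball (0 : ℝ) ε := by
    rw [Metric.mem_ball, Real.dist_eq, sub_zero, abs_of_pos (by linarith)]
    linarith
  have h1 : y + (ε / 2) • v ∈ L := interior_subset (hε2 hmem)
  have h2 := h0 _ h1
  rw [dotProduct_add, h0 y hyL, dotProduct_smul, zero_add, smul_eq_mul] at h2
  have h3 : v ⬝ᵥ v = 0 := by
    rcases mul_eq_zero.1 h2 with h | h
    · linarith
    · exact h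
  exact hv (dotProduct_self_eq_zero.1 h3)

theorem t_T1F (hS : S_STRONG) (hG : S_LOG) (hT : S_TILE) (hV : S_VOL) (hP : S_POS) : S_T1 := by
  intro m N z L hm hZ hL hs hi
  have hD : 0 < Dt z := hP m N z hZ
  have hvol : volume.real (Zon z) = 2 ^ (m + 1) * Dt z :=
    le_antisymm (hV m N z hD) (hT m N z)
  have hLv : 0 < volume.real L := by
    have h1 : 0 < volume L := (isOpen_interior.measure_pos volume hi).trans_le
      (measure_mono interior_subset)
    exact ENNReal.toReal_pos h1.ne' hL.measure_lt_top.ne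
  have hl : ∀ I ∈ Ps m N, X z I ≠ 0 → 0 < sSup ((fun x => X z I ⬝ᵥ x) '' L) :=
    fun I _ hX => t1f_pos _ hX hL hs hi
  have hl2 : ∀ I ∈ Ps m N, X z I ≠ 0 → ∀ x ∈ L,
      |X z I ⬝ᵥ x| ≤ sSup ((fun x => X z I ⬝ᵥ x) '' L) :=
    fun I _ _ x hx => t1f_abs _ hL hs x hx
  have h2 : (2 : ℝ) ^ (m + 1) ≠ 0 := by positivity
  constructor
  · have h := hS m N z L (fun I => sSup ((fun x => X z I ⬝ᵥ x) '' L)) hm hL hLv hD hl hl2
    rw [hvol]
    refine le_trans (le_of_eq ?_) h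
    apply Finset.sum_congr rfl
    intro A _
    rw [mul_div_mul_left _ _ h2]
  · have h := hG m N z L (fun I => sSup ((fun x => X z I ⬝ᵥ x) '' L)) hL hLv hD hl hl2
    rw [hvol]
    refine le_trans (le_of_eq ?_) h
    apply Finset.sum_congr rfl
    intro I _
    rw [mul_div_mul_left _ _ h2]

end H354ZN
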