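import Mathlib

/-!
# Logarithmic Minkowski inequality for zonotopes against arbitrary bodies: definitions, statements

`z : Fin N → ℝ^(m+1)` are the generators.  `I` is a set of `m` indices, `A` a set of `m+1` indices.
All steps are `Prop`s `S_XXX` (helper354).
-/

set_option autoImplicit false

open MeasureTheory
open scoped Matrix Pointwise

namespace H354ZN

variable {m N : ℕ}

/-- `m+1` rows: first `x`, then the generators `z i`, `i ∈ I`, in increasing order -/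
noncomputable def rows (z : Fin N → Fin (m + 1) → ℝ) (I : Finset (Fin N)) (h : I.card = m)
    (x : Fin (m + 1) → ℝ) : Fin (m + 1) → Fin (m + 1) → ℝ :=
  Fin.cons x fun i => z (I.orderEmbOfFin h i)

/-- the generalised cross product of the generators `z i`, `i ∈ I` (zero if `I` does not have `m`
elements): `X z I ⬝ᵥ x = det (x, z_I)` -/
noncomputable def X (z : Fin N → Fin (m + 1) → ℝ) (I : Finset (Fin N)) : Fin (m + 1) → ℝ :=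
  if h : I.card = m then fun k => Matrix.det (Matrix.of (rows z I h (Pi.single k 1))) else 0

/-- the absolute value of the determinant of the generators `z i`, `i ∈ A` -/
noncomputable def DD (z : Fin N → Fin (m + 1) → ℝ) (A : Finset (Fin N)) : ℝ :=
  if h : A.card = m + 1 then |Matrix.det (Matrix.of fun i => z (A.orderEmbOfFin h i))| else 0

/-- the zonotope `∑ [-z_j, z_j]` -/
def Zon (z : Fin N → Fin (m + 1) → ℝ) : Set (Fin (m + 1) → ℝ) :=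
  {x | ∃ t : Fin N → ℝ, (∀ j, |t j| ≤ 1) ∧ x = ∑ j, t j • z j}

/-- support function of the zonotope at the cross product `X z I` -/
noncomputable def kk (z : Fin N → Fin (m + 1) → ℝ) (I : Finset (Fin N)) : ℝ :=
  ∑ j, |X z I ⬝ᵥ z j|

/-- the `m`-element index sets -/
def Ps (m N : ℕ) : Finset (Finset (Fin N)) := Finset.powersetCard m Finset.univ

/-- sum of all determinants -/
noncomputable def Dt (z : Fin N → Fin (m + 1) → ℝ) : ℝ := ∑ A ∈ Ps (m + 1) N, DD z A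

/-! ## linear algebra -/

/-- (DOT) -/
def S_DOT : Prop := ∀ (m N : ℕ) (z : Fin N → Fin (m + 1) → ℝ) (I : Finset (Fin N))
  (h : I.card = m) (x : Fin (m + 1) → ℝ), X z I ⬝ᵥ x = Matrix.det (Matrix.of (rows z I h x))

/-- (PERM0) the cross product is orthogonal to its factors -/
def S_PERM0 : Prop := ∀ (m N : ℕ) (z : Fin N → Fin (m + 1) → ℝ) (I : Finset (Fin N)) (j : Fin N),
  I.card = m → j ∈ I → X z I ⬝ᵥ z j = 0

/-- (PERM1) -/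
def S_PERM1 : Prop := ∀ (m N : ℕ) (z : Fin N → Fin (m + 1) → ℝ) (I : Finset (Fin N)) (j : Fin N),
  I.card = m → j ∉ I → |X z I ⬝ᵥ z j| = DD z (insert j I)

/-- (COF) the determinant of the cross products of the `m`-subsets of `A` -/
def S_COF : Prop := ∀ (m N : ℕ) (z : Fin N → Fin (m + 1) → ℝ) (A : Finset (Fin N))
  (h : A.card = m + 1), DD z A ≠ 0 →
  |Matrix.det (Matrix.of fun i => X z (A.erase (A.orderEmbOfFin h i)))| = DD z A ^ m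

/-- (SITE) -/
def S_SITE : Prop := ∀ (m N : ℕ) (z : Fin N → Fin (m + 1) → ℝ) (A : Finset (Fin N)) (c : Fin N → ℝ),
  DD z A ≠ 0 → ∃ ξ : Fin (m + 1) → ℝ, ∀ i ∈ A, z i ⬝ᵥ ξ = c i

/-- (LINE) -/
def S_LINE : Prop := ∀ (m N : ℕ) (z : Fin N → Fin (m + 1) → ℝ) (I : Finset (Fin N))
  (η : Fin (m + 1) → ℝ), I.card = m → X z I ≠ 0 → (∀ i ∈ I, z i ⬝ᵥ η = 0) →
  ∃ τ : ℝ, η = τ • X z I

/-- (GEN) generic right-hand sides give different sites -/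
def S_GEN : Prop := ∀ (m N : ℕ) (z : Fin N → Fin (m + 1) → ℝ), ∃ c : Fin N → ℝ,
  ∀ A B : Finset (Fin N), DD z A ≠ 0 → DD z B ≠ 0 → A ≠ B → ∀ ξ : Fin (m + 1) → ℝ,
    (∀ i ∈ A, z i ⬝ᵥ ξ = c i) → ¬ ∀ i ∈ B, z i ⬝ᵥ ξ = c i

/-! ## counting, the line, parallelepipeds -/

/-- (SWAP) double counting -/
def S_SWAP : Prop := ∀ (m N : ℕ) (g : Finset (Fin N) → Fin N → ℝ),
  ∑ I ∈ Ps m N, ∑ j ∈ Iᶜ, g I j = ∑ A ∈ Ps (m + 1) N, ∑ j ∈ A, g (A.erase j) j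

/-- (CHAIN) sets on a line which are ordered -/
def S_CHAIN : Prop := ∀ (κ : Type) [Fintype κ] (t : κ → ℝ) (T : κ → Set ℝ) (a b : ℝ), a ≤ b →
  Function.Injective t → (∀ k l, t l < t k → ∀ x ∈ T k, ∀ y ∈ T l, y ≤ x) →
  (∀ k, (T k).Nonempty) → (∀ k, ∀ x ∈ T k, a ≤ x ∧ x ≤ b) →
  ∃ w : κ → ℝ, (∀ k, 0 ≤ w k) ∧ (∀ k, ∀ x ∈ T k, ∀ y ∈ T k, x - y ≤ w k) ∧ ∑ k, w k ≤ b - a

/-- (PARA) a set inside a parallelepiped -/
def S_PARA : Prop := ∀ (n : ℕ) (a : Fin n → Fin n → ℝ) (S : Set (Fin n → ℝ)) (w : Fin n → ℝ),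
  (∀ i, 0 ≤ w i) → (∀ i, ∀ x ∈ S, ∀ y ∈ S, a i ⬝ᵥ x - a i ⬝ᵥ y ≤ w i) →
  |Matrix.det (Matrix.of a)| * volume.real S ≤ ∏ i, w i

/-- (TILE) the volume of the zonotope is at least the sum of the volumes of the tiles -/
def S_TILE : Prop := ∀ (m N : ℕ) (z : Fin N → Fin (m + 1) → ℝ),
  2 ^ (m + 1) * Dt z ≤ volume.real (Zon z)

/-! ## the inequality -/

/-- (CORE) -/
def S_CORE : Prop := ∀ (m N : ℕ) (z : Fin N → Fin (m + 1) → ℝ) (L : Set (Fin (m + 1) → ℝ))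
  (s w ν : Finset (Fin N) → ℝ), IsCompact L → 0 < Dt z → (∀ I ∈ Ps m N, 0 ≤ s I) →
  (∀ I ∈ Ps m N, 0 ≤ w I) →
  (∀ I ∈ Ps m N, ∀ x ∈ L, ∀ y ∈ L, X z I ⬝ᵥ x - X z I ⬝ᵥ y ≤ w I) →
  (∀ A ∈ Ps (m + 1) N, DD z A ≠ 0 → 0 < ν A) →
  (∑ A ∈ Ps (m + 1) N, if DD z A = 0 then 0 else ν A) = volume.real L →
  ∑ A ∈ Ps (m + 1) N, ((m : ℝ) + 1) *
      (if DD z A = 0 then 0 else
        ((∏ j ∈ A, s (A.erase j)) * (DD z A ^ m * ν A)) ^ (1 / ((m : ℝ) + 1))) ≤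
    ∑ I ∈ Ps m N, s I * w I

/-- (KSUM) -/
def S_KSUM : Prop := ∀ (m N : ℕ) (z : Fin N → Fin (m + 1) → ℝ),
  ∑ I ∈ Ps m N, kk z I = (m + 1) * Dt z

/-- (STRONG) the power form: `l I` bounds the support function of `L` at `± X z I` -/
def S_STRONG : Prop := ∀ (m N : ℕ) (z : Fin N → Fin (m + 1) → ℝ) (L : Set (Fin (m + 1) → ℝ))
  (l : Finset (Fin N) → ℝ), 1 ≤ m → IsCompact L → 0 < volume.real L → 0 < Dt z →
  (∀ I ∈ Ps m N, X z I ≠ 0 → 0 < l I) →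
  (∀ I ∈ Ps m N, X z I ≠ 0 → ∀ x ∈ L, |X z I ⬝ᵥ x| ≤ l I) →
  ∑ A ∈ Ps (m + 1) N, DD z A / Dt z * (∏ j ∈ A, kk z (A.erase j) / l (A.erase j)) ^ (1 / (m : ℝ)) ≤
    (2 ^ (m + 1) * Dt z / volume.real L) ^ (1 / (m : ℝ))

/-- (LOG) the logarithmic form -/
def S_LOG : Prop := ∀ (m N : ℕ) (z : Fin N → Fin (m + 1) → ℝ) (L : Set (Fin (m + 1) → ℝ))
  (l : Finset (Fin N) → ℝ), IsCompact L → 0 < volume.real L → 0 < Dt z →
  (∀ I ∈ Ps m N, X z I ≠ 0 → 0 < l I) →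
  (∀ I ∈ Ps m N, X z I ≠ 0 → ∀ x ∈ L, |X z I ⬝ᵥ x| ≤ l I) →
  ∑ I ∈ Ps m N, kk z I / Dt z * Real.log (kk z I / l I) ≤
    Real.log (2 ^ (m + 1) * Dt z / volume.real L)

/-! ## Wulff shapes and sections -/

/-- (ACT) the facets of a zonotope which is the Wulff shape of a continuous positive function `f`
are active -/
def S_ACT : Prop := ∀ (m N : ℕ) (z : Fin N → Fin (m + 1) → ℝ)
  (f : (Fin (m + 1) → ℝ) → ℝ), ContinuousOn f {u | u ≠ 0} →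
  (∀ u, u ≠ 0 → 0 < f u) → (∀ (c : ℝ) u, 0 < c → f (c • u) = c * f u) →
  Zon z = {x | ∀ u : Fin (m + 1) → ℝ, u ≠ 0 → u ⬝ᵥ x ≤ f u} →
  ∀ I ∈ Ps m N, X z I ≠ 0 → f (X z I) ≤ kk z I

/-- (ACTS) the same for finitely many slabs -/
def S_ACTS : Prop := ∀ (m N p : ℕ) (z : Fin N → Fin (m + 1) → ℝ)
  (v : Fin p → Fin (m + 1) → ℝ) (r : Fin p → ℝ), (∀ i, 0 < r i) →
  Zon z = {x | ∀ i, |v i ⬝ᵥ x| ≤ r i} →
  ∀ I ∈ Ps m N, X z I ≠ 0 → ∃ (i : Fin p) (c : ℝ), c ≠ 0 ∧ X z I = c • v i ∧ kk z I = |c| * r i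

/-- (POS) a zonotope with interior points has a nonzero determinant -/
def S_POS : Prop := ∀ (m N : ℕ) (z : Fin N → Fin (m + 1) → ℝ),
  (interior (Zon z)).Nonempty → 0 < Dt z

/-- (MULT) log-Brunn-Minkowski with a zonotope in the middle, in the form of the facets -/
def S_MULT : Prop := ∀ (m N q : ℕ) (z : Fin N → Fin (m + 1) → ℝ)
  (K : Fin q → Set (Fin (m + 1) → ℝ)) (l : Fin q → Finset (Fin N) → ℝ) (t : Fin q → ℝ),
  0 < Dt z → (∀ i, IsCompact (K i)) → (∀ i, 0 < volume.real (K i)) →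
  (∀ i, 0 ≤ t i) → ∑ i, t i = 1 →
  (∀ i, ∀ I ∈ Ps m N, X z I ≠ 0 → 0 < l i I ∧ ∀ x ∈ K i, |X z I ⬝ᵥ x| ≤ l i I) →
  (∀ I ∈ Ps m N, X z I ≠ 0 → ∏ i, l i I ^ t i ≤ kk z I) →
  ∏ i, volume.real (K i) ^ t i ≤ volume.real (Zon z)

end H354ZN
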