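import Mathlib
import Pool.Agent.H354R3.ZN.Defs

/-!
# (TILE) the tiles of the zonotope do not overlap (helper794)
-/

set_option autoImplicit false

open MeasureTheory
open scoped Matrix Pointwise

namespace H354ZN

namespace TILEh

variable {m N : ℕ}

theorem sum_orderEmb {E : Type*} [AddCommMonoid E] (A : Finset (Fin N)) (h : A.card = m + 1)
    (f : Fin N → E) : ∑ j ∈ A, f j = ∑ i, f (A.orderEmbOfFin h i) := by
  rw [← Finset.sum_coe_sort A f, ← Equiv.sum_comp (A.orderIsoOfFin h).toEquiv]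
  rfl

theorem isCompact_Zon (z : Fin N → Fin (m + 1) → ℝ) : IsCompact (Zon z) := by
  have h : Zon z = (fun t : Fin N → ℝ => ∑ j, t j • z j) '' (Set.Icc (fun _ => -1) (fun _ => 1)) := by
    ext x
    constructor
    · rintro ⟨t, ht, rfl⟩
      exact ⟨t, ⟨fun j => (abs_le.1 (ht j)).1, fun j => (abs_le.1 (ht j)).2⟩, rfl⟩
    · rintro ⟨t, ⟨h1, h2⟩, rfl⟩
      exact ⟨t, fun j => abs_le.2 ⟨h1 j, h2 j⟩, rfl⟩
  rw [h]
  apply isCompact_Icc.image
  fun_prop

theorem hyper_null (v : Fin (m + 1) → ℝ) (hv : v ≠ 0) (c : ℝ) :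
    volume {x : Fin (m + 1) → ℝ | x ⬝ᵥ v = c} = 0 := by
  set S : AffineSubspace ℝ (Fin (m + 1) → ℝ) :=
    { carrier := {x | x ⬝ᵥ v = c}
      smul_vsub_vadd_mem' := by
        intro r p₁ p₂ p₃ h1 h2 h3
        simp only [Set.mem_ofPred_eq, vsub_eq_sub, vadd_eq_add] at *
        rw [add_dotProduct, smul_dotProduct, sub_dotProduct, h1, h2, h3]
        simp } with hS
  have h1 : (S : Set (Fin (m + 1) → ℝ)) = {x | x ⬝ᵥ v = c} := rfl
  rw [← h1]
  apply Measure.addHaar_affineSubspace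
  intro htop
  have h2 : ∀ x : Fin (m + 1) → ℝ, x ⬝ᵥ v = c := by
    intro x
    have : x ∈ S := by rw [htop]; trivial
    exact this
  have h3 := h2 0
  rw [zero_dotProduct] at h3
  have h4 := h2 v
  rw [← h3] at h4
  exact hv (dotProduct_self_eq_zero.1 h4)

/-- sign -/
noncomputable def sg (r : ℝ) : ℝ := if 0 ≤ r then 1 else -1

theorem sg_mul (r : ℝ) : sg r * r = |r| := by
  unfold sg
  split_ifs with h
  · rw [one_mul, abs_of_nonneg h]
  · rw [neg_one_mul, abs_of_neg (not_le.1 h)]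

theorem sg_abs (r : ℝ) : |sg r| ≤ 1 := by
  unfold sg
  split_ifs <;> simp

theorem tile (z : Fin N → Fin (m + 1) → ℝ) (c : Fin N → ℝ) (A : Finset (Fin N))
    (h : A.card = m + 1) (ξ : Fin (m + 1) → ℝ) (hξ : ∀ i ∈ A, z i ⬝ᵥ ξ = c i) :
    ∃ T : Set (Fin (m + 1) → ℝ), MeasurableSet T ∧ T ⊆ Zon z ∧
      volume T = ENNReal.ofReal (2 ^ (m + 1) * DD z A) ∧
      ∀ x ∈ T, ∀ η : Fin (m + 1) → ℝ,
        x ⬝ᵥ (η - ξ) ≤ ∑ j, |z j ⬝ᵥ η - c j| - ∑ j, |z j ⬝ᵥ ξ - c j| := by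
  classical
  set e := A.orderEmbOfFin h with he
  set M : Matrix (Fin (m + 1)) (Fin (m + 1)) ℝ := Matrix.of fun i => z (e i) with hM
  set v : Fin (m + 1) → ℝ := ∑ j ∈ Aᶜ, sg (z j ⬝ᵥ ξ - c j) • z j with hv
  set C : Set (Fin (m + 1) → ℝ) := Set.Icc (fun _ => -1) (fun _ => 1) with hC
  set L := Matrix.toLin' Mᵀ with hL
  set ts : (Fin (m + 1) → ℝ) → Fin N → ℝ := fun s j =>
    if hj : j ∈ A then s ((A.orderIsoOfFin h).symm ⟨j, hj⟩) else sg (z j ⬝ᵥ ξ - c j) with hts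
  have hts_e : ∀ s i, ts s (e i) = s i := by
    intro s i
    have hmem : e i ∈ A := A.orderEmbOfFin_mem h i
    simp only [hts, dif_pos hmem]
    congr 1
    have : (⟨e i, hmem⟩ : A) = A.orderIsoOfFin h i := by
      apply Subtype.ext; rfl
    rw [this, OrderIso.symm_apply_apply]
  have hts_n : ∀ s j, j ∉ A → ts s j = sg (z j ⬝ᵥ ξ - c j) := by
    intro s j hj
    simp only [hts, dif_neg hj]
  have hsum : ∀ s, ∑ j, ts s j • z j = v + L s := by
    intro s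
    rw [← Finset.sum_add_sum_compl A (fun j => ts s j • z j)]
    rw [show ∑ i ∈ A, ts s i • z i + ∑ i ∈ Aᶜ, ts s i • z i =
      ∑ i ∈ Aᶜ, ts s i • z i + ∑ i ∈ A, ts s i • z i from add_comm _ _]
    congr 1
    · refine Finset.sum_congr rfl (fun j hj => ?_)
      rw [hts_n s j (Finset.mem_compl.1 hj)]
    · rw [sum_orderEmb A h]
      have h1 : ∀ i, ts s (A.orderEmbOfFin h i) • z (A.orderEmbOfFin h i) = s i • z (e i) := by
        intro i
        rw [← he, hts_e]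
      rw [Finset.sum_congr rfl (fun i _ => h1 i)]
      ext k
      simp only [hL, Matrix.toLin'_apply, Matrix.mulVec, dotProduct, Finset.sum_apply,
        Pi.smul_apply, smul_eq_mul, Matrix.transpose_apply, hM, Matrix.of_apply]
      refine Finset.sum_congr rfl (fun i _ => by ring)
  have hts_abs : ∀ s ∈ C, ∀ j, |ts s j| ≤ 1 := by
    intro s hs j
    by_cases hj : j ∈ A
    · simp only [hts, dif_pos hj]
      exact abs_le.2 ⟨hs.1 _, hs.2 _⟩
    · rw [hts_n s j hj]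
      exact sg_abs _
  have hCc : IsCompact C := isCompact_Icc
  have himg : IsCompact ((fun s => v + L s) '' C) := by
    apply hCc.image
    have : Continuous L := L.continuous_of_finiteDimensional
    fun_prop
  refine ⟨(fun s => v + L s) '' C, himg.measurableSet, ?_, ?_, ?_⟩
  · rintro x ⟨s, hs, rfl⟩
    exact ⟨ts s, hts_abs s hs, (hsum s).symm⟩
  · have h1 : (fun s => v + L s) '' C = (fun x => v + x) '' (L '' C) := by
      rw [Set.image_image]
    rw [h1, Set.image_add_left, measure_preimage_add, Measure.addHaar_image_linearMap]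
    have h2 : LinearMap.det L = M.det := by
      rw [hL, LinearMap.det_toLin', Matrix.det_transpose]
    have h3 : volume C = ENNReal.ofReal (2 ^ (m + 1)) := by
      rw [hC, Real.volume_Icc_pi]
      simp only [sub_neg_eq_add, Finset.prod_const, Finset.card_univ, Fintype.card_fin]
      rw [show (1 : ℝ) + 1 = 2 by norm_num, ENNReal.ofReal_pow (by norm_num)]
    have h4 : DD z A = |M.det| := by
      unfold DD
      rw [dif_pos h]
    rw [h2, h3, h4, ← ENNReal.ofReal_mul (abs_nonneg _), mul_comm]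
  · rintro x ⟨s, hs, rfl⟩ η
    simp only
    rw [← hsum s, ← Finset.sum_sub_distrib, sum_dotProduct]
    refine Finset.sum_le_sum (fun j _ => ?_)
    rw [smul_dotProduct, dotProduct_sub, smul_eq_mul]
    have h1 : ts s j * (z j ⬝ᵥ η - c j) ≤ |z j ⬝ᵥ η - c j| := by
      calc ts s j * (z j ⬝ᵥ η - c j) ≤ |ts s j * (z j ⬝ᵥ η - c j)| := le_abs_self _
        _ = |ts s j| * |z j ⬝ᵥ η - c j| := abs_mul _ _
        _ ≤ 1 * |z j ⬝ᵥ η - c j| := by
            have := hts_abs s hs j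
            gcongr
        _ = _ := one_mul _
    have h2 : ts s j * (z j ⬝ᵥ ξ - c j) = |z j ⬝ᵥ ξ - c j| := by
      by_cases hj : j ∈ A
      · rw [hξ j hj]; simp
      · rw [hts_n s j hj, sg_mul]
    have h3 : ts s j * (z j ⬝ᵥ η - z j ⬝ᵥ ξ) =
        ts s j * (z j ⬝ᵥ η - c j) - ts s j * (z j ⬝ᵥ ξ - c j) := by ring
    rw [h3, h2]
    linarith

end TILEh

open TILEh

theorem t_TILE (hG : S_GEN) (hS : S_SITE) : S_TILE := by
  classical
  intro m N z
  obtain ⟨c, hc⟩ := hG m N z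
  set 𝒜 : Finset (Finset (Fin N)) := (Ps (m + 1) N).filter (fun A => DD z A ≠ 0) with h𝒜
  have hcard : ∀ A ∈ 𝒜, A.card = m + 1 := fun A hA =>
    (Finset.mem_powersetCard.1 (Finset.mem_filter.1 hA).1).2
  have hDD : ∀ A ∈ 𝒜, DD z A ≠ 0 := fun A hA => (Finset.mem_filter.1 hA).2
  have hsite : ∀ A : Finset (Fin N), ∃ ξ : Fin (m + 1) → ℝ, A ∈ 𝒜 → ∀ i ∈ A, z i ⬝ᵥ ξ = c i := by
    intro A
    by_cases hA : A ∈ 𝒜
    · obtain ⟨ξ, hξ⟩ := hS m N z A c (hDD A hA)
      exact ⟨ξ, fun _ => hξ⟩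
    · exact ⟨0, fun h => absurd h hA⟩
  choose ξ hξ using hsite
  have htile : ∀ A : Finset (Fin N), ∃ T : Set (Fin (m + 1) → ℝ), A ∈ 𝒜 →
      MeasurableSet T ∧ T ⊆ Zon z ∧
      volume T = ENNReal.ofReal (2 ^ (m + 1) * DD z A) ∧
      ∀ x ∈ T, ∀ η : Fin (m + 1) → ℝ,
        x ⬝ᵥ (η - ξ A) ≤ ∑ j, |z j ⬝ᵥ η - c j| - ∑ j, |z j ⬝ᵥ ξ A - c j| := by
    intro A
    by_cases hA : A ∈ 𝒜
    · obtain ⟨T, hT⟩ := tile z c A (hcard A hA) (ξ A) (hξ A hA)
      exact ⟨T, fun _ => hT⟩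
    · exact ⟨∅, fun h => absurd h hA⟩
  choose T hT using htile
  have hdisj : Set.Pairwise (𝒜 : Set (Finset (Fin N))) (Function.onFun (AEDisjoint volume) T) := by
    intro A hA B hB hAB
    have hA' : A ∈ 𝒜 := hA
    have hB' : B ∈ 𝒜 := hB
    have hne : ξ B - ξ A ≠ 0 := by
      intro h
      have h1 : ξ B = ξ A := sub_eq_zero.1 h
      apply hc A B (hDD A hA') (hDD B hB') hAB (ξ A) (hξ A hA')
      rw [← h1]
      exact hξ B hB'
    have hnull := hyper_null (ξ B - ξ A) hne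
      (∑ j, |z j ⬝ᵥ ξ B - c j| - ∑ j, |z j ⬝ᵥ ξ A - c j|)
    refine measure_mono_null ?_ hnull
    rintro x ⟨hxA, hxB⟩
    have h1 := (hT A hA').2.2.2 x hxA (ξ B)
    have h2 := (hT B hB').2.2.2 x hxB (ξ A)
    have h3 : x ⬝ᵥ (ξ A - ξ B) = -(x ⬝ᵥ (ξ B - ξ A)) := by
      rw [← dotProduct_neg]; congr 1; abel
    rw [h3] at h2
    show x ⬝ᵥ (ξ B - ξ A) = _
    linarith
  have hmeas : volume (⋃ A ∈ 𝒜, T A) = ∑ A ∈ 𝒜, volume (T A) :=
    measure_biUnion_finset₀ hdisj (fun A hA => (hT A hA).1.nullMeasurableSet)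
  have hsub : (⋃ A ∈ 𝒜, T A) ⊆ Zon z := by
    apply Set.iUnion₂_subset
    intro A hA
    exact (hT A hA).2.1
  have hle : ∑ A ∈ 𝒜, volume (T A) ≤ volume (Zon z) := by
    rw [← hmeas]; exact measure_mono hsub
  have hfin : volume (Zon z) ≠ ⊤ := (isCompact_Zon z).measure_lt_top.ne
  have hDD0 : ∀ A, 0 ≤ DD z A := by
    intro A
    unfold DD
    split_ifs
    · exact abs_nonneg _
    · exact le_rfl
  have hsum : ∑ A ∈ 𝒜, volume (T A) = ENNReal.ofReal (2 ^ (m + 1) * Dt z) := by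
    rw [Finset.sum_congr rfl (fun A hA => (hT A hA).2.2.1),
      ← ENNReal.ofReal_sum_of_nonneg (fun A _ => by have := hDD0 A; positivity)]
    congr 1
    rw [← Finset.mul_sum]
    congr 1
    rw [h𝒜, Dt, Finset.sum_filter_ne_zero]
  rw [hsum] at hle
  have h5 := (ENNReal.ofReal_le_iff_le_toReal hfin).1 hle
  exact h5

end H354ZN
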