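import Pool.Agent.H354R3.ZN.Defs2

/-!
# (VOL) the volume of a zonotope, upper bound
-/

set_option autoImplicit false

open MeasureTheory
open scoped Matrix Pointwise

namespace H354ZN

theorem VOL_compact {m N : ℕ} (z : Fin N → Fin (m + 1) → ℝ) : IsCompact (Zon z) := by
  have h : Zon z = (fun t : Fin N → ℝ => ∑ j, t j • z j) ''
      (Set.univ.pi fun _ => Set.Icc (-1 : ℝ) 1) := by
    ext x
    constructor
    · rintro ⟨t, ht, rfl⟩
      exact ⟨t, fun j _ => abs_le.1 (ht j), rfl⟩
    · rintro ⟨t, ht, rfl⟩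
      exact ⟨t, fun j => abs_le.2 (ht j (Set.mem_univ j)), rfl⟩
  rw [h]
  refine (isCompact_univ_pi fun _ => isCompact_Icc).image ?_
  exact continuous_finsetSum _ fun j _ => (continuous_apply j).smul continuous_const

theorem VOL_supp {m N : ℕ} (z : Fin N → Fin (m + 1) → ℝ) (I : Finset (Fin N))
    (x : Fin (m + 1) → ℝ) (hx : x ∈ Zon z) : |X z I ⬝ᵥ x| ≤ kk z I := by
  obtain ⟨t, ht, rfl⟩ := hx
  unfold kk
  rw [dotProduct_sum]
  refine (Finset.abs_sum_le_sum_abs _ _).trans (Finset.sum_le_sum fun j _ => ?_)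
  rw [dotProduct_smul, smul_eq_mul, abs_mul]
  exact mul_le_of_le_one_left (abs_nonneg _) (ht j)

/-- (VOL) -/
theorem t_VOL (hL : S_LOG) (hT : S_TILE) : S_VOL := by
  intro m N z hD
  have hv : 0 < volume.real (Zon z) := lt_of_lt_of_le (by positivity) (hT m N z)
  have hk : ∀ I, 0 ≤ kk z I := fun I => Finset.sum_nonneg fun j _ => abs_nonneg _
  have h := hL m N z (Zon z) (fun I => if kk z I = 0 then 1 else kk z I) (VOL_compact z) hv hD
    (by
      intro I _ _
      split_ifs with h0
      · exact one_pos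
      · exact lt_of_le_of_ne (hk I) (Ne.symm h0))
    (by
      intro I _ _ x hx
      have h1 := VOL_supp z I x hx
      split_ifs with h0
      · rw [h0] at h1
        linarith
      · exact h1)
  have h0 : ∑ I ∈ Ps m N, kk z I / Dt z *
      Real.log (kk z I / (if kk z I = 0 then 1 else kk z I)) = 0 := by
    apply Finset.sum_eq_zero
    intro I _
    by_cases h0 : kk z I = 0
    · rw [h0]; simp
    · rw [if_neg h0, div_self h0, Real.log_one, mul_zero]
  rw [h0] at h
  have hpos : 0 < 2 ^ (m + 1) * Dt z / volume.real (Zon z) := by positivity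
  have h1 : 1 ≤ 2 ^ (m + 1) * Dt z / volume.real (Zon z) := by
    by_contra hc
    push Not at hc
    exact absurd (Real.log_neg hpos hc) (not_lt.2 h)
  rwa [le_div_iff₀ hv, one_mul] at h1

end H354ZN
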