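import Pool.Agent.H354R3.ZN.Defs2

/-!
# (ZM) the general form in Euclidean space
-/

set_option autoImplicit false

open MeasureTheory
open scoped Matrix Pointwise

namespace H354ZN

theorem ZM_vol {n : ℕ} (K : Set (EuclideanSpace ℝ (Fin n))) :
    volume.real ((WithLp.toLp 2 : (Fin n → ℝ) → EuclideanSpace ℝ (Fin n)) ⁻¹' K) = volume.real K := by
  have h := (EuclideanSpace.volume_preserving_symm_measurableEquiv_toLp (Fin n)).symm
  unfold Measure.real
  congr 1
  exact h.measure_preimage_equiv K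

theorem ZM_inner {n : ℕ} (x u : Fin n → ℝ) :
    inner ℝ (WithLp.toLp 2 x : EuclideanSpace ℝ (Fin n)) (WithLp.toLp 2 u) = u ⬝ᵥ x := by
  rw [EuclideanSpace.inner_toLp_toLp]
  simp

theorem ZM_zon {n N : ℕ} (z : Fin N → EuclideanSpace ℝ (Fin n)) (x : Fin n → ℝ) :
    WithLp.toLp 2 x ∈ ZonE z ↔ ∃ t : Fin N → ℝ, (∀ j, |t j| ≤ 1) ∧ x = ∑ j, t j • WithLp.ofLp (z j) := by
  unfold ZonE
  constructor
  · rintro ⟨t, ht, h⟩
    refine ⟨t, ht, ?_⟩
    have := congrArg WithLp.ofLp h
    rw [WithLp.ofLp_toLp] at this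
    rw [this, WithLp.ofLp_sum]
    rfl
  · rintro ⟨t, ht, h⟩
    refine ⟨t, ht, ?_⟩
    rw [h, WithLp.toLp_sum]
    rfl

theorem t_ZM (hMULT : S_MULT) (hACT : S_ACT) (hPOS : S_POS) : S_ZM := by
  intro n q f K l t hn hfc hfpos hfhom hzon hKc hKv ht0 ht1 hl hlf
  obtain ⟨m, rfl⟩ : ∃ m, n = m + 1 := ⟨n - 1, by omega⟩
  obtain ⟨N, z, hz⟩ := hzon
  set W : Set (EuclideanSpace ℝ (Fin (m + 1))) :=
    {x : EuclideanSpace ℝ (Fin (m + 1)) | ∀ u, u ≠ 0 → inner ℝ x u ≤ f u} with hW
  set z' : Fin N → Fin (m + 1) → ℝ := fun j => WithLp.ofLp (z j) with hz'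
  set f' : (Fin (m + 1) → ℝ) → ℝ := fun u => f (WithLp.toLp 2 u) with hf'
  have hZ : Zon z' = (WithLp.toLp 2 : (Fin (m + 1) → ℝ) → EuclideanSpace ℝ (Fin (m + 1))) ⁻¹' W := by
    ext x
    rw [hz, Set.mem_preimage, ZM_zon]
    rfl
  have htl : Continuous (WithLp.toLp 2 : (Fin (m + 1) → ℝ) → EuclideanSpace ℝ (Fin (m + 1))) :=
    PiLp.continuous_toLp 2 _
  have hne : ∀ u : Fin (m + 1) → ℝ, u ≠ 0 → (WithLp.toLp 2 u : EuclideanSpace ℝ (Fin (m + 1))) ≠ 0 := by
    intro u hu h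
    apply hu
    have := congrArg WithLp.ofLp h
    simpa using this
  have hZf : Zon z' = {x | ∀ u : Fin (m + 1) → ℝ, u ≠ 0 → u ⬝ᵥ x ≤ f' u} := by
    rw [hZ]
    ext x
    rw [Set.mem_preimage, hW, Set.mem_setOf_eq, Set.mem_setOf_eq]
    constructor
    · intro h u hu
      have := h _ (hne u hu)
      rwa [ZM_inner] at this
    · intro h u hu
      have hu' : WithLp.ofLp u ≠ 0 := by
        intro h0
        apply hu
        have := congrArg (WithLp.toLp 2) h0
        simpa using this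
      have h1 := h _ hu'
      have h2 := ZM_inner x (WithLp.ofLp u)
      rw [WithLp.toLp_ofLp] at h2
      rw [h2]
      exact h1
  have hf'c : ContinuousOn f' {u | u ≠ 0} := by
    refine hfc.comp htl.continuousOn ?_
    intro u hu
    exact hne u hu
  have hf'pos : ∀ u, u ≠ 0 → 0 < f' u := fun u hu => hfpos _ (hne u hu)
  have hf'hom : ∀ (c : ℝ) u, 0 < c → f' (c • u) = c * f' u := by
    intro c u hc
    rw [hf']
    simp only
    rw [WithLp.toLp_smul]
    exact hfhom c _ hc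
  -- the interior
  have hint : (interior (Zon z')).Nonempty := by
    have hcomp : IsCompact (Metric.sphere (0 : EuclideanSpace ℝ (Fin (m + 1))) 1) := isCompact_sphere _ _
    have hnonempty : (Metric.sphere (0 : EuclideanSpace ℝ (Fin (m + 1))) 1).Nonempty := by
      refine ⟨EuclideanSpace.single 0 1, ?_⟩
      simp
    have hcont : ContinuousOn f (Metric.sphere (0 : EuclideanSpace ℝ (Fin (m + 1))) 1) := by
      refine hfc.mono ?_
      intro u hu h0
      rw [h0] at hu
      simp at hu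
    obtain ⟨u0, hu0, hmin⟩ := hcomp.exists_isMinOn hnonempty hcont
    have hu00 : u0 ≠ 0 := by
      intro h0
      rw [h0] at hu0
      simp at hu0
    have hc : 0 < f u0 := hfpos u0 hu00
    have hball : Metric.ball (0 : EuclideanSpace ℝ (Fin (m + 1))) (f u0) ⊆ W := by
      intro x hx u hu
      have hun : 0 < ‖u‖ := norm_pos_iff.2 hu
      have hx' : ‖x‖ < f u0 := by simpa using hx
      have h1 : f u0 ≤ f (‖u‖⁻¹ • u) := by
        refine hmin ?_
        rw [mem_sphere_zero_iff_norm, norm_smul, norm_inv, norm_norm, inv_mul_cancel₀ hun.ne']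
      have h2 : f u = ‖u‖ * f (‖u‖⁻¹ • u) := by
        rw [← hfhom ‖u‖ _ hun, smul_smul, mul_inv_cancel₀ hun.ne', one_smul]
      calc inner ℝ x u ≤ ‖x‖ * ‖u‖ := real_inner_le_norm x u
        _ ≤ f u0 * ‖u‖ := mul_le_mul_of_nonneg_right hx'.le hun.le
        _ ≤ f (‖u‖⁻¹ • u) * ‖u‖ := mul_le_mul_of_nonneg_right h1 hun.le
        _ = f u := by rw [h2, mul_comm]
    refine ⟨0, mem_interior.2 ⟨(WithLp.toLp 2) ⁻¹' (Metric.ball (0 : EuclideanSpace ℝ (Fin (m + 1))) (f u0)),
      ?_, Metric.isOpen_ball.preimage htl, ?_⟩⟩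
    · rw [hZ]
      exact Set.preimage_mono hball
    · simpa using hc
  have hD := hPOS m N z' hint
  have hact := hACT m N z' f' hf'c hf'pos hf'hom hZf
  -- the bodies
  set K' : Fin q → Set (Fin (m + 1) → ℝ) := fun i =>
    (WithLp.toLp 2 : (Fin (m + 1) → ℝ) → EuclideanSpace ℝ (Fin (m + 1))) ⁻¹' (K i) with hK'
  have hK'c : ∀ i, IsCompact (K' i) := by
    intro i
    have h1 : K' i = WithLp.ofLp '' (K i) := by
      ext x
      rw [hK']
      simp only [Set.mem_preimage, Set.mem_image]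
      constructor
      · intro h
        exact ⟨_, h, WithLp.ofLp_toLp 2 x⟩
      · rintro ⟨y, hy, rfl⟩
        rwa [WithLp.toLp_ofLp]
    rw [h1]
    exact (hKc i).image (PiLp.continuous_ofLp 2 _)
  have hv : ∀ i, volume.real (K' i) = volume.real (K i) := fun i => ZM_vol (K i)
  have hmain := hMULT m N q z' K' (fun i I => l i (WithLp.toLp 2 (X z' I))) t hD hK'c
    (fun i => by rw [hv i]; exact hKv i) ht0 ht1 ?_ ?_
  · have hvW : volume.real (Zon z') = volume.real W := by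
      rw [hZ]
      exact ZM_vol W
    rw [hvW] at hmain
    simp only [hv] at hmain
    exact hmain
  · intro i I _ hX
    refine ⟨(hl i _ (hne _ hX)).1, ?_⟩
    intro x hx
    have h1 := (hl i _ (hne _ hX)).2 _ hx
    rwa [ZM_inner] at h1
  · intro I hI hX
    exact (hlf _ (hne _ hX)).trans (hact I hI hX)

end H354ZN
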