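import Pool.Agent.H354R3.ZN.ACT
import Pool.Agent.H354R3.ZN.ACTS
import Pool.Agent.H354R3.ZN.BC
import Pool.Agent.H354R3.ZN.BM
import Pool.Agent.H354R3.ZN.CHAIN
import Pool.Agent.H354R3.ZN.COF
import Pool.Agent.H354R3.ZN.CORE
import Pool.Agent.H354R3.ZN.DOT
import Pool.Agent.H354R3.ZN.GEN
import Pool.Agent.H354R3.ZN.KSUM
import Pool.Agent.H354R3.ZN.LINE
import Pool.Agent.H354R3.ZN.LOG
import Pool.Agent.H354R3.ZN.LPF
import Pool.Agent.H354R3.ZN.MULT
import Pool.Agent.H354R3.ZN.PARA
import Pool.Agent.H354R3.ZN.PERM0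
import Pool.Agent.H354R3.ZN.POS
import Pool.Agent.H354R3.ZN.SECF
import Pool.Agent.H354R3.ZN.SITE
import Pool.Agent.H354R3.ZN.STRONG
import Pool.Agent.H354R3.ZN.SWAP
import Pool.Agent.H354R3.ZN.T1F
import Pool.Agent.H354R3.ZN.TILE
import Pool.Agent.H354R3.ZN.VOL
import Pool.Agent.H354R3.ZN.ZM

/-!
# Logarithmic Minkowski inequality for zonotopes against arbitrary bodies: assembly (helper354)
-/

set_option autoImplicit false

open MeasureTheory
open scoped Matrix Pointwise

namespace H354ZN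

theorem a_PERM1 (hDOT : S_DOT) : S_PERM1 := by
  classical
  intro m N z I j h hj
  have hc : (insert j I).card = m + 1 := by
    rw [Finset.card_insert_of_notMem hj, h]
  rw [hDOT m N z I h (z j), DD, dif_pos hc]
  set r : Fin (m + 1) → Fin N := Fin.cons j (fun i => I.orderEmbOfFin h i) with hr
  have hrinj : Function.Injective r := by
    rw [hr, Fin.cons_injective_iff]
    refine ⟨?_, (I.orderEmbOfFin h).injective⟩
    rintro ⟨i, hi⟩
    apply hj
    rw [← hi]
    exact Finset.orderEmbOfFin_mem I h i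
  have hrmem : ∀ i, r i ∈ insert j I := by
    intro i
    refine Fin.cases ?_ (fun i => ?_) i
    · simp [hr]
    · simp only [hr, Fin.cons_succ]
      exact Finset.mem_insert_of_mem (Finset.orderEmbOfFin_mem I h i)
  have hσ : ∀ i, ∃ k, (insert j I).orderEmbOfFin hc k = r i := by
    intro i
    have : r i ∈ Set.range ((insert j I).orderEmbOfFin hc) := by
      rw [Finset.range_orderEmbOfFin]
      exact hrmem i
    exact this
  choose σ hσ using hσ
  have hσinj : Function.Injective σ := by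
    intro a b hab
    apply hrinj
    rw [← hσ a, ← hσ b, hab]
  set τ : Equiv.Perm (Fin (m + 1)) := Equiv.ofBijective σ (Finite.injective_iff_bijective.1 hσinj)
    with hτ
  have hrows : rows z I h (z j) = fun i => z (r i) := by
    funext i
    refine Fin.cases ?_ (fun i => ?_) i
    · simp [rows, hr]
    · simp [rows, hr]
  have hM : Matrix.of (rows z I h (z j)) =
      (Matrix.of fun i => z ((insert j I).orderEmbOfFin hc i)).submatrix τ id := by
    ext i k
    rw [hrows]
    simp only [Matrix.of_apply, Matrix.submatrix_apply, id]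
    rw [show τ i = σ i from rfl, hσ i]
  rw [hM, Matrix.det_permute, abs_mul]
  have : |((Equiv.Perm.sign τ : ℤ) : ℝ)| = 1 := by
    rcases Int.units_eq_one_or (Equiv.Perm.sign τ) with h1 | h1 <;> simp [h1]
  rw [this, one_mul]

theorem a_PERM0 : S_PERM0 := t_PERM0 t_DOT

theorem b_PERM1 : S_PERM1 := a_PERM1 t_DOT

theorem a_COF : S_COF := t_COF a_PERM0 b_PERM1

theorem a_LINE : S_LINE := t_LINE t_DOT a_PERM0

theorem a_KSUM : S_KSUM := t_KSUM a_PERM0 b_PERM1 t_SWAP

theorem a_CORE : S_CORE := t_CORE b_PERM1 a_COF t_SITE a_LINE t_GEN t_SWAP t_CHAIN t_PARA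

theorem a_TILE : S_TILE := t_TILE t_GEN t_SITE

theorem a_LOG : S_LOG := t_LOG a_CORE a_KSUM a_PERM0 b_PERM1 t_SWAP

theorem a_STRONG : S_STRONG := t_STRONG a_CORE a_KSUM b_PERM1

theorem a_MULT : S_MULT := t_MULT a_LOG a_TILE

theorem a_ACT : S_ACT := t_ACT a_PERM0 a_LINE

theorem a_ACTS : S_ACTS := t_ACTS a_PERM0 a_LINE

theorem a_ZM : S_ZM := t_ZM a_MULT a_ACT t_POS

theorem a_VOL : S_VOL := t_VOL a_LOG a_TILE

/-- log-Brunn-Minkowski for finitely many symmetric convex bodies with a zonotope in the middle -/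
theorem a_BM : S_BM := t_BM a_ZM

theorem a_BC : S_BC := t_BC a_ZM

theorem a_LP : S_LP := t_LPF a_LOG a_KSUM a_TILE a_ACT t_POS

theorem a_SEC : S_SEC := t_SECF a_MULT a_ACTS t_POS

/-- the strengthened log-Minkowski inequality for zonotopes -/
theorem a_T1 : S_T1 := t_T1F a_STRONG a_LOG a_TILE a_VOL t_POS

end H354ZN
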