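import Pool.Agent.H354R3.ZN.Defs3
import Pool.Agent.H354R3.ZN.BC

set_option autoImplicit false

open MeasureTheory Filter
open scoped Matrix Pointwise Topology

namespace H354ZN

open BCaux

theorem t_BCZ (hHH : S_HH) (hZMZ : S_ZMZ) : S_BCZ := by
  intro n K M hn hK hM a b θ hθ0 hθ1 hZ
  set r := θ * a + (1 - θ) * b with hr
  have hKr := SB_smul hK (Real.exp_pos r)
  have hKa := SB_smul hK (Real.exp_pos a)
  have hKb := SB_smul hK (Real.exp_pos b)
  have hset : Wu (fun u : EuclideanSpace ℝ (Fin n) =>
      min (hh (Real.exp r • K) u) (hh M u)) = (Real.exp r • K) ∩ M := by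
    ext x
    simp only [Wu, Set.mem_setOf_eq, le_min_iff, Set.mem_inter_iff, ← mem_iff hKr, ← mem_iff hM]
    exact ⟨fun h => ⟨fun u hu => (h u hu).1, fun u hu => (h u hu).2⟩,
      fun h u hu => ⟨h.1 u hu, h.2 u hu⟩⟩
  have hPH : PH (fun u : EuclideanSpace ℝ (Fin n) => min (hh (Real.exp r • K) u) (hh M u)) := by
    refine ⟨((hh_cont hKr).min (hh_cont hM)).continuousOn,
      fun u hu => lt_min (hh_pos hKr hu) (hh_pos hM hu), fun c u hc => ?_⟩
    show min (hh (Real.exp r • K) (c • u)) (hh M (c • u)) = _
    rw [(hHH n _ hKr).1.hom c u hc, (hHH n _ hM).1.hom c u hc,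
      mul_min_of_nonneg _ _ (abs_nonneg c)]
  have key := hZMZ n 2 (fun u => min (hh (Real.exp r • K) u) (hh M u))
    ![(Real.exp a • K) ∩ M, (Real.exp b • K) ∩ M]
    ![fun u => min (hh (Real.exp a • K) u) (hh M u), fun u => min (hh (Real.exp b • K) u) (hh M u)]
    ![θ, 1 - θ] hn hPH
    (by rw [hset]; exact hZ)
    (by
      intro i
      fin_cases i
      · exact (SB_inter hKa hM).comp
      · exact (SB_inter hKb hM).comp)
    (by
      intro i
      fin_cases i
      · exact vol_pos (SB_inter hKa hM)
      · exact vol_pos (SB_inter hKb hM))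
    (by
      intro i
      fin_cases i
      · exact hθ0.le
      · exact sub_nonneg.2 hθ1.le)
    (by simp)
    (by
      intro i u hu
      fin_cases i
      · refine ⟨lt_min (hh_pos hKa hu) (hh_pos hM hu), fun x hx => ?_⟩
        exact le_min (abs_le_hh hKa hx.1 u) (abs_le_hh hM hx.2 u)
      · refine ⟨lt_min (hh_pos hKb hu) (hh_pos hM hu), fun x hx => ?_⟩
        exact le_min (abs_le_hh hKb hx.1 u) (abs_le_hh hM hx.2 u))
    (by
      intro u hu
      rw [Fin.prod_univ_two]
      show min (hh (Real.exp a • K) u) (hh M u) ^ θ * min (hh (Real.exp b • K) u) (hh M u) ^ (1 - θ) ≤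
        min (hh (Real.exp r • K) u) (hh M u)
      have p0 := hh_pos hK hu
      have pm := hh_pos hM hu
      have pa := hh_pos hKa hu
      have pb := hh_pos hKb hu
      have q0 : 0 < min (hh (Real.exp a • K) u) (hh M u) := lt_min pa pm
      have q1 : 0 < min (hh (Real.exp b • K) u) (hh M u) := lt_min pb pm
      refine le_min ?_ ?_
      · calc min (hh (Real.exp a • K) u) (hh M u) ^ θ *
              min (hh (Real.exp b • K) u) (hh M u) ^ (1 - θ)
            ≤ (hh (Real.exp a • K) u) ^ θ * (hh (Real.exp b • K) u) ^ (1 - θ) :=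
              mul_le_mul (Real.rpow_le_rpow q0.le (min_le_left _ _) hθ0.le)
                (Real.rpow_le_rpow q1.le (min_le_left _ _) (sub_nonneg.2 hθ1.le))
                (Real.rpow_nonneg q1.le _) (Real.rpow_nonneg pa.le _)
          _ = hh (Real.exp r • K) u := by
              rw [hh_smul_set (Real.exp_pos a), hh_smul_set (Real.exp_pos b),
                hh_smul_set (Real.exp_pos r), Real.mul_rpow (Real.exp_pos a).le p0.le,
                Real.mul_rpow (Real.exp_pos b).le p0.le, ← Real.exp_mul, ← Real.exp_mul]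
              have e1 : (hh K u) ^ θ * (hh K u) ^ (1 - θ) = hh K u := by
                rw [← Real.rpow_add p0]
                simp
              have e2 : Real.exp (a * θ) * Real.exp (b * (1 - θ)) = Real.exp r := by
                rw [← Real.exp_add, hr]
                congr 1
                ring
              calc Real.exp (a * θ) * hh K u ^ θ * (Real.exp (b * (1 - θ)) * hh K u ^ (1 - θ))
                  = (Real.exp (a * θ) * Real.exp (b * (1 - θ))) *
                    (hh K u ^ θ * hh K u ^ (1 - θ)) := by ring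
                _ = _ := by rw [e1, e2]
      · calc min (hh (Real.exp a • K) u) (hh M u) ^ θ *
              min (hh (Real.exp b • K) u) (hh M u) ^ (1 - θ)
            ≤ (hh M u) ^ θ * (hh M u) ^ (1 - θ) :=
              mul_le_mul (Real.rpow_le_rpow q0.le (min_le_right _ _) hθ0.le)
                (Real.rpow_le_rpow q1.le (min_le_right _ _) (sub_nonneg.2 hθ1.le))
                (Real.rpow_nonneg q1.le _) (Real.rpow_nonneg pm.le _)
          _ = hh M u := by
              rw [← Real.rpow_add pm]
              simp)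
  rw [hset, Fin.prod_univ_two] at key
  have fa : volume ((Real.exp a • K) ∩ M) ≠ ⊤ := (SB_inter hKa hM).comp.measure_lt_top.ne
  have fb : volume ((Real.exp b • K) ∩ M) ≠ ⊤ := (SB_inter hKb hM).comp.measure_lt_top.ne
  have fr : volume ((Real.exp r • K) ∩ M) ≠ ⊤ := (SB_inter hKr hM).comp.measure_lt_top.ne
  have key2 : (volume ((Real.exp a • K) ∩ M)).toReal ^ θ *
      (volume ((Real.exp b • K) ∩ M)).toReal ^ (1 - θ) ≤
        (volume ((Real.exp r • K) ∩ M)).toReal := key
  rw [ENNReal.toReal_rpow, ENNReal.toReal_rpow, ← ENNReal.toReal_mul] at key2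
  refine (ENNReal.toReal_le_toReal ?_ fr).1 key2
  exact ENNReal.mul_ne_top (ENNReal.rpow_ne_top_of_nonneg hθ0.le fa)
    (ENNReal.rpow_ne_top_of_nonneg (sub_nonneg.2 hθ1.le) fb)

end H354ZN
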