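import Pool.Agent.H354R3.ZN.Defs3

set_option autoImplicit false

open MeasureTheory Metric Set
open scoped Matrix Pointwise

namespace H354ZN

theorem t_BMZ (hHH : S_HH) (hZMZ : S_ZMZ) : S_BMZ := by
  intro n q K t hn hK ht hsum hZ
  set f : EuclideanSpace ℝ (Fin n) → ℝ := fun u => ∏ i, hh (K i) u ^ t i with hf
  have hP : ∀ i, PH (hh (K i)) := fun i => (hHH n (K i) (hK i)).1
  have hfh : ∀ (c : ℝ) u, c ≠ 0 → u ≠ 0 → f (c • u) = |c| * f u := by
    intro c u hc hu
    have hc' : 0 < |c| := abs_pos.mpr hc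
    show ∏ i, hh (K i) (c • u) ^ t i = |c| * ∏ i, hh (K i) u ^ t i
    have h1 : ∀ i ∈ Finset.univ, hh (K i) (c • u) ^ t i = |c| ^ t i * hh (K i) u ^ t i := by
      intro i _
      rw [(hP i).hom c u hc, Real.mul_rpow hc'.le ((hP i).pos u hu).le]
    rw [Finset.prod_congr rfl h1, Finset.prod_mul_distrib, ← Real.rpow_sum_of_pos hc', hsum,
      Real.rpow_one]
  have hf0 : ∀ i, hh (K i) 0 = 0 := by
    intro i
    have h1 := (hP i).hom 2 0 two_ne_zero
    rw [smul_zero] at h1
    norm_num at h1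
    linarith
  have hfh0 : ∀ (c : ℝ), c ≠ 0 → f (c • (0 : EuclideanSpace ℝ (Fin n))) =
      |c| * f 0 := by
    intro c hc
    rw [smul_zero]
    have h2 : f 0 = 0 := by
      have h3 : ∃ i, t i ≠ 0 := by
        by_contra hcon
        push Not at hcon
        rw [Finset.sum_eq_zero fun i _ => hcon i] at hsum
        exact zero_ne_one hsum
      obtain ⟨i, hi⟩ := h3
      show ∏ i, hh (K i) 0 ^ t i = 0
      refine Finset.prod_eq_zero (Finset.mem_univ i) ?_
      rw [hf0 i, Real.zero_rpow hi]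
    rw [h2, mul_zero]
  have hPf : PH f := by
    refine ⟨?_, ?_, ?_⟩
    · apply continuousOn_finsetProd
      intro i _
      exact (hP i).cont.rpow_const fun x hx => Or.inr (ht i)
    · intro u hu
      exact Finset.prod_pos fun i _ => Real.rpow_pos_of_pos ((hP i).pos u hu) _
    · intro c u hc
      by_cases hu : u = 0
      · rw [hu]; exact hfh0 c hc
      · exact hfh c u hc hu
  have hW : {x : EuclideanSpace ℝ (Fin n) |
      ∀ u : EuclideanSpace ℝ (Fin n), ‖u‖ = 1 → inner ℝ x u ≤ ∏ i, hh (K i) u ^ t i} =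
      Wu f := by
    ext x
    constructor
    · intro hx u hu
      have hun : 0 < ‖u‖ := norm_pos_iff.mpr hu
      have h1 : ‖‖u‖⁻¹ • u‖ = 1 := by
        rw [norm_smul, norm_inv, norm_norm, inv_mul_cancel₀ hun.ne']
      have h2 := hx _ h1
      have h3 : u = ‖u‖ • (‖u‖⁻¹ • u) := by
        rw [smul_smul, mul_inv_cancel₀ hun.ne', one_smul]
      rw [h3, hPf.hom _ _ hun.ne', abs_of_pos hun, inner_smul_right]
      exact mul_le_mul_of_nonneg_left h2 hun.le
    · intro hx u hu
      exact hx u (by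
        intro h0
        rw [h0, norm_zero] at hu
        exact zero_ne_one hu)
  rw [hW] at hZ ⊢
  exact hZMZ n q f K (fun i u => hh (K i) u) t hn hPf hZ (fun i => (hK i).comp)
    (fun i => (hHH n (K i) (hK i)).2.2.1) ht hsum
    (fun i u hu => ⟨(hP i).pos u hu, fun x hx => (hHH n (K i) (hK i)).2.2.2.2.1 x hx u⟩)
    (fun u _ => le_refl _)

end H354ZN
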