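import Pool.Agent.H354R3.ZN.Defs3

/-! Task GRAD (helper338): the gradient of the norm with unit ball `K`. -/

set_option autoImplicit false

open MeasureTheory Filter
open scoped Matrix Pointwise Topology

namespace H354ZN

namespace GRADaux

theorem slope_tendsto {n : ℕ} (K : Set (EuclideanSpace ℝ (Fin n)))
    (x y : EuclideanSpace ℝ (Fin n)) (hd : DifferentiableAt ℝ (gauge K) x) :
    Tendsto (fun t : ℝ => t⁻¹ * (gauge K (x + t • y) - gauge K x)) (𝓝[>] (0 : ℝ))
      (𝓝 (inner ℝ y (gg K x))) := by
  have h1 : HasFDerivAt (gauge K) (InnerProductSpace.toDual ℝ _ (gg K x)) x :=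
    hd.hasGradientAt.hasFDerivAt
  have h2 : HasDerivAt (fun t : ℝ => x + t • y) y 0 := by
    simpa using ((hasDerivAt_id (0 : ℝ)).smul_const y).const_add x
  have h3 : HasDerivAt (fun t : ℝ => gauge K (x + t • y))
      ((InnerProductSpace.toDual ℝ _ (gg K x)) y) 0 := by
    have h1' : HasFDerivAt (gauge K) (InnerProductSpace.toDual ℝ _ (gg K x))
        (x + (0 : ℝ) • y) := by simpa using h1
    exact h1'.comp_hasDerivAt (0 : ℝ) h2
  have h4 := h3.tendsto_slope_zero_right
  rw [InnerProductSpace.toDual_apply_apply, real_inner_comm] at h4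
  refine h4.congr fun t => ?_
  simp

end GRADaux

open GRADaux in
theorem t_GRAD (hHH : S_HH) : S_GRAD := by
  intro n K hn hK
  obtain ⟨-, -, -, -, hbd, -, h5, h6, h7, -⟩ := hHH n K hK
  have hK0 : K ∈ 𝓝 (0 : EuclideanSpace ℝ (Fin n)) := mem_interior_iff_mem_nhds.1 hK.zero
  obtain ⟨C, hC⟩ := hK.conv.lipschitz_gauge hK0
  have habs : Absorbent ℝ K := absorbent_nhds_zero hK0
  haveI : Nonempty (Fin n) := ⟨⟨0, hn⟩⟩
  have hne : ∀ᵐ x : EuclideanSpace ℝ (Fin n), x ≠ 0 := by
    have : (volume : Measure (EuclideanSpace ℝ (Fin n))) {0} = 0 := measure_singleton 0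
    exact compl_mem_ae_iff.2 this
  filter_upwards [hC.ae_differentiableAt (μ := volume), hne] with x hd hx
  have hgx : 0 < gauge K x := h7 x hx
  have h1 : ∀ y, inner ℝ y (gg K x) ≤ gauge K y := by
    intro y
    refine le_of_tendsto (slope_tendsto K x y hd) ?_
    filter_upwards [self_mem_nhdsWithin] with t ht
    have ht0 : (0 : ℝ) < t := ht
    have h8 : gauge K (x + t • y) ≤ gauge K x + t * gauge K y := by
      refine (gauge_add_le hK.conv habs x (t • y)).trans ?_
      rw [gauge_smul_of_nonneg ht0.le]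
      rfl
    rw [inv_mul_le_iff₀ ht0]
    linarith
  have h2 : inner ℝ x (gg K x) = gauge K x := by
    refine tendsto_nhds_unique (slope_tendsto K x x hd) ?_
    refine tendsto_const_nhds.congr' ?_
    filter_upwards [self_mem_nhdsWithin] with t ht
    have ht0 : (0 : ℝ) < t := ht
    have h8 : gauge K (x + t • x) = (1 + t) * gauge K x := by
      have : x + t • x = (1 + t) • x := by rw [add_smul, one_smul]
      rw [this, gauge_smul_of_nonneg (by linarith)]
      rfl
    rw [h8]
    field_simp
    ring
  have hu0 : gg K x ≠ 0 := by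
    intro h
    rw [h, inner_zero_right] at h2
    linarith
  refine ⟨hd, hx, hu0, h2, ?_, h1, ?_⟩
  · apply le_antisymm ((h5 _).2 h1)
    have hxK : (gauge K x)⁻¹ • x ∈ K := by
      rw [h6, gauge_smul_of_nonneg (by positivity)]
      simp only [smul_eq_mul]
      rw [inv_mul_cancel₀ hgx.ne']
    have h9 := (le_abs_self _).trans (hbd _ hxK (gg K x))
    rw [real_inner_smul_left, h2, inv_mul_cancel₀ hgx.ne'] at h9
    exact h9
  · intro v hv hxv
    have key : ∀ y, inner ℝ y v ≤ inner ℝ y (gg K x) := by
      intro y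
      refine ge_of_tendsto (slope_tendsto K x y hd) ?_
      filter_upwards [self_mem_nhdsWithin] with t ht
      have ht0 : (0 : ℝ) < t := ht
      have h8 := hv (x + t • y)
      rw [inner_add_left, real_inner_smul_left, hxv] at h8
      rw [le_inv_mul_iff₀ ht0]
      linarith
    apply ext_inner_left ℝ
    intro y
    apply le_antisymm (key y)
    have := key (-y)
    rw [inner_neg_left, inner_neg_left] at this
    linarith

end H354ZN
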