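import Pool.Agent.H354R3.ZN.Defs3

/-! (GRH) -/

set_option autoImplicit false

open MeasureTheory Filter
open scoped Matrix Pointwise Topology

namespace H354ZN

theorem t_GRH : S_GRH := by
  intro n K hK
  refine ⟨?_, ?_, ?_⟩
  · have h := measurable_fderiv ℝ (gauge K)
    exact (InnerProductSpace.toDual ℝ (EuclideanSpace ℝ (Fin n))).symm.continuous.measurable.comp h
  · intro c x hc
    have h1 : (fun y => gauge K (c • y)) = c • gauge K := by
      funext y
      rw [gauge_smul_of_nonneg hc.le, Pi.smul_apply]
    have h2 : c • fderiv ℝ (gauge K) (c • x) = c • fderiv ℝ (gauge K) x := by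
      rw [← fderiv_comp_smul, h1, fderiv_const_smul_field c, Pi.smul_apply]
    have h3 : fderiv ℝ (gauge K) (c • x) = fderiv ℝ (gauge K) x := by
      have := congrArg (fun F => c⁻¹ • F) h2
      simpa [smul_smul, inv_mul_cancel₀ hc.ne'] using this
    unfold gg gradient
    rw [h3]
  · obtain ⟨C, hC⟩ := hK.conv.lipschitz_gauge (mem_interior_iff_mem_nhds.mp hK.zero)
    refine ⟨C + 1, by positivity, fun x => ?_⟩
    have h := norm_fderiv_le_of_lipschitz ℝ hC (x₀ := x)
    unfold gg gradient
    rw [LinearIsometryEquiv.norm_map]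
    linarith

end H354ZN
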