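import Pool.Agent.H354R3.ZN.Defs3
import Pool.Agent.H354R3.ZN.BC

set_option autoImplicit false

open MeasureTheory Filter
open scoped Matrix Pointwise Topology

namespace H354ZN

namespace HHaux

open BCaux

variable {n : ℕ}

theorem hh_neg {K : Set (EuclideanSpace ℝ (Fin n))} (hK : SB K) (u : EuclideanSpace ℝ (Fin n)) :
    hh K (-u) = hh K u := by
  unfold hh
  congr 1
  ext y
  constructor
  · rintro ⟨x, hx, rfl⟩
    refine ⟨-x, hK.symm x hx, ?_⟩
    simp only [inner_neg_left, inner_neg_right]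
  · rintro ⟨x, hx, rfl⟩
    refine ⟨-x, hK.symm x hx, ?_⟩
    simp only [inner_neg_left, inner_neg_right, neg_neg]

theorem hh_PH {K : Set (EuclideanSpace ℝ (Fin n))} (hK : SB K) : PH (hh K) where
  cont := (hh_cont hK).continuousOn
  pos := fun u hu => hh_pos hK hu
  hom := by
    intro c u hc
    rcases lt_or_gt_of_ne hc with h | h
    · rw [abs_of_neg h, ← hh_smul (neg_pos.2 h), neg_smul, hh_neg hK]
    · rw [abs_of_pos h, hh_smul h]

theorem nhds {K : Set (EuclideanSpace ℝ (Fin n))} (hK : SB K) :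
    K ∈ 𝓝 (0 : EuclideanSpace ℝ (Fin n)) := mem_interior_iff_mem_nhds.1 hK.zero

theorem gauge_le_one_iff {K : Set (EuclideanSpace ℝ (Fin n))} (hK : SB K)
    (x : EuclideanSpace ℝ (Fin n)) : x ∈ K ↔ gauge K x ≤ 1 := by
  rw [gauge_le_one_iff_mem_closure hK.conv (nhds hK), hK.comp.isClosed.closure_eq]

theorem hh_le_one_iff {K : Set (EuclideanSpace ℝ (Fin n))} (hK : SB K)
    (u : EuclideanSpace ℝ (Fin n)) : (∀ y ∈ K, inner ℝ y u ≤ 1) ↔ hh K u ≤ 1 := by
  constructor
  · intro h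
    refine csSup_le ⟨_, ⟨0, zero_mem hK, rfl⟩⟩ ?_
    rintro _ ⟨y, hy, rfl⟩
    exact h y hy
  · intro h y hy
    exact (le_hh hK hy u).trans h

theorem hh_le_one_iff' {K : Set (EuclideanSpace ℝ (Fin n))} (hK : SB K)
    (u : EuclideanSpace ℝ (Fin n)) : hh K u ≤ 1 ↔ ∀ y, inner ℝ y u ≤ gauge K y := by
  constructor
  · intro h y
    refine le_of_forall_pos_le_add fun ε hε => ?_
    obtain ⟨b, hb0, hb1, hb2⟩ := exists_lt_of_gauge_lt (absorbent_nhds_zero (nhds hK))
      (lt_add_of_pos_right (gauge K y) hε)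
    obtain ⟨k, hk, rfl⟩ := hb2
    have h1 := (hh_le_one_iff hK u).2 h k hk
    simp only [real_inner_smul_left]
    calc b * inner ℝ k u ≤ b * 1 := mul_le_mul_of_nonneg_left h1 hb0.le
      _ = b := mul_one b
      _ ≤ _ := hb1.le
  · intro h
    rw [← hh_le_one_iff hK]
    intro y hy
    exact (h y).trans (gauge_le_one_of_mem hy)

end HHaux

open BCaux HHaux

theorem t_HH : S_HH := by
  intro n K hK
  refine ⟨hh_PH hK, ?_, vol_pos hK, hK.comp.measure_lt_top, fun x hx u => abs_le_hh hK hx u,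
    hh_le_one_iff hK, hh_le_one_iff' hK, gauge_le_one_iff hK, ?_,
    continuous_gauge hK.conv (HHaux.nhds hK)⟩
  · ext x
    exact mem_iff hK x
  · intro x hx
    exact (gauge_pos (absorbent_nhds_zero (HHaux.nhds hK))
      ((NormedSpace.isVonNBounded_iff ℝ).2 hK.comp.isBounded)).2 hx

end H354ZN

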