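import Pool.Agent.H354R3.ZN.Defs3

set_option autoImplicit false

open MeasureTheory Filter
open scoped Matrix Pointwise Topology

namespace H354ZN

theorem LMZ_zh (hHH : S_HH) {n : ℕ} {K L : Set (EuclideanSpace ℝ (Fin n))} (hK : SB K)
    (hL : SB L) : ZH fun u => Real.log (hh L u / hh K u) := by
  obtain ⟨pK, -⟩ := hHH n K hK
  obtain ⟨pL, -⟩ := hHH n L hL
  refine ⟨?_, ?_⟩
  · refine ContinuousOn.log (ContinuousOn.div pL.cont pK.cont fun u hu => (pK.pos u hu).ne') ?_
    intro u hu
    exact (div_pos (pL.pos u hu) (pK.pos u hu)).ne'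
  · intro c u hc
    show Real.log (hh L (c • u) / hh K (c • u)) = Real.log (hh L u / hh K u)
    rw [pL.hom c u hc, pK.hom c u hc, mul_div_mul_left _ _ (abs_ne_zero.2 hc)]

theorem LMZ_step (hHH : S_HH) (hPTB : S_PTB) (hZST : S_ZST) {n : ℕ}
    {K L : Set (EuclideanSpace ℝ (Fin n))} (hn : 1 ≤ n) (hK : SB K) (hKz : IsZonoid K)
    (hL : SB L) (t : ℝ) (ht : 0 < t) :
    0 < volume.real (Kt K (fun u => Real.log (hh L u / hh K u)) t) ∧
    Real.log (volume.real L / volume.real K) ≤
      ((volume.real K - volume.real (Kt K (fun u => Real.log (hh L u / hh K u)) t)) / t) /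
        volume.real (Kt K (fun u => Real.log (hh L u / hh K u)) t) := by
  have hg := LMZ_zh hHH hK hL
  set g : EuclideanSpace ℝ (Fin n) → ℝ := fun u => Real.log (hh L u / hh K u) with hgdef
  obtain ⟨pK, -, vK, -⟩ := hHH n K hK
  obtain ⟨pL, -, vL, -, iL, -⟩ := hHH n L hL
  have hS : SB (Kt K g t) := (hPTB n K g hn hK hg).1 t
  obtain ⟨-, -, vS, -⟩ := hHH n _ hS
  refine ⟨vS, ?_⟩
  have h1t : 0 < 1 + t := by linarith
  have hpos : ∀ u, u ≠ 0 → 0 < hh K u * Real.exp (-(t * g u)) := fun u hu =>
    mul_pos (pK.pos u hu) (Real.exp_pos _)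
  have key := hZST n 2 K ![L, Kt K g t] ![hh L, fun u => hh K u * Real.exp (-(t * g u))]
    ![t / (1 + t), 1 / (1 + t)] hn hK hKz ?_ ?_ ?_ ?_ ?_ ?_
  · rw [Fin.prod_univ_two] at key
    simp only [Matrix.cons_val_zero, Matrix.cons_val_one] at key
    have hlog := Real.log_le_log (mul_pos (Real.rpow_pos_of_pos vL _)
      (Real.rpow_pos_of_pos vS _)) key
    rw [Real.log_mul (Real.rpow_pos_of_pos vL _).ne' (Real.rpow_pos_of_pos vS _).ne',
      Real.log_rpow vL, Real.log_rpow vS] at hlog
    have h2 : t * Real.log (volume.real L) + Real.log (volume.real (Kt K g t)) ≤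
        (1 + t) * Real.log (volume.real K) := by
      have h3 := mul_le_mul_of_nonneg_left hlog h1t.le
      have e1 : (1 + t) * (t / (1 + t) * Real.log (volume.real L) +
          1 / (1 + t) * Real.log (volume.real (Kt K g t))) =
          t * Real.log (volume.real L) + Real.log (volume.real (Kt K g t)) := by
        field_simp
      rw [e1] at h3
      exact h3
    have h4 : Real.log (volume.real K / volume.real (Kt K g t)) ≤
        volume.real K / volume.real (Kt K g t) - 1 := by
      have := Real.add_one_le_exp (Real.log (volume.real K / volume.real (Kt K g t)))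
      rw [Real.exp_log (div_pos vK vS)] at this
      linarith
    rw [Real.log_div vK.ne' vS.ne'] at h4
    rw [Real.log_div vL.ne' vK.ne', div_div, le_div_iff₀ (mul_pos ht vS)]
    have h5 : t * (Real.log (volume.real L) - Real.log (volume.real K)) ≤
        volume.real K / volume.real (Kt K g t) - 1 := by linarith
    have h6 := mul_le_mul_of_nonneg_right h5 vS.le
    rw [sub_mul, div_mul_cancel₀ _ vS.ne', one_mul] at h6
    calc (Real.log (volume.real L) - Real.log (volume.real K)) *
          (t * volume.real (Kt K g t)) =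
          t * (Real.log (volume.real L) - Real.log (volume.real K)) *
            volume.real (Kt K g t) := by ring
      _ ≤ _ := h6
  · intro i
    fin_cases i
    · exact hL.comp
    · exact hS.comp
  · intro i
    fin_cases i
    · exact vL
    · exact vS
  · intro i
    fin_cases i
    · exact (div_pos ht h1t).le
    · exact (div_pos one_pos h1t).le
  · rw [Fin.sum_univ_two]
    simp only [Matrix.cons_val_zero, Matrix.cons_val_one]
    field_simp
    ring
  · intro i u hu
    fin_cases i
    · exact ⟨pL.pos u hu, fun x hx => iL x hx u⟩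
    · refine ⟨hpos u hu, fun x hx => ?_⟩
      have hx' : ∀ v : EuclideanSpace ℝ (Fin n), v ≠ 0 →
        inner ℝ x v ≤ hh K v * Real.exp (-(t * g v)) := hx
      show |inner ℝ x u| ≤ hh K u * Real.exp (-(t * g u))
      rw [abs_le]
      constructor
      · have h1 := hx' (-u) (neg_ne_zero.2 hu)
        have e1 : hh K (-u) = hh K u := by
          have := pK.hom (-1) u (by norm_num)
          rw [neg_one_smul] at this
          rw [this]
          norm_num
        have e2 : g (-u) = g u := by
          have := hg.hom (-1) u (by norm_num)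
          rw [neg_one_smul] at this
          exact this
        rw [inner_neg_right, e1, e2] at h1
        linarith
      · exact hx' u hu
  · intro u hu
    rw [Fin.prod_univ_two]
    simp only [Matrix.cons_val_zero, Matrix.cons_val_one]
    have hKu := pK.pos u hu
    have hLu := pL.pos u hu
    apply le_of_eq
    apply Real.log_injOn_pos
      (Set.mem_Ioi.2 (mul_pos (Real.rpow_pos_of_pos hLu _) (Real.rpow_pos_of_pos (hpos u hu) _)))
      (Set.mem_Ioi.2 hKu)
    rw [Real.log_mul (Real.rpow_pos_of_pos hLu _).ne' (Real.rpow_pos_of_pos (hpos u hu) _).ne',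
      Real.log_rpow hLu, Real.log_rpow (hpos u hu), Real.log_mul hKu.ne' (Real.exp_pos _).ne',
      Real.log_exp]
    have e3 : g u = Real.log (hh L u) - Real.log (hh K u) := Real.log_div hLu.ne' hKu.ne'
    rw [e3]
    field_simp
    ring

theorem t_LMZ (hHH : S_HH) (hPTB : S_PTB) (hZST : S_ZST) (hALEX : S_ALEX) (hGRAD : S_GRAD) :
    S_LMZ := by
  intro n K L hn hK hKz hL
  have hg := LMZ_zh hHH hK hL
  set g : EuclideanSpace ℝ (Fin n) → ℝ := fun u => Real.log (hh L u / hh K u) with hgdef
  obtain ⟨pK, -, vK, -⟩ := hHH n K hK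
  have hlim := hALEX n K g hn hK hg
  have hid : Tendsto (fun t : ℝ => t) (𝓝[>] (0 : ℝ)) (𝓝 0) :=
    tendsto_nhdsWithin_of_tendsto_nhds tendsto_id
  have hvol : Tendsto (fun t => volume.real (Kt K g t)) (𝓝[>] (0 : ℝ)) (𝓝 (volume.real K)) := by
    have h1 := hid.mul hlim
    rw [zero_mul] at h1
    have h2 : Tendsto (fun t => volume.real K - t * ((volume.real K - volume.real (Kt K g t)) / t))
        (𝓝[>] (0 : ℝ)) (𝓝 (volume.real K - 0)) := tendsto_const_nhds.sub h1
    rw [sub_zero] at h2
    refine h2.congr' ?_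
    filter_upwards [self_mem_nhdsWithin] with t ht
    have ht' : (t : ℝ) ≠ 0 := ne_of_gt ht
    rw [mul_div_cancel₀ _ ht']
    ring
  have hdiv := hlim.div hvol vK.ne'
  have hle : Real.log (volume.real L / volume.real K) ≤
      (n * ∫ x in K, g (gg K x)) / volume.real K := by
    refine ge_of_tendsto hdiv ?_
    filter_upwards [self_mem_nhdsWithin] with t ht
    exact (LMZ_step hHH hPTB hZST hn hK hKz hL t ht).2
  have hint : ∫ x in K, g (gg K x) = ∫ x in K, Real.log (hh L (gg K x)) := by
    refine integral_congr_ae (ae_restrict_of_ae ?_)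
    filter_upwards [hGRAD n K hn hK] with x hx
    obtain ⟨-, -, -, -, h1, -⟩ := hx
    show Real.log (hh L (gg K x) / hh K (gg K x)) = _
    rw [h1, div_one]
  rw [← hint]
  have hn0 : (0 : ℝ) < n := by exact_mod_cast hn
  rw [le_div_iff₀ vK] at hle
  rw [div_mul_eq_mul_div, div_le_iff₀ hn0]
  linarith

end H354ZN
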