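import Pool.Agent.H354R3.ZN.Defs3

/-!
# LPZ: the `L_p`-Brunn-Minkowski inequality with equality case, if the combination is a zonoid
-/

set_option autoImplicit false

open MeasureTheory Filter
open scoped Matrix Pointwise Topology

namespace H354ZN

namespace LPZ

variable {n : ℕ}

theorem zero_of_PH {f : EuclideanSpace ℝ (Fin n) → ℝ} (hf : PH f) : f 0 = 0 := by
  have h := hf.hom 2 0 (by norm_num)
  rw [smul_zero, abs_of_pos (by norm_num : (0 : ℝ) < 2)] at h
  linarith

theorem nonneg_of_PH {f : EuclideanSpace ℝ (Fin n) → ℝ} (hf : PH f)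
    (u : EuclideanSpace ℝ (Fin n)) : 0 ≤ f u := by
  by_cases hu : u = 0
  · rw [hu, zero_of_PH hf]
  · exact (hf.pos u hu).le

/-- the `L_p` combination -/
noncomputable def cmb (p α β : ℝ) (h g : EuclideanSpace ℝ (Fin n) → ℝ) :
    EuclideanSpace ℝ (Fin n) → ℝ := fun u => (α * h u ^ p + β * g u ^ p) ^ (1 / p)

theorem PH_cmb {p α β : ℝ} (hp : 0 < p) (hα : 0 < α) (hβ : 0 < β)
    {h g : EuclideanSpace ℝ (Fin n) → ℝ} (hh' : PH h) (hg : PH g) : PH (cmb p α β h g) where
  cont := by
    unfold cmb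
    refine ContinuousOn.rpow_const ?_ fun u _ => Or.inr (by positivity)
    refine ContinuousOn.add ?_ ?_
    · exact continuousOn_const.mul (hh'.cont.rpow_const fun u _ => Or.inr hp.le)
    · exact continuousOn_const.mul (hg.cont.rpow_const fun u _ => Or.inr hp.le)
  pos := by
    intro u hu
    unfold cmb
    have h1 := hh'.pos u hu
    have h2 := hg.pos u hu
    positivity
  hom := by
    intro c u hc
    unfold cmb
    rw [hh'.hom c u hc, hg.hom c u hc]
    have h1 := nonneg_of_PH hh' u
    have h2 := nonneg_of_PH hg u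
    rw [Real.mul_rpow (abs_nonneg c) h1, Real.mul_rpow (abs_nonneg c) h2]
    have h3 : α * (|c| ^ p * h u ^ p) + β * (|c| ^ p * g u ^ p) =
        |c| ^ p * (α * h u ^ p + β * g u ^ p) := by ring
    rw [h3, Real.mul_rpow (by positivity) (by positivity), ← Real.rpow_mul (abs_nonneg c),
      mul_one_div_cancel hp.ne', Real.rpow_one]

theorem set_eq {f : EuclideanSpace ℝ (Fin n) → ℝ} (hf : PH f) :
    {x : EuclideanSpace ℝ (Fin n) | ∀ u : EuclideanSpace ℝ (Fin n), ‖u‖ = 1 →
      inner ℝ x u ≤ f u} = Wu f := by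
  ext x
  constructor
  · intro h u hu
    have hn : 0 < ‖u‖ := norm_pos_iff.2 hu
    have h1 := h (‖u‖⁻¹ • u) (by
      rw [norm_smul, norm_inv, norm_norm, inv_mul_cancel₀ hn.ne'])
    rw [hf.hom _ _ (inv_ne_zero hn.ne'), inner_smul_right, abs_of_pos (inv_pos.2 hn)] at h1
    exact le_of_mul_le_mul_left h1 (inv_pos.2 hn)
  · intro h u hu
    refine h u ?_
    rintro rfl
    simp at hu

theorem bounds (hn : 1 ≤ n) {f : EuclideanSpace ℝ (Fin n) → ℝ} (hf : PH f) :
    ∃ m M : ℝ, 0 < m ∧ 0 < M ∧ ∀ u, u ≠ 0 → m * ‖u‖ ≤ f u ∧ f u ≤ M * ‖u‖ := by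
  have hne : (Metric.sphere (0 : EuclideanSpace ℝ (Fin n)) 1).Nonempty := by
    refine ⟨EuclideanSpace.single ⟨0, by omega⟩ 1, ?_⟩
    simp
  have hc : ContinuousOn f (Metric.sphere (0 : EuclideanSpace ℝ (Fin n)) 1) := by
    refine hf.cont.mono fun u hu => ?_
    intro h0
    have hu' : u = 0 := h0
    rw [hu'] at hu
    simp at hu
  obtain ⟨a, ha, hmin⟩ := (isCompact_sphere (0 : EuclideanSpace ℝ (Fin n)) 1).exists_isMinOn hne hc
  obtain ⟨b, hb, hmax⟩ := (isCompact_sphere (0 : EuclideanSpace ℝ (Fin n)) 1).exists_isMaxOn hne hc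
  have ha0 : a ≠ 0 := by
    rintro rfl
    simp at ha
  have hb0 : b ≠ 0 := by
    rintro rfl
    simp at hb
  refine ⟨f a, f b, hf.pos a ha0, hf.pos b hb0, fun u hu => ?_⟩
  have hn' : 0 < ‖u‖ := norm_pos_iff.2 hu
  have h1 : ‖u‖⁻¹ • u ∈ Metric.sphere (0 : EuclideanSpace ℝ (Fin n)) 1 := by
    rw [mem_sphere_zero_iff_norm, norm_smul, norm_inv, norm_norm, inv_mul_cancel₀ hn'.ne']
  have h2 : f u = ‖u‖ * f (‖u‖⁻¹ • u) := by
    rw [hf.hom _ _ (inv_ne_zero hn'.ne'), abs_of_pos (inv_pos.2 hn'), ← mul_assoc,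
      mul_inv_cancel₀ hn'.ne', one_mul]
  have h3 : f a ≤ f (‖u‖⁻¹ • u) := hmin h1
  have h4 : f (‖u‖⁻¹ • u) ≤ f b := hmax h1
  rw [h2]
  constructor
  · rw [mul_comm]
    exact mul_le_mul_of_nonneg_left h3 hn'.le
  · rw [mul_comm (f b)]
    exact mul_le_mul_of_nonneg_left h4 hn'.le

theorem aesm {h : EuclideanSpace ℝ (Fin n) → ℝ} (hh' : PH h)
    {G : EuclideanSpace ℝ (Fin n) → EuclideanSpace ℝ (Fin n)} (hG : Measurable G)
    (h0 : ∀ᵐ x : EuclideanSpace ℝ (Fin n), G x ≠ 0) :
    AEStronglyMeasurable (fun x => Real.log (h (G x))) (volume : Measure (EuclideanSpace ℝ (Fin n))) := by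
  classical
  have hm : Measurable (({u : EuclideanSpace ℝ (Fin n) | u ≠ 0}).piecewise h (fun _ => (0 : ℝ))) :=
    ContinuousOn.measurable_piecewise hh'.cont continuousOn_const isOpen_ne.measurableSet
  refine ((Real.measurable_log.comp (hm.comp hG)).aestronglyMeasurable).congr ?_
  refine h0.mono fun x hx => ?_
  show Real.log (({u : EuclideanSpace ℝ (Fin n) | u ≠ 0}).piecewise h (fun _ => (0 : ℝ)) (G x)) = _
  rw [Set.piecewise_eq_of_mem _ _ _ (show G x ∈ {u : EuclideanSpace ℝ (Fin n) | u ≠ 0} from hx)]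

theorem integrable (hn : 1 ≤ n) {f h : EuclideanSpace ℝ (Fin n) → ℝ} (hf : PH f) (hh' : PH h)
    {G : EuclideanSpace ℝ (Fin n) → EuclideanSpace ℝ (Fin n)} (hG : Measurable G)
    (h0 : ∀ᵐ x : EuclideanSpace ℝ (Fin n), G x ≠ 0 ∧ f (G x) = 1)
    {M : Set (EuclideanSpace ℝ (Fin n))} (hM : volume M ≠ ⊤) :
    IntegrableOn (fun x => Real.log (h (G x))) M := by
  obtain ⟨m1, M1, hm1, hM1, hb1⟩ := bounds hn hf
  obtain ⟨m2, M2, hm2, hM2, hb2⟩ := bounds hn hh'
  refine Measure.integrableOn_of_bounded (M := |Real.log (m2 / M1)| + |Real.log (M2 / m1)|) hM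
    (aesm hh' hG (h0.mono fun x hx => hx.1)) ?_
  refine ae_restrict_of_ae (h0.mono fun x hx => ?_)
  obtain ⟨a1, a2⟩ := hb1 _ hx.1
  obtain ⟨b1, b2⟩ := hb2 _ hx.1
  rw [hx.2] at a1 a2
  have c1 : 1 / M1 ≤ ‖G x‖ := by rw [div_le_iff₀ hM1]; linarith
  have c2 : ‖G x‖ ≤ 1 / m1 := by rw [le_div_iff₀ hm1]; linarith
  have d1 : m2 / M1 ≤ h (G x) := by
    calc m2 / M1 = m2 * (1 / M1) := by ring
      _ ≤ m2 * ‖G x‖ := mul_le_mul_of_nonneg_left c1 hm2.le
      _ ≤ _ := b1
  have d2 : h (G x) ≤ M2 / m1 := by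
    calc h (G x) ≤ M2 * ‖G x‖ := b2
      _ ≤ M2 * (1 / m1) := mul_le_mul_of_nonneg_left c2 hM2.le
      _ = _ := by ring
  have e0 : 0 < m2 / M1 := by positivity
  have e1 := Real.log_le_log e0 d1
  have e2 := Real.log_le_log (e0.trans_le d1) d2
  rw [Real.norm_eq_abs, abs_le]
  constructor
  · have := neg_abs_le (Real.log (m2 / M1))
    have := abs_nonneg (Real.log (M2 / m1))
    linarith
  · have := le_abs_self (Real.log (M2 / m1))
    have := abs_nonneg (Real.log (m2 / M1))
    linarith

theorem pt {p α β la lb h g : ℝ} (hα : 0 < α) (hβ : 0 < β) (hla : 0 < la) (hlb : 0 < lb)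
    (hl : la + lb = 1) (hh' : 0 < h) (hg : 0 < g) (h1 : α * h ^ p + β * g ^ p = 1) :
    la * (Real.log α - Real.log la) + lb * (Real.log β - Real.log lb) +
      p * la * Real.log h + p * lb * Real.log g ≤ 0 ∧
    (la * (Real.log α - Real.log la) + lb * (Real.log β - Real.log lb) +
      p * la * Real.log h + p * lb * Real.log g = 0 → α * h ^ p = la ∧ β * g ^ p = lb) := by
  have hA : 0 < α * h ^ p / la := by positivity
  have hB : 0 < β * g ^ p / lb := by positivity
  have eA : Real.log (α * h ^ p / la) = Real.log α + p * Real.log h - Real.log la := by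
    rw [Real.log_div (by positivity) hla.ne', Real.log_mul hα.ne' (by positivity),
      Real.log_rpow hh']
  have eB : Real.log (β * g ^ p / lb) = Real.log β + p * Real.log g - Real.log lb := by
    rw [Real.log_div (by positivity) hlb.ne', Real.log_mul hβ.ne' (by positivity),
      Real.log_rpow hg]
  have e : la * (Real.log α - Real.log la) + lb * (Real.log β - Real.log lb) +
      p * la * Real.log h + p * lb * Real.log g =
      la * Real.log (α * h ^ p / la) + lb * Real.log (β * g ^ p / lb) := by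
    rw [eA, eB]; ring
  have k1 : la * (α * h ^ p / la) = α * h ^ p := by field_simp
  have k2 : lb * (β * g ^ p / lb) = β * g ^ p := by field_simp
  have lA := mul_le_mul_of_nonneg_left (Real.log_le_sub_one_of_pos hA) hla.le
  have lB := mul_le_mul_of_nonneg_left (Real.log_le_sub_one_of_pos hB) hlb.le
  rw [mul_sub, k1, mul_one] at lA
  rw [mul_sub, k2, mul_one] at lB
  rw [e]
  refine ⟨by linarith, fun h0 => ?_⟩
  constructor
  · by_contra hne
    have hne' : α * h ^ p / la ≠ 1 := by
      intro h2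
      apply hne
      rw [← k1, h2, mul_one]
    have h3 := mul_lt_mul_of_pos_left (Real.log_lt_sub_one_of_pos hA hne') hla
    rw [mul_sub, k1, mul_one] at h3
    linarith
  · by_contra hne
    have hne' : β * g ^ p / lb ≠ 1 := by
      intro h2
      apply hne
      rw [← k2, h2, mul_one]
    have h3 := mul_lt_mul_of_pos_left (Real.log_lt_sub_one_of_pos hB hne') hlb
    rw [mul_sub, k2, mul_one] at h3
    linarith

theorem vol_smul {c : ℝ} (hc : 0 < c) (S : Set (EuclideanSpace ℝ (Fin n))) :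
    volume.real (c • S) = c ^ n * volume.real S := by
  unfold Measure.real
  rw [Measure.addHaar_smul, ENNReal.toReal_mul, finrank_euclideanSpace, Fintype.card_fin,
    ENNReal.toReal_ofReal (abs_nonneg _), abs_of_pos (pow_pos hc n)]

theorem SB_smul {c : ℝ} (hc : 0 < c) {M : Set (EuclideanSpace ℝ (Fin n))} (hM : SB M) :
    SB (c • M) where
  conv := hM.conv.smul c
  comp := hM.comp.smul c
  zero := by
    rw [interior_smul₀ hc.ne']
    exact ⟨0, hM.zero, smul_zero c⟩
  symm := by
    rintro x ⟨y, hy, rfl⟩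
    exact ⟨-y, hM.symm y hy, smul_neg c y⟩

theorem hh_smul {t : ℝ} (ht : 0 < t) (K : Set (EuclideanSpace ℝ (Fin n)))
    (u : EuclideanSpace ℝ (Fin n)) : hh ((fun x => t • x) '' K) u = t * hh K u := by
  unfold hh
  have h1 : (fun y => inner ℝ y u) '' ((fun x => t • x) '' K) =
      t • ((fun y => inner ℝ y u) '' K) := by
    rw [Set.image_image, ← Set.image_smul, Set.image_image]
    refine Set.image_congr fun y _ => ?_
    rw [real_inner_smul_left, smul_eq_mul]
  rw [h1, Real.sSup_smul_of_nonneg ht.le, smul_eq_mul]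

end LPZ

open LPZ in
theorem t_LPZ (hHH : S_HH) (hWSB : S_WSB) (hLMZ : S_LMZ) (hACTZ : S_ACTZ) (hGRAD : S_GRAD)
    (hGRH : S_GRH) (hDENSE : S_DENSE) (hSAMEV : S_SAMEV) : S_LPZ := by
  intro n K C p α β hn hK hC hp hp1 hα hβ hzon
  have hnR : (0 : ℝ) < n := by exact_mod_cast hn
  obtain ⟨hKP, hKW, hKpos, -, -, -, -, -, -, -⟩ := hHH n K hK
  obtain ⟨hCP, hCW, hCpos, -, -, -, -, -, -, -⟩ := hHH n C hC
  have hF : PH (cmb p α β (hh K) (hh C)) := PH_cmb hp hα hβ hKP hCP
  have hset := set_eq hF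
  have hset' : {x : EuclideanSpace ℝ (Fin n) | ∀ u : EuclideanSpace ℝ (Fin n), ‖u‖ = 1 →
    inner ℝ x u ≤ (α * hh K u ^ p + β * hh C u ^ p) ^ (1 / p)} = Wu (cmb p α β (hh K) (hh C)) :=
    hset
  rw [hset'] at hzon ⊢
  set f := cmb p α β (hh K) (hh C) with hf
  set M := Wu f with hMdef
  have hM : SB M := (hWSB n f hF).1
  obtain ⟨-, -, hMpos, hMfin, -, -, -, -, -, -⟩ := hHH n M hM
  have hact := hACTZ n f hn hF
  have hgrad := hGRAD n M hn hM
  obtain ⟨hmeas, -, -⟩ := hGRH n M hM
  have hae : ∀ᵐ x : EuclideanSpace ℝ (Fin n), gg M x ≠ 0 ∧ f (gg M x) = 1 := by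
    filter_upwards [hact, hgrad] with x h1 h2
    exact ⟨h2.2.2.1, h1⟩
  have hintK : IntegrableOn (fun x => Real.log (hh K (gg M x))) M :=
    integrable hn hF hKP hmeas hae hMfin.ne
  have hintC : IntegrableOn (fun x => Real.log (hh C (gg M x))) M :=
    integrable hn hF hCP hmeas hae hMfin.ne
  have hLK := hLMZ n M K hn hM hzon hK
  have hLC := hLMZ n M C hn hM hzon hC
  change α * volume.real K ^ (p / n) + β * volume.real C ^ (p / n) ≤ volume.real M ^ (p / n) ∧
    (volume.real M ^ (p / n) = α * volume.real K ^ (p / n) + β * volume.real C ^ (p / n) ↔ _)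
  obtain ⟨k, hk⟩ : ∃ k, k = volume.real K := ⟨_, rfl⟩
  obtain ⟨c, hc⟩ : ∃ c, c = volume.real C := ⟨_, rfl⟩
  obtain ⟨V, hV⟩ : ∃ V, V = volume.real M := ⟨_, rfl⟩
  rw [← hk, ← hV] at hLK
  rw [← hc, ← hV] at hLC
  rw [← hk] at hKpos
  rw [← hc] at hCpos
  rw [← hV] at hMpos
  rw [← hk, ← hc, ← hV]
  obtain ⟨a, ha⟩ : ∃ a, a = α * k ^ (p / n) := ⟨_, rfl⟩
  obtain ⟨b, hb⟩ : ∃ b, b = β * c ^ (p / n) := ⟨_, rfl⟩
  have ha0 : 0 < a := by rw [ha]; positivity
  have hb0 : 0 < b := by rw [hb]; positivity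
  obtain ⟨la, hla⟩ : ∃ la, la = a / (a + b) := ⟨_, rfl⟩
  obtain ⟨lb, hlb⟩ : ∃ lb, lb = b / (a + b) := ⟨_, rfl⟩
  have hla0 : 0 < la := by rw [hla]; positivity
  have hlb0 : 0 < lb := by rw [hlb]; positivity
  have hl1 : la + lb = 1 := by rw [hla, hlb]; field_simp
  have hloga : Real.log a = Real.log α + p / n * Real.log k := by
    rw [ha, Real.log_mul hα.ne' (by positivity), Real.log_rpow hKpos]
  have hlogb : Real.log b = Real.log β + p / n * Real.log c := by
    rw [hb, Real.log_mul hβ.ne' (by positivity), Real.log_rpow hCpos]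
  have hlogla : Real.log la = Real.log a - Real.log (a + b) := by
    rw [hla, Real.log_div ha0.ne' (by positivity)]
  have hloglb : Real.log lb = Real.log b - Real.log (a + b) := by
    rw [hlb, Real.log_div hb0.ne' (by positivity)]
  -- the pointwise inequality
  have hpt : ∀ᵐ x : EuclideanSpace ℝ (Fin n),
      (la * (Real.log α - Real.log la) + lb * (Real.log β - Real.log lb) +
        p * la * Real.log (hh K (gg M x)) + p * lb * Real.log (hh C (gg M x)) ≤ 0) ∧
      (la * (Real.log α - Real.log la) + lb * (Real.log β - Real.log lb) +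
        p * la * Real.log (hh K (gg M x)) + p * lb * Real.log (hh C (gg M x)) = 0 →
        α * hh K (gg M x) ^ p = la ∧ β * hh C (gg M x) ^ p = lb) := by
    filter_upwards [hae] with x hx
    have h1 := hKP.pos _ hx.1
    have h2 := hCP.pos _ hx.1
    refine pt hα hβ hla0 hlb0 hl1 h1 h2 ?_
    have h3 : (α * hh K (gg M x) ^ p + β * hh C (gg M x) ^ p) ^ (1 / p) = 1 := hx.2
    have h4 : 0 < α * hh K (gg M x) ^ p + β * hh C (gg M x) ^ p := by positivity
    have h5 : ((α * hh K (gg M x) ^ p + β * hh C (gg M x) ^ p) ^ (1 / p)) ^ p = (1 : ℝ) ^ p := by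
      rw [h3]
    rwa [← Real.rpow_mul h4.le, one_div_mul_cancel hp.ne', Real.rpow_one, Real.one_rpow] at h5
  have hconst : IntegrableOn (fun _ : EuclideanSpace ℝ (Fin n) =>
      la * (Real.log α - Real.log la) + lb * (Real.log β - Real.log lb)) M :=
    integrableOn_const hMfin.ne
  have hI1 : IntegrableOn (fun x => la * (Real.log α - Real.log la) +
      lb * (Real.log β - Real.log lb) + p * la * Real.log (hh K (gg M x))) M :=
    hconst.add (hintK.const_mul (p * la))
  have hI2 : IntegrableOn (fun x => la * (Real.log α - Real.log la) +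
      lb * (Real.log β - Real.log lb) + p * la * Real.log (hh K (gg M x)) +
      p * lb * Real.log (hh C (gg M x))) M :=
    hI1.add (hintC.const_mul (p * lb))
  have hval : ∫ x in M, (la * (Real.log α - Real.log la) + lb * (Real.log β - Real.log lb) +
        p * la * Real.log (hh K (gg M x)) + p * lb * Real.log (hh C (gg M x))) =
      V * (la * (Real.log α - Real.log la) + lb * (Real.log β - Real.log lb)) +
        p * la * (∫ x in M, Real.log (hh K (gg M x))) +
        p * lb * (∫ x in M, Real.log (hh C (gg M x))) := by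
    rw [integral_add hI1 (hintC.const_mul (p * lb)), integral_add hconst (hintK.const_mul (p * la)),
      integral_const_mul, integral_const_mul, setIntegral_const, smul_eq_mul, ← hV]
  have hup : ∫ x in M, (la * (Real.log α - Real.log la) + lb * (Real.log β - Real.log lb) +
        p * la * Real.log (hh K (gg M x)) + p * lb * Real.log (hh C (gg M x))) ≤ 0 :=
    integral_nonpos_of_ae (ae_restrict_of_ae (hpt.mono fun x hx => hx.1))
  have hlow : V * (Real.log (a + b) - p / n * Real.log V) ≤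
      ∫ x in M, (la * (Real.log α - Real.log la) + lb * (Real.log β - Real.log lb) +
        p * la * Real.log (hh K (gg M x)) + p * lb * Real.log (hh C (gg M x))) := by
    rw [hval]
    have h1 := mul_le_mul_of_nonneg_left hLK (by positivity : 0 ≤ p * la)
    have h2 := mul_le_mul_of_nonneg_left hLC (by positivity : 0 ≤ p * lb)
    rw [Real.log_div hKpos.ne' hMpos.ne'] at h1
    rw [Real.log_div hCpos.ne' hMpos.ne'] at h2
    have h3 : V * (Real.log (a + b) - p / n * Real.log V) =
        V * (la * (Real.log α - Real.log la) + lb * (Real.log β - Real.log lb)) +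
        p * la * (V / n * (Real.log k - Real.log V)) +
        p * lb * (V / n * (Real.log c - Real.log V)) := by
      rw [hlogla, hloglb, hloga, hlogb]
      have h4 : lb = 1 - la := by linarith
      rw [h4]
      field_simp
      ring
    rw [h3]
    linarith
  have hVpn : Real.log (V ^ (p / n)) = p / n * Real.log V := Real.log_rpow hMpos _
  refine ⟨?_, ?_, ?_⟩
  · rw [← ha, ← hb]
    have h1 : V * (Real.log (a + b) - p / n * Real.log V) ≤ 0 := hlow.trans hup
    have h2 : Real.log (a + b) ≤ Real.log (V ^ (p / n)) := by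
      rw [hVpn]
      by_contra h3
      push Not at h3
      have := mul_pos hMpos (sub_pos.2 h3)
      linarith
    exact (Real.log_le_log_iff (by positivity) (by positivity)).1 h2
  · intro heq
    rw [← ha, ← hb] at heq
    have h0 : ∫ x in M, (la * (Real.log α - Real.log la) + lb * (Real.log β - Real.log lb) +
        p * la * Real.log (hh K (gg M x)) + p * lb * Real.log (hh C (gg M x))) = 0 := by
      apply le_antisymm hup
      have h1 : Real.log (a + b) - p / n * Real.log V = 0 := by rw [← heq, hVpn, sub_self]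
      rw [h1, mul_zero] at hlow
      exact hlow
    have h1 : ∀ᵐ x ∂(volume.restrict M), (la * (Real.log α - Real.log la) +
        lb * (Real.log β - Real.log lb) +
        p * la * Real.log (hh K (gg M x)) + p * lb * Real.log (hh C (gg M x))) = 0 := by
      have h2 : 0 ≤ᵐ[volume.restrict M] fun x => -(la * (Real.log α - Real.log la) +
        lb * (Real.log β - Real.log lb) +
        p * la * Real.log (hh K (gg M x)) + p * lb * Real.log (hh C (gg M x))) :=
        ae_restrict_of_ae (hpt.mono fun x hx => neg_nonneg.2 hx.1)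
      have h3 := (integral_eq_zero_iff_of_nonneg_ae h2 hI2.neg).1 (by
        rw [integral_neg, h0, neg_zero])
      exact h3.mono fun x hx => neg_eq_zero.1 hx
    rw [ae_restrict_iff' hM.comp.measurableSet] at h1
    -- constants
    have key : ∀ (γ l e : ℝ) (L : Set (EuclideanSpace ℝ (Fin n))), 0 < γ → 0 < l → 0 < e → SB L →
        volume.real L = e → l = γ * e ^ (p / n) / (a + b) → PH (hh L) →
        (∀ᵐ x : EuclideanSpace ℝ (Fin n), x ∈ M → γ * hh L (gg M x) ^ p = l) →
        0 < (l / γ) ^ (1 / p) ∧ L = (l / γ) ^ (1 / p) • M := by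
      intro γ l e L hγ hl he hL hLe hle hLP hL1
      have hpos : 0 < (l / γ) ^ (1 / p) := by positivity
      have hsub : L ⊆ (l / γ) ^ (1 / p) • M := by
        refine hDENSE n M L _ hn hM hL hpos ?_
        filter_upwards [hL1, hae] with x hx hx' hxM
        have h5 := hLP.pos _ hx'.1
        have h6 : l / γ = hh L (gg M x) ^ p := by rw [← hx hxM]; field_simp
        rw [h6, ← Real.rpow_mul h5.le, mul_one_div_cancel hp.ne', Real.rpow_one]
      refine ⟨hpos, hSAMEV n L _ hL (SB_smul hpos hM) hsub ?_⟩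
      rw [vol_smul hpos, hLe, ← hV]
      have h7 : l / γ = (e / V) ^ (p / n) := by
        rw [hle, ← heq, Real.div_rpow he.le hMpos.le]
        field_simp
      have h8 : ((l / γ) ^ (1 / p)) ^ n = e / V := by
        rw [h7, ← Real.rpow_natCast, ← Real.rpow_mul (by positivity),
          ← Real.rpow_mul (by positivity)]
        have h9 : p / n * (1 / p * n) = 1 := by field_simp
        rw [h9, Real.rpow_one]
      rw [h8]
      apply le_of_eq
      field_simp
    obtain ⟨hcK, hKeq⟩ := key α la k K hα hla0 hKpos hK hk.symm (by rw [hla, ha]) hKP (by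
      filter_upwards [h1, hpt] with x hx hx' hxM
      exact (hx'.2 (hx hxM)).1)
    obtain ⟨hcC, hCeq⟩ := key β lb c C hβ hlb0 hCpos hC hc.symm (by rw [hlb, hb]) hCP (by
      filter_upwards [h1, hpt] with x hx hx' hxM
      exact (hx'.2 (hx hxM)).2)
    refine ⟨(lb / β) ^ (1 / p) / (la / α) ^ (1 / p), by positivity, ?_⟩
    have h5 : (fun x : EuclideanSpace ℝ (Fin n) =>
        ((lb / β) ^ (1 / p) / (la / α) ^ (1 / p)) • x) '' K =
        ((lb / β) ^ (1 / p) / (la / α) ^ (1 / p)) • K := Set.image_smul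
    rw [h5]
    conv_rhs => rw [hKeq]
    rw [smul_smul, div_mul_cancel₀ _ hcK.ne']
    exact hCeq
  · rintro ⟨t, ht, hCt⟩
    have hs0 : 0 < (α + β * t ^ p) ^ (1 / p) := by positivity
    have hfs : ∀ u, f u = (α + β * t ^ p) ^ (1 / p) * hh K u := by
      intro u
      have h1 : hh C u = t * hh K u := by rw [hCt, hh_smul ht]
      have h2 := nonneg_of_PH hKP u
      show (α * hh K u ^ p + β * hh C u ^ p) ^ (1 / p) = _
      rw [h1, Real.mul_rpow ht.le h2]
      have h3 : α * hh K u ^ p + β * (t ^ p * hh K u ^ p) = (α + β * t ^ p) * hh K u ^ p := by ring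
      rw [h3, Real.mul_rpow (by positivity) (by positivity), ← Real.rpow_mul h2,
        mul_one_div_cancel hp.ne', Real.rpow_one]
    have hMK : M = (α + β * t ^ p) ^ (1 / p) • K := by
      ext x
      rw [Set.mem_smul_set_iff_inv_smul_mem₀ hs0.ne', ← hKW]
      constructor
      · intro hx u hu
        have h1 := hx u hu
        rw [hfs] at h1
        rw [real_inner_smul_left, inv_mul_le_iff₀ hs0]
        exact h1
      · intro hx u hu
        have h1 := hx u hu
        rw [real_inner_smul_left, inv_mul_le_iff₀ hs0] at h1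
        rw [hfs]
        exact h1
    have hVs : V = ((α + β * t ^ p) ^ (1 / p)) ^ n * k := by
      rw [hV, hMK, vol_smul hs0, hk]
    have hct : c = t ^ n * k := by
      have h1 : (fun x : EuclideanSpace ℝ (Fin n) => t • x) '' K = t • K := Set.image_smul
      rw [hc, hCt, h1, vol_smul ht, hk]
    have hpow : ∀ s : ℝ, 0 < s → (s ^ n * k) ^ (p / n) = s ^ p * k ^ (p / n) := by
      intro s hs
      rw [Real.mul_rpow (by positivity) hKpos.le, ← Real.rpow_natCast, ← Real.rpow_mul hs.le]
      have : (n : ℝ) * (p / n) = p := by field_simp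
      rw [this]
    rw [hVs, hct, hpow _ hs0, hpow _ ht, ← Real.rpow_mul (by positivity),
      one_div_mul_cancel hp.ne', Real.rpow_one]
    ring

end H354ZN
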