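import Pool.Agent.H354R3.ZN.Defs3

/-! Task POL. -/

set_option autoImplicit false

open MeasureTheory Filter
open scoped Matrix Pointwise Topology

namespace H354ZN

namespace POL

/-- Gamma integrals -/
lemma gam (k : ℕ) : IntegrableOn (fun s : ℝ => Real.exp (-s) * s ^ k) (Set.Ioi 0) ∧
    ∫ s in Set.Ioi (0 : ℝ), Real.exp (-s) * s ^ k = (k.factorial : ℝ) := by
  have h0 : (0 : ℝ) < (k : ℝ) + 1 := by positivity
  have e : (fun s : ℝ => Real.exp (-s) * s ^ ((k : ℝ) + 1 - 1)) =
      fun s : ℝ => Real.exp (-s) * s ^ k := by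
    funext s
    rw [add_sub_cancel_right, Real.rpow_natCast]
  constructor
  · rw [← e]
    exact Real.GammaIntegral_convergent h0
  · rw [← Real.Gamma_nat_eq_factorial, Real.Gamma_eq_integral h0]
    rw [e]

lemma int1 (m : ℕ) : IntegrableOn (fun s : ℝ => ((s - 1) * Real.exp (-s)) * s ^ m) (Set.Ioi 0) := by
  have h := (gam (m + 1)).1.sub (gam m).1
  refine h.congr (Filter.Eventually.of_forall fun s => ?_)
  simp only [Pi.sub_apply]
  ring

lemma int2 (m : ℕ) : ∫ s in Set.Ioi (0 : ℝ), ((s - 1) * Real.exp (-s)) * s ^ m =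
    (m.factorial : ℝ) * m := by
  have h := integral_sub (gam (m + 1)).1 (gam m).1
  rw [(gam (m + 1)).2, (gam m).2] at h
  have e : (fun s : ℝ => ((s - 1) * Real.exp (-s)) * s ^ m) =
      fun s : ℝ => Real.exp (-s) * s ^ (m + 1) - Real.exp (-s) * s ^ m := by
    funext s
    ring
  rw [e, h, Nat.factorial_succ]
  push_cast
  ring

/-- `q e^{-q} = ∫_{s ≥ q} (s-1) e^{-s}` -/
lemma inner_eq {q : ℝ} (hq : 0 ≤ q) :
    ∫ s in Set.Ioi (0 : ℝ), (Set.Ici q).indicator (fun s => (s - 1) * Real.exp (-s)) s =
      Real.exp (-q) * q := by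
  have h1 : ∫ s in Set.Ioi q, (s - 1) * Real.exp (-s) = Real.exp (-q) * q := by
    have hint : IntegrableOn (fun s : ℝ => (s - 1) * Real.exp (-s)) (Set.Ioi q) := by
      have h := (int1 0).mono_set (Set.Ioi_subset_Ioi hq)
      simpa using h
    have ht : Tendsto (fun s : ℝ => -(s * Real.exp (-s))) atTop (𝓝 0) := by
      have := Real.tendsto_pow_mul_exp_neg_atTop_nhds_zero 1
      simp only [pow_one] at this
      simpa using this.neg
    have hd : ∀ x ∈ Set.Ici q, HasDerivAt (fun s : ℝ => -(s * Real.exp (-s)))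
        ((x - 1) * Real.exp (-x)) x := by
      intro x _
      have h2 : HasDerivAt (fun s : ℝ => Real.exp (-s)) (Real.exp (-x) * (-1)) x :=
        (hasDerivAt_neg x).exp
      have h3 := ((hasDerivAt_id x).mul h2).neg
      have e : -(1 * Real.exp (-x) + id x * (Real.exp (-x) * -1)) = (x - 1) * Real.exp (-x) := by
        simp only [id]
        ring
      rw [e] at h3
      exact h3
    rw [integral_Ioi_of_hasDerivAt_of_tendsto' hd hint ht]
    ring
  rw [setIntegral_indicator measurableSet_Ici]
  rcases hq.eq_or_lt with rfl | hq'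
  · rw [show Set.Ioi (0 : ℝ) ∩ Set.Ici 0 = Set.Ioi 0 from
      Set.inter_eq_left.2 Set.Ioi_subset_Ici_self]
    exact h1
  · rw [show Set.Ioi (0 : ℝ) ∩ Set.Ici q = Set.Ici q from
      Set.inter_eq_right.2 (fun s hs => lt_of_lt_of_le hq' hs), integral_Ici_eq_integral_Ioi]
    exact h1

variable {n : ℕ}

lemma gauge_smul' (K : Set (EuclideanSpace ℝ (Fin n))) {s : ℝ} (hs : 0 ≤ s)
    (y : EuclideanSpace ℝ (Fin n)) : gauge K (s • y) = s * gauge K y := by
  rw [gauge_smul_of_nonneg hs, smul_eq_mul]

/-- the cut-off function after scaling -/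
lemma cut_scale (K : Set (EuclideanSpace ℝ (Fin n))) (hK : ∀ x, x ∈ K ↔ gauge K x ≤ 1)
    (G : EuclideanSpace ℝ (Fin n) → ℝ) (hG : ∀ (c : ℝ) x, 0 < c → G (c • x) = G x) {s : ℝ}
    (hs : 0 < s) (y : EuclideanSpace ℝ (Fin n)) :
    ({x | gauge K x ≤ s}.indicator G) (s • y) = K.indicator G y := by
  by_cases h : y ∈ K
  · rw [Set.indicator_of_mem h, Set.indicator_of_mem, hG s y hs]
    change gauge K (s • y) ≤ s
    rw [gauge_smul' K hs.le]
    nlinarith [(hK y).1 h]
  · rw [Set.indicator_of_notMem h, Set.indicator_of_notMem]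
    intro h'
    change gauge K (s • y) ≤ s at h'
    rw [gauge_smul' K hs.le] at h'
    apply h
    rw [hK]
    by_contra hc
    push Not at hc
    nlinarith

lemma cut_int (K : Set (EuclideanSpace ℝ (Fin n))) (hK : ∀ x, x ∈ K ↔ gauge K x ≤ 1)
    (hKm : MeasurableSet K) (hKv : volume K < ⊤)
    (G : EuclideanSpace ℝ (Fin n) → ℝ) (hGm : Measurable G) (C : ℝ) (hC : ∀ x, |G x| ≤ C)
    (hG : ∀ (c : ℝ) x, 0 < c → G (c • x) = G x) {s : ℝ} (hs : 0 < s) :
    Integrable ({x | gauge K x ≤ s}.indicator G) ∧
      ∫ x, ({x | gauge K x ≤ s}.indicator G) x = s ^ n * ∫ x in K, G x := by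
  have h1 : Integrable (K.indicator G) := by
    rw [integrable_indicator_iff hKm]
    haveI : IsFiniteMeasure (volume.restrict K) := ⟨by rwa [Measure.restrict_apply_univ]⟩
    exact Integrable.of_bound hGm.aestronglyMeasurable C
      (Filter.Eventually.of_forall fun x => by rw [Real.norm_eq_abs]; exact hC x)
  have e : (fun y => ({x | gauge K x ≤ s}.indicator G) (s • y)) = K.indicator G := by
    funext y
    exact cut_scale K hK G hG hs y
  constructor
  · rw [← integrable_comp_smul_iff volume _ hs.ne', e]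
    exact h1
  · have h2 := Measure.integral_comp_smul volume ({x | gauge K x ≤ s}.indicator G) s
    rw [e, integral_indicator hKm, finrank_euclideanSpace_fin, smul_eq_mul,
      abs_of_pos (by positivity)] at h2
    rw [h2, ← mul_assoc, mul_inv_cancel₀ (by positivity), one_mul]

end POL

open POL in
theorem t_POL (hHH : S_HH) (hVEXP : S_VEXP) : S_POL := by
  intro n K G hn hSB hGm hGb hGh
  obtain ⟨C, hC⟩ := hGb
  obtain ⟨-, -, -, hKv, -, -, -, hK, -, hcont⟩ := hHH n K hSB
  obtain ⟨hexp, -⟩ := hVEXP n K hn hSB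
  have hKm : MeasurableSet K := hSB.comp.isClosed.measurableSet
  have hp0 : ∀ x, 0 ≤ gauge K x := fun x => gauge_nonneg x
  have hC0 : 0 ≤ C := (abs_nonneg _).trans (hC 0)
  constructor
  · intro c hc
    have hi : Integrable (fun x : EuclideanSpace ℝ (Fin n) =>
        Real.exp (-gauge K ((c / 2) • x))) :=
      (integrable_comp_smul_iff volume (fun x : EuclideanSpace ℝ (Fin n) =>
        Real.exp (-gauge K x)) (by positivity : c / 2 ≠ 0)).2 hexp
    refine (hi.const_mul (2 / c)).mono' ?_ (Filter.Eventually.of_forall fun x => ?_)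
    · apply Continuous.aestronglyMeasurable
      exact (Real.continuous_exp.comp (hcont.const_mul c).neg).mul hcont
    · rw [gauge_smul' K (by positivity), Real.norm_eq_abs,
        abs_of_nonneg (mul_nonneg (Real.exp_nonneg _) (hp0 x))]
      have h1 : c / 2 * gauge K x ≤ Real.exp (c / 2 * gauge K x) := by
        have := Real.add_one_le_exp (c / 2 * gauge K x)
        linarith
      have h2 : Real.exp (-(c * gauge K x)) * Real.exp (c / 2 * gauge K x) =
          Real.exp (-(c / 2 * gauge K x)) := by
        rw [← Real.exp_add]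
        congr 1
        ring
      have h3 : 0 < Real.exp (-(c * gauge K x)) := Real.exp_pos _
      calc Real.exp (-(c * gauge K x)) * gauge K x
          = 2 / c * (Real.exp (-(c * gauge K x)) * (c / 2 * gauge K x)) := by
            field_simp
        _ ≤ 2 / c * (Real.exp (-(c * gauge K x)) * Real.exp (c / 2 * gauge K x)) :=
            mul_le_mul_of_nonneg_left (mul_le_mul_of_nonneg_left h1 h3.le) (by positivity)
        _ = _ := by rw [h2]
  · -- Fubini
    set h : ℝ → ℝ := fun s => (s - 1) * Real.exp (-s) with hh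
    have hhc : Continuous h := by
      rw [hh]
      fun_prop
    set Φ : EuclideanSpace ℝ (Fin n) → ℝ → ℝ :=
      fun x s => h s * ({x | gauge K x ≤ s}.indicator G) x with hΦ
    have hset : MeasurableSet {q : EuclideanSpace ℝ (Fin n) × ℝ | gauge K q.1 ≤ q.2} :=
      measurableSet_le (hcont.measurable.comp measurable_fst) measurable_snd
    have hΦm : Measurable (Function.uncurry Φ) := by
      have e : Function.uncurry Φ = fun q : EuclideanSpace ℝ (Fin n) × ℝ => h q.2 *
          ({q : EuclideanSpace ℝ (Fin n) × ℝ | gauge K q.1 ≤ q.2}.indicator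
            (fun q => G q.1)) q := by
        funext q
        obtain ⟨x, s⟩ := q
        simp only [Function.uncurry, hΦ, Set.indicator_apply, Set.mem_setOf_eq]
      rw [e]
      exact (hhc.measurable.comp measurable_snd).mul
        ((hGm.comp measurable_fst).indicator hset)
    have hGm' : Measurable (fun x => |G x|) := hGm.abs
    have hGh' : ∀ (c : ℝ) x, 0 < c → |G (c • x)| = |G x| := fun c x hc => by rw [hGh c x hc]
    have hcutA : ∀ s : ℝ, 0 < s → ∫ x, ‖Φ x s‖ = |h s| * (s ^ n * ∫ x in K, |G x|) := by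
      intro s hs
      have e : (fun x => ‖Φ x s‖) = fun x => |h s| *
          ({x | gauge K x ≤ s}.indicator (fun x => |G x|)) x := by
        funext x
        simp only [hΦ, Real.norm_eq_abs, abs_mul]
        congr 1
        by_cases hx : x ∈ {x | gauge K x ≤ s}
        · rw [Set.indicator_of_mem hx, Set.indicator_of_mem hx]
        · rw [Set.indicator_of_notMem hx, Set.indicator_of_notMem hx, abs_zero]
      rw [e, integral_const_mul, (cut_int K hK hKm hKv (fun x => |G x|) hGm' C
        (fun x => by rw [abs_abs]; exact hC x) hGh' hs).2]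
    have hprod : Integrable (Function.uncurry Φ)
        ((volume : Measure (EuclideanSpace ℝ (Fin n))).prod
          ((volume : Measure ℝ).restrict (Set.Ioi 0))) := by
      rw [integrable_prod_iff' hΦm.aestronglyMeasurable]
      constructor
      · filter_upwards [ae_restrict_mem measurableSet_Ioi] with s hs
        exact ((cut_int K hK hKm hKv G hGm C hC hGh hs).1).const_mul (h s)
      · have hb : IntegrableOn (fun s : ℝ => |h s| * (s ^ n * ∫ x in K, |G x|)) (Set.Ioi 0) := by
          have h5 := ((int1 n).norm).mul_const (∫ x in K, |G x|)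
          refine h5.congr ?_
          filter_upwards [ae_restrict_mem measurableSet_Ioi] with s hs
          have hs' : (0 : ℝ) < s := hs
          simp only [norm_mul, Real.norm_eq_abs, hh, abs_mul]
          rw [abs_of_pos (by positivity : (0 : ℝ) < s ^ n)]
          ring
        refine hb.congr ?_
        filter_upwards [ae_restrict_mem measurableSet_Ioi] with s hs
        exact (hcutA s hs).symm
    have hL : ∀ x, ∫ s in Set.Ioi (0 : ℝ), Φ x s = Real.exp (-gauge K x) * gauge K x * G x := by
      intro x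
      have e : (fun s => Φ x s) = fun s =>
          (Set.Ici (gauge K x)).indicator (fun s => (s - 1) * Real.exp (-s)) s * G x := by
        funext s
        simp only [hΦ, hh, Set.indicator_apply, Set.mem_setOf_eq, Set.mem_Ici]
        split_ifs <;> ring
      rw [e, integral_mul_const, inner_eq (hp0 x)]
    have hR : ∀ s ∈ Set.Ioi (0 : ℝ), ∫ x, Φ x s = (h s * s ^ n) * ∫ x in K, G x := by
      intro s hs
      simp only [hΦ]
      rw [integral_const_mul, (cut_int K hK hKm hKv G hGm C hC hGh hs).2]
      ring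
    calc ∫ x : EuclideanSpace ℝ (Fin n), Real.exp (-gauge K x) * gauge K x * G x
        = ∫ x : EuclideanSpace ℝ (Fin n), ∫ s in Set.Ioi (0 : ℝ), Φ x s := by
          simp_rw [hL]
      _ = ∫ s in Set.Ioi (0 : ℝ), ∫ x : EuclideanSpace ℝ (Fin n), Φ x s :=
          integral_integral_swap hprod
      _ = ∫ s in Set.Ioi (0 : ℝ), (h s * s ^ n) * ∫ x in K, G x :=
          setIntegral_congr_fun measurableSet_Ioi hR
      _ = (n.factorial : ℝ) * n * ∫ x in K, G x := by
          rw [integral_mul_const, int2 n]

end H354ZN
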