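import Pool.Agent.H354R3.ZN.Defs3

/-!
# PTB: bounds for the gauge of the Wulff shapes `Kt` (project ZN of helper354)
-/

set_option autoImplicit false

open MeasureTheory Filter
open scoped Matrix Pointwise Topology

namespace H354ZN

theorem ptb_bound {n : ℕ} {g : EuclideanSpace ℝ (Fin n) → ℝ} (hg : ZH g) :
    ∃ C : ℝ, 0 ≤ C ∧ ∀ u, u ≠ 0 → |g u| ≤ C := by
  have hs : IsCompact (Metric.sphere (0 : EuclideanSpace ℝ (Fin n)) 1) := isCompact_sphere 0 1
  have hsub : Metric.sphere (0 : EuclideanSpace ℝ (Fin n)) 1 ⊆ {u | u ≠ 0} := by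
    intro u hu h0
    rw [h0] at hu
    simp at hu
  obtain ⟨C, hC⟩ := hs.exists_bound_of_continuousOn (hg.cont.mono hsub)
  refine ⟨max C 0, le_max_right _ _, ?_⟩
  intro u hu
  have h1 : ‖u‖ ≠ 0 := norm_ne_zero_iff.mpr hu
  have h2 := hg.hom ‖u‖⁻¹ u (inv_ne_zero h1)
  rw [← h2]
  refine le_trans ?_ (le_max_left _ _)
  apply hC
  rw [mem_sphere_zero_iff_norm, norm_smul, norm_inv, norm_norm, inv_mul_cancel₀ h1]

theorem ptb_ph {n : ℕ} {h g : EuclideanSpace ℝ (Fin n) → ℝ} (hh' : PH h) (hg : ZH g) (t : ℝ) :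
    PH (fun u => h u * Real.exp (-(t * g u))) where
  cont := hh'.cont.mul ((hg.cont.const_mul t).neg.rexp)
  pos u hu := mul_pos (hh'.pos u hu) (Real.exp_pos _)
  hom c u hc := by
    show h (c • u) * Real.exp (-(t * g (c • u))) = |c| * (h u * Real.exp (-(t * g u)))
    rw [hh'.hom c u hc, hg.hom c u hc]
    ring

theorem ptb_mem {n : ℕ} {K : Set (EuclideanSpace ℝ (Fin n))} (hW : Wu (hh K) = K) {s : ℝ}
    (hs : 0 < s) {x : EuclideanSpace ℝ (Fin n)} :
    x ∈ s • K ↔ ∀ u : EuclideanSpace ℝ (Fin n), u ≠ 0 → inner ℝ x u ≤ s * hh K u := by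
  rw [Set.mem_smul_set_iff_inv_smul_mem₀ hs.ne']
  conv_lhs => rw [← hW]
  show (∀ u : EuclideanSpace ℝ (Fin n), u ≠ 0 → inner ℝ (s⁻¹ • x) u ≤ hh K u) ↔ _
  refine forall_congr' fun u => imp_congr_right fun _ => ?_
  rw [real_inner_smul_left, inv_mul_le_iff₀ hs]

theorem t_PTB (hHH : S_HH) (hWSB : S_WSB) : S_PTB := by
  intro n K g hn hK hg
  obtain ⟨hPH, hW, -⟩ := hHH n K hK
  obtain ⟨C, hC0, hC⟩ := ptb_bound hg
  have hSB : ∀ t, SB (Kt K g t) := fun t => (hWSB n _ (ptb_ph hPH hg t)).1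
  refine ⟨hSB, C, hC0, ?_⟩
  intro t ht x
  have habs : ∀ M : Set (EuclideanSpace ℝ (Fin n)), SB M → Absorbent ℝ M := fun M hM =>
    absorbent_nhds_zero (mem_interior_iff_mem_nhds.mp hM.zero)
  constructor
  · -- `Kt ⊆ e^{Ct} K`
    have h1 : Kt K g t ⊆ Real.exp (C * t) • K := by
      intro y hy
      rw [ptb_mem hW (Real.exp_pos _)]
      intro u hu
      have h2 : inner ℝ y u ≤ hh K u * Real.exp (-(t * g u)) := hy u hu
      refine h2.trans ?_
      rw [mul_comm]
      apply mul_le_mul_of_nonneg_right _ (hPH.pos u hu).le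
      apply Real.exp_le_exp.mpr
      have h3 := neg_abs_le (g u)
      have h4 := hC u hu
      nlinarith
    have h5 := gauge_mono (habs _ (hSB t)) h1 x
    rw [gauge_smul_left_of_nonneg (Real.exp_pos _).le] at h5
    rw [Real.exp_neg]
    exact h5
  · -- `e^{-Ct} K ⊆ Kt`
    have h1 : Real.exp (-(C * t)) • K ⊆ Kt K g t := by
      intro y hy
      rw [ptb_mem hW (Real.exp_pos _)] at hy
      intro u hu
      have h2 := hy u hu
      refine h2.trans ?_
      show Real.exp (-(C * t)) * hh K u ≤ hh K u * Real.exp (-(t * g u))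
      rw [mul_comm]
      apply mul_le_mul_of_nonneg_left _ (hPH.pos u hu).le
      apply Real.exp_le_exp.mpr
      have h3 := le_abs_self (g u)
      have h4 := hC u hu
      nlinarith
    have hab : Absorbent ℝ (Real.exp (-(C * t)) • K) := by
      apply absorbent_nhds_zero
      rw [set_smul_mem_nhds_zero_iff (Real.exp_pos _).ne']
      exact mem_interior_iff_mem_nhds.mp hK.zero
    have h5 := gauge_mono hab h1 x
    rw [gauge_smul_left_of_nonneg (Real.exp_pos _).le, Real.exp_neg, inv_inv] at h5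
    exact h5

end H354ZN
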