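import Pool.Agent.H354R3.ZN.Defs3

/-!
# The derivative of the gauge of `Kt`
-/

set_option autoImplicit false

open MeasureTheory Filter
open scoped Matrix Pointwise Topology

namespace H354ZN

/-- The linear constraints of the Wulff shape, scaled by the gauge. -/
theorem PTL_le (hHH : S_HH) {n : ℕ} {f : EuclideanSpace ℝ (Fin n) → ℝ} (hK : SB (Wu f))
    {x : EuclideanSpace ℝ (Fin n)} (hx : x ≠ 0) {u : EuclideanSpace ℝ (Fin n)} (hu : u ≠ 0) :
    inner ℝ x u ≤ gauge (Wu f) x * f u := by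
  obtain ⟨-, -, -, -, -, -, -, hmem, hpos, -⟩ := hHH n (Wu f) hK
  have hr := hpos x hx
  have h1 : (gauge (Wu f) x)⁻¹ • x ∈ Wu f := by
    rw [hmem, gauge_smul_of_nonneg (inv_nonneg.2 hr.le), smul_eq_mul, inv_mul_cancel₀ hr.ne']
  have h2 := h1 u hu
  rw [real_inner_smul_left] at h2
  have h3 := mul_le_mul_of_nonneg_left h2 hr.le
  rwa [← mul_assoc, mul_inv_cancel₀ hr.ne', one_mul] at h3

/-- One of the constraints is an equality. -/
theorem PTL_max (hHH : S_HH) {n : ℕ} {f : EuclideanSpace ℝ (Fin n) → ℝ} (hf : PH f)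
    (hK : SB (Wu f)) {x : EuclideanSpace ℝ (Fin n)} (hx : x ≠ 0) :
    ∃ u ∈ Metric.sphere (0 : EuclideanSpace ℝ (Fin n)) 1,
      inner ℝ x u = gauge (Wu f) x * f u := by
  have hne : ∀ u ∈ Metric.sphere (0 : EuclideanSpace ℝ (Fin n)) 1, u ≠ 0 := by
    intro u hu h0
    rw [mem_sphere_zero_iff_norm, h0, norm_zero] at hu
    exact zero_ne_one hu
  have hxn : 0 < ‖x‖ := norm_pos_iff.2 hx
  have hxs : ‖x‖⁻¹ • x ∈ Metric.sphere (0 : EuclideanSpace ℝ (Fin n)) 1 := by
    rw [mem_sphere_zero_iff_norm, norm_smul, norm_inv, norm_norm, inv_mul_cancel₀ hxn.ne']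
  have hcont : ContinuousOn (fun u => inner ℝ x u / f u)
      (Metric.sphere (0 : EuclideanSpace ℝ (Fin n)) 1) := by
    refine ContinuousOn.div (Continuous.continuousOn (by fun_prop)) (hf.cont.mono hne)
      fun u hu => (hf.pos u (hne u hu)).ne'
  obtain ⟨u0, hu0, hmax⟩ := (isCompact_sphere (0 : EuclideanSpace ℝ (Fin n)) 1).exists_isMaxOn
    ⟨_, hxs⟩ hcont
  have hf0 := hf.pos u0 (hne u0 hu0)
  refine ⟨u0, hu0, ?_⟩
  obtain ⟨-, -, -, -, -, -, -, hmem, hpos, -⟩ := hHH n (Wu f) hK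
  have hM : 0 < inner ℝ x u0 / f u0 := by
    have h1 : inner ℝ x (‖x‖⁻¹ • x) / f (‖x‖⁻¹ • x) ≤ inner ℝ x u0 / f u0 := hmax hxs
    refine lt_of_lt_of_le ?_ h1
    refine div_pos ?_ (hf.pos _ (hne _ hxs))
    rw [real_inner_smul_right, real_inner_self_eq_norm_sq]
    positivity
  have hle := PTL_le hHH hK hx (hne u0 hu0)
  refine le_antisymm hle ?_
  have h2 : (inner ℝ x u0 / f u0)⁻¹ • x ∈ Wu f := by
    intro u hu
    have hun : 0 < ‖u‖ := norm_pos_iff.2 hu
    have hus : ‖u‖⁻¹ • u ∈ Metric.sphere (0 : EuclideanSpace ℝ (Fin n)) 1 := by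
      rw [mem_sphere_zero_iff_norm, norm_smul, norm_inv, norm_norm, inv_mul_cancel₀ hun.ne']
    have h3 : inner ℝ x (‖u‖⁻¹ • u) / f (‖u‖⁻¹ • u) ≤ inner ℝ x u0 / f u0 := hmax hus
    rw [real_inner_smul_right, hf.hom _ _ (inv_ne_zero hun.ne'), abs_of_pos (inv_pos.2 hun),
      mul_div_mul_left _ _ (inv_ne_zero hun.ne'), div_le_iff₀ (hf.pos u hu)] at h3
    rw [real_inner_smul_left, inv_mul_le_iff₀ hM]
    exact h3
  rw [hmem, gauge_smul_of_nonneg (inv_nonneg.2 hM.le), smul_eq_mul, inv_mul_le_iff₀ hM,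
    mul_one] at h2
  calc gauge (Wu f) x * f u0 ≤ inner ℝ x u0 / f u0 * f u0 :=
        mul_le_mul_of_nonneg_right h2 hf0.le
    _ = inner ℝ x u0 := div_mul_cancel₀ _ hf0.ne'

theorem PTL_PH {n : ℕ} {f g : EuclideanSpace ℝ (Fin n) → ℝ} (hf : PH f) (hg : ZH g) (t : ℝ) :
    PH fun u => f u * Real.exp (-(t * g u)) := by
  refine ⟨?_, fun u hu => mul_pos (hf.pos u hu) (Real.exp_pos _), fun c u hc => ?_⟩
  · exact hf.cont.mul (Real.continuous_exp.comp_continuousOn (continuousOn_const.mul hg.cont).neg)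
  · show f (c • u) * Real.exp (-(t * g (c • u))) = |c| * (f u * Real.exp (-(t * g u)))
    rw [hf.hom c u hc, hg.hom c u hc, mul_assoc]

theorem t_PTL (hHH : S_HH) (hPTB : S_PTB) (hGRAD : S_GRAD) : S_PTL := by
  intro n K g hn hK hg
  obtain ⟨hSB, C, hC, hbd⟩ := hPTB n K g hn hK hg
  have hHK := hHH n K hK
  obtain ⟨hPH, hWu, -, -, habs, -, hle1, hmem, hpos, -⟩ := hHK
  filter_upwards [hGRAD n K hn hK] with x hx
  obtain ⟨-, hx0, hv0, hxv, hhv, -, huniq⟩ := hx
  have hp := hpos x hx0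
  have hPHt : ∀ t : ℝ, PH fun u => hh K u * Real.exp (-(t * g u)) := fun t => PTL_PH hPH hg t
  choose u hu1 hu2 using fun t : ℝ => PTL_max hHH (hPHt t) (hSB t) hx0
  have hne : ∀ w ∈ Metric.sphere (0 : EuclideanSpace ℝ (Fin n)) 1, w ≠ 0 := by
    intro w hw h0
    rw [mem_sphere_zero_iff_norm, h0, norm_zero] at hw
    exact zero_ne_one hw
  -- `⟨x, w⟩ ≤ p h_K(w)`
  have hxw : ∀ w : EuclideanSpace ℝ (Fin n), inner ℝ x w ≤ gauge K x * hh K w := by
    intro w
    have h1 : (gauge K x)⁻¹ • x ∈ K := by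
      rw [hmem, gauge_smul_of_nonneg (inv_nonneg.2 hp.le), smul_eq_mul, inv_mul_cancel₀ hp.ne']
    have h2 := (le_abs_self _).trans (habs _ h1 w)
    rw [real_inner_smul_left, inv_mul_le_iff₀ hp] at h2
    exact h2
  -- lower bound
  have hlow : ∀ t : ℝ, 0 < t → gauge K x * g (gg K x) ≤ (gauge (Kt K g t) x - gauge K x) / t := by
    intro t ht
    have h1 := PTL_le hHH (hSB t) hx0 hv0
    simp only [hxv, hhv, one_mul] at h1
    have h2 : gauge K x * Real.exp (t * g (gg K x)) ≤ gauge (Kt K g t) x := by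
      have h3 := mul_le_mul_of_nonneg_right h1 (Real.exp_pos (t * g (gg K x))).le
      rw [mul_assoc, ← Real.exp_add, neg_add_cancel, Real.exp_zero, mul_one] at h3
      exact h3
    rw [le_div_iff₀ ht]
    have h4 := Real.add_one_le_exp (t * g (gg K x))
    have h5 := mul_le_mul_of_nonneg_left h4 hp.le
    nlinarith
  -- upper bound
  have hupp : ∀ t : ℝ, 0 < t → (gauge (Kt K g t) x - gauge K x) / t ≤
      gauge K x * (g (u t) * Real.exp (t * g (u t))) := by
    intro t ht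
    have h1 := hu2 t
    have hh0 := hPH.pos (u t) (hne _ (hu1 t))
    have h2 : gauge (Kt K g t) x * (hh K (u t) * Real.exp (-(t * g (u t)))) ≤
        gauge K x * hh K (u t) := by
      rw [← show inner ℝ x (u t) =
        gauge (Kt K g t) x * (hh K (u t) * Real.exp (-(t * g (u t)))) from h1]
      exact hxw _
    have h3 : gauge (Kt K g t) x * Real.exp (-(t * g (u t))) ≤ gauge K x := by
      refine le_of_mul_le_mul_right ?_ hh0
      calc gauge (Kt K g t) x * Real.exp (-(t * g (u t))) * hh K (u t)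
          = gauge (Kt K g t) x * (hh K (u t) * Real.exp (-(t * g (u t)))) := by ring
        _ ≤ _ := h2
    have h4 : gauge (Kt K g t) x ≤ gauge K x * Real.exp (t * g (u t)) := by
      have h5 := mul_le_mul_of_nonneg_right h3 (Real.exp_pos (t * g (u t))).le
      rwa [mul_assoc, ← Real.exp_add, neg_add_cancel, Real.exp_zero, mul_one] at h5
    rw [div_le_iff₀ ht]
    have h6 := Real.add_one_le_exp (-(t * g (u t)))
    have h7 : Real.exp (t * g (u t)) - 1 ≤ t * g (u t) * Real.exp (t * g (u t)) := by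
      have h8 := mul_le_mul_of_nonneg_right h6 (Real.exp_pos (t * g (u t))).le
      rw [← Real.exp_add, neg_add_cancel, Real.exp_zero] at h8
      nlinarith
    have h9 := mul_le_mul_of_nonneg_left h7 hp.le
    nlinarith
  rw [tendsto_iff_ultrafilter]
  intro U hU
  have hU0 : Tendsto (fun t : ℝ => t) (U : Filter ℝ) (𝓝 0) :=
    (tendsto_id.mono_left nhdsWithin_le_nhds).mono_left hU
  have hUpos : ∀ᶠ t in (U : Filter ℝ), (0 : ℝ) < t :=
    hU self_mem_nhdsWithin
  -- limit of the maximisers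
  obtain ⟨w, hw, hUw⟩ := (isCompact_sphere (0 : EuclideanSpace ℝ (Fin n)) 1).ultrafilter_le_nhds
    (U.map u) (by
      rw [le_principal_iff]
      exact Filter.mem_map.2 (Filter.univ_mem' fun t => hu1 t))
  have hlim : Tendsto u (U : Filter ℝ) (𝓝 w) := hUw
  have hw0 : w ≠ 0 := hne w hw
  have hopen : {u : EuclideanSpace ℝ (Fin n) | u ≠ 0} ∈ 𝓝 w := isOpen_ne.mem_nhds hw0
  have hglim : Tendsto (fun t => g (u t)) (U : Filter ℝ) (𝓝 (g w)) :=
    (hg.cont.continuousAt hopen).tendsto.comp hlim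
  have hhlim : Tendsto (fun t => hh K (u t)) (U : Filter ℝ) (𝓝 (hh K w)) :=
    (hPH.cont.continuousAt hopen).tendsto.comp hlim
  have hrlim : Tendsto (fun t => gauge (Kt K g t) x) (U : Filter ℝ) (𝓝 (gauge K x)) := by
    have h1 : Tendsto (fun t : ℝ => Real.exp (-(C * t)) * gauge K x) (U : Filter ℝ)
        (𝓝 (gauge K x)) := by
      have h2 : Tendsto (fun t : ℝ => Real.exp (-(C * t)) * gauge K x) (𝓝 0)
          (𝓝 (Real.exp (-(C * 0)) * gauge K x)) := Continuous.tendsto (by fun_prop) 0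
      rw [mul_zero, neg_zero, Real.exp_zero, one_mul] at h2
      exact h2.comp hU0
    have h3 : Tendsto (fun t : ℝ => Real.exp (C * t) * gauge K x) (U : Filter ℝ)
        (𝓝 (gauge K x)) := by
      have h2 : Tendsto (fun t : ℝ => Real.exp (C * t) * gauge K x) (𝓝 0)
          (𝓝 (Real.exp (C * 0) * gauge K x)) := Continuous.tendsto (by fun_prop) 0
      rw [mul_zero, Real.exp_zero, one_mul] at h2
      exact h2.comp hU0
    exact tendsto_of_tendsto_of_tendsto_of_le_of_le' h1 h3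
      (hUpos.mono fun t ht => (hbd t ht.le x).1) (hUpos.mono fun t ht => (hbd t ht.le x).2)
  have hexp : Tendsto (fun t => Real.exp (-(t * g (u t)))) (U : Filter ℝ) (𝓝 1) := by
    have h1 := (hU0.mul hglim).neg
    rw [zero_mul, neg_zero] at h1
    have h2 := (Real.continuous_exp.tendsto 0).comp h1
    rwa [Real.exp_zero] at h2
  have hkey : inner ℝ x w = gauge K x * hh K w := by
    have h1 : Tendsto (fun t => inner ℝ x (u t)) (U : Filter ℝ) (𝓝 (inner ℝ x w)) :=
      ((continuous_const.inner continuous_id).tendsto w).comp hlim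
    have h2 := hrlim.mul (hhlim.mul hexp)
    rw [mul_one] at h2
    refine tendsto_nhds_unique h1 (h2.congr fun t => ?_)
    exact (hu2 t).symm
  have hhw := hPH.pos w hw0
  have hwv : (hh K w)⁻¹ • w = gg K x := by
    refine huniq _ ?_ ?_
    · rw [← hle1, hPH.hom _ _ (inv_ne_zero hhw.ne'), abs_of_pos (inv_pos.2 hhw),
        inv_mul_cancel₀ hhw.ne']
    · rw [real_inner_smul_right, hkey, mul_comm (gauge K x), ← mul_assoc,
        inv_mul_cancel₀ hhw.ne', one_mul]
  have hgw : g w = g (gg K x) := by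
    rw [← hwv, hg.hom _ _ (inv_ne_zero hhw.ne')]
  have hup : Tendsto (fun t => gauge K x * (g (u t) * Real.exp (t * g (u t)))) (U : Filter ℝ)
      (𝓝 (gauge K x * g (gg K x))) := by
    have h1 := hU0.mul hglim
    rw [zero_mul] at h1
    have h2 := (Real.continuous_exp.tendsto 0).comp h1
    rw [Real.exp_zero] at h2
    have h3 := (hglim.mul h2).const_mul (gauge K x)
    rw [mul_one, hgw] at h3
    exact h3
  exact tendsto_of_tendsto_of_tendsto_of_le_of_le' tendsto_const_nhds hup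
    (hUpos.mono fun t ht => hlow t ht) (hUpos.mono fun t ht => hupp t ht)

end H354ZN
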