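import Pool.Agent.H354R3.ZN.Defs3

/-! SAMEV: nested symmetric bodies of the same volume are equal. -/

set_option autoImplicit false

open MeasureTheory Filter
open scoped Matrix Pointwise Topology

namespace H354ZN

/-- SAMEV -/
theorem t_SAMEV (hHH : S_HH) : S_SAMEV := by
  intro n K L hK hL hKL hv
  by_contra hne
  obtain ⟨x, hxL, hxK⟩ : ∃ x ∈ L, x ∉ K := by
    by_contra hcon
    push Not at hcon
    exact hne (Set.Subset.antisymm hKL hcon)
  have hKc : IsClosed K := hK.comp.isClosed
  have hint : (interior L).Nonempty := ⟨0, hL.zero⟩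
  have hcl : x ∈ closure (interior L) := by
    rw [hL.conv.closure_interior_eq_closure_of_nonempty_interior hint]
    exact subset_closure hxL
  have hmeet : (interior L ∩ Kᶜ).Nonempty := by
    rw [mem_closure_iff] at hcl
    obtain ⟨y, hy1, hy2⟩ := hcl Kᶜ hKc.isOpen_compl hxK
    exact ⟨y, hy2, hy1⟩
  have hopen : IsOpen (interior L ∩ Kᶜ) := isOpen_interior.inter hKc.isOpen_compl
  have hpos : 0 < volume (interior L ∩ Kᶜ) := hopen.measure_pos volume hmeet
  have hKf : volume K < ⊤ := (hHH n K hK).2.2.2.1
  have hLf : volume L < ⊤ := (hHH n L hL).2.2.2.1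
  have hdis : Disjoint K (interior L ∩ Kᶜ) := by
    rw [Set.disjoint_left]
    intro z hz hz2
    exact hz2.2 hz
  have h1 : volume K + volume (interior L ∩ Kᶜ) ≤ volume L := by
    rw [← measure_union hdis hopen.measurableSet]
    apply measure_mono
    intro z hz
    rcases hz with hz | hz
    · exact hKL hz
    · exact interior_subset hz.1
  have h2 : volume K < volume L := lt_of_lt_of_le
    (ENNReal.lt_add_right hKf.ne hpos.ne') h1
  have h3 : volume.real K < volume.real L := by
    unfold Measure.real
    exact (ENNReal.toReal_lt_toReal hKf.ne hLf.ne).2 h2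
  exact absurd hv (not_le.2 h3)

end H354ZN
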