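import Pool.Agent.H354R3.ZN.Defs3

/-!
# A zonoid body lies between two homothetic zonotopes (helper742)
-/

set_option autoImplicit false

open MeasureTheory Filter
open scoped Matrix Pointwise Topology

namespace H354ZN

theorem sand_le_hh {n : ℕ} {K : Set (EuclideanSpace ℝ (Fin n))} (hK : Bornology.IsBounded K)
    (u y : EuclideanSpace ℝ (Fin n)) (hy : y ∈ K) : inner ℝ y u ≤ hh K u := by
  unfold hh
  refine le_csSup ?_ ⟨y, hy, rfl⟩
  obtain ⟨R, hR⟩ := hK.exists_norm_le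
  refine ⟨R * ‖u‖, ?_⟩
  rintro _ ⟨z, hz, rfl⟩
  calc inner ℝ z u ≤ ‖z‖ * ‖u‖ := real_inner_le_norm z u
    _ ≤ R * ‖u‖ := mul_le_mul_of_nonneg_right (hR z hz) (norm_nonneg u)

theorem sand_comp {n : ℕ} {A B : Set (EuclideanSpace ℝ (Fin n))} (hA : Bornology.IsBounded A)
    (hB : Bornology.IsBounded B) (hA' : A.Nonempty) (hB' : B.Nonempty) (δ : ℝ)
    (h : Metric.hausdorffDist A B < δ) (u : EuclideanSpace ℝ (Fin n)) :
    hh A u ≤ hh B u + δ * ‖u‖ := by
  have hfin : Metric.hausdorffEDist A B ≠ ⊤ :=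
    Metric.hausdorffEDist_ne_top_of_nonempty_of_bounded hA' hB' hA hB
  have : hh A u = sSup ((fun y => inner ℝ y u) '' A) := rfl
  rw [this]
  refine csSup_le (hA'.image _) ?_
  rintro _ ⟨x, hx, rfl⟩
  obtain ⟨z, hz, hd⟩ := Metric.exists_dist_lt_of_hausdorffDist_lt hx h hfin
  have h1 : inner ℝ z u ≤ hh B u := sand_le_hh hB u z hz
  have h2 : inner ℝ (x - z) u ≤ δ * ‖u‖ := by
    calc inner ℝ (x - z) u ≤ ‖x - z‖ * ‖u‖ := real_inner_le_norm _ u
      _ ≤ δ * ‖u‖ := mul_le_mul_of_nonneg_right (by rw [← dist_eq_norm]; exact hd.le)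
        (norm_nonneg u)
  have h3 : inner ℝ x u = inner ℝ z u + inner ℝ (x - z) u := by
    rw [inner_sub_left]; ring
  show inner ℝ x u ≤ _
  linarith

theorem t_SAND : S_SAND := by
  intro n K hK hZ ε hε hε1
  obtain ⟨r, hr, hball⟩ := Metric.isOpen_iff.mp isOpen_interior 0 hK.zero
  have hballK : Metric.ball (0 : EuclideanSpace ℝ (Fin n)) r ⊆ K :=
    hball.trans interior_subset
  set ρ := r / 2 with hρ
  have hρ0 : 0 < ρ := by positivity
  have hKb : Bornology.IsBounded K := hK.comp.isBounded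
  have h0K : (0 : EuclideanSpace ℝ (Fin n)) ∈ K := interior_subset hK.zero
  have hlow : ∀ u, ρ * ‖u‖ ≤ hh K u := by
    intro u
    by_cases hu : u = 0
    · subst hu
      have := sand_le_hh hKb 0 0 h0K
      simpa using this
    · have hun : 0 < ‖u‖ := norm_pos_iff.mpr hu
      have hy : (ρ / ‖u‖) • u ∈ K := by
        apply hballK
        rw [mem_ball_zero_iff, norm_smul, Real.norm_eq_abs, abs_of_pos (by positivity),
          div_mul_cancel₀ _ hun.ne']
        rw [hρ]; linarith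
      have := sand_le_hh hKb u _ hy
      rw [inner_smul_left, real_inner_self_eq_norm_sq] at this
      have h2 : (starRingEnd ℝ) (ρ / ‖u‖) * ‖u‖ ^ 2 = ρ * ‖u‖ := by
        simp only [conj_trivial]
        field_simp
      rw [h2] at this
      exact this
  obtain ⟨Z, hZz, hd⟩ := hZ.2 (ε * ρ) (by positivity)
  refine ⟨Z, hZz, ?_⟩
  obtain ⟨N, z, hZe⟩ := hZz
  have hZb : Bornology.IsBounded Z := by
    rw [hZe, isBounded_iff_forall_norm_le]
    refine ⟨∑ j, ‖z j‖, ?_⟩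
    rintro x ⟨t, ht, rfl⟩
    refine (norm_sum_le _ _).trans (Finset.sum_le_sum fun j _ => ?_)
    rw [norm_smul, Real.norm_eq_abs]
    calc |t j| * ‖z j‖ ≤ 1 * ‖z j‖ := mul_le_mul_of_nonneg_right (ht j) (norm_nonneg _)
      _ = ‖z j‖ := one_mul _
  have hZn : Z.Nonempty := by
    rw [hZe]
    exact ⟨0, fun _ => 0, fun _ => by simp, by simp⟩
  intro u
  have h1 := sand_comp hKb hZb ⟨0, h0K⟩ hZn _ hd u
  have h2 := sand_comp hZb hKb hZn ⟨0, h0K⟩ (ε * ρ) (by rwa [Metric.hausdorffDist_comm]) u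
  have h3 := hlow u
  have h4 : ε * ρ * ‖u‖ ≤ ε * hh K u := by
    rw [mul_assoc]; exact mul_le_mul_of_nonneg_left h3 hε.le
  constructor <;> nlinarith

end H354ZN
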