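import Pool.Agent.H354R3.ZN.Defs3

/-!
# SECZ: sections of rescaled cubes, zonoid in the middle
-/

set_option autoImplicit false

open MeasureTheory Filter
open scoped Matrix Pointwise Topology

namespace H354ZN

namespace SECZh

/-- the box -/
def Bx {n : ℕ} (τ : Fin n → ℝ) : Set (EuclideanSpace ℝ (Fin n)) :=
  {x | ∀ i, |WithLp.ofLp x i| ≤ Real.exp (τ i)}

theorem compact_Bx {n : ℕ} (τ : Fin n → ℝ) : IsCompact (Bx τ) := by
  have h1 : IsCompact (Set.pi Set.univ fun i => Set.Icc (-Real.exp (τ i)) (Real.exp (τ i))) :=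
    isCompact_univ_pi fun i => isCompact_Icc
  have h2 := h1.image (PiLp.continuous_toLp 2 (fun _ : Fin n => ℝ))
  have h3 : Bx τ = (fun x : Fin n → ℝ => WithLp.toLp 2 x) ''
      (Set.pi Set.univ fun i => Set.Icc (-Real.exp (τ i)) (Real.exp (τ i))) := by
    ext x
    constructor
    · intro hx
      refine ⟨WithLp.ofLp x, ?_, rfl⟩
      intro i _
      exact abs_le.mp (hx i)
    · rintro ⟨y, hy, rfl⟩ i
      exact abs_le.mpr (hy i (Set.mem_univ i))
  rw [h3]
  exact h2

theorem continuous_coord {n : ℕ} (i : Fin n) :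
    Continuous fun x : EuclideanSpace ℝ (Fin n) => WithLp.ofLp x i :=
  (continuous_apply i).comp (PiLp.continuous_ofLp 2 (fun _ : Fin n => ℝ))

theorem sb_pre {n k : ℕ} (φ : EuclideanSpace ℝ (Fin k) →ₗᵢ[ℝ] EuclideanSpace ℝ (Fin n))
    (τ : Fin n → ℝ) : SB (φ ⁻¹' Bx τ) := by
  refine ⟨?_, ?_, ?_, ?_⟩
  · have h1 : Convex ℝ (Bx τ) := by
      intro x hx y hy a b ha hb hab i
      have h2 : WithLp.ofLp (a • x + b • y) i = a * WithLp.ofLp x i + b * WithLp.ofLp y i := by
        simp
      rw [h2]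
      calc |a * WithLp.ofLp x i + b * WithLp.ofLp y i|
          ≤ |a * WithLp.ofLp x i| + |b * WithLp.ofLp y i| := abs_add_le _ _
        _ = a * |WithLp.ofLp x i| + b * |WithLp.ofLp y i| := by
          rw [abs_mul, abs_mul, abs_of_nonneg ha, abs_of_nonneg hb]
        _ ≤ a * Real.exp (τ i) + b * Real.exp (τ i) := by
          gcongr
          · exact hx i
          · exact hy i
        _ = Real.exp (τ i) := by rw [← add_mul, hab, one_mul]
    exact h1.linear_preimage φ.toLinearMap
  · exact φ.isometry.isClosedEmbedding.isCompact_preimage (compact_Bx τ)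
  · have hopen : IsOpen {x : EuclideanSpace ℝ (Fin n) | ∀ i, |WithLp.ofLp x i| < Real.exp (τ i)} := by
      have h1 : {x : EuclideanSpace ℝ (Fin n) | ∀ i, |WithLp.ofLp x i| < Real.exp (τ i)} =
          ⋂ i, {x : EuclideanSpace ℝ (Fin n) | |WithLp.ofLp x i| < Real.exp (τ i)} := by
        ext x; simp
      rw [h1]
      apply isOpen_iInter_of_finite
      intro i
      exact isOpen_lt (continuous_coord i).abs continuous_const
    rw [mem_interior]
    refine ⟨φ ⁻¹' {x : EuclideanSpace ℝ (Fin n) | ∀ i, |WithLp.ofLp x i| < Real.exp (τ i)}, ?_,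
      hopen.preimage φ.continuous, ?_⟩
    · intro x hx i
      exact (hx i).le
    · intro i
      simp [Real.exp_pos]
  · intro x hx i
    rw [map_neg]
    simpa using hx i

theorem zonotope_bdd {n N : ℕ} (z : Fin N → EuclideanSpace ℝ (Fin n)) :
    Bornology.IsBounded (ZonE z) := by
  refine (Metric.isBounded_closedBall (x := (0 : EuclideanSpace ℝ (Fin n)))
    (r := ∑ j, ‖z j‖)).subset ?_
  rintro x ⟨t, ht, rfl⟩
  rw [mem_closedBall_zero_iff]
  refine (norm_sum_le _ _).trans (Finset.sum_le_sum fun j _ => ?_)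
  rw [norm_smul, Real.norm_eq_abs]
  calc |t j| * ‖z j‖ ≤ 1 * ‖z j‖ := by
        gcongr
        exact ht j
    _ = ‖z j‖ := one_mul _

/-- images of zonoids under linear maps of norm at most one -/
theorem zonoid_image {n k : ℕ} (P : EuclideanSpace ℝ (Fin n) →L[ℝ] EuclideanSpace ℝ (Fin k))
    (hP : ∀ x, ‖P x‖ ≤ ‖x‖) (S : Set (EuclideanSpace ℝ (Fin n))) (hS : IsZonoid S)
    (hne : S.Nonempty) : IsZonoid (P '' S) := by
  refine ⟨hS.1.image P.continuous, ?_⟩
  intro ε hε
  obtain ⟨Z, ⟨N, z, hz⟩, hd⟩ := hS.2 (ε / 2) (by positivity)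
  refine ⟨P '' Z, ⟨N, fun j => P (z j), ?_⟩, ?_⟩
  · rw [hz]
    ext x
    constructor
    · rintro ⟨_, ⟨t, ht, rfl⟩, rfl⟩
      refine ⟨t, ht, ?_⟩
      rw [map_sum]
      exact Finset.sum_congr rfl fun j _ => map_smul _ _ _
    · rintro ⟨t, ht, rfl⟩
      refine ⟨_, ⟨t, ht, rfl⟩, ?_⟩
      rw [map_sum]
      exact Finset.sum_congr rfl fun j _ => map_smul _ _ _
  · have hfin : Metric.hausdorffEDist S Z ≠ ⊤ := by
      refine Metric.hausdorffEDist_ne_top_of_nonempty_of_bounded hne ?_ hS.1.isBounded ?_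
      · rw [hz]
        exact ⟨0, fun _ => 0, fun _ => by simp, by simp⟩
      · rw [hz]
        exact zonotope_bdd z
    have hlip : ∀ x y, dist (P x) (P y) ≤ dist x y := by
      intro x y
      rw [dist_eq_norm, dist_eq_norm, ← map_sub]
      exact hP _
    refine lt_of_le_of_lt (Metric.hausdorffDist_le_of_mem_dist (r := ε / 2) (by positivity)
      ?_ ?_) (by linarith)
    · rintro _ ⟨x, hx, rfl⟩
      obtain ⟨y, hy, hxy⟩ := Metric.exists_dist_lt_of_hausdorffDist_lt hx hd hfin
      exact ⟨P y, ⟨y, hy, rfl⟩, (hlip x y).trans hxy.le⟩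
    · rintro _ ⟨y, hy, rfl⟩
      obtain ⟨x, hx, hxy⟩ := Metric.exists_dist_lt_of_hausdorffDist_lt' hy hd hfin
      refine ⟨P x, ⟨x, hx, rfl⟩, (hlip y x).trans ?_⟩
      rw [dist_comm]
      exact hxy.le

end SECZh

open SECZh

theorem t_SECZ (hHH : S_HH) (_hWSB : S_WSB) (hZMZ : S_ZMZ) : S_SECZ := by
  classical
  intro n k hk hkn H hH s t l hl0 hl1 hZ
  let b : OrthonormalBasis (Fin k) ℝ H := (stdOrthonormalBasis ℝ H).reindex (finCongr hH)
  let φ : EuclideanSpace ℝ (Fin k) →ₗᵢ[ℝ] EuclideanSpace ℝ (Fin n) :=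
    H.subtypeₗᵢ.comp b.repr.symm.toLinearIsometry
  have hφH : ∀ x, φ x ∈ H := fun x => (b.repr.symm x).2
  have hφs : ∀ y ∈ H, ∃ x, φ x = y := by
    intro y hy
    refine ⟨b.repr ⟨y, hy⟩, ?_⟩
    simp [φ]
  clear_value φ
  have hSec : ∀ τ : Fin n → ℝ, Sec H τ = φ '' (φ ⁻¹' Bx τ) := by
    intro τ
    ext y
    constructor
    · rintro ⟨hy, hyH⟩
      obtain ⟨x, rfl⟩ := hφs y hyH
      exact ⟨x, hy, rfl⟩
    · rintro ⟨x, hx, rfl⟩
      exact ⟨hx, hφH x⟩
  have hSB : ∀ τ, SB (φ ⁻¹' Bx τ) := sb_pre φ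
  -- measure
  set c : NNReal := Measure.addHaarScalarFactor
    (Measure.hausdorffMeasure (k : ℝ) : Measure (EuclideanSpace ℝ (Fin k)))
    volume with hc
  have hcμ : (Measure.hausdorffMeasure (k : ℝ) :
      Measure (EuclideanSpace ℝ (Fin k))) = c • volume := by
    have h0 : (Measure.hausdorffMeasure ((Module.finrank ℝ (EuclideanSpace ℝ (Fin k)) : ℕ) : ℝ) :
        Measure (EuclideanSpace ℝ (Fin k))) =
        Measure.hausdorffMeasure (k : ℝ) := by
      rw [finrank_euclideanSpace, Fintype.card_fin]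
    have : Measure.IsAddHaarMeasure (Measure.hausdorffMeasure (k : ℝ) :
        Measure (EuclideanSpace ℝ (Fin k))) := by
      rw [← h0]
      infer_instance
    exact Measure.isAddLeftInvariant_eq_smul _ _
  have hmeas : ∀ S : Set (EuclideanSpace ℝ (Fin k)),
      (Measure.hausdorffMeasure (k : ℝ) (φ '' S)).toReal = c * volume.real S := by
    intro S
    rw [φ.isometry.hausdorffMeasure_image (Or.inl (Nat.cast_nonneg _)), hcμ]
    rw [Measure.smul_apply]
    simp [Measure.real, ENNReal.smul_def]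
  set r : Fin n → ℝ := fun i => l * s i + (1 - l) * t i with hr
  set K1 : Set (EuclideanSpace ℝ (Fin k)) := φ ⁻¹' Bx s with hK1
  set K2 : Set (EuclideanSpace ℝ (Fin k)) := φ ⁻¹' Bx t with hK2
  set M : Set (EuclideanSpace ℝ (Fin k)) := φ ⁻¹' Bx r with hM
  obtain ⟨hp1, hw1, hv1, _, hb1, _⟩ := hHH k K1 (hSB s)
  obtain ⟨hp2, hw2, hv2, _, hb2, _⟩ := hHH k K2 (hSB t)
  obtain ⟨hpM, hwM, hvM, _, hbM, _⟩ := hHH k M (hSB r)
  set f : EuclideanSpace ℝ (Fin k) → ℝ :=
    fun u => max (hh K1 u ^ l * hh K2 u ^ (1 - l)) (hh M u) with hf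
  have hl1' : 0 ≤ 1 - l := sub_nonneg.2 hl1
  have hPH : PH f := by
    refine ⟨?_, ?_, ?_⟩
    · refine ContinuousOn.sup (ContinuousOn.mul ?_ ?_) hpM.cont
      · exact hp1.cont.rpow_const fun u hu => Or.inl (hp1.pos u hu).ne'
      · exact hp2.cont.rpow_const fun u hu => Or.inl (hp2.pos u hu).ne'
    · intro u hu
      exact lt_max_of_lt_right (hpM.pos u hu)
    · intro a u ha
      simp only [hf]
      by_cases hu : u = 0
      · subst hu
        rw [smul_zero]
        have h0 : ∀ K : Set (EuclideanSpace ℝ (Fin k)), K.Nonempty → hh K 0 = 0 := by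
          intro K hK
          unfold hh
          have h1 : (fun y : EuclideanSpace ℝ (Fin k) => (inner ℝ y (0 : EuclideanSpace ℝ (Fin k)) : ℝ))
              '' K = {0} := by
            ext x
            constructor
            · rintro ⟨y, _, rfl⟩
              simp
            · intro hx
              obtain ⟨y, hy⟩ := hK
              exact ⟨y, hy, by simpa using hx.symm⟩
          rw [h1, csSup_singleton]
        have hne : ∀ τ, (φ ⁻¹' Bx τ).Nonempty := fun τ => ⟨0, interior_subset (hSB τ).zero⟩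
        rw [h0 K1 (hne s), h0 K2 (hne t), h0 M (hne r)]
        have h2 : (0 : ℝ) ^ l * (0 : ℝ) ^ (1 - l) = 0 := by
          rcases eq_or_ne l 0 with h | h
          · rw [h]
            norm_num
          · rw [Real.zero_rpow h, zero_mul]
        rw [h2]
        simp
      · rw [hp1.hom a u ha, hp2.hom a u ha, hpM.hom a u ha,
          Real.mul_rpow (abs_nonneg _) (hp1.pos u hu).le,
          Real.mul_rpow (abs_nonneg _) (hp2.pos u hu).le]
        have h5 : |a| ^ l * |a| ^ (1 - l) = |a| := by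
          rw [← Real.rpow_add (abs_pos.mpr ha)]
          simp
        have h6 : |a| ^ l * hh K1 u ^ l * (|a| ^ (1 - l) * hh K2 u ^ (1 - l)) =
            |a| * (hh K1 u ^ l * hh K2 u ^ (1 - l)) := by
          calc _ = (|a| ^ l * |a| ^ (1 - l)) * (hh K1 u ^ l * hh K2 u ^ (1 - l)) := by ring
            _ = _ := by rw [h5]
        rw [h6, ← mul_max_of_nonneg _ _ (abs_nonneg a)]
  -- the normals of the slabs
  let P : EuclideanSpace ℝ (Fin n) →L[ℝ] EuclideanSpace ℝ (Fin k) :=
    ContinuousLinearMap.adjoint φ.toContinuousLinearMap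
  have hPin : ∀ x y, (inner ℝ x (P y) : ℝ) = inner ℝ (φ x) y := by
    intro x y
    exact ContinuousLinearMap.adjoint_inner_right φ.toContinuousLinearMap x y
  let v : Fin n → EuclideanSpace ℝ (Fin k) := fun i => P (EuclideanSpace.single i 1)
  have hv : ∀ i x, (inner ℝ x (v i) : ℝ) = WithLp.ofLp (φ x) i := by
    intro i x
    rw [hPin, EuclideanSpace.inner_single_right]
    simp
  have hhv : ∀ (τ : Fin n → ℝ) (i : Fin n), hh (φ ⁻¹' Bx τ) (v i) ≤ Real.exp (τ i) := by
    intro τ i
    unfold hh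
    apply csSup_le
    · exact (Set.image_nonempty.2 ⟨0, interior_subset (hSB τ).zero⟩)
    · rintro _ ⟨y, hy, rfl⟩
      show (inner ℝ y (v i) : ℝ) ≤ _
      rw [hv]
      exact (le_abs_self _).trans (hy i)
  have hfv : ∀ i, v i ≠ 0 → f (v i) ≤ Real.exp (r i) := by
    intro i hi
    simp only [hf]
    apply max_le
    · calc hh K1 (v i) ^ l * hh K2 (v i) ^ (1 - l)
          ≤ Real.exp (s i) ^ l * Real.exp (t i) ^ (1 - l) := by
            apply mul_le_mul
            · exact Real.rpow_le_rpow (hp1.pos _ hi).le (hhv s i) hl0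
            · exact Real.rpow_le_rpow (hp2.pos _ hi).le (hhv t i) hl1'
            · exact Real.rpow_nonneg (hp2.pos _ hi).le _
            · exact Real.rpow_nonneg (Real.exp_pos _).le _
        _ = Real.exp (r i) := by
            rw [← Real.exp_mul, ← Real.exp_mul, ← Real.exp_add]
            congr 1
            simp only [hr]
            ring
    · exact hhv r i
  have hWu : Wu f = M := by
    apply Set.Subset.antisymm
    · intro x hx i
      rw [← hv]
      by_cases hi : v i = 0
      · rw [hi, inner_zero_right, abs_zero]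
        exact (Real.exp_pos _).le
      · rw [abs_le]
        constructor
        · have h1 := hx (-v i) (neg_ne_zero.2 hi)
          have h2 : f (-v i) = f (v i) := by
            have h3 := hPH.hom (-1) (v i) (by norm_num)
            rw [neg_one_smul] at h3
            rw [h3]
            norm_num
          rw [h2, inner_neg_right] at h1
          have h4 := hfv i hi
          linarith
        · exact (hx (v i) hi).trans (hfv i hi)
    · intro x hx u hu
      have h1 : x ∈ Wu (hh M) := by rw [hwM]; exact hx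
      exact (h1 u hu).trans (le_max_right _ _)
  have hZoM : IsZonoid M := by
    have h1 : M = P '' Sec H r := by
      rw [hSec r, Set.image_image]
      have h2 : ∀ x, P (φ x) = x := by
        intro x
        refine ext_inner_left ℝ fun y => ?_
        rw [hPin, LinearIsometry.inner_map_map]
      simp only [h2, Set.image_id']
      rfl
    rw [h1]
    apply zonoid_image P _ _ hZ
    · rw [hSec r]
      exact Set.image_nonempty.2 ⟨0, interior_subset (hSB r).zero⟩
    · intro x
      have h2 : ‖P‖ ≤ 1 := by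
        show ‖ContinuousLinearMap.adjoint φ.toContinuousLinearMap‖ ≤ 1
        rw [LinearIsometryEquiv.norm_map]
        exact φ.norm_toContinuousLinearMap_le
      calc ‖P x‖ ≤ ‖P‖ * ‖x‖ := P.le_opNorm x
        _ ≤ 1 * ‖x‖ := by gcongr
        _ = ‖x‖ := one_mul _
  have hmain := hZMZ k 2 f ![K1, K2] ![hh K1, hh K2] ![l, 1 - l] hk hPH (by rw [hWu]; exact hZoM)
    (by
      intro i
      fin_cases i
      · exact (hSB s).comp
      · exact (hSB t).comp)
    (by
      intro i
      fin_cases i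
      · exact hv1
      · exact hv2)
    (by
      intro i
      fin_cases i
      · exact hl0
      · exact hl1')
    (by simp)
    (by
      intro i u hu
      fin_cases i
      · exact ⟨hp1.pos u hu, fun x hx => hb1 x hx u⟩
      · exact ⟨hp2.pos u hu, fun x hx => hb2 x hx u⟩)
    (by
      intro u hu
      rw [Fin.prod_univ_two]
      exact le_max_left _ _)
  rw [Fin.prod_univ_two, hWu] at hmain
  simp only [Matrix.cons_val_zero, Matrix.cons_val_one] at hmain
  rw [hSec, hSec, hSec, hmeas, hmeas, hmeas]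
  have hc0 : (0 : ℝ) ≤ c := c.2
  rw [Real.mul_rpow hc0 hv1.le, Real.mul_rpow hc0 hv2.le]
  have h7 : (c : ℝ) ^ l * (c : ℝ) ^ (1 - l) = c := by
    rw [← Real.rpow_add' hc0 (by norm_num)]
    simp
  calc (c : ℝ) ^ l * volume.real K1 ^ l * ((c : ℝ) ^ (1 - l) * volume.real K2 ^ (1 - l))
      = ((c : ℝ) ^ l * (c : ℝ) ^ (1 - l)) *
        (volume.real K1 ^ l * volume.real K2 ^ (1 - l)) := by ring
    _ = c * (volume.real K1 ^ l * volume.real K2 ^ (1 - l)) := by rw [h7]
    _ ≤ c * volume.real M := mul_le_mul_of_nonneg_left hmain hc0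

end H354ZN
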