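import Pool.Agent.H354R3.ZN.Defs3

/-!
# (UNI) uniqueness in the `L_p`-Minkowski problem among zonoids

Prover: helper676.
-/

set_option autoImplicit false

open MeasureTheory Filter
open scoped Matrix Pointwise Topology

namespace H354ZN

theorem UNI_meas {n : ℕ} {f : EuclideanSpace ℝ (Fin n) → ℝ} (hf : PH f) : Measurable f :=
  measurable_of_continuousOn_compl_singleton 0 hf.cont

theorem UNI_eqv {n : ℕ} {f f' : EuclideanSpace ℝ (Fin n) → ℝ} (hf : PH f) (hf' : PH f') :
    ∃ m M : ℝ, 0 < m ∧ 0 < M ∧ ∀ u, u ≠ 0 → m * f u ≤ f' u ∧ f' u ≤ M * f u := by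
  have hS : IsCompact (Metric.sphere (0 : EuclideanSpace ℝ (Fin n)) 1) := isCompact_sphere _ _
  have hne : ∀ v ∈ Metric.sphere (0 : EuclideanSpace ℝ (Fin n)) 1, v ≠ 0 := by
    intro v hv h0
    rw [mem_sphere_zero_iff_norm, h0, norm_zero] at hv
    exact zero_ne_one hv
  have hnorm : ∀ u : EuclideanSpace ℝ (Fin n), u ≠ 0 →
      ‖u‖⁻¹ • u ∈ Metric.sphere (0 : EuclideanSpace ℝ (Fin n)) 1 := by
    intro u hu
    rw [mem_sphere_zero_iff_norm, norm_smul, norm_inv, norm_norm,
      inv_mul_cancel₀ (norm_ne_zero_iff.2 hu)]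
  have hq : ContinuousOn (fun u => f' u / f u) (Metric.sphere (0 : EuclideanSpace ℝ (Fin n)) 1) :=
    (hf'.cont.mono hne).div (hf.cont.mono hne) fun v hv => (hf.pos v (hne v hv)).ne'
  have hqh : ∀ u : EuclideanSpace ℝ (Fin n), u ≠ 0 →
      f' (‖u‖⁻¹ • u) / f (‖u‖⁻¹ • u) = f' u / f u := by
    intro u hu
    have h0 : ‖u‖⁻¹ ≠ 0 := inv_ne_zero (norm_ne_zero_iff.2 hu)
    rw [hf.hom _ _ h0, hf'.hom _ _ h0, mul_div_mul_left _ _ (abs_ne_zero.2 h0)]
  rcases (Metric.sphere (0 : EuclideanSpace ℝ (Fin n)) 1).eq_empty_or_nonempty with he | hne'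
  · refine ⟨1, 1, one_pos, one_pos, fun u hu => ?_⟩
    have := hnorm u hu
    rw [he] at this
    exact absurd this (Set.notMem_empty _)
  · obtain ⟨a, ha, hmin⟩ := hS.exists_isMinOn hne' hq
    obtain ⟨b, hb, hmax⟩ := hS.exists_isMaxOn hne' hq
    refine ⟨f' a / f a, f' b / f b, div_pos (hf'.pos a (hne a ha)) (hf.pos a (hne a ha)),
      div_pos (hf'.pos b (hne b hb)) (hf.pos b (hne b hb)), fun u hu => ?_⟩
    have h1 : f' a / f a ≤ f' (‖u‖⁻¹ • u) / f (‖u‖⁻¹ • u) := hmin (hnorm u hu)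
    have h2 : f' (‖u‖⁻¹ • u) / f (‖u‖⁻¹ • u) ≤ f' b / f b := hmax (hnorm u hu)
    rw [hqh u hu] at h1 h2
    exact ⟨(le_div_iff₀ (hf.pos u hu)).1 h1, (div_le_iff₀ (hf.pos u hu)).1 h2⟩

theorem UNI_int (hHH : S_HH) (hGRAD : S_GRAD) (hGRH : S_GRH) {n : ℕ} {p : ℝ}
    {K C : Set (EuclideanSpace ℝ (Fin n))} (hn : 1 ≤ n) (hK : SB K) (hC : SB C) :
    ∫⁻ u, ENNReal.ofReal (hh C u ^ p) ∂(SLp p K) =
      n * ∫⁻ x in K, ENNReal.ofReal (hh C (gg K x) ^ p) := by
  have hmK : Measurable (hh K) := UNI_meas (hHH n K hK).1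
  have hmC : Measurable (hh C) := UNI_meas (hHH n C hC).1
  have hg := (hGRH n K hK).1
  have hν : Measurable fun x : EuclideanSpace ℝ (Fin n) => ‖gg K x‖⁻¹ • gg K x :=
    (hg.norm.inv).smul hg
  have hd : Measurable fun u => ENNReal.ofReal (hh K u ^ (-p)) :=
    (hmK.pow_const _).ennreal_ofReal
  have hF : Measurable fun u => ENNReal.ofReal (hh C u ^ p) :=
    (hmC.pow_const _).ennreal_ofReal
  unfold SLp coneVol
  rw [lintegral_smul_measure, lintegral_withDensity_eq_lintegral_mul _ hd hF,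
    lintegral_map (hd.mul hF) hν, smul_eq_mul]
  congr 1
  apply lintegral_congr_ae
  filter_upwards [ae_restrict_of_ae (hGRAD n K hn hK)] with x hx
  obtain ⟨-, -, hg0, -, hg1, -, -⟩ := hx
  have hpos : 0 < ‖gg K x‖⁻¹ := inv_pos.2 (norm_pos_iff.2 hg0)
  have hC0 := (hHH n C hC).1.pos _ hg0
  simp only [Pi.mul_apply]
  rw [(hHH n K hK).1.hom _ _ hpos.ne', (hHH n C hC).1.hom _ _ hpos.ne', hg1, mul_one,
    abs_of_pos hpos, ← ENNReal.ofReal_mul (Real.rpow_nonneg hpos.le _),
    Real.mul_rpow hpos.le hC0.le, ← mul_assoc, ← Real.rpow_add hpos, neg_add_cancel,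
    Real.rpow_zero, one_mul]

theorem UNI_one (hGRAD : S_GRAD) {n : ℕ} {p : ℝ}
    {C : Set (EuclideanSpace ℝ (Fin n))} (hn : 1 ≤ n) (hC : SB C) :
    ∫⁻ x in C, ENNReal.ofReal (hh C (gg C x) ^ p) = volume C := by
  rw [← setLIntegral_one]
  apply lintegral_congr_ae
  filter_upwards [ae_restrict_of_ae (hGRAD n C hn hC)] with x hx
  obtain ⟨-, -, hg0, -, hg1, -, -⟩ := hx
  rw [hg1, Real.one_rpow, ENNReal.ofReal_one]

/-- the function `s = log h_C(∇‖x‖_K)` -/
theorem UNI_s (hHH : S_HH) (hGRAD : S_GRAD) (hGRH : S_GRH) {n : ℕ}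
    {K C : Set (EuclideanSpace ℝ (Fin n))} (hn : 1 ≤ n) (hK : SB K) (hC : SB C) :
    IntegrableOn (fun x => Real.log (hh C (gg K x))) K := by
  have hmC : Measurable (hh C) := UNI_meas (hHH n C hC).1
  have hg := (hGRH n K hK).1
  obtain ⟨m, M, hm, hM, hmM⟩ := UNI_eqv (hHH n K hK).1 (hHH n C hC).1
  have hfin : volume K ≠ ⊤ := (hHH n K hK).2.2.2.1.ne
  refine Measure.integrableOn_of_bounded (M := max |Real.log m| |Real.log M|) hfin
    (Real.measurable_log.comp (hmC.comp hg)).aestronglyMeasurable ?_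
  filter_upwards [ae_restrict_of_ae (hGRAD n K hn hK)] with x hx
  obtain ⟨-, -, hg0, -, hg1, -, -⟩ := hx
  obtain ⟨h1, h2⟩ := hmM _ hg0
  rw [hg1, mul_one] at h1 h2
  rw [Real.norm_eq_abs]
  have h3 := Real.log_le_log hm h1
  have h4 := Real.log_le_log (hm.trans_le h1) h2
  exact abs_le_max_abs_abs h3 h4

/-- the half -/
theorem UNI_half (hHH : S_HH) (hLMZ : S_LMZ) (hGRAD : S_GRAD) (hGRH : S_GRH) {n : ℕ} {p : ℝ}
    {K C : Set (EuclideanSpace ℝ (Fin n))} (hn : 1 ≤ n) (hp : 0 < p) (hp1 : p < 1) (hK : SB K)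
    (hC : SB C) (hZ : IsZonoid K) (h : SLp p K = SLp p C) :
    IntegrableOn (fun x => Real.exp (p * Real.log (hh C (gg K x)))) K ∧
    ∫ x in K, Real.exp (p * Real.log (hh C (gg K x))) = volume.real C ∧
      volume.real K ≤ volume.real C := by
  have hs := UNI_s hHH hGRAD hGRH hn hK hC
  have hvK : 0 < volume.real K := (hHH n K hK).2.2.1
  have hvC : 0 < volume.real C := (hHH n C hC).2.2.1
  have hfin : volume K ≠ ⊤ := (hHH n K hK).2.2.2.1.ne
  have hmC : Measurable (hh C) := UNI_meas (hHH n C hC).1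
  have hg := (hGRH n K hK).1
  have hmeas : Measurable fun x => Real.exp (p * Real.log (hh C (gg K x))) :=
    Real.measurable_exp.comp ((Real.measurable_log.comp (hmC.comp hg)).const_mul p)
  have h1 := UNI_int hHH hGRAD hGRH (p := p) hn hK hC
  rw [h, UNI_int hHH hGRAD hGRH (p := p) hn hC hC, UNI_one hGRAD hn hC] at h1
  have hn0 : (n : ENNReal) ≠ 0 := by
    simp
    omega
  have h2 : ∫⁻ x in K, ENNReal.ofReal (hh C (gg K x) ^ p) = volume C :=
    ((ENNReal.mul_right_inj hn0 (ENNReal.natCast_ne_top n)).1 h1).symm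
  have h3 : ∫⁻ x in K, ENNReal.ofReal (Real.exp (p * Real.log (hh C (gg K x)))) = volume C := by
    rw [← h2]
    apply lintegral_congr_ae
    filter_upwards [ae_restrict_of_ae (hGRAD n K hn hK)] with x hx
    obtain ⟨-, -, hg0, -, hg1, -, -⟩ := hx
    rw [Real.rpow_def_of_pos ((hHH n C hC).1.pos _ hg0), mul_comm]
  have hi : IntegrableOn (fun x => Real.exp (p * Real.log (hh C (gg K x)))) K := by
    refine ⟨hmeas.aestronglyMeasurable, ?_⟩
    rw [hasFiniteIntegral_iff_ofReal (Eventually.of_forall fun x => (Real.exp_pos _).le), h3]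
    exact (hHH n C hC).2.2.2.1
  have h4 : ∫ x in K, Real.exp (p * Real.log (hh C (gg K x))) = volume.real C := by
    rw [integral_eq_lintegral_of_nonneg_ae (Eventually.of_forall fun x => (Real.exp_pos _).le)
      hmeas.aestronglyMeasurable, h3]
    rfl
  refine ⟨hi, h4, ?_⟩
  -- Jensen
  have hL := hLMZ n K C hn hK hZ hC
  set I : ℝ := ∫ x in K, Real.log (hh C (gg K x)) with hI
  set c : ℝ := p * I / volume.real K with hc
  have hJ : volume.real K * Real.exp c ≤ volume.real C := by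
    rw [← h4]
    have h5 : ∫ x in K, (Real.exp c + Real.exp c * (p * Real.log (hh C (gg K x)) - c)) =
        volume.real K * Real.exp c := by
      rw [integral_add, integral_const_mul, integral_sub, integral_const_mul, setIntegral_const,
        setIntegral_const, ← hI, hc]
      · simp only [smul_eq_mul]
        field_simp
        ring
      · exact hs.const_mul p
      · exact integrableOn_const hfin
      · exact integrableOn_const hfin
      · exact ((hs.const_mul p).sub (integrableOn_const hfin)).const_mul _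
    rw [← h5]
    refine setIntegral_mono ((integrableOn_const hfin).add
      (((hs.const_mul p).sub (integrableOn_const hfin)).const_mul _)) hi fun x => ?_
    have h6 := Real.add_one_le_exp (p * Real.log (hh C (gg K x)) - c)
    have h7 := mul_le_mul_of_nonneg_left h6 (Real.exp_pos c).le
    rw [← Real.exp_add, add_sub_cancel] at h7
    simp only
    linarith
  by_contra hlt
  rw [not_le] at hlt
  have hlog : Real.log (volume.real C / volume.real K) < 0 :=
    Real.log_neg (div_pos hvC hvK) ((div_lt_one hvK).2 hlt)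
  have h8 : c ≤ Real.log (volume.real C / volume.real K) := by
    rw [Real.le_log_iff_exp_le (div_pos hvC hvK), le_div_iff₀ hvK]
    linarith
  have h9 : p / n * Real.log (volume.real C / volume.real K) ≤ c := by
    rw [hc, le_div_iff₀ hvK]
    have := mul_le_mul_of_nonneg_left hL hp.le
    calc _ = p * (volume.real K / n * Real.log (volume.real C / volume.real K)) := by ring
      _ ≤ _ := this
  have hn1 : (1 : ℝ) ≤ n := by exact_mod_cast hn
  have h10 : p / n < 1 := by
    rw [div_lt_one (by linarith)]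
    linarith
  nlinarith

theorem t_UNI (hHH : S_HH) (hLMZ : S_LMZ) (hGRAD : S_GRAD) (hGRH : S_GRH) (hDENSE : S_DENSE)
    (hSAMEV : S_SAMEV) : S_UNI := by
  intro n p K C hn hp hp1 hK hC hZK hZC h
  obtain ⟨hi, hint, h1⟩ := UNI_half hHH hLMZ hGRAD hGRH hn hp hp1 hK hC hZK h
  obtain ⟨-, -, h2⟩ := UNI_half hHH hLMZ hGRAD hGRH hn hp hp1 hC hK hZC h.symm
  have hv : volume.real K = volume.real C := le_antisymm h1 h2
  have hs := UNI_s hHH hGRAD hGRH hn hK hC
  have hvK : 0 < volume.real K := (hHH n K hK).2.2.1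
  have hfin : volume K ≠ ⊤ := (hHH n K hK).2.2.2.1.ne
  have hL := hLMZ n K C hn hK hZK hC
  rw [← hv, div_self hvK.ne', Real.log_one, mul_zero] at hL
  have hD : ∀ x, 0 ≤ Real.exp (p * Real.log (hh C (gg K x))) -
      (1 + p * Real.log (hh C (gg K x))) := by
    intro x
    have := Real.add_one_le_exp (p * Real.log (hh C (gg K x)))
    linarith
  have hi1 : IntegrableOn (fun _ : EuclideanSpace ℝ (Fin n) => (1 : ℝ)) K :=
    integrableOn_const hfin
  have hi2 : IntegrableOn (fun x => p * Real.log (hh C (gg K x))) K := hs.const_mul p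
  have hi3 : IntegrableOn (fun x => 1 + p * Real.log (hh C (gg K x))) K := hi1.add hi2
  have hDi : IntegrableOn (fun x => Real.exp (p * Real.log (hh C (gg K x))) -
      (1 + p * Real.log (hh C (gg K x)))) K := hi.sub hi3
  have h0 : ∫ x in K, (Real.exp (p * Real.log (hh C (gg K x))) -
      (1 + p * Real.log (hh C (gg K x)))) = 0 := by
    apply le_antisymm _ (integral_nonneg hD)
    rw [integral_sub hi hi3, integral_add hi1 hi2, integral_const_mul,
      setIntegral_const, hint, hv]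
    simp only [smul_eq_mul]
    nlinarith
  rw [setIntegral_eq_zero_iff_of_nonneg_ae (Eventually.of_forall hD) hDi] at h0
  have hle : ∀ᵐ x : EuclideanSpace ℝ (Fin n), x ∈ K → hh C (gg K x) ≤ 1 := by
    have h3 := (ae_restrict_iff' hK.comp.measurableSet).1 h0
    filter_upwards [h3, hGRAD n K hn hK] with x hx hx' hxK
    obtain ⟨-, -, hg0, -, -, -, -⟩ := hx'
    have hpos := (hHH n C hC).1.pos _ hg0
    have h4 := hx hxK
    simp only [Pi.zero_apply] at h4
    by_cases h5 : p * Real.log (hh C (gg K x)) = 0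
    · have h6 : Real.log (hh C (gg K x)) = 0 := by
        rcases mul_eq_zero.1 h5 with h7 | h7
        · exact absurd h7 hp.ne'
        · exact h7
      have h7 := Real.exp_log hpos
      rw [h6, Real.exp_zero] at h7
      exact h7.symm.le
    · have h6 := Real.add_one_lt_exp h5
      linarith
  have hsub := hDENSE n K C 1 hn hK hC one_pos hle
  rw [one_smul] at hsub
  exact (hSAMEV n C K hC hK hsub hv.le).symm

end H354ZN
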