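import Pool.Agent.H354R3.ZN.Defs3

/-!
Task VEXP: `n! vol(K) = ∫ exp(-‖x‖_K) dx`.
-/

set_option autoImplicit false

open MeasureTheory Filter
open scoped Matrix Pointwise Topology

namespace H354ZN

theorem t_VEXP (hHH : S_HH) : S_VEXP := by
  intro n K hn hK
  obtain ⟨-, -, hvol, hfin, -, -, -, hmem, hpos, hcont⟩ := hHH n K hK
  have habs : Absorbent ℝ K := absorbent_nhds_zero (mem_interior_iff_mem_nhds.1 hK.zero)
  have h1 : gauge K 0 = 0 := gauge_zero
  have h2 : ∀ x, gauge K (-x) = gauge K x := fun x => gauge_neg hK.symm x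
  have h3 : ∀ x y, gauge K (x + y) ≤ gauge K x + gauge K y := fun x y =>
    gauge_add_le hK.conv habs x y
  have h4 : ∀ {x}, gauge K x = 0 → x = 0 := by
    intro x hx
    by_contra hne
    have := hpos x hne
    linarith
  have h5 : ∀ (r : ℝ) x, gauge K (r • x) ≤ |r| * gauge K x := by
    intro r x
    rcases le_total 0 r with hr | hr
    · rw [gauge_smul_of_nonneg hr, abs_of_nonneg hr, smul_eq_mul]
    · have e : r • x = -((-r) • x) := by rw [neg_smul, neg_neg]
      rw [e, h2, gauge_smul_of_nonneg (by linarith), abs_of_nonpos hr, smul_eq_mul]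
  have hnt : Nontrivial (EuclideanSpace ℝ (Fin n)) := by
    have : Nonempty (Fin n) := ⟨⟨0, hn⟩⟩
    infer_instance
  have hlt := MeasureTheory.measure_lt_one_eq_integral_div_gamma
    (volume : Measure (EuclideanSpace ℝ (Fin n))) h1 h2 h3 h4 h5 (p := 1) one_pos
  have hle := MeasureTheory.measure_le_eq_lt
    (volume : Measure (EuclideanSpace ℝ (Fin n))) h1 h2 h3 h4 h5 1
  have hKe : {x | gauge K x ≤ 1} = K := by
    ext x
    exact (hmem x).symm
  rw [hKe] at hle
  rw [← hle] at hlt
  simp only [Real.rpow_one, div_one, finrank_euclideanSpace_fin, Real.Gamma_nat_eq_factorial]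
    at hlt
  have hI0 : 0 ≤ ∫ x : EuclideanSpace ℝ (Fin n), Real.exp (-gauge K x) :=
    integral_nonneg fun x => (Real.exp_pos _).le
  have hf : (0 : ℝ) < n.factorial := by exact_mod_cast Nat.factorial_pos n
  have hreal : volume.real K =
      (∫ x : EuclideanSpace ℝ (Fin n), Real.exp (-gauge K x)) / n.factorial := by
    rw [measureReal_def, hlt, ENNReal.toReal_ofReal (div_nonneg hI0 hf.le)]
  refine ⟨?_, ?_⟩
  · by_contra hni
    rw [integral_undef hni, zero_div] at hreal
    linarith
  · rw [hreal]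
    field_simp

end H354ZN
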