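import Pool.Agent.H354R3.ZN.Defs3

/-! Task WSB -/

set_option autoImplicit false

open MeasureTheory Filter
open scoped Matrix Pointwise Topology

namespace H354ZN

theorem PH_bounds {n : ℕ} {f : EuclideanSpace ℝ (Fin n) → ℝ} (hf : PH f) :
    ∃ c C : ℝ, 0 < c ∧ 0 < C ∧ ∀ u, u ≠ 0 → c * ‖u‖ ≤ f u ∧ f u ≤ C * ‖u‖ := by
  have hs : ∀ u ∈ Metric.sphere (0 : EuclideanSpace ℝ (Fin n)) 1, u ≠ 0 := by
    intro u hu h0
    subst h0
    simp at hu
  have hc : ContinuousOn f (Metric.sphere 0 1) := hf.cont.mono hs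
  have key : ∃ c C : ℝ, 0 < c ∧ 0 < C ∧
      ∀ u ∈ Metric.sphere (0 : EuclideanSpace ℝ (Fin n)) 1, c ≤ f u ∧ f u ≤ C := by
    rcases (Metric.sphere (0 : EuclideanSpace ℝ (Fin n)) 1).eq_empty_or_nonempty with h | h
    · exact ⟨1, 1, one_pos, one_pos, fun u hu => by rw [h] at hu; exact hu.elim⟩
    · obtain ⟨a, ha, ha'⟩ := (isCompact_sphere _ _).exists_isMinOn h hc
      obtain ⟨b, hb, hb'⟩ := (isCompact_sphere _ _).exists_isMaxOn h hc
      exact ⟨f a, f b, hf.pos a (hs a ha), hf.pos b (hs b hb), fun u hu => ⟨ha' hu, hb' hu⟩⟩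
  obtain ⟨c, C, h1, h2, h3⟩ := key
  refine ⟨c, C, h1, h2, ?_⟩
  intro u hu
  have hn : 0 < ‖u‖ := norm_pos_iff.mpr hu
  have h4 : ‖u‖⁻¹ • u ∈ Metric.sphere (0 : EuclideanSpace ℝ (Fin n)) 1 := by
    rw [mem_sphere_zero_iff_norm, norm_smul, norm_inv, norm_norm, inv_mul_cancel₀ hn.ne']
  have h5 : f u = ‖u‖ * f (‖u‖⁻¹ • u) := by
    have h6 := hf.hom ‖u‖ (‖u‖⁻¹ • u) hn.ne'
    rw [smul_smul, mul_inv_cancel₀ hn.ne', one_smul, abs_of_pos hn] at h6
    exact h6
  obtain ⟨h7, h8⟩ := h3 _ h4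
  rw [h5]
  constructor
  · rw [mul_comm]; exact mul_le_mul_of_nonneg_left h7 hn.le
  · rw [mul_comm C]; exact mul_le_mul_of_nonneg_left h8 hn.le

theorem t_WSB : S_WSB := by
  intro n f hf
  obtain ⟨c, C, hc, hC, hb⟩ := PH_bounds hf
  have hin : Metric.closedBall (0 : EuclideanSpace ℝ (Fin n)) c ⊆ Wu f := by
    intro x hx u hu
    rw [mem_closedBall_zero_iff] at hx
    calc inner ℝ x u ≤ ‖x‖ * ‖u‖ := real_inner_le_norm x u
      _ ≤ c * ‖u‖ := mul_le_mul_of_nonneg_right hx (norm_nonneg _)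
      _ ≤ f u := (hb u hu).1
  have hout : Wu f ⊆ Metric.closedBall (0 : EuclideanSpace ℝ (Fin n)) C := by
    intro x hx
    rw [mem_closedBall_zero_iff]
    by_cases h0 : x = 0
    · rw [h0, norm_zero]; exact hC.le
    · have h1 := hx x h0
      have h2 := (hb x h0).2
      rw [real_inner_self_eq_norm_sq] at h1
      have hn : 0 < ‖x‖ := norm_pos_iff.mpr h0
      nlinarith
  have h0 : (0 : EuclideanSpace ℝ (Fin n)) ∈ interior (Wu f) :=
    interior_mono hin (by
      rw [mem_interior_iff_mem_nhds]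
      exact Metric.closedBall_mem_nhds _ hc)
  have hcl : IsClosed (Wu f) := by
    have : Wu f = ⋂ u : EuclideanSpace ℝ (Fin n), ⋂ _ : u ≠ 0, {x | inner ℝ x u ≤ f u} := by
      ext x
      simp [Wu]
    rw [this]
    refine isClosed_iInter fun u => isClosed_iInter fun _ => ?_
    exact isClosed_le (by fun_prop) continuous_const
  refine ⟨⟨?_, ?_, h0, ?_⟩, ?_⟩
  · intro x hx y hy a b ha hb' hab u hu
    rw [inner_add_left, real_inner_smul_left, real_inner_smul_left]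
    have h1 := mul_le_mul_of_nonneg_left (hx u hu) ha
    have h2 := mul_le_mul_of_nonneg_left (hy u hu) hb'
    have h3 : a * f u + b * f u = f u := by rw [← add_mul, hab, one_mul]
    linarith
  · exact Metric.isCompact_of_isClosed_isBounded hcl (Metric.isBounded_closedBall.subset hout)
  · intro x hx u hu
    have h1 := hx (-u) (neg_ne_zero.mpr hu)
    have h2 := hf.hom (-1) u (by norm_num)
    rw [neg_one_smul, abs_neg, abs_one, one_mul] at h2
    rw [h2] at h1
    rwa [inner_neg_left, ← inner_neg_right]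
  · intro u hu
    refine csSup_le ⟨_, 0, interior_subset h0, rfl⟩ ?_
    rintro _ ⟨y, hy, rfl⟩
    exact hy u hu

end H354ZN
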