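import Pool.Agent.H354R3.ZN.Defs3

/-! Task ZMZ (helper415): log-Brunn-Minkowski with a zonoid in the middle, general form. -/

set_option autoImplicit false

open MeasureTheory Filter
open scoped Matrix Pointwise Topology

namespace H354ZN

/-- the deviation function -/
noncomputable def ZMZg {n : ℕ} (f : EuclideanSpace ℝ (Fin n) → ℝ) (u : EuclideanSpace ℝ (Fin n)) :
    ℝ := Real.log (f u / hh (Wu f) u)

theorem ZMZ_zh {n : ℕ} {f : EuclideanSpace ℝ (Fin n) → ℝ} (hf : PH f) (hM : PH (hh (Wu f))) :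
    ZH (ZMZg f) := by
  constructor
  · unfold ZMZg
    refine ContinuousOn.log (hf.cont.div hM.cont fun u hu => (hM.pos u hu).ne') fun u hu => ?_
    exact (div_pos (hf.pos u hu) (hM.pos u hu)).ne'
  · intro c u hc
    unfold ZMZg
    rw [hf.hom c u hc, hM.hom c u hc, mul_div_mul_left _ _ (abs_ne_zero.2 hc)]

theorem ZMZ_ph {n : ℕ} {f : EuclideanSpace ℝ (Fin n) → ℝ} (hf : PH f) (hM : PH (hh (Wu f)))
    (τ : ℝ) : PH (fun u => hh (Wu f) u * Real.exp (-(τ * ZMZg f u))) := by
  have hz := ZMZ_zh hf hM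
  constructor
  · exact hM.cont.mul (Real.continuous_exp.comp_continuousOn ((hz.cont.const_smul τ).neg))
  · intro u hu
    exact mul_pos (hM.pos u hu) (Real.exp_pos _)
  · intro c u hc
    rw [hM.hom c u hc, hz.hom c u hc]
    ring

/-- the weighted product of the support functions -/
theorem ZMZ_prod {F H p τ : ℝ} (hF : 0 < F) (hH : 0 < H) (hp0 : 0 < p) (hp : p ≤ F) (hτ : 0 < τ) :
    (H * Real.exp (-(τ * Real.log (F / H)))) ^ (1 / (1 + τ)) * p ^ (τ / (1 + τ)) ≤ H := by
  have h1 : 0 < 1 + τ := by linarith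
  have h2 : 0 < H * Real.exp (-(τ * Real.log (F / H))) := mul_pos hH (Real.exp_pos _)
  have h3 : 0 < (H * Real.exp (-(τ * Real.log (F / H)))) ^ (1 / (1 + τ)) * p ^ (τ / (1 + τ)) := by
    positivity
  rw [← Real.log_le_log_iff h3 hH, Real.log_mul (Real.rpow_pos_of_pos h2 _).ne'
    (Real.rpow_pos_of_pos hp0 _).ne', Real.log_rpow h2, Real.log_rpow hp0,
    Real.log_mul hH.ne' (Real.exp_pos _).ne', Real.log_exp, Real.log_div hF.ne' hH.ne']
  have h4 : Real.log p ≤ Real.log F := Real.log_le_log hp0 hp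
  have h5 : 1 / (1 + τ) * (Real.log H + -(τ * (Real.log F - Real.log H))) +
      τ / (1 + τ) * Real.log p = Real.log H + τ / (1 + τ) * (Real.log p - Real.log F) := by
    field_simp
    ring
  rw [h5]
  have h6 : τ / (1 + τ) * (Real.log p - Real.log F) ≤ 0 :=
    mul_nonpos_of_nonneg_of_nonpos (by positivity) (by linarith)
  linarith

theorem ZMZ_step (hHH : S_HH) (hWSB : S_WSB) (hZST : S_ZST) (n q : ℕ)
    (f : EuclideanSpace ℝ (Fin n) → ℝ) (K : Fin q → Set (EuclideanSpace ℝ (Fin n)))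
    (l : Fin q → EuclideanSpace ℝ (Fin n) → ℝ) (t : Fin q → ℝ) (hn : 1 ≤ n) (hf : PH f)
    (hz : IsZonoid (Wu f)) (hK : ∀ i, IsCompact (K i)) (hV : ∀ i, 0 < volume.real (K i))
    (ht : ∀ i, 0 ≤ t i) (ht1 : ∑ i, t i = 1)
    (hl : ∀ i, ∀ u, u ≠ 0 → 0 < l i u ∧ ∀ x ∈ K i, |inner ℝ x u| ≤ l i u)
    (hlf : ∀ u, u ≠ 0 → ∏ i, l i u ^ t i ≤ f u) (τ : ℝ) (hτ : 0 < τ) :
    0 < volume.real (Kt (Wu f) (ZMZg f) τ) ∧
    τ * (∑ i, t i * Real.log (volume.real (K i))) +
      Real.log (volume.real (Kt (Wu f) (ZMZg f) τ)) ≤ (1 + τ) * Real.log (volume.real (Wu f)) := by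
  have hSM := (hWSB n f hf).1
  have hM := (hHH n (Wu f) hSM).1
  have hVM := (hHH n (Wu f) hSM).2.2.1
  have hPt := ZMZ_ph hf hM τ
  have hSt : SB (Kt (Wu f) (ZMZg f) τ) := (hWSB n _ hPt).1
  have hVt := (hHH n _ hSt).2.2.1
  refine ⟨hVt, ?_⟩
  have h1 : 0 < 1 + τ := by linarith
  have key := hZST n (q + 1) (Wu f) (Fin.cons (Kt (Wu f) (ZMZg f) τ) K)
    (Fin.cons (fun u => hh (Wu f) u * Real.exp (-(τ * ZMZg f u))) l)
    (Fin.cons (1 / (1 + τ)) fun i => τ * t i / (1 + τ)) hn hSM hz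
    (by
      intro i
      refine Fin.cases ?_ (fun i => ?_) i
      · exact hSt.comp
      · exact hK i)
    (by
      intro i
      refine Fin.cases ?_ (fun i => ?_) i
      · exact hVt
      · exact hV i)
    (by
      intro i
      refine Fin.cases ?_ (fun i => ?_) i
      · rw [Fin.cons_zero]; positivity
      · rw [Fin.cons_succ]
        exact div_nonneg (mul_nonneg hτ.le (ht i)) h1.le)
    (by
      rw [Fin.sum_univ_succ]
      simp only [Fin.cons_zero, Fin.cons_succ]
      rw [← Finset.sum_div, ← Finset.mul_sum, ht1]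
      field_simp)
    (by
      intro i
      refine Fin.cases ?_ (fun i => ?_) i
      · intro u hu
        refine ⟨hPt.pos u hu, fun x hx => ?_⟩
        have hx1 := hx u hu
        have hx2 := hx (-u) (neg_ne_zero.2 hu)
        have h3 := hPt.hom (-1) u (by norm_num)
        rw [neg_one_smul, abs_neg, abs_one, one_mul] at h3
        simp only at h3 hx1 hx2
        rw [h3, inner_neg_right] at hx2
        rw [Fin.cons_zero, abs_le]
        constructor <;> linarith
      · intro u hu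
        exact hl i u hu)
    (by
      intro u hu
      rw [Fin.prod_univ_succ]
      simp only [Fin.cons_zero, Fin.cons_succ]
      have h2 : ∏ i, l i u ^ (τ * t i / (1 + τ)) = (∏ i, l i u ^ t i) ^ (τ / (1 + τ)) := by
        rw [← Real.finsetProd_rpow _ _ fun i _ => Real.rpow_nonneg (hl i u hu).1.le _]
        apply Finset.prod_congr rfl
        intro i _
        rw [← Real.rpow_mul (hl i u hu).1.le]
        congr 1
        ring
      rw [h2]
      exact ZMZ_prod (hf.pos u hu) (hM.pos u hu)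
        (Finset.prod_pos fun i _ => Real.rpow_pos_of_pos (hl i u hu).1 _) (hlf u hu) hτ)
  rw [Fin.prod_univ_succ] at key
  simp only [Fin.cons_zero, Fin.cons_succ] at key
  have h4 : 0 < ∏ i, volume.real (K i) ^ (τ * t i / (1 + τ)) :=
    Finset.prod_pos fun i _ => Real.rpow_pos_of_pos (hV i) _
  have h5 := Real.log_le_log (mul_pos (Real.rpow_pos_of_pos hVt _) h4) key
  rw [Real.log_mul (Real.rpow_pos_of_pos hVt _).ne' h4.ne', Real.log_rpow hVt,
    Real.log_prod fun i _ => (Real.rpow_pos_of_pos (hV i) _).ne'] at h5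
  have h6 : ∑ i, Real.log (volume.real (K i) ^ (τ * t i / (1 + τ))) =
      τ / (1 + τ) * ∑ i, t i * Real.log (volume.real (K i)) := by
    rw [Finset.mul_sum]
    apply Finset.sum_congr rfl
    intro i _
    rw [Real.log_rpow (hV i)]
    ring
  rw [h6] at h5
  have h7 := mul_le_mul_of_nonneg_left h5 h1.le
  refine le_trans (le_of_eq ?_) h7
  field_simp
  ring

theorem t_ZMZ (hHH : S_HH) (hWSB : S_WSB) (hPTB : S_PTB) (hZST : S_ZST) (hALEX : S_ALEX)
    (hACTZ : S_ACTZ) (hGRAD : S_GRAD) : S_ZMZ := by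
  have _ := hPTB
  intro n q f K l t hn hf hz hK hV ht ht1 hl hlf
  have hSM := (hWSB n f hf).1
  have hM := (hHH n (Wu f) hSM).1
  have hVM := (hHH n (Wu f) hSM).2.2.1
  have hzh := ZMZ_zh hf hM
  have hint : ∫ x in Wu f, ZMZg f (gg (Wu f) x) = 0 := by
    have h1 : ∀ᵐ x : EuclideanSpace ℝ (Fin n), ZMZg f (gg (Wu f) x) = 0 := by
      filter_upwards [hACTZ n f hn hf, hGRAD n (Wu f) hn hSM] with x hx1 hx2
      unfold ZMZg
      rw [hx1, hx2.2.2.2.2.1]
      simp
    have h2 : ∀ᵐ x ∂(volume.restrict (Wu f)), ZMZg f (gg (Wu f) x) = 0 := ae_restrict_of_ae h1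
    rw [integral_congr_ae h2]
    simp
  have hlim := hALEX n (Wu f) (ZMZg f) hn hSM hzh
  rw [hint, mul_zero] at hlim
  set V := volume.real (Wu f) with hVdef
  set v : ℝ → ℝ := fun τ => volume.real (Kt (Wu f) (ZMZg f) τ) with hv
  have hlim2 : Tendsto (fun τ => V - (V - v τ) / τ * τ) (𝓝[>] (0 : ℝ)) (𝓝 (V - 0 * 0)) := by
    refine tendsto_const_nhds.sub (hlim.mul ?_)
    exact tendsto_nhdsWithin_of_tendsto_nhds tendsto_id
  have hlimv : Tendsto v (𝓝[>] (0 : ℝ)) (𝓝 V) := by
    rw [mul_zero, sub_zero] at hlim2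
    refine hlim2.congr' ?_
    filter_upwards [self_mem_nhdsWithin] with τ hτ
    have : τ ≠ 0 := ne_of_gt hτ
    field_simp
    ring
  have hlim3 : Tendsto (fun τ => Real.log V + (V - v τ) / τ / v τ) (𝓝[>] (0 : ℝ))
      (𝓝 (Real.log V + 0 / V)) := by
    exact tendsto_const_nhds.add (hlim.div hlimv hVM.ne')
  have hb : ∑ i, t i * Real.log (volume.real (K i)) ≤ Real.log V + 0 / V := by
    refine ge_of_tendsto hlim3 ?_
    filter_upwards [self_mem_nhdsWithin] with τ hτ
    have hτ' : (0 : ℝ) < τ := hτ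
    obtain ⟨h1, h2⟩ := ZMZ_step hHH hWSB hZST n q f K l t hn hf hz hK hV ht ht1 hl hlf τ hτ'
    have h3 : 0 < v τ := h1
    have h4 : Real.log V - Real.log (v τ) ≤ (V - v τ) / v τ := by
      rw [← Real.log_div hVM.ne' h3.ne']
      refine (Real.log_le_sub_one_of_pos (div_pos hVM h3)).trans (le_of_eq ?_)
      field_simp
    have h5 : τ * (∑ i, t i * Real.log (volume.real (K i))) ≤
        τ * (Real.log V + (V - v τ) / τ / v τ) := by
      have h6 : τ * (Real.log V + (V - v τ) / τ / v τ) = τ * Real.log V + (V - v τ) / v τ := by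
        field_simp
      rw [h6]
      have h7 : τ * (∑ i, t i * Real.log (volume.real (K i))) + Real.log (v τ) ≤
        (1 + τ) * Real.log V := h2
      linarith
    exact le_of_mul_le_mul_left h5 hτ'
  rw [zero_div, add_zero] at hb
  have hP : 0 < ∏ i, volume.real (K i) ^ t i :=
    Finset.prod_pos fun i _ => Real.rpow_pos_of_pos (hV i) _
  rw [← Real.log_le_log_iff hP hVM, Real.log_prod fun i _ => (Real.rpow_pos_of_pos (hV i) _).ne']
  refine le_trans (le_of_eq ?_) hb
  apply Finset.sum_congr rfl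
  intro i _
  rw [Real.log_rpow (hV i)]

end H354ZN
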