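import Pool.Agent.H354R3.ZN.Defs3

set_option autoImplicit false

open MeasureTheory Filter
open scoped Matrix Pointwise Topology

namespace H354ZN

namespace ZSTaux

variable {n N : ℕ}

theorem zonE_eq_image (z : Fin N → EuclideanSpace ℝ (Fin n)) :
    ZonE z = (fun t : Fin N → ℝ => ∑ j, t j • z j) ''
      (Set.pi Set.univ fun _ => Set.Icc (-1 : ℝ) 1) := by
  ext x
  constructor
  · rintro ⟨t, ht, rfl⟩
    exact ⟨t, fun j _ => abs_le.mp (ht j), rfl⟩
  · rintro ⟨t, ht, rfl⟩
    exact ⟨t, fun j => abs_le.mpr (ht j trivial), rfl⟩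

theorem zonE_compact (z : Fin N → EuclideanSpace ℝ (Fin n)) : IsCompact (ZonE z) := by
  rw [zonE_eq_image]
  apply IsCompact.image (isCompact_univ_pi fun _ => isCompact_Icc)
  fun_prop

theorem zonE_convex (z : Fin N → EuclideanSpace ℝ (Fin n)) : Convex ℝ (ZonE z) := by
  rintro x ⟨t, ht, rfl⟩ y ⟨s, hs, rfl⟩ a b ha hb hab
  refine ⟨fun j => a * t j + b * s j, ?_, ?_⟩
  · intro j
    have h1 := abs_le.mp (ht j)
    have h2 := abs_le.mp (hs j)
    rw [abs_le]
    constructor <;> nlinarith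
  · simp [Finset.smul_sum, add_smul, mul_smul, Finset.sum_add_distrib]

theorem inner_le (z : Fin N → EuclideanSpace ℝ (Fin n)) (x : EuclideanSpace ℝ (Fin n))
    (hx : x ∈ ZonE z) (u : EuclideanSpace ℝ (Fin n)) :
    inner ℝ x u ≤ ∑ j, |inner ℝ (z j) u| := by
  obtain ⟨t, ht, rfl⟩ := hx
  rw [sum_inner]
  apply Finset.sum_le_sum
  intro j _
  rw [real_inner_smul_left]
  calc t j * inner ℝ (z j) u ≤ |t j * inner ℝ (z j) u| := le_abs_self _
    _ = |t j| * |inner ℝ (z j) u| := abs_mul _ _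
    _ ≤ 1 * |inner ℝ (z j) u| := mul_le_mul_of_nonneg_right (ht j) (abs_nonneg _)
    _ = |inner ℝ (z j) u| := one_mul _

theorem attained (z : Fin N → EuclideanSpace ℝ (Fin n)) (u : EuclideanSpace ℝ (Fin n)) :
    ∃ x ∈ ZonE z, inner ℝ x u = ∑ j, |inner ℝ (z j) u| := by
  refine ⟨∑ j, (if 0 ≤ inner ℝ (z j) u then (1 : ℝ) else -1) • z j, ⟨_, ?_, rfl⟩, ?_⟩
  · intro j
    split_ifs <;> simp
  · rw [sum_inner]
    apply Finset.sum_congr rfl
    intro j _
    rw [real_inner_smul_left]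
    split_ifs with h
    · rw [one_mul, abs_of_nonneg h]
    · rw [abs_of_neg (not_le.mp h)]
      ring

theorem hh_zonE (z : Fin N → EuclideanSpace ℝ (Fin n)) (u : EuclideanSpace ℝ (Fin n)) :
    hh (ZonE z) u = ∑ j, |inner ℝ (z j) u| := by
  unfold hh
  apply IsGreatest.csSup_eq
  constructor
  · obtain ⟨x, hx, hxu⟩ := attained z u
    exact ⟨x, hx, hxu⟩
  · rintro _ ⟨x, hx, rfl⟩
    exact inner_le z x hx u

theorem wu_zonE (z : Fin N → EuclideanSpace ℝ (Fin n)) :
    {x : EuclideanSpace ℝ (Fin n) | ∀ u, u ≠ 0 → inner ℝ x u ≤ ∑ j, |inner ℝ (z j) u|} =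
      ZonE z := by
  ext x
  constructor
  · intro hx
    by_contra hxz
    obtain ⟨φ, r, h1, h2⟩ := geometric_hahn_banach_closed_point (zonE_convex z)
      (zonE_compact z).isClosed hxz
    set u : EuclideanSpace ℝ (Fin n) := (InnerProductSpace.toDual ℝ _).symm φ with hu
    have hφ : ∀ y, inner ℝ y u = φ y := by
      intro y
      rw [real_inner_comm, hu, InnerProductSpace.toDual_symm_apply]
    have hu0 : u ≠ 0 := by
      intro h0
      obtain ⟨y, hy, -⟩ := attained z u
      have h3 := h1 y hy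
      rw [← hφ, h0, inner_zero_right] at h3
      rw [← hφ, h0, inner_zero_right] at h2
      linarith
    obtain ⟨y, hy, hyu⟩ := attained z u
    have h3 := hx u hu0
    rw [← hyu, hφ, hφ] at h3
    linarith [h1 y hy]
  · intro hx u _
    exact inner_le z x hx u

end ZSTaux

open ZSTaux in
theorem t_ZST (hZM : S_ZM) (hSAND : S_SAND) (hHH : S_HH) (_hWSB : S_WSB) : S_ZST := by
  intro n q M K l t hn hM hMz hK hKv ht hts hl hprod
  obtain ⟨hPH, hWu, hMv, hMfin, -⟩ := hHH n M hM
  have key : ∀ ε : ℝ, 0 < ε → ε < 1 →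
      ∏ i, volume.real (K i) ^ t i ≤ ((1 + ε) / (1 - ε)) ^ n * volume.real M := by
    intro ε h0 h1
    have h1' : 0 < 1 - ε := by linarith
    obtain ⟨Z, ⟨N, z, rfl⟩, hZ⟩ := hSAND n M hM hMz ε h0 h1
    set z' : Fin N → EuclideanSpace ℝ (Fin n) := fun j => (1 - ε)⁻¹ • z j with hz'
    set f : EuclideanSpace ℝ (Fin n) → ℝ := fun u => ∑ j, |inner ℝ (z' j) u| with hf
    have hfz : ∀ u, f u = (1 - ε)⁻¹ * hh (ZonE z) u := by
      intro u
      rw [hh_zonE, hf, Finset.mul_sum]
      apply Finset.sum_congr rfl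
      intro j _
      rw [hz', real_inner_smul_left, abs_mul, abs_of_pos (inv_pos.mpr h1')]
    have hflow : ∀ u, hh M u ≤ f u := by
      intro u
      rw [hfz, inv_mul_eq_div, le_div_iff₀ h1', mul_comm]
      exact (hZ u).1
    have hfup : ∀ u, f u ≤ (1 + ε) / (1 - ε) * hh M u := by
      intro u
      rw [hfz, inv_mul_eq_div, div_mul_eq_mul_div]
      exact div_le_div_of_nonneg_right (hZ u).2 h1'.le
    have hset : {x : EuclideanSpace ℝ (Fin n) | ∀ u, u ≠ 0 → inner ℝ x u ≤ f u} = ZonE z' :=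
      wu_zonE z'
    have hmain := hZM n q f K l t hn
      (by
        apply Continuous.continuousOn
        rw [hf]
        fun_prop)
      (fun u hu => lt_of_lt_of_le (hPH.pos u hu) (hflow u))
      (by
        intro c u hc
        simp only [hf, inner_smul_right, abs_mul, abs_of_pos hc, Finset.mul_sum])
      (by
        rw [hset]
        exact ⟨N, z', rfl⟩)
      hK hKv ht hts hl
      (fun u hu => (hprod u hu).trans (hflow u))
    refine hmain.trans ?_
    have hc : 0 < (1 + ε) / (1 - ε) := by positivity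
    have hsub : {x : EuclideanSpace ℝ (Fin n) | ∀ u, u ≠ 0 → inner ℝ x u ≤ f u} ⊆
        ((1 + ε) / (1 - ε)) • M := by
      intro x hx
      rw [Set.mem_smul_set_iff_inv_smul_mem₀ hc.ne', ← hWu]
      intro u hu
      rw [real_inner_smul_left, inv_mul_eq_div, div_le_iff₀ hc, mul_comm]
      exact (hx u hu).trans (hfup u)
    have hvol : volume (((1 + ε) / (1 - ε)) • M) =
        ENNReal.ofReal (((1 + ε) / (1 - ε)) ^ n) * volume M := by
      rw [Measure.addHaar_smul, finrank_euclideanSpace_fin, abs_of_pos (pow_pos hc n)]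
    have hfin : volume (((1 + ε) / (1 - ε)) • M) ≠ ⊤ := by
      rw [hvol]
      exact ENNReal.mul_ne_top ENNReal.ofReal_ne_top hMfin.ne
    calc volume.real {x : EuclideanSpace ℝ (Fin n) | ∀ u, u ≠ 0 → inner ℝ x u ≤ f u}
        ≤ volume.real (((1 + ε) / (1 - ε)) • M) := measureReal_mono hsub hfin
      _ = ((1 + ε) / (1 - ε)) ^ n * volume.real M := by
        unfold Measure.real
        rw [hvol, ENNReal.toReal_mul, ENNReal.toReal_ofReal (pow_pos hc n).le]
  have hlim : Tendsto (fun ε : ℝ => ((1 + ε) / (1 - ε)) ^ n * volume.real M) (𝓝[>] 0)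
      (𝓝 (volume.real M)) := by
    have h1 : Tendsto (fun ε : ℝ => ((1 + ε) / (1 - ε)) ^ n * volume.real M) (𝓝 0)
        (𝓝 (((1 + 0) / (1 - 0)) ^ n * volume.real M)) := by
      apply Tendsto.mul_const
      apply Tendsto.pow
      apply Tendsto.div
      · exact tendsto_const_nhds.add tendsto_id
      · exact tendsto_const_nhds.sub tendsto_id
      · norm_num
    simp only [add_zero, sub_zero, div_one, one_pow, one_mul] at h1
    exact h1.mono_left nhdsWithin_le_nhds
  apply ge_of_tendsto hlim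
  have h2 : ∀ᶠ ε : ℝ in 𝓝[>] 0, ε ∈ Set.Ioo (0 : ℝ) 1 := Ioo_mem_nhdsGT one_pos
  filter_upwards [h2] with ε hε
  exact key ε hε.1 hε.2

end H354ZN
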