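import Pool.Agent.H354R3.ZN.All
import Pool.Agent.H354R3.ZN.HH
import Pool.Agent.H354R3.ZN.WSB
import Pool.Agent.H354R3.ZN.SAND
import Pool.Agent.H354R3.ZN.ZST
import Pool.Agent.H354R3.ZN.GRAD
import Pool.Agent.H354R3.ZN.GRH
import Pool.Agent.H354R3.ZN.VEXP
import Pool.Agent.H354R3.ZN.POL
import Pool.Agent.H354R3.ZN.PTB
import Pool.Agent.H354R3.ZN.PTL
import Pool.Agent.H354R3.ZN.ALEX
import Pool.Agent.H354R3.ZN.ACTZ
import Pool.Agent.H354R3.ZN.DENSE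
import Pool.Agent.H354R3.ZN.SAMEV
import Pool.Agent.H354R3.ZN.LMZ
import Pool.Agent.H354R3.ZN.LMC
import Pool.Agent.H354R3.ZN.ZMZ
import Pool.Agent.H354R3.ZN.BMZ
import Pool.Agent.H354R3.ZN.BCZ
import Pool.Agent.H354R3.ZN.SECZ
import Pool.Agent.H354R3.ZN.LPZ
import Pool.Agent.H354R3.ZN.UNI

/-!
# Log-Minkowski and log-Brunn-Minkowski for zonoids: assembly (helper354)
-/

set_option autoImplicit false

namespace H354ZN

theorem a_ZST : S_ZST := t_ZST a_ZM t_SAND t_HH t_WSB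

theorem a_GRAD : S_GRAD := t_GRAD t_HH

theorem a_VEXP : S_VEXP := t_VEXP t_HH

theorem a_POL : S_POL := t_POL t_HH a_VEXP

theorem a_PTB : S_PTB := t_PTB t_HH t_WSB

theorem a_PTL : S_PTL := t_PTL t_HH a_PTB a_GRAD

/-- Alexandrov's variational formula for symmetric convex bodies -/
theorem a_ALEX : S_ALEX := t_ALEX t_HH a_VEXP a_POL a_PTB a_PTL t_GRH a_GRAD

theorem a_ACTZ : S_ACTZ := t_ACTZ t_HH t_WSB a_GRAD

theorem a_DENSE : S_DENSE := t_DENSE t_HH a_GRAD t_GRH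

theorem a_SAMEV : S_SAMEV := t_SAMEV t_HH

/-- the log-Minkowski inequality for zonoids -/
theorem a_LMZ : S_LMZ := t_LMZ t_HH a_PTB a_ZST a_ALEX a_GRAD

theorem a_LMC : S_LMC := t_LMC t_HH a_GRAD t_GRH a_LMZ

theorem a_ZMZ : S_ZMZ := t_ZMZ t_HH t_WSB a_PTB a_ZST a_ALEX a_ACTZ a_GRAD

theorem a_BMZ : S_BMZ := t_BMZ t_HH a_ZMZ

theorem a_BCZ : S_BCZ := t_BCZ t_HH a_ZMZ

theorem a_SECZ : S_SECZ := t_SECZ t_HH t_WSB a_ZMZ

theorem a_LPZ : S_LPZ := t_LPZ t_HH t_WSB a_LMZ a_ACTZ a_GRAD t_GRH a_DENSE a_SAMEV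

theorem a_UNI : S_UNI := t_UNI t_HH a_LMZ a_GRAD t_GRH a_DENSE a_SAMEV

end H354ZN
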