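import Pool.Agent.H354R3.ZN.Defs5

/-! Task BCR: the B-inequality for even log-concave densities with reflections. -/

set_option autoImplicit false

open MeasureTheory Filter
open scoped Matrix Pointwise Topology ENNReal

namespace H354ZN

theorem t_BCR (hMES : S_MES) (hLCE : S_LCE) : S_BCR := by
  intro n f K hn hfm hf0 hfe hfr hfl hK hR a b θ hθ0 hθ1
  obtain ⟨ha1, ha2, h3⟩ := hLCE n K a b (1 - θ) hK (by linarith) (by linarith)
  obtain ⟨hb1, hb2, -⟩ := hLCE n K b a (1 - θ) hK (by linarith) (by linarith)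
  obtain ⟨hc1, -, -⟩ := hLCE n K (θ * a + (1 - θ) * b) a (1 - θ) hK (by linarith) (by linarith)
  have h := hMES n f (Real.exp a • K) (Real.exp b • K) (1 - θ) hn hfm hf0 hfe hfr hfl ha1 hb1
    (ha2 hR) (hb2 hR) (by linarith) (by linarith)
  have e1 : 1 - (1 - θ) = θ := by ring
  rw [h3, e1] at h
  rw [withDensity_apply _ ha1.comp.measurableSet, withDensity_apply _ hb1.comp.measurableSet,
    withDensity_apply _ hc1.comp.measurableSet]
  exact h

end H354ZN
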