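import Pool.Agent.H354R3.ZN.Defs4

/-! (BMR) of the reflection project (helper303) -/

set_option autoImplicit false

open MeasureTheory Filter
open scoped Matrix Pointwise Topology ENNReal

namespace H354ZN

theorem bmr_set {n : ℕ} (K L : Set (EuclideanSpace ℝ (Fin n))) (t : ℝ) (_ht0 : 0 ≤ t) (_ht1 : t ≤ 1)
    (hK : PH (hh K)) (hL : PH (hh L)) :
    {x : EuclideanSpace ℝ (Fin n) | ∀ u : EuclideanSpace ℝ (Fin n), ‖u‖ = 1 →
        inner ℝ x u ≤ (sSup ((fun y => inner ℝ y u) '' K)) ^ (1 - t) *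
          (sSup ((fun y => inner ℝ y u) '' L)) ^ t} = LC K L t := by
  ext x
  constructor
  · intro hx u hu
    have hpos : 0 < ‖u‖ := norm_pos_iff.mpr hu
    have h1 : ‖(‖u‖⁻¹ • u)‖ = 1 := by
      rw [norm_smul, norm_inv, norm_norm, inv_mul_cancel₀ hpos.ne']
    have h2 := hx _ h1
    change inner ℝ x (‖u‖⁻¹ • u) ≤ hh K (‖u‖⁻¹ • u) ^ (1 - t) * hh L (‖u‖⁻¹ • u) ^ t at h2
    rw [hK.hom _ _ (inv_ne_zero hpos.ne'), hL.hom _ _ (inv_ne_zero hpos.ne'), inner_smul_right,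
      abs_of_pos (inv_pos.mpr hpos), Real.mul_rpow (inv_pos.mpr hpos).le (hK.pos u hu).le,
      Real.mul_rpow (inv_pos.mpr hpos).le (hL.pos u hu).le] at h2
    have h3 : ‖u‖⁻¹ ^ (1 - t) * hh K u ^ (1 - t) * (‖u‖⁻¹ ^ t * hh L u ^ t) =
        ‖u‖⁻¹ * (hh K u ^ (1 - t) * hh L u ^ t) := by
      have : ‖u‖⁻¹ ^ (1 - t) * ‖u‖⁻¹ ^ t = ‖u‖⁻¹ := by
        rw [← Real.rpow_add (inv_pos.mpr hpos)]
        simp
      calc _ = (‖u‖⁻¹ ^ (1 - t) * ‖u‖⁻¹ ^ t) * (hh K u ^ (1 - t) * hh L u ^ t) := by ring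
        _ = _ := by rw [this]
    rw [h3] at h2
    exact le_of_mul_le_mul_left h2 (inv_pos.mpr hpos)
  · intro hx u hu
    refine hx u ?_
    intro h0
    rw [h0, norm_zero] at hu
    exact zero_ne_one hu

theorem bmr_fin {n : ℕ} (K L : Set (EuclideanSpace ℝ (Fin n))) (t : ℝ) (ht0 : 0 ≤ t) (ht1 : t ≤ 1)
    (hK : SB K) (hL : SB L) (pK : PH (hh K)) (pL : PH (hh L)) : volume (LC K L t) < ⊤ := by
  have hb : ∀ (C : Set (EuclideanSpace ℝ (Fin n))), SB C → ∃ R : ℝ, 0 < R ∧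
      ∀ u, hh C u ≤ R * ‖u‖ := by
    intro C hC
    obtain ⟨R, hR⟩ := hC.comp.isBounded.subset_closedBall 0
    refine ⟨max R 1, lt_max_of_lt_right one_pos, fun u => ?_⟩
    refine csSup_le ⟨_, Set.mem_image_of_mem _ (interior_subset hC.zero)⟩ ?_
    rintro _ ⟨y, hy, rfl⟩
    have h1 := hR hy
    rw [mem_closedBall_zero_iff] at h1
    calc inner ℝ y u ≤ ‖y‖ * ‖u‖ := real_inner_le_norm y u
      _ ≤ max R 1 * ‖u‖ := by
        apply mul_le_mul_of_nonneg_right (h1.trans (le_max_left _ _)) (norm_nonneg _)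
  obtain ⟨R, hR0, hR⟩ := hb K hK
  obtain ⟨S, hS0, hS⟩ := hb L hL
  have hsub : LC K L t ⊆ Metric.closedBall 0 (R ^ (1 - t) * S ^ t) := by
    intro x hx
    rw [mem_closedBall_zero_iff]
    by_cases hx0 : x = 0
    · rw [hx0, norm_zero]
      positivity
    have hpos : 0 < ‖x‖ := norm_pos_iff.mpr hx0
    have h1 := hx x hx0
    rw [real_inner_self_eq_norm_sq] at h1
    have h2 : hh K x ^ (1 - t) ≤ (R * ‖x‖) ^ (1 - t) :=
      Real.rpow_le_rpow (pK.pos x hx0).le (hR x) (by linarith)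
    have h3 : hh L x ^ t ≤ (S * ‖x‖) ^ t :=
      Real.rpow_le_rpow (pL.pos x hx0).le (hS x) ht0
    have h4 : ‖x‖ ^ 2 ≤ (R * ‖x‖) ^ (1 - t) * (S * ‖x‖) ^ t :=
      h1.trans (mul_le_mul h2 h3 (Real.rpow_nonneg (pL.pos x hx0).le _)
        (Real.rpow_nonneg (by positivity) _))
    rw [Real.mul_rpow hR0.le hpos.le, Real.mul_rpow hS0.le hpos.le] at h4
    have h5 : ‖x‖ ^ (1 - t) * ‖x‖ ^ t = ‖x‖ := by
      rw [← Real.rpow_add hpos]
      simp
    have h6 : R ^ (1 - t) * ‖x‖ ^ (1 - t) * (S ^ t * ‖x‖ ^ t) = (R ^ (1 - t) * S ^ t) * ‖x‖ := by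
      calc _ = (R ^ (1 - t) * S ^ t) * (‖x‖ ^ (1 - t) * ‖x‖ ^ t) := by ring
        _ = _ := by rw [h5]
    rw [h6] at h4
    have h7 : ‖x‖ * ‖x‖ ≤ (R ^ (1 - t) * S ^ t) * ‖x‖ := by nlinarith
    exact le_of_mul_le_mul_right h7 hpos
  exact (measure_mono hsub).trans_lt measure_closedBall_lt_top

theorem t_BMR (hHH : S_HH) (hLB : S_LB) : S_BMR := by
  intro n K L hn hK hL rK rL t ht0 ht1
  obtain ⟨pK, wK, vK, fK, -⟩ := hHH n K hK
  obtain ⟨pL, wL, vL, fL, -⟩ := hHH n L hL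
  rw [bmr_set K L t ht0 ht1 pK pL]
  rcases ht0.eq_or_lt with h | h0
  · subst h
    have : LC K L 0 = K := by
      conv_rhs => rw [← wK]
      unfold LC
      congr 1
      funext u
      simp
    rw [this]
    simp
  rcases ht1.eq_or_lt with h | h1
  · subst h
    have : LC K L 1 = L := by
      conv_rhs => rw [← wL]
      unfold LC
      congr 1
      funext u
      simp
    rw [this]
    simp
  have key := hLB n hn K L t hK hL rK rL h0 h1
  have h2 := ENNReal.toReal_mono (bmr_fin K L t ht0 ht1 hK hL pK pL).ne key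
  rwa [ENNReal.toReal_mul, ← ENNReal.toReal_rpow, ← ENNReal.toReal_rpow] at h2

end H354ZN
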