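import Pool.Agent.H354R3.ZN.Defs4

/-!
# Even log-concave densities: steps of the proof of `S_MES` (helper354)
-/

set_option autoImplicit false

open MeasureTheory Filter
open scoped Matrix Pointwise Topology ENNReal

namespace H354ZN

/-- (LAY) the layer-cake formula with the levels `e^{-r}` -/
def S_LAY : Prop := ∀ (n : ℕ) (f : EuclideanSpace ℝ (Fin n) → ℝ)
  (A : Set (EuclideanSpace ℝ (Fin n))), Measurable f → (∀ x, 0 ≤ f x) → MeasurableSet A →
  Measurable (fun r : ℝ => volume (A ∩ {x | Real.exp (-r) ≤ f x}) *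
    ENNReal.ofReal (Real.exp (-r))) ∧
  ∫⁻ x in A, ENNReal.ofReal (f x) =
    ∫⁻ r : ℝ, volume (A ∩ {x | Real.exp (-r) ≤ f x}) * ENNReal.ofReal (Real.exp (-r))

/-- (CLB) the closure of a symmetric convex bounded set of positive volume -/
def S_CLB : Prop := ∀ (n : ℕ) (A : Set (EuclideanSpace ℝ (Fin n))), Convex ℝ A →
  Bornology.IsBounded A → (∀ x ∈ A, -x ∈ A) → 0 < volume A →
  SB (closure A) ∧ volume (closure A) = volume A ∧
    ((∀ j : Fin n, 2 ≤ (j : ℕ) → ∀ x ∈ A, flipE j x ∈ A) → Ref (closure A))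

/-- (LCM) the logarithmic combination is contained in the Minkowski combination -/
def S_LCM : Prop := ∀ (n : ℕ) (K L : Set (EuclideanSpace ℝ (Fin n))) (t : ℝ), SB K → SB L →
  0 < t → t < 1 → LC K L t ⊆ {x | ∃ a ∈ K, ∃ b ∈ L, x = (1 - t) • a + t • b}

/-- (LCI) monotonicity -/
def S_LCI : Prop := ∀ (n : ℕ) (K L K' L' : Set (EuclideanSpace ℝ (Fin n))) (t : ℝ), SB K → SB L →
  SB K' → SB L' → K ⊆ K' → L ⊆ L' → 0 ≤ t → t ≤ 1 → LC K L t ⊆ LC K' L' t

/-- (LCE) the logarithmic combination of `e^a K` and `e^b K` -/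
def S_LCE : Prop := ∀ (n : ℕ) (K : Set (EuclideanSpace ℝ (Fin n))) (a b t : ℝ), SB K →
  0 ≤ t → t ≤ 1 → SB (Real.exp a • K) ∧ (Ref K → Ref (Real.exp a • K)) ∧
    LC (Real.exp a • K) (Real.exp b • K) t = Real.exp ((1 - t) * a + t * b) • K

/-- (LEV) the level sets of an even log-concave function with reflections -/
def S_LEV : Prop := ∀ (n : ℕ) (f : EuclideanSpace ℝ (Fin n) → ℝ)
  (K L : Set (EuclideanSpace ℝ (Fin n))) (t : ℝ), 2 ≤ n → LB2 n → Measurable f →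
  (∀ x, 0 ≤ f x) →
  (∀ x, f (-x) = f x) → (∀ j : Fin n, 2 ≤ (j : ℕ) → ∀ x, f (flipE j x) = f x) →
  (∀ (x y : EuclideanSpace ℝ (Fin n)) (s : ℝ), 0 < s → s < 1 →
    f x ^ (1 - s) * f y ^ s ≤ f ((1 - s) • x + s • y)) →
  SB K → SB L → Ref K → Ref L → 0 < t → t < 1 → ∀ r q : ℝ,
  volume (K ∩ {x | Real.exp (-r) ≤ f x}) ^ (1 - t) * volume (L ∩ {x | Real.exp (-q) ≤ f x}) ^ t ≤
    volume (LC K L t ∩ {x | Real.exp (-((1 - t) * r + t * q)) ≤ f x})

end H354ZN
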