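import Mathlib
import Pool.Agent.H354R3.ZN.Defs5

/-! # (CLB) the closure of a symmetric convex bounded set of positive volume -/

set_option autoImplicit false

open MeasureTheory Filter
open scoped Matrix Pointwise Topology ENNReal

namespace H354ZN

theorem CLB_flip_cont {n : ℕ} (j : Fin n) : Continuous (flipE (n := n) j) := by
  unfold flipE
  refine (PiLp.continuous_toLp 2 (fun _ : Fin n => ℝ)).comp ?_
  have h1 : Continuous (fun x : EuclideanSpace ℝ (Fin n) => WithLp.ofLp x) :=
    PiLp.continuous_ofLp 2 (fun _ : Fin n => ℝ)
  exact h1.update j ((continuous_apply j).comp h1).neg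

theorem t_CLB : S_CLB := by
  intro n A hconv hbdd hsymm hvol
  have hfr : volume (frontier A) = 0 := hconv.addHaar_frontier volume
  have hcl : volume (closure A) = volume A := measure_closure_of_null_frontier hfr
  have hint : volume (interior A) = volume A := measure_interior_of_null_frontier hfr
  obtain ⟨x, hx⟩ : (interior A).Nonempty := by
    rw [Set.nonempty_iff_ne_empty]
    intro h
    rw [h, measure_empty] at hint
    exact hvol.ne hint
  have hnx : -x ∈ interior A := by
    rw [mem_interior_iff_mem_nhds] at hx ⊢
    have h1 : Neg.neg ⁻¹' A ∈ 𝓝 (-x) :=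
      (continuous_neg.continuousAt (x := -x)).preimage_mem_nhds (by rw [neg_neg]; exact hx)
    refine mem_of_superset h1 fun y hy => ?_
    have h2 := hsymm _ hy
    rwa [neg_neg] at h2
  have h0 : (0 : EuclideanSpace ℝ (Fin n)) ∈ interior A := by
    have h1 := hconv.interior hx hnx (by norm_num : (0 : ℝ) ≤ 1 / 2)
      (by norm_num : (0 : ℝ) ≤ 1 / 2) (by norm_num)
    rwa [smul_neg, add_neg_cancel] at h1
  refine ⟨⟨hconv.closure, hbdd.isCompact_closure, ?_, ?_⟩, hcl, ?_⟩
  · exact interior_mono subset_closure h0
  · intro y hy
    exact map_mem_closure continuous_neg hy (fun z hz => hsymm z hz)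
  · intro h j hj y hy
    exact map_mem_closure (CLB_flip_cont j) hy (fun z hz => h j hj z hz)

end H354ZN
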