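import Pool.Agent.H354R3.ZN.Defs4

/-! FIBM: measurability of the volume of the fibres. -/

set_option autoImplicit false

open MeasureTheory Filter
open scoped Matrix Pointwise Topology ENNReal

namespace H354ZN

namespace FIBMaux

theorem continuous_snocE {n : ℕ} :
    Continuous (fun p : ℝ × EuclideanSpace ℝ (Fin n) => snocE p.2 (Real.exp p.1)) := by
  unfold snocE
  refine (PiLp.continuous_toLp 2 _).comp ?_
  have h1 : Continuous (fun p : ℝ × EuclideanSpace ℝ (Fin n) => WithLp.ofLp p.2) :=
    (PiLp.continuous_ofLp 2 _).comp continuous_snd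
  have h2 : Continuous (fun p : ℝ × EuclideanSpace ℝ (Fin n) => Real.exp p.1) :=
    Real.continuous_exp.comp continuous_fst
  exact Continuous.finSnoc h1 h2

end FIBMaux

theorem t_FIBM : S_FIBM := by
  intro n K hK
  have hm : MeasurableSet {p : ℝ × EuclideanSpace ℝ (Fin n) | snocE p.2 (Real.exp p.1) ∈ K} :=
    (hK.isClosed.preimage FIBMaux.continuous_snocE).measurableSet
  have h1 : Measurable fun a : ℝ => volume (fib K (Real.exp a)) :=
    measurable_measure_prodMk_left hm
  exact h1.mul (ENNReal.measurable_ofReal.comp Real.measurable_exp)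

end H354ZN
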