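import Pool.Agent.H354R3.ZN.Defs4

/-! # FIBR: reflections of fibres -/

set_option autoImplicit false

namespace H354ZN

theorem flipE_snocE {n : ℕ} (j : Fin n) (x : EuclideanSpace ℝ (Fin n)) (y : ℝ) :
    flipE j.castSucc (snocE x y) = snocE (flipE j x) y := by
  unfold flipE snocE
  congr 1
  funext i
  refine Fin.lastCases ?_ (fun i => ?_) i
  · rw [Function.update_of_ne (Fin.castSucc_ne_last j).symm]
    simp only [Fin.snoc_last]
  · by_cases h : i = j
    · subst h
      simp only [Function.update_self, Fin.snoc_castSucc]
    · rw [Function.update_of_ne (fun h' => h (Fin.castSucc_injective n h'))]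
      simp only [Fin.snoc_castSucc]
      rw [Function.update_of_ne h]

theorem t_FIBR : S_FIBR := by
  intro n K y hn hK
  refine ⟨?_, ?_⟩
  · intro x hx
    exact hK (Fin.last n) (by simpa using hn) x hx
  · intro j hj x hx
    show snocE (flipE j x) y ∈ K
    rw [← flipE_snocE]
    exact hK j.castSucc (by simpa using hj) _ hx

end H354ZN
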