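import Pool.Agent.H354R3.ZN.Defs4

set_option autoImplicit false

open MeasureTheory Filter
open scoped Matrix Pointwise Topology ENNReal

namespace H354ZN

namespace FIBSaux

variable {n : ℕ}

theorem s_last (x : EuclideanSpace ℝ (Fin n)) (y : ℝ) : snocE x y (Fin.last n) = y := by
  simp [snocE]

theorem s_cast (x : EuclideanSpace ℝ (Fin n)) (y : ℝ) (i : Fin n) :
    snocE x y i.castSucc = x i := by
  simp [snocE]

theorem s_ext {u v : EuclideanSpace ℝ (Fin (n + 1))} (h1 : u (Fin.last n) = v (Fin.last n))
    (h2 : ∀ i : Fin n, u i.castSucc = v i.castSucc) : u = v := by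
  ext i
  refine Fin.lastCases ?_ ?_ i
  · exact h1
  · exact h2

theorem s_comb (x x' : EuclideanSpace ℝ (Fin n)) (y : ℝ) (a b : ℝ) (h : a + b = 1) :
    snocE (a • x + b • x') y = a • snocE x y + b • snocE x' y := by
  apply s_ext
  · simp only [s_last, PiLp.add_apply, PiLp.smul_apply, smul_eq_mul]
    rw [← add_mul, h, one_mul]
  · intro i
    simp only [s_cast, PiLp.add_apply, PiLp.smul_apply, smul_eq_mul]

theorem s_neg (x : EuclideanSpace ℝ (Fin n)) (y : ℝ) :
    flipE (Fin.last n) (-snocE x y) = snocE (-x) y := by
  apply s_ext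
  · simp [flipE, s_last]
  · intro i
    have : (i.castSucc : Fin (n + 1)) ≠ Fin.last n := (Fin.castSucc_lt_last i).ne
    simp [flipE, s_cast, Function.update_of_ne this]

theorem s_norm (x : EuclideanSpace ℝ (Fin n)) (y : ℝ) : ‖x‖ ≤ ‖snocE x y‖ := by
  rw [EuclideanSpace.norm_eq, EuclideanSpace.norm_eq]
  apply Real.sqrt_le_sqrt
  rw [Fin.sum_univ_castSucc]
  simp only [s_cast, s_last]
  have : 0 ≤ ‖y‖ ^ 2 := by positivity
  linarith

theorem s_cont (y : ℝ) : Continuous fun x : EuclideanSpace ℝ (Fin n) => snocE x y := by
  unfold snocE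
  apply (PiLp.continuous_toLp 2 _).comp
  apply continuous_pi
  intro i
  refine Fin.lastCases ?_ ?_ i
  · simpa using continuous_const
  · intro j
    simp only [Fin.snoc_castSucc]
    exact (continuous_apply j).comp (PiLp.continuous_ofLp 2 _)

end FIBSaux

open FIBSaux in
theorem t_FIBS : S_FIBS := by
  intro n K y hK hR hv
  have hconv : Convex ℝ (fib K y) := by
    intro x hx x' hx' a b ha hb hab
    change snocE (a • x + b • x') y ∈ K
    rw [s_comb x x' y a b hab]
    exact hK.conv hx hx' ha hb hab
  have hcl : IsClosed (fib K y) := hK.comp.isClosed.preimage (s_cont y)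
  have hbd : Bornology.IsBounded (fib K y) := by
    obtain ⟨R, hR'⟩ := hK.comp.isBounded.exists_norm_le
    rw [isBounded_iff_forall_norm_le]
    exact ⟨R, fun x hx => (s_norm x y).trans (hR' _ hx)⟩
  have hsym : ∀ x ∈ fib K y, -x ∈ fib K y := by
    intro x hx
    have h1 := hR _ (hK.symm _ hx)
    rw [s_neg] at h1
    exact h1
  have hint : (interior (fib K y)).Nonempty := by
    by_contra h
    rw [Set.not_nonempty_iff_eq_empty] at h
    have h1 : volume (frontier (fib K y)) = 0 := hconv.addHaar_frontier volume
    rw [frontier, hcl.closure_eq, h, Set.diff_empty] at h1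
    exact hv.ne' h1
  have hz : (0 : EuclideanSpace ℝ (Fin n)) ∈ interior (fib K y) := by
    obtain ⟨x, hx⟩ := hint
    have hx' : -x ∈ interior (fib K y) := by
      have h1 : interior (fib K y) ⊆ -(fib K y) := by
        intro z hz
        exact hsym z (interior_subset hz)
      have h2 : -(fib K y) = fib K y := by
        ext z
        constructor
        · intro hz
          have := hsym _ hz
          simpa using this
        · intro hz
          exact hsym z hz
      have h3 : -interior (fib K y) = interior (fib K y) := by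
        have : interior (-(fib K y)) = -interior (fib K y) := by
          have h4 := (Homeomorph.neg (EuclideanSpace ℝ (Fin n))).preimage_interior (fib K y)
          simpa using h4.symm
        rw [← this, h2]
      rw [← h3]
      simpa using hx
    have h5 := hconv.interior hx hx' (a := 1 / 2) (b := 1 / 2) (by norm_num) (by norm_num)
      (by norm_num)
    simpa using h5
  exact ⟨hconv, Metric.isCompact_of_isClosed_isBounded hcl hbd, hz, hsym⟩

end H354ZN
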