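import Pool.Agent.H354R3.ZN.Defs4

set_option autoImplicit false

open MeasureTheory Filter
open scoped Matrix Pointwise Topology ENNReal

namespace H354ZN

theorem fibv_mp (n : ℕ) : MeasurePreserving
    (fun p : EuclideanSpace ℝ (Fin n) × ℝ => snocE p.1 p.2) (volume.prod volume) volume := by
  have h0 : MeasurePreserving (fun p : ℝ × EuclideanSpace ℝ (Fin n) => (p.1, WithLp.ofLp p.2))
      (volume.prod volume) (volume.prod volume) :=
    (MeasurePreserving.id volume).prod (PiLp.volume_preserving_ofLp (Fin n))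
  have h1 := h0.comp (Measure.measurePreserving_swap
    (μ := (volume : Measure (EuclideanSpace ℝ (Fin n)))) (ν := (volume : Measure ℝ)))
  have h2 := (volume_preserving_piFinSuccAbove (fun _ : Fin (n + 1) => ℝ) (Fin.last n)).symm
  have h3 := (PiLp.volume_preserving_toLp (Fin (n + 1))).comp (h2.comp h1)
  have h4 : (fun p : EuclideanSpace ℝ (Fin n) × ℝ => snocE p.1 p.2) =
      (WithLp.toLp 2 ∘ (MeasurableEquiv.piFinSuccAbove (fun _ : Fin (n + 1) => ℝ)
        (Fin.last n)).symm ∘ (fun p : ℝ × EuclideanSpace ℝ (Fin n) => (p.1, WithLp.ofLp p.2)) ∘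
          Prod.swap) := by
    funext p
    show snocE p.1 p.2 = WithLp.toLp 2 ((Fin.last n).insertNth p.2 (WithLp.ofLp p.1))
    rw [Fin.insertNth_last']
    rfl
  rw [h4]
  exact h3

theorem fibv_flip {n : ℕ} (x : EuclideanSpace ℝ (Fin n)) (y : ℝ) :
    flipE (Fin.last n) (snocE x y) = snocE x (-y) := by
  unfold flipE snocE
  congr 1
  funext i
  refine Fin.lastCases ?_ (fun j => ?_) i
  · simp
  · rw [Function.update_of_ne (Fin.castSucc_lt_last j).ne]
    simp

theorem fibv_neg {n : ℕ} {K : Set (EuclideanSpace ℝ (Fin (n + 1)))} (hK : RefL K) (y : ℝ) :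
    fib K (-y) = fib K y := by
  ext x
  constructor
  · intro h
    have h1 := hK _ h
    rw [fibv_flip, neg_neg] at h1
    exact h1
  · intro h
    have h1 := hK _ h
    rw [fibv_flip] at h1
    exact h1

theorem t_FIBV : S_FIBV := by
  intro n K hK hR
  have hKm : MeasurableSet K := hK.measurableSet
  have hmp := fibv_mp n
  have hpre : MeasurableSet ((fun p : EuclideanSpace ℝ (Fin n) × ℝ => snocE p.1 p.2) ⁻¹' K) :=
    hmp.measurable hKm
  have h1 : volume K = ∫⁻ y : ℝ, volume (fib K y) := by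
    rw [← hmp.measure_preimage hKm.nullMeasurableSet, Measure.prod_apply_symm hpre]
    rfl
  have hmeas : Measurable fun y : ℝ => volume (fib K y) :=
    measurable_measure_prodMk_right hpre
  have h2 : ∫⁻ y : ℝ, volume (fib K y) =
      (∫⁻ y in Set.Ioi (0 : ℝ), volume (fib K y)) + ∫⁻ y in (Set.Ioi (0 : ℝ))ᶜ, volume (fib K y) :=
    (lintegral_add_compl _ measurableSet_Ioi).symm
  have h3 : ∫⁻ y in (Set.Ioi (0 : ℝ))ᶜ, volume (fib K y) =
      ∫⁻ y in Set.Ioi (0 : ℝ), volume (fib K y) := by
    rw [Set.compl_Ioi, ← restrict_Iio_eq_restrict_Iic]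
    have h4 := (Measure.measurePreserving_neg (volume : Measure ℝ)).setLIntegral_comp_preimage
      (s := Set.Ioi (0 : ℝ)) measurableSet_Ioi hmeas
    rw [← h4]
    have h5 : Neg.neg ⁻¹' Set.Ioi (0 : ℝ) = Set.Iio 0 := by
      ext y
      simp
    rw [h5]
    exact lintegral_congr fun y => by rw [fibv_neg hR]
  have h6 : ∫⁻ y in Set.Ioi (0 : ℝ), volume (fib K y) =
      ∫⁻ a : ℝ, volume (fib K (Real.exp a)) * ENNReal.ofReal (Real.exp a) := by
    have h7 := lintegral_image_eq_lintegral_abs_deriv_mul (s := Set.univ) (f := Real.exp)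
      (f' := Real.exp) MeasurableSet.univ (fun x _ => (Real.hasDerivAt_exp x).hasDerivWithinAt)
      (Real.exp_injective.injOn) (fun y => volume (fib K y))
    rw [Set.image_univ, Real.range_exp, Measure.restrict_univ] at h7
    rw [h7]
    exact lintegral_congr fun a => by rw [abs_of_pos (Real.exp_pos a), mul_comm]
  rw [h1, h2, h3, h6, two_mul]

end H354ZN
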