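import Pool.Agent.H354R3.ZN.Defs4

set_option autoImplicit false

open MeasureTheory Filter
open scoped Matrix Pointwise Topology ENNReal

namespace H354ZN

/-- the first coordinates -/
noncomputable def FLEM_init {n : ℕ} (w : EuclideanSpace ℝ (Fin (n + 1))) :
    EuclideanSpace ℝ (Fin n) := WithLp.toLp 2 (fun i : Fin n => w i.castSucc)

theorem FLEM_inner {n : ℕ} (x : EuclideanSpace ℝ (Fin n)) (s : ℝ)
    (w : EuclideanSpace ℝ (Fin (n + 1))) :
    inner ℝ (snocE x s) w = inner ℝ x (FLEM_init w) + s * w (Fin.last n) := by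
  rw [PiLp.inner_apply, PiLp.inner_apply, Fin.sum_univ_castSucc]
  congr 1
  · refine Finset.sum_congr rfl fun i _ => ?_
    simp [snocE, FLEM_init]
  · simp [snocE, mul_comm]

theorem FLEM_flip {n : ℕ} (x : EuclideanSpace ℝ (Fin n)) (s : ℝ) :
    flipE (Fin.last n) (snocE x s) = snocE x (-s) := by
  unfold flipE snocE
  congr 1
  funext i
  refine Fin.lastCases ?_ (fun j => ?_) i
  · simp
  · have : (Fin.castSucc j) ≠ Fin.last n := (Fin.castSucc_lt_last j).ne
    simp [Function.update_of_ne this]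

theorem FLEM_a (hHH : S_HH) {n : ℕ} (K : Set (EuclideanSpace ℝ (Fin (n + 1)))) (y : ℝ)
    (hK : SB K) (hR : RefL K) (hF : SB (fib K y))
    (w : EuclideanSpace ℝ (Fin (n + 1))) :
    hh (fib K y) (FLEM_init w) + y * |w (Fin.last n)| ≤ hh K w := by
  have hb := (hHH (n + 1) K hK).2.2.2.2.1
  have h1 : ∀ x ∈ fib K y, inner ℝ x (FLEM_init w) + y * |w (Fin.last n)| ≤ hh K w := by
    intro x hx
    have hx1 : snocE x y ∈ K := hx
    have hx2 : snocE x (-y) ∈ K := by
      rw [← FLEM_flip]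
      exact hR _ hx1
    have a1 := (le_abs_self _).trans (hb _ hx1 w)
    have a2 := (le_abs_self _).trans (hb _ hx2 w)
    rw [FLEM_inner] at a1 a2
    rcases le_total 0 (w (Fin.last n)) with h | h
    · rw [abs_of_nonneg h]; exact a1
    · rw [abs_of_nonpos h]; linarith
  have h2 : hh (fib K y) (FLEM_init w) ≤ hh K w - y * |w (Fin.last n)| := by
    unfold hh
    apply csSup_le
    · exact ⟨_, Set.mem_image_of_mem _ (interior_subset hF.zero)⟩
    · rintro r ⟨x, hx, rfl⟩
      have := h1 x hx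
      unfold hh at this
      linarith
  linarith

theorem t_FLEM (hHOL : S_HOL) (hHH : S_HH) : S_FLEM := by
  intro n K L y z t hK hL hRK hRL hy hz ht0 ht1 hFK hFL x hx w hw
  set u := FLEM_init w with hu
  set v := w (Fin.last n) with hv
  have ha0 : ∀ (M : Set (EuclideanSpace ℝ (Fin n))), SB M → 0 ≤ hh M u := by
    intro M hM
    exact (abs_nonneg _).trans ((hHH n M hM).2.2.2.2.1 0 (interior_subset hM.zero) u)
  have ha := ha0 _ hFK
  have hc := ha0 _ hFL
  have hA := FLEM_a hHH K y hK hRK hFK w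
  have hC := FLEM_a hHH L z hL hRL hFL w
  have hb : 0 ≤ y * |v| := by positivity
  have hd : 0 ≤ z * |v| := by positivity
  have h1 : inner ℝ x u ≤ hh (fib K y) u ^ (1 - t) * hh (fib L z) u ^ t := by
    by_cases h0 : u = 0
    · rw [h0, inner_zero_right, ← h0]
      exact mul_nonneg (Real.rpow_nonneg ha _) (Real.rpow_nonneg hc _)
    · exact hx u h0
  have h2 : y ^ (1 - t) * z ^ t * v ≤ (y * |v|) ^ (1 - t) * (z * |v|) ^ t := by
    rw [Real.mul_rpow hy.le (abs_nonneg _), Real.mul_rpow hz.le (abs_nonneg _)]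
    have e : |v| ^ (1 - t) * |v| ^ t = |v| := by
      rw [← Real.rpow_add' (abs_nonneg _) (by norm_num)]
      norm_num
    calc y ^ (1 - t) * z ^ t * v ≤ y ^ (1 - t) * z ^ t * |v| :=
          mul_le_mul_of_nonneg_left (le_abs_self v) (by positivity)
      _ = y ^ (1 - t) * z ^ t * (|v| ^ (1 - t) * |v| ^ t) := by rw [e]
      _ = y ^ (1 - t) * |v| ^ (1 - t) * (z ^ t * |v| ^ t) := by ring
  have h3 := hHOL (hh (fib K y) u) (y * |v|) (hh (fib L z) u) (z * |v|) t ha hb hc hd ht0 ht1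
  show inner ℝ (snocE x (y ^ (1 - t) * z ^ t)) w ≤ hh K w ^ (1 - t) * hh L w ^ t
  rw [FLEM_inner]
  calc inner ℝ x u + y ^ (1 - t) * z ^ t * v
      ≤ hh (fib K y) u ^ (1 - t) * hh (fib L z) u ^ t + (y * |v|) ^ (1 - t) * (z * |v|) ^ t :=
        add_le_add h1 h2
    _ ≤ (hh (fib K y) u + y * |v|) ^ (1 - t) * (hh (fib L z) u + z * |v|) ^ t := h3
    _ ≤ hh K w ^ (1 - t) * hh L w ^ t := by
        apply mul_le_mul
        · exact Real.rpow_le_rpow (add_nonneg ha hb) hA (by linarith)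
        · exact Real.rpow_le_rpow (add_nonneg hc hd) hC ht0.le
        · exact Real.rpow_nonneg (add_nonneg hc hd) _
        · exact Real.rpow_nonneg ((add_nonneg ha hb).trans hA) _

end H354ZN
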