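import Pool.Agent.H354R3.ZN.Defs4

/-!
# GRE: the discrete Green identity
-/

set_option autoImplicit false

namespace H354ZN

theorem GRE_shift (N : ℕ) (F : ℤ → ℝ) (hF : ∀ i, F (i + N) = F i) :
    ∑ i ∈ Finset.range N, F ((i : ℤ) + 1) = ∑ i ∈ Finset.range N, F (i : ℤ) := by
  have h1 := Finset.sum_range_succ (fun i : ℕ => F (i : ℤ)) N
  have h2 := Finset.sum_range_succ' (fun i : ℕ => F (i : ℤ)) N
  have h3 : F (N : ℤ) = F 0 := by
    have := hF 0
    rwa [zero_add] at this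
  push_cast at h1 h2
  linarith

theorem GRE_per (N : ℕ) (hN : 2 ≤ N) (i : ℤ) :
    |Real.sin (((i + N : ℤ) : ℝ) * (Real.pi / N))| = |Real.sin ((i : ℝ) * (Real.pi / N))| := by
  have hN0 : (N : ℝ) ≠ 0 := by
    have : (0 : ℝ) < N := by exact_mod_cast (by omega : 0 < N)
    exact this.ne'
  have h1 : ((i + N : ℤ) : ℝ) * (Real.pi / N) = (i : ℝ) * (Real.pi / N) + Real.pi := by
    push_cast
    field_simp
  rw [h1, Real.sin_add_pi, abs_neg]

theorem GRE_A (N : ℕ) (hN : 2 ≤ N) (i : ℤ) :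
    |Real.sin (((i - 1 : ℤ) : ℝ) * (Real.pi / N))| + |Real.sin (((i + 1 : ℤ) : ℝ) * (Real.pi / N))| -
      2 * Real.cos (Real.pi / N) * |Real.sin ((i : ℝ) * (Real.pi / N))| =
      if (N : ℤ) ∣ i then 2 * Real.sin (Real.pi / N) else 0 := by
  have hNr : (2 : ℝ) ≤ N := by exact_mod_cast hN
  have hN0 : (0 : ℝ) < N := by linarith
  have hpi := Real.pi_pos
  obtain ⟨g, hg⟩ : ∃ g : ℤ → ℝ, ∀ i, g i = |Real.sin ((i : ℝ) * (Real.pi / N))| :=
    ⟨_, fun _ => rfl⟩
  have hper : Function.Periodic g (N : ℤ) := by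
    intro i
    rw [hg, hg]
    exact GRE_per N hN i
  rw [← hg, ← hg, ← hg]
  obtain ⟨q, r, hr0, hrN, hi⟩ : ∃ q r : ℤ, 0 ≤ r ∧ r < N ∧ i = r + q * N := by
    refine ⟨i / N, i % N, Int.emod_nonneg _ (by omega), Int.emod_lt_of_pos _ (by omega), ?_⟩
    have := Int.emod_add_mul_ediv i N
    linarith
  have hp := hper.int_mul q
  have e1 : g (i - 1) = g (r - 1) := by
    rw [hi, show r + q * N - 1 = (r - 1) + q * N by ring]
    exact hp _
  have e2 : g (i + 1) = g (r + 1) := by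
    rw [hi, show r + q * N + 1 = (r + 1) + q * N by ring]
    exact hp _
  have e3 : g i = g r := by
    rw [hi]
    exact hp _
  have e4 : (N : ℤ) ∣ i ↔ r = 0 := by
    rw [hi]
    constructor
    · intro h
      have h1 : (N : ℤ) ∣ r := by
        have h2 : (N : ℤ) ∣ q * N := Dvd.intro_left q rfl
        exact (Int.dvd_add_left h2).1 h
      exact Int.eq_zero_of_dvd_of_nonneg_of_lt hr0 hrN h1
    · intro h
      rw [h, zero_add]
      exact Dvd.intro_left q rfl
  rw [e1, e2, e3]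
  have hα0 : 0 < Real.pi / N := div_pos hpi hN0
  have hα1 : Real.pi / N * N = Real.pi := by field_simp
  have hnn : ∀ k : ℤ, 0 ≤ k → k ≤ N → g k = Real.sin ((k : ℝ) * (Real.pi / N)) := by
    intro k hk0 hkN
    rw [hg]
    apply abs_of_nonneg
    have h1 : (0 : ℝ) ≤ k := by exact_mod_cast hk0
    have h2 : (k : ℝ) ≤ N := by exact_mod_cast hkN
    apply Real.sin_nonneg_of_nonneg_of_le_pi (by positivity)
    calc (k : ℝ) * (Real.pi / N) ≤ N * (Real.pi / N) := mul_le_mul_of_nonneg_right h2 hα0.le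
      _ = Real.pi := by rw [mul_comm]; exact hα1
  by_cases h0 : r = 0
  · rw [if_pos (e4.2 h0), h0]
    have h1 : g (0 - 1) = g 1 := by
      rw [hg, hg]
      push_cast
      norm_num
    have h2 : g 0 = 0 := by rw [hnn 0 le_rfl (by omega)]; simp
    have h3 : g 1 = Real.sin (Real.pi / N) := by rw [hnn 1 (by omega) (by omega)]; simp
    rw [h1, zero_add, h2, h3]
    ring
  · rw [if_neg (fun h => h0 (e4.1 h))]
    rw [hnn (r - 1) (by omega) (by omega), hnn (r + 1) (by omega) (by omega),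
      hnn r hr0 hrN.le]
    push_cast
    have h1 : ((r : ℝ) - 1) * (Real.pi / N) = (r : ℝ) * (Real.pi / N) - Real.pi / N := by ring
    have h2 : ((r : ℝ) + 1) * (Real.pi / N) = (r : ℝ) * (Real.pi / N) + Real.pi / N := by ring
    rw [h1, h2, Real.sin_sub, Real.sin_add]
    ring

theorem t_GRE : S_GRE := by
  intro N h j hN hh
  have hNr : (2 : ℝ) ≤ N := by exact_mod_cast hN
  have hN0 : (0 : ℝ) < N := by linarith
  have hsin : 0 < Real.sin (Real.pi / N) := by
    apply Real.sin_pos_of_pos_of_lt_pi (div_pos Real.pi_pos hN0)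
    rw [div_lt_iff₀ hN0]
    nlinarith [Real.pi_pos]
  obtain ⟨g, hg⟩ : ∃ g : ℤ → ℝ, ∀ i, g i = |Real.sin ((i : ℝ) * (Real.pi / N))| :=
    ⟨_, fun _ => rfl⟩
  obtain ⟨c, hc⟩ : ∃ c : ℝ, c = Real.cos (Real.pi / N) := ⟨_, rfl⟩
  have hper : ∀ i, g (i + N) = g i := by
    intro i
    rw [hg, hg]
    exact GRE_per N hN i
  -- rewriting
  have h1 : ∀ i ∈ Finset.range N, (h ((i : ℤ) - 1) + h ((i : ℤ) + 1) -
      2 * Real.cos (Real.pi / N) * h (i : ℤ)) / Real.sin (Real.pi / N) *
      |Real.sin ((i - j) * (Real.pi / N))| =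
      (h ((i : ℤ) - 1) * g ((i : ℤ) - j) + h ((i : ℤ) + 1) * g ((i : ℤ) - j) -
        2 * c * (h (i : ℤ) * g ((i : ℤ) - j))) / Real.sin (Real.pi / N) := by
    intro i _
    have e : |Real.sin (((i : ℝ) - j) * (Real.pi / N))| = g ((i : ℤ) - j) := by
      rw [hg]
      push_cast
      rfl
    rw [e, hc]
    ring
  rw [Finset.sum_congr rfl h1, ← Finset.sum_div, Finset.sum_sub_distrib, Finset.sum_add_distrib]
  have s1 : ∑ i ∈ Finset.range N, h ((i : ℤ) - 1) * g ((i : ℤ) - j) =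
      ∑ i ∈ Finset.range N, h (i : ℤ) * g ((i : ℤ) + 1 - j) := by
    have := GRE_shift N (fun i => h (i - 1) * g (i - j)) (by
      intro i
      show h (i + N - 1) * g (i + N - j) = h (i - 1) * g (i - j)
      rw [show i + N - 1 = (i - 1) + N by ring, show i + N - j = (i - j) + N by ring, hh, hper])
    rw [← this]
    refine Finset.sum_congr rfl fun i _ => ?_
    rw [add_sub_cancel_right]
  have s2 : ∑ i ∈ Finset.range N, h ((i : ℤ) + 1) * g ((i : ℤ) - j) =
      ∑ i ∈ Finset.range N, h (i : ℤ) * g ((i : ℤ) - 1 - j) := by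
    have := GRE_shift N (fun i => h i * g (i - 1 - j)) (by
      intro i
      show h (i + N) * g (i + N - 1 - j) = h i * g (i - 1 - j)
      rw [show i + N - 1 - j = (i - 1 - j) + N by ring, hh, hper])
    rw [← this]
    refine Finset.sum_congr rfl fun i _ => ?_
    rw [add_sub_cancel_right]
  rw [s1, s2, ← Finset.mul_sum, ← Finset.sum_add_distrib, Finset.mul_sum, ← Finset.sum_sub_distrib]
  have h2 : ∀ i ∈ Finset.range N, (h (i : ℤ) * g ((i : ℤ) + 1 - j) +
      h (i : ℤ) * g ((i : ℤ) - 1 - j)) - 2 * c * (h (i : ℤ) * g ((i : ℤ) - j)) =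
      if i = (j % N).toNat then h j * (2 * Real.sin (Real.pi / N)) else 0 := by
    intro i hi
    rw [Finset.mem_range] at hi
    have hA := GRE_A N hN ((i : ℤ) - j)
    rw [← hg, ← hg, ← hg, ← hc] at hA
    have e1 : (i : ℤ) + 1 - j = (i : ℤ) - j + 1 := by ring
    have e2 : (i : ℤ) - 1 - j = (i : ℤ) - j - 1 := by ring
    rw [e1, e2]
    have e3 : h (i : ℤ) * g ((i : ℤ) - j + 1) + h (i : ℤ) * g ((i : ℤ) - j - 1) -
        2 * c * (h (i : ℤ) * g ((i : ℤ) - j)) = h (i : ℤ) * (g ((i : ℤ) - j - 1) +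
          g ((i : ℤ) - j + 1) - 2 * c * g ((i : ℤ) - j)) := by ring
    rw [e3, hA]
    have hjm : 0 ≤ j % N := Int.emod_nonneg _ (by omega)
    have hjN : j % N < N := Int.emod_lt_of_pos _ (by omega)
    have hiff : (N : ℤ) ∣ (i : ℤ) - j ↔ i = (j % N).toNat := by
      constructor
      · intro hd
        have h4 : (i : ℤ) % N = j % N := (Int.emod_eq_emod_iff_emod_sub_eq_zero.2 (Int.emod_eq_zero_of_dvd hd))
        rw [Int.emod_eq_of_lt (by omega) (by omega)] at h4
        omega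
      · intro hd
        have h4 : (i : ℤ) = j % N := by omega
        rw [h4]
        have h5 := Int.emod_add_mul_ediv j N
        refine ⟨-(j / N), ?_⟩
        linarith
    by_cases hd : i = (j % N).toNat
    · rw [if_pos (hiff.2 hd), if_pos hd]
      congr 1
      obtain ⟨q, hq⟩ := hiff.2 hd
      have hp : Function.Periodic h (N : ℤ) := hh
      have h3 := (hp.int_mul q) j
      rw [← h3]
      congr 1
      push_cast
      linarith
    · rw [if_neg (fun h => hd (hiff.1 h)), if_neg hd, mul_zero]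
  rw [Finset.sum_congr rfl h2, Finset.sum_ite_eq' (Finset.range N)]
  have hjm : 0 ≤ j % N := Int.emod_nonneg _ (by omega)
  have hjN : j % N < N := Int.emod_lt_of_pos _ (by omega)
  rw [if_pos (by rw [Finset.mem_range]; omega)]
  field_simp

end H354ZN
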