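import Pool.Agent.H354R3.ZN.Defs4

/-! (HDZ) of the reflection project (helper303) -/

set_option autoImplicit false

open MeasureTheory Filter
open scoped Matrix Pointwise Topology ENNReal

namespace H354ZN

theorem hdz_half {n : ℕ} (K Z : Set (EuclideanSpace ℝ (Fin n))) (ε : ℝ)
    (hKc : IsCompact K) (hZ : Convex ℝ Z) (hZc : IsCompact Z) (hZn : Z.Nonempty) (he : 0 ≤ ε)
    (h : ∀ u, |hh K u - hh Z u| ≤ ε * ‖u‖) (x : EuclideanSpace ℝ (Fin n)) (hx : x ∈ K) :
    Metric.infDist x Z ≤ ε := by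
  obtain ⟨z, hz, hzx⟩ := exists_norm_eq_iInf_of_complete_convex hZn hZc.isComplete hZ x
  have hin := (norm_eq_iInf_iff_real_inner_le_zero hZ hz).mp hzx
  by_cases hu : x - z = 0
  · have : x = z := sub_eq_zero.mp hu
    rw [this, Metric.infDist_zero_of_mem hz]
    exact he
  have hpos : 0 < ‖x - z‖ := norm_pos_iff.mpr hu
  have h1 : hh Z (x - z) ≤ inner ℝ z (x - z) := by
    refine csSup_le ⟨_, Set.mem_image_of_mem _ hz⟩ ?_
    rintro _ ⟨w, hw, rfl⟩
    have h2 := hin w hw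
    rw [real_inner_comm, inner_sub_left] at h2
    linarith
  have h2 : inner ℝ x (x - z) ≤ hh K (x - z) := by
    refine le_csSup ?_ (Set.mem_image_of_mem _ hx)
    exact (hKc.image (continuous_id.inner continuous_const)).bddAbove
  have h3 := (abs_le.mp (h (x - z))).2
  have h4 : inner ℝ x (x - z) - inner ℝ z (x - z) = ‖x - z‖ ^ 2 := by
    rw [← inner_sub_left, real_inner_self_eq_norm_sq]
  have h5 : ‖x - z‖ * ‖x - z‖ ≤ ε * ‖x - z‖ := by nlinarith
  have h6 : ‖x - z‖ ≤ ε := le_of_mul_le_mul_right h5 hpos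
  calc Metric.infDist x Z ≤ dist x z := Metric.infDist_le_dist_of_mem hz
    _ = ‖x - z‖ := dist_eq_norm _ _
    _ ≤ ε := h6

theorem t_HDZ : S_HDZ := by
  intro n K Z ε hK hKc hKn hZ hZc hZn he h
  refine Metric.hausdorffDist_le_of_infDist he
    (hdz_half K Z ε hKc hZ hZc hZn he h)
    (hdz_half Z K ε hZc hK hKc hKn he ?_)
  intro u
  rw [abs_sub_comm]
  exact h u

end H354ZN
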