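import Pool.Agent.H354R3.ZN.Defs4

set_option autoImplicit false

namespace H354ZN

theorem t_HOL : S_HOL := by
  intro a b c d t ha hb hc hd ht ht1
  have h1t : 0 < 1 - t := by linarith
  rcases (add_nonneg ha hb).eq_or_lt with hS | hS
  · have ha0 : a = 0 := by linarith
    have hb0 : b = 0 := by linarith
    rw [ha0, hb0, add_zero, Real.zero_rpow h1t.ne']
    simp
  rcases (add_nonneg hc hd).eq_or_lt with hR | hR
  · have hc0 : c = 0 := by linarith
    have hd0 : d = 0 := by linarith
    rw [hc0, hd0, add_zero, Real.zero_rpow ht.ne']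
    simp
  have h1 := Real.geom_mean_le_arith_mean2_weighted h1t.le ht.le (div_nonneg ha hS.le)
    (div_nonneg hc hR.le) (by ring)
  have h2 := Real.geom_mean_le_arith_mean2_weighted h1t.le ht.le (div_nonneg hb hS.le)
    (div_nonneg hd hR.le) (by ring)
  rw [Real.div_rpow ha hS.le, Real.div_rpow hc hR.le] at h1
  rw [Real.div_rpow hb hS.le, Real.div_rpow hd hR.le] at h2
  have hSp : 0 < (a + b) ^ (1 - t) := Real.rpow_pos_of_pos hS _
  have hRp : 0 < (c + d) ^ t := Real.rpow_pos_of_pos hR _
  have h3 : (1 - t) * (a / (a + b)) + t * (c / (c + d)) +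
      ((1 - t) * (b / (a + b)) + t * (d / (c + d))) = 1 := by
    field_simp
    ring
  have h4 : a ^ (1 - t) / (a + b) ^ (1 - t) * (c ^ t / (c + d) ^ t) +
      b ^ (1 - t) / (a + b) ^ (1 - t) * (d ^ t / (c + d) ^ t) ≤ 1 := by linarith
  have h5 := mul_le_mul_of_nonneg_right h4 (mul_pos hSp hRp).le
  rw [one_mul] at h5
  refine le_trans (le_of_eq ?_) h5
  field_simp

end H354ZN
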