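import Mathlib
import Pool.Agent.H354R3.ZN.Defs5

/-!
# Project ZN, task LAY: the layer-cake formula with exponential levels
-/

set_option autoImplicit false

open MeasureTheory Filter
open scoped Matrix Pointwise Topology ENNReal

namespace H354ZN

theorem t_LAY : S_LAY := by
  intro n f A hf hf0 hA
  have hanti : Antitone (fun s : ℝ => volume (A ∩ {x | s ≤ f x})) := by
    intro s t hst
    apply measure_mono
    rintro x ⟨h1, h2⟩
    exact ⟨h1, le_trans hst h2⟩
  have hexp : Antitone (fun r : ℝ => Real.exp (-r)) := by
    intro r s hrs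
    exact Real.exp_le_exp.mpr (neg_le_neg hrs)
  have hmono : Monotone (fun r : ℝ => volume (A ∩ {x | Real.exp (-r) ≤ f x})) :=
    hanti.comp hexp
  refine ⟨hmono.measurable.mul (by fun_prop), ?_⟩
  rw [lintegral_eq_lintegral_meas_le (volume.restrict A) (Filter.Eventually.of_forall hf0)
    hf.aemeasurable]
  have h1 : ∀ t : ℝ, (volume.restrict A) {a | t ≤ f a} = volume (A ∩ {x | t ≤ f x}) := by
    intro t
    rw [Measure.restrict_apply (measurableSet_le measurable_const hf), Set.inter_comm]
  simp only [h1]
  have himg : (fun r : ℝ => Real.exp (-r)) '' Set.univ = Set.Ioi 0 := by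
    ext y
    simp only [Set.image_univ, Set.mem_range, Set.mem_Ioi]
    constructor
    · rintro ⟨r, rfl⟩
      exact Real.exp_pos _
    · intro hy
      exact ⟨-Real.log y, by rw [neg_neg, Real.exp_log hy]⟩
  have hinj : Set.InjOn (fun r : ℝ => Real.exp (-r)) Set.univ := by
    intro r _ s _ h
    have := Real.exp_injective h
    linarith
  have hder : ∀ r ∈ (Set.univ : Set ℝ),
      HasDerivWithinAt (fun r : ℝ => Real.exp (-r)) (-Real.exp (-r)) Set.univ r := by
    intro r _
    have h2 := (Real.hasDerivAt_exp (-r)).comp r (hasDerivAt_neg r)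
    have h3 : HasDerivAt (fun r : ℝ => Real.exp (-r)) (-Real.exp (-r)) r := by
      have h5 : Real.exp (-r) * -1 = -Real.exp (-r) := by ring
      rw [← h5]
      exact h2
    exact h3.hasDerivWithinAt
  have h4 := lintegral_image_eq_lintegral_abs_deriv_mul MeasurableSet.univ hder hinj
    (fun t => volume (A ∩ {x | t ≤ f x}))
  rw [himg] at h4
  rw [h4, Measure.restrict_univ]
  apply lintegral_congr
  intro r
  rw [abs_neg, abs_of_pos (Real.exp_pos _), mul_comm]

end H354ZN
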