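import Pool.Agent.H354R3.ZN.Defs4

/-! LB0: the log-Brunn-Minkowski inequality in the plane. -/

set_option autoImplicit false

open MeasureTheory Filter
open scoped Matrix Pointwise Topology ENNReal

namespace H354ZN

theorem t_LB0 (hHH : S_HH) (hLCS : S_LCS) (hPLZ : S_PLZ) (hZMZ : S_ZMZ) : S_LB0 := by
  intro K L t hK hL _ _ ht0 ht1
  obtain ⟨hPH, hSB, -⟩ := hLCS 2 K L t hK hL ht0.le ht1.le
  obtain ⟨pK, -, vK, fK, iK, -⟩ := hHH 2 K hK
  obtain ⟨pL, -, vL, fL, iL, -⟩ := hHH 2 L hL
  have key := hZMZ 2 2 (fun u => hh K u ^ (1 - t) * hh L u ^ t) ![K, L] ![hh K, hh L] ![1 - t, t]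
    (by norm_num) hPH (hPLZ _ hSB)
    (by
      intro i
      fin_cases i
      · exact hK.comp
      · exact hL.comp)
    (by
      intro i
      fin_cases i
      · exact vK
      · exact vL)
    (by
      intro i
      fin_cases i
      · simpa using ht1.le
      · simpa using ht0.le)
    (by simp)
    (by
      intro i u hu
      fin_cases i
      · exact ⟨pK.pos u hu, fun x hx => iK x hx u⟩
      · exact ⟨pL.pos u hu, fun x hx => iL x hx u⟩)
    (by
      intro u _
      simp)
  simp only [Fin.prod_univ_two, Matrix.cons_val_zero, Matrix.cons_val_one] at key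
  have e1 : volume K = ENNReal.ofReal (volume.real K) := (ENNReal.ofReal_toReal fK.ne).symm
  have e2 : volume L = ENNReal.ofReal (volume.real L) := (ENNReal.ofReal_toReal fL.ne).symm
  calc volume K ^ (1 - t) * volume L ^ t
      = ENNReal.ofReal (volume.real K ^ (1 - t) * volume.real L ^ t) := by
        conv_lhs => rw [e1, e2]
        rw [ENNReal.ofReal_rpow_of_pos vK, ENNReal.ofReal_rpow_of_pos vL,
          ← ENNReal.ofReal_mul (Real.rpow_nonneg vK.le _)]
    _ ≤ ENNReal.ofReal (volume.real (Wu fun u => hh K u ^ (1 - t) * hh L u ^ t)) :=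
        ENNReal.ofReal_le_ofReal key
    _ ≤ volume (LC K L t) := ENNReal.ofReal_toReal_le

end H354ZN
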