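import Pool.Agent.H354R3.ZN.Defs5

/-!
LCE: the logarithmic combination of `e^a K` and `e^b K`.
-/

set_option autoImplicit false

open MeasureTheory Filter
open scoped Matrix Pointwise Topology ENNReal

namespace H354ZN

lemma LCE_SB {n : ℕ} {K : Set (EuclideanSpace ℝ (Fin n))} (hK : SB K) {c : ℝ} (hc : 0 < c) :
    SB (c • K) where
  conv := hK.conv.smul c
  comp := hK.comp.smul c
  zero := by
    rw [interior_smul₀ hc.ne']
    exact ⟨0, hK.zero, smul_zero c⟩
  symm := by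
    rintro x ⟨y, hy, rfl⟩
    exact ⟨-y, hK.symm y hy, smul_neg c y⟩

lemma LCE_flip {n : ℕ} (j : Fin n) (c : ℝ) (x : EuclideanSpace ℝ (Fin n)) :
    flipE j (c • x) = c • flipE j x := by
  unfold flipE
  ext i
  by_cases h : i = j
  · subst h
    simp
  · simp [h]

lemma LCE_hh {n : ℕ} (K : Set (EuclideanSpace ℝ (Fin n))) {c : ℝ} (hc : 0 < c)
    (u : EuclideanSpace ℝ (Fin n)) : hh (c • K) u = c * hh K u := by
  unfold hh
  have h1 : (fun y => inner ℝ y u) '' (c • K) = c • ((fun y => inner ℝ y u) '' K) := by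
    ext r
    constructor
    · rintro ⟨_, ⟨y, hy, rfl⟩, rfl⟩
      exact ⟨inner ℝ y u, ⟨y, hy, rfl⟩, by simp [real_inner_smul_left]⟩
    · rintro ⟨_, ⟨y, hy, rfl⟩, rfl⟩
      exact ⟨c • y, ⟨y, hy, rfl⟩, by simp [real_inner_smul_left]⟩
  rw [h1, Real.sSup_smul_of_nonneg hc.le, smul_eq_mul]

theorem t_LCE (hHH : S_HH) : S_LCE := by
  intro n K a b t hK _ _
  refine ⟨LCE_SB hK (Real.exp_pos a), ?_, ?_⟩
  · rintro hR j hj _ ⟨y, hy, rfl⟩
    exact ⟨flipE j y, hR j hj y hy, (LCE_flip j _ y).symm⟩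
  · obtain ⟨hPH, hWu, _⟩ := hHH n K hK
    ext x
    rw [Set.mem_smul_set_iff_inv_smul_mem₀ (Real.exp_pos _).ne']
    conv_rhs => rw [← hWu]
    unfold LC Wu
    show (∀ u : EuclideanSpace ℝ (Fin n), u ≠ 0 → inner ℝ x u ≤
        hh (Real.exp a • K) u ^ (1 - t) * hh (Real.exp b • K) u ^ t) ↔
      ∀ u : EuclideanSpace ℝ (Fin n), u ≠ 0 →
        inner ℝ ((Real.exp ((1 - t) * a + t * b))⁻¹ • x) u ≤ hh K u
    refine forall_congr' fun u => forall_congr' fun hu => ?_
    have h0 : 0 < hh K u := hPH.pos u hu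
    have ea := Real.exp_pos a
    have eb := Real.exp_pos b
    rw [LCE_hh K ea, LCE_hh K eb, Real.mul_rpow ea.le h0.le, Real.mul_rpow eb.le h0.le,
      ← Real.exp_mul, ← Real.exp_mul]
    have e1 : Real.exp (a * (1 - t)) * hh K u ^ (1 - t) * (Real.exp (b * t) * hh K u ^ t) =
        Real.exp ((1 - t) * a + t * b) * hh K u := by
      have e2 : hh K u ^ (1 - t) * hh K u ^ t = hh K u := by
        rw [← Real.rpow_add h0, sub_add_cancel, Real.rpow_one]
      have e3 : Real.exp (a * (1 - t)) * Real.exp (b * t) = Real.exp ((1 - t) * a + t * b) := by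
        rw [← Real.exp_add]
        ring_nf
      calc _ = (Real.exp (a * (1 - t)) * Real.exp (b * t)) * (hh K u ^ (1 - t) * hh K u ^ t) := by
            ring
        _ = _ := by rw [e2, e3]
    rw [e1, real_inner_smul_left, inv_mul_le_iff₀ (Real.exp_pos _)]

end H354ZN
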