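import Pool.Agent.H354R3.ZN.Defs5

/-!
# (LCI) monotonicity of the logarithmic combination
-/

set_option autoImplicit false

open MeasureTheory Filter
open scoped Matrix Pointwise Topology ENNReal

namespace H354ZN

theorem LCI_hh (hHH : S_HH) {n : ℕ} {K K' : Set (EuclideanSpace ℝ (Fin n))} (hK : SB K)
    (hK' : SB K') (h : K ⊆ K') (u : EuclideanSpace ℝ (Fin n)) :
    0 ≤ hh K u ∧ hh K u ≤ hh K' u := by
  have h0 : (0 : EuclideanSpace ℝ (Fin n)) ∈ K := interior_subset hK.zero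
  have h1 := (hHH n K hK).2.2.2.2.1 0 h0 u
  have h2 := (hHH n K' hK').2.2.2.2.1
  constructor
  · exact (abs_nonneg _).trans h1
  · unfold hh
    refine csSup_le_csSup ?_ ⟨_, Set.mem_image_of_mem _ h0⟩ (Set.image_mono h)
    refine ⟨hh K' u, ?_⟩
    rintro _ ⟨y, hy, rfl⟩
    exact (le_abs_self _).trans (h2 y hy u)

theorem t_LCI (hHH : S_HH) : S_LCI := by
  intro n K L K' L' t hK hL hK' hL' hKK hLL ht0 ht1 x hx u hu
  have h1 := LCI_hh hHH hK hK' hKK u
  have h2 := LCI_hh hHH hL hL' hLL u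
  refine (hx u hu).trans ?_
  exact mul_le_mul (Real.rpow_le_rpow h1.1 h1.2 (by linarith)) (Real.rpow_le_rpow h2.1 h2.2 ht0)
    (Real.rpow_nonneg h2.1 _) (Real.rpow_nonneg (h1.1.trans h1.2) _)

end H354ZN
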