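import Pool.Agent.H354R3.ZN.Defs5

/-! LCM (helper85): the logarithmic combination is contained in the Minkowski combination. -/

set_option autoImplicit false

open MeasureTheory Filter
open scoped Matrix Pointwise Topology ENNReal

namespace H354ZN

theorem t_LCM (hHH : S_HH) : S_LCM := by
  intro n K L t hK hL ht0 ht1 x hx
  by_contra hxM
  have hcont : Continuous fun p : EuclideanSpace ℝ (Fin n) × EuclideanSpace ℝ (Fin n) =>
      (1 - t) • p.1 + t • p.2 := by fun_prop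
  have hM : {x | ∃ a ∈ K, ∃ b ∈ L, x = (1 - t) • a + t • b} =
      (fun p : EuclideanSpace ℝ (Fin n) × EuclideanSpace ℝ (Fin n) =>
        (1 - t) • p.1 + t • p.2) '' (K ×ˢ L) := by
    ext y
    constructor
    · rintro ⟨a, ha, b, hb, rfl⟩
      exact ⟨(a, b), ⟨ha, hb⟩, rfl⟩
    · rintro ⟨⟨a, b⟩, ⟨ha, hb⟩, rfl⟩
      exact ⟨a, ha, b, hb, rfl⟩
  have hcomp : IsCompact {x | ∃ a ∈ K, ∃ b ∈ L, x = (1 - t) • a + t • b} := by
    rw [hM]
    exact (hK.comp.prod hL.comp).image hcont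
  have hconv : Convex ℝ {x | ∃ a ∈ K, ∃ b ∈ L, x = (1 - t) • a + t • b} := by
    rintro y ⟨a, ha, b, hb, rfl⟩ y' ⟨a', ha', b', hb', rfl⟩ p q hp hq hpq
    refine ⟨p • a + q • a', hK.conv ha ha' hp hq hpq, p • b + q • b',
      hL.conv hb hb' hp hq hpq, ?_⟩
    module
  obtain ⟨f, c, hf1, hf2⟩ := geometric_hahn_banach_closed_point hconv hcomp.isClosed hxM
  have h0K : (0 : EuclideanSpace ℝ (Fin n)) ∈ K := interior_subset hK.zero
  have h0L : (0 : EuclideanSpace ℝ (Fin n)) ∈ L := interior_subset hL.zero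
  have hc : 0 < c := by
    have := hf1 0 ⟨0, h0K, 0, h0L, by simp⟩
    rwa [map_zero] at this
  obtain ⟨u, hu⟩ : ∃ u : EuclideanSpace ℝ (Fin n), ∀ y, f y = inner ℝ y u := by
    refine ⟨(InnerProductSpace.toDual ℝ (EuclideanSpace ℝ (Fin n))).symm f, fun y => ?_⟩
    rw [real_inner_comm, InnerProductSpace.toDual_symm_apply]
  have hu0 : u ≠ 0 := by
    rintro rfl
    have := hu x
    rw [inner_zero_right] at this
    linarith
  have hci : ContinuousOn (fun y : EuclideanSpace ℝ (Fin n) => inner ℝ y u) K := by fun_prop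
  have hci' : ContinuousOn (fun y : EuclideanSpace ℝ (Fin n) => inner ℝ y u) L := by fun_prop
  obtain ⟨a0, ha0, ha⟩ := hK.comp.exists_sSup_image_eq ⟨0, h0K⟩ hci
  obtain ⟨b0, hb0, hb⟩ := hL.comp.exists_sSup_image_eq ⟨0, h0L⟩ hci'
  have hKu : hh K u = inner ℝ a0 u := ha
  have hLu : hh L u = inner ℝ b0 u := hb
  have h1 := hf1 _ ⟨a0, ha0, b0, hb0, rfl⟩
  rw [hu, inner_add_left, inner_smul_left, inner_smul_left] at h1
  simp only [conj_trivial] at h1
  rw [← hKu, ← hLu] at h1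
  have h2 : inner ℝ x u ≤ hh K u ^ (1 - t) * hh L u ^ t := hx u hu0
  have h3 := Real.geom_mean_le_arith_mean2_weighted (by linarith : 0 ≤ 1 - t) ht0.le
    ((hHH n K hK).1.pos u hu0).le ((hHH n L hL).1.pos u hu0).le (by ring)
  rw [hu] at hf2
  linarith

end H354ZN
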