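import Pool.Agent.H354R3.ZN.Defs4

/-! The logarithmic combination is a symmetric body, with the reflections (helper959). -/

set_option autoImplicit false

open MeasureTheory Filter
open scoped Matrix Pointwise Topology ENNReal

namespace H354ZN

namespace LCS

theorem flip_apply {n : ℕ} (j : Fin n) (x : EuclideanSpace ℝ (Fin n)) (i : Fin n) :
    flipE j x i = if i = j then - x j else x i := by
  unfold flipE
  show Function.update (WithLp.ofLp x) j (-(WithLp.ofLp x j)) i = _
  rw [Function.update_apply]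

theorem flip_flip {n : ℕ} (j : Fin n) (x : EuclideanSpace ℝ (Fin n)) :
    flipE j (flipE j x) = x := by
  ext i
  rw [flip_apply, flip_apply, flip_apply]
  by_cases h : i = j
  · subst h
    simp
  · simp [h]

theorem inner_flip {n : ℕ} (j : Fin n) (x y : EuclideanSpace ℝ (Fin n)) :
    (inner ℝ (flipE j x) y : ℝ) = inner ℝ x (flipE j y) := by
  rw [PiLp.inner_apply, PiLp.inner_apply]
  refine Finset.sum_congr rfl fun i _ => ?_
  rw [flip_apply, flip_apply]
  by_cases h : i = j
  · subst h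
    simp
  · simp [h]

theorem flip_ne {n : ℕ} (j : Fin n) {u : EuclideanSpace ℝ (Fin n)} (hu : u ≠ 0) :
    flipE j u ≠ 0 := by
  intro h
  apply hu
  rw [← flip_flip j u, h]
  ext i
  rw [flip_apply]
  simp

theorem hh_flip {n : ℕ} (K : Set (EuclideanSpace ℝ (Fin n))) (j : Fin n)
    (hK : ∀ x ∈ K, flipE j x ∈ K) (u : EuclideanSpace ℝ (Fin n)) :
    hh K (flipE j u) = hh K u := by
  unfold hh
  congr 1
  ext r
  constructor
  · rintro ⟨y, hy, rfl⟩
    exact ⟨flipE j y, hK y hy, inner_flip j y u⟩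
  · rintro ⟨y, hy, rfl⟩
    refine ⟨flipE j y, hK y hy, ?_⟩
    show (inner ℝ (flipE j y) (flipE j u) : ℝ) = inner ℝ y u
    rw [inner_flip, flip_flip]

theorem nonneg_of_PH {n : ℕ} {f : EuclideanSpace ℝ (Fin n) → ℝ} (hf : PH f)
    (u : EuclideanSpace ℝ (Fin n)) : 0 ≤ f u := by
  by_cases hu : u = 0
  · subst hu
    have := hf.hom 2 0 (by norm_num)
    rw [smul_zero, abs_two] at this
    linarith
  · exact (hf.pos u hu).le

end LCS

open LCS in
theorem t_LCS (hHH : S_HH) (hWSB : S_WSB) : S_LCS := by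
  intro n K L t hK hL ht0 ht1
  have pK : PH (hh K) := (hHH n K hK).1
  have pL : PH (hh L) := (hHH n L hL).1
  have hPH : PH (fun u : EuclideanSpace ℝ (Fin n) => hh K u ^ (1 - t) * hh L u ^ t) := by
    refine ⟨?_, ?_, ?_⟩
    · refine ContinuousOn.mul ?_ ?_
      · exact pK.cont.rpow_const fun x hx => Or.inl (pK.pos x hx).ne'
      · exact pL.cont.rpow_const fun x hx => Or.inl (pL.pos x hx).ne'
    · intro u hu
      exact mul_pos (Real.rpow_pos_of_pos (pK.pos u hu) _) (Real.rpow_pos_of_pos (pL.pos u hu) _)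
    · intro c u hc
      have hc0 : 0 < |c| := abs_pos.2 hc
      show hh K (c • u) ^ (1 - t) * hh L (c • u) ^ t = |c| * (hh K u ^ (1 - t) * hh L u ^ t)
      rw [pK.hom c u hc, pL.hom c u hc, Real.mul_rpow hc0.le (nonneg_of_PH pK u),
        Real.mul_rpow hc0.le (nonneg_of_PH pL u)]
      have h1 : |c| ^ (1 - t) * |c| ^ t = |c| := by
        rw [← Real.rpow_add hc0, sub_add_cancel, Real.rpow_one]
      calc |c| ^ (1 - t) * hh K u ^ (1 - t) * (|c| ^ t * hh L u ^ t)
          = (|c| ^ (1 - t) * |c| ^ t) * (hh K u ^ (1 - t) * hh L u ^ t) := by ring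
        _ = _ := by rw [h1]
  refine ⟨hPH, (hWSB n _ hPH).1, ?_⟩
  intro rK rL j hj x hx u hu
  have h1 := hx (flipE j u) (flip_ne j hu)
  simp only at h1
  rw [hh_flip K j (rK j hj) u, hh_flip L j (rL j hj) u] at h1
  rw [inner_flip]
  exact h1

end H354ZN
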