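import Pool.Agent.H354R3.ZN.Defs5

set_option autoImplicit false
set_option linter.unusedVariables false

open MeasureTheory Filter
open scoped Matrix Pointwise Topology ENNReal

namespace H354ZN

theorem LEV_conv {n : ℕ} (f : EuclideanSpace ℝ (Fin n) → ℝ) (hf0 : ∀ x, 0 ≤ f x)
    (hlc : ∀ (x y : EuclideanSpace ℝ (Fin n)) (s : ℝ), 0 < s → s < 1 →
      f x ^ (1 - s) * f y ^ s ≤ f ((1 - s) • x + s • y))
    (c : ℝ) (hc : 0 < c) : Convex ℝ {x | c ≤ f x} := by
  intro x hx y hy a b ha hb hab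
  have ha' : a = 1 - b := by linarith
  subst ha'
  rcases hb.eq_or_lt with h0 | hb0
  · rw [← h0]
    simpa using hx
  rcases ha.eq_or_lt with h1 | ha0
  · have : b = 1 := by linarith
    subst this
    simpa using hy
  have h := hlc x y b hb0 (by linarith)
  refine le_trans ?_ h
  have hx' : c ≤ f x := hx
  have hy' : c ≤ f y := hy
  calc c = c ^ (1 - b) * c ^ b := by
        rw [← Real.rpow_add hc]; simp
    _ ≤ f x ^ (1 - b) * f y ^ b :=
        mul_le_mul (Real.rpow_le_rpow hc.le hx' ha0.le) (Real.rpow_le_rpow hc.le hy' hb0.le)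
          (Real.rpow_nonneg hc.le _) (Real.rpow_nonneg (hf0 x) _)

/-- (LEV) with the real parameter `s` -/
def S_LEVr : Prop := ∀ (n : ℕ) (f : EuclideanSpace ℝ (Fin n) → ℝ)
  (K L : Set (EuclideanSpace ℝ (Fin n))) (t : ℝ), 2 ≤ n → LB2 n → Measurable f →
  (∀ x, 0 ≤ f x) →
  (∀ x, f (-x) = f x) → (∀ j : Fin n, 2 ≤ (j : ℕ) → ∀ x, f (flipE j x) = f x) →
  (∀ (x y : EuclideanSpace ℝ (Fin n)) (s : ℝ), 0 < s → s < 1 →
    f x ^ (1 - s) * f y ^ s ≤ f ((1 - s) • x + s • y)) →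
  SB K → SB L → Ref K → Ref L → 0 < t → t < 1 → ∀ r q : ℝ,
  volume (K ∩ {x | Real.exp (-r) ≤ f x}) ^ (1 - t) * volume (L ∩ {x | Real.exp (-q) ≤ f x}) ^ t ≤
    volume (LC K L t ∩ {x | Real.exp (-((1 - t) * r + t * q)) ≤ f x})

theorem t_LEV (hHH : S_HH) (hLCS : S_LCS) (hCLB : S_CLB) (hLCM : S_LCM) (hLCI : S_LCI) :
    S_LEVr := by
  intro n f K L t hn hLB hfm hf0 hfe hff hlc hK hL hKR hLR ht0 ht1 r q
  have hcr : (0 : ℝ) < Real.exp (-r) := Real.exp_pos _
  have hcq : (0 : ℝ) < Real.exp (-q) := Real.exp_pos _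
  obtain ⟨A, hA⟩ : ∃ A, A = K ∩ {x | Real.exp (-r) ≤ f x} := ⟨_, rfl⟩
  obtain ⟨B, hB⟩ : ∃ B, B = L ∩ {x | Real.exp (-q) ≤ f x} := ⟨_, rfl⟩
  obtain ⟨F, hF⟩ : ∃ F, F = {x | Real.exp (-((1 - t) * r + t * q)) ≤ f x} := ⟨_, rfl⟩
  rw [← hA, ← hB, ← hF]
  rcases eq_or_ne (volume A) 0 with hA0 | hA0
  · rw [hA0, ENNReal.zero_rpow_of_pos (by linarith), zero_mul]
    exact bot_le
  rcases eq_or_ne (volume B) 0 with hB0 | hB0
  · rw [hB0, ENNReal.zero_rpow_of_pos ht0, mul_zero]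
    exact bot_le
  have key : ∀ (M : Set (EuclideanSpace ℝ (Fin n))) (c : ℝ), 0 < c → SB M → Ref M →
      volume (M ∩ {x | c ≤ f x}) ≠ 0 →
      SB (closure (M ∩ {x | c ≤ f x})) ∧
      volume (closure (M ∩ {x | c ≤ f x})) = volume (M ∩ {x | c ≤ f x}) ∧
      Ref (closure (M ∩ {x | c ≤ f x})) ∧ closure (M ∩ {x | c ≤ f x}) ⊆ M := by
    intro M c hc hM hMR hne
    obtain ⟨h1, h2, h3⟩ := hCLB n (M ∩ {x | c ≤ f x}) (hM.conv.inter (LEV_conv f hf0 hlc c hc))
      (hM.comp.isBounded.subset Set.inter_subset_left)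
      (fun x hx => ⟨hM.symm x hx.1, by
        have h : c ≤ f x := hx.2
        show c ≤ f (-x)
        rw [hfe]; exact h⟩) (pos_iff_ne_zero.2 hne)
    refine ⟨h1, h2, h3 fun j hj x hx => ⟨hMR j hj x hx.1, by
        have h : c ≤ f x := hx.2
        show c ≤ f (flipE j x)
        rw [hff j hj]; exact h⟩, ?_⟩
    exact closure_minimal Set.inter_subset_left hM.comp.isClosed
  obtain ⟨a1, a2, a3, a4⟩ := key K _ hcr hK hKR (by rw [← hA]; exact hA0)
  obtain ⟨b1, b2, b3, b4⟩ := key L _ hcq hL hLR (by rw [← hB]; exact hB0)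
  rw [← hA] at a1 a2 a3 a4
  rw [← hB] at b1 b2 b3 b4
  have h1 := hLB (closure A) (closure B) t a1 b1 a3 b3 ht0 ht1
  rw [a2, b2] at h1
  refine h1.trans ?_
  have s1 : LC (closure A) (closure B) t ⊆ LC K L t :=
    hLCI n (closure A) (closure B) K L t a1 b1 hK hL a4 b4 ht0.le ht1.le
  have s2 : LC (closure A) (closure B) t ⊆ closure F := by
    intro x hx
    obtain ⟨a, ha, b, hb, rfl⟩ := hLCM n (closure A) (closure B) t a1 b1 ht0 ht1 hx
    apply map_mem_closure₂ (f := fun a b : EuclideanSpace ℝ (Fin n) => (1 - t) • a + t • b)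
      (by fun_prop) ha hb
    intro a ha b hb
    rw [hA] at ha
    rw [hB] at hb
    rw [hF]
    have ha2 : Real.exp (-r) ≤ f a := ha.2
    have hb2 : Real.exp (-q) ≤ f b := hb.2
    refine le_trans ?_ (hlc a b t ht0 ht1)
    calc Real.exp (-((1 - t) * r + t * q)) = Real.exp (-r) ^ (1 - t) * Real.exp (-q) ^ t := by
          rw [← Real.exp_mul, ← Real.exp_mul, ← Real.exp_add]
          congr 1
          ring
      _ ≤ f a ^ (1 - t) * f b ^ t :=
          mul_le_mul (Real.rpow_le_rpow hcr.le ha2 (by linarith))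
            (Real.rpow_le_rpow hcq.le hb2 ht0.le) (Real.rpow_nonneg hcq.le _)
            (Real.rpow_nonneg (hf0 a) _)
  have hFc : Convex ℝ F := by
    rw [hF]
    exact LEV_conv f hf0 hlc _ (Real.exp_pos _)
  have hfr : volume (closure F \ F) = 0 := by
    have h2 := hFc.addHaar_frontier (volume : Measure (EuclideanSpace ℝ (Fin n)))
    refine measure_mono_null ?_ h2
    intro x hx
    exact ⟨hx.1, fun h => hx.2 (interior_subset h)⟩
  calc volume (LC (closure A) (closure B) t) ≤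
        volume ((LC K L t ∩ F) ∪ (closure F \ F)) := by
        apply measure_mono
        intro x hx
        by_cases hxF : x ∈ F
        · exact Or.inl ⟨s1 hx, hxF⟩
        · exact Or.inr ⟨s2 hx, hxF⟩
    _ ≤ volume (LC K L t ∩ F) + volume (closure F \ F) := measure_union_le _ _
    _ = volume (LC K L t ∩ F) := by rw [hfr, add_zero]

end H354ZN
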