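import Pool.Agent.H354R3.ZN.Defs4

set_option autoImplicit false

open MeasureTheory Filter
open scoped Matrix Pointwise Topology

namespace H354ZN

theorem LMR_zh (hHH : S_HH) {n : ℕ} {K L : Set (EuclideanSpace ℝ (Fin n))} (hK : SB K)
    (hL : SB L) : ZH fun u => -Real.log (hh L u / hh K u) := by
  obtain ⟨pK, -⟩ := hHH n K hK
  obtain ⟨pL, -⟩ := hHH n L hL
  refine ⟨?_, ?_⟩
  · refine (ContinuousOn.log (ContinuousOn.div pL.cont pK.cont
      fun u hu => (pK.pos u hu).ne') ?_).neg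
    intro u hu
    exact (div_pos (pL.pos u hu) (pK.pos u hu)).ne'
  · intro c u hc
    show -Real.log (hh L (c • u) / hh K (c • u)) = -Real.log (hh L u / hh K u)
    rw [pL.hom c u hc, pK.hom c u hc, mul_div_mul_left _ _ (abs_ne_zero.2 hc)]

theorem LMR_bd {n : ℕ} {K : Set (EuclideanSpace ℝ (Fin n))} (hc : IsCompact K)
    (hne : K.Nonempty) : ∃ R : ℝ, 0 < R ∧ ∀ u, hh K u ≤ R * ‖u‖ := by
  obtain ⟨R, hR⟩ := hc.isBounded.exists_norm_le
  refine ⟨max R 1, lt_of_lt_of_le one_pos (le_max_right _ _), fun u => ?_⟩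
  apply csSup_le (hne.image _)
  rintro _ ⟨y, hy, rfl⟩
  calc inner ℝ y u ≤ ‖y‖ * ‖u‖ := real_inner_le_norm y u
    _ ≤ max R 1 * ‖u‖ :=
        mul_le_mul_of_nonneg_right ((hR y hy).trans (le_max_left _ _)) (norm_nonneg u)

theorem LMR_eq (hHH : S_HH) {n : ℕ} {K L : Set (EuclideanSpace ℝ (Fin n))} (hK : SB K)
    (hL : SB L) (t : ℝ) : Kt K (fun u => -Real.log (hh L u / hh K u)) t = LC K L t := by
  obtain ⟨pK, -⟩ := hHH n K hK
  obtain ⟨pL, -⟩ := hHH n L hL
  have key : ∀ u : EuclideanSpace ℝ (Fin n), u ≠ 0 →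
      hh K u * Real.exp (-(t * -Real.log (hh L u / hh K u))) = hh K u ^ (1 - t) * hh L u ^ t := by
    intro u hu
    have h1 := pK.pos u hu
    have h2 := pL.pos u hu
    rw [Real.rpow_sub h1, Real.rpow_one, mul_neg, neg_neg, mul_comm t, ← Real.rpow_def_of_pos
      (div_pos h2 h1), Real.div_rpow h2.le h1.le]
    ring
  ext x
  constructor
  · intro hx u hu
    exact (hx u hu).trans (key u hu).le
  · intro hx u hu
    exact (hx u hu).trans (key u hu).ge

theorem LMR_fin (hHH : S_HH) {n : ℕ} {K L : Set (EuclideanSpace ℝ (Fin n))} (hK : SB K)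
    (hL : SB L) (t : ℝ) (ht : 0 < t) (ht1 : t < 1) : volume (LC K L t) < ⊤ := by
  obtain ⟨pK, -, vK, -⟩ := hHH n K hK
  obtain ⟨pL, -, vL, -⟩ := hHH n L hL
  have neK : K.Nonempty := by
    by_contra h
    rw [Set.not_nonempty_iff_eq_empty] at h
    rw [h] at vK
    simp at vK
  have neL : L.Nonempty := by
    by_contra h
    rw [Set.not_nonempty_iff_eq_empty] at h
    rw [h] at vL
    simp at vL
  obtain ⟨R, hR, bK⟩ := LMR_bd hK.comp neK
  obtain ⟨S, hS, bL⟩ := LMR_bd hL.comp neL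
  have hsub : LC K L t ⊆ Metric.closedBall 0 (R ^ (1 - t) * S ^ t) := by
    intro x hx
    rw [Metric.mem_closedBall, dist_zero_right]
    by_cases hx0 : x = 0
    · rw [hx0, norm_zero]
      positivity
    · have h1 := hx x hx0
      rw [real_inner_self_eq_norm_sq] at h1
      have hxp : 0 < ‖x‖ := norm_pos_iff.2 hx0
      have h2 : hh K x ^ (1 - t) ≤ (R * ‖x‖) ^ (1 - t) :=
        Real.rpow_le_rpow (pK.pos x hx0).le (bK x) (by linarith)
      have h3 : hh L x ^ t ≤ (S * ‖x‖) ^ t :=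
        Real.rpow_le_rpow (pL.pos x hx0).le (bL x) ht.le
      have h4 : hh K x ^ (1 - t) * hh L x ^ t ≤ (R * ‖x‖) ^ (1 - t) * (S * ‖x‖) ^ t :=
        mul_le_mul h2 h3 (Real.rpow_nonneg (pL.pos x hx0).le _) (by positivity)
      rw [Real.mul_rpow hR.le hxp.le, Real.mul_rpow hS.le hxp.le] at h4
      have h5 : R ^ (1 - t) * ‖x‖ ^ (1 - t) * (S ^ t * ‖x‖ ^ t) = (R ^ (1 - t) * S ^ t) * ‖x‖ := by
        have : ‖x‖ ^ (1 - t) * ‖x‖ ^ t = ‖x‖ := by
          rw [← Real.rpow_add hxp, sub_add_cancel, Real.rpow_one]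
        calc R ^ (1 - t) * ‖x‖ ^ (1 - t) * (S ^ t * ‖x‖ ^ t) =
            (R ^ (1 - t) * S ^ t) * (‖x‖ ^ (1 - t) * ‖x‖ ^ t) := by ring
          _ = _ := by rw [this]
      rw [h5] at h4
      have h6 : ‖x‖ * ‖x‖ ≤ (R ^ (1 - t) * S ^ t) * ‖x‖ := by
        have : ‖x‖ * ‖x‖ = ‖x‖ ^ 2 := by ring
        rw [this]
        exact h1.trans h4
      exact le_of_mul_le_mul_right h6 hxp
  exact (measure_mono hsub).trans_lt measure_closedBall_lt_top

theorem t_LMR (hHH : S_HH) (hALEX : S_ALEX) (hGRAD : S_GRAD) (hLB : S_LB) : S_LMR := by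
  intro n K L hn2 hK hL hRK hRL
  have hn : 1 ≤ n := by omega
  have hg := LMR_zh hHH hK hL
  set g : EuclideanSpace ℝ (Fin n) → ℝ := fun u => -Real.log (hh L u / hh K u) with hgdef
  obtain ⟨pK, -, vK, fK, -⟩ := hHH n K hK
  obtain ⟨pL, -, vL, fL, -⟩ := hHH n L hL
  have hlim := hALEX n K g hn hK hg
  have hle : n * ∫ x in K, g (gg K x) ≤
      -(volume.real K * Real.log (volume.real L / volume.real K)) := by
    refine le_of_tendsto hlim ?_
    filter_upwards [Ioo_mem_nhdsGT (zero_lt_one : (0 : ℝ) < 1)] with t ht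
    obtain ⟨ht0, ht1⟩ := ht
    have hfin := LMR_fin hHH hK hL t ht0 ht1
    have h1 := hLB n hn2 K L t hK hL hRK hRL ht0 ht1
    have h2 : volume.real K ^ (1 - t) * volume.real L ^ t ≤ volume.real (LC K L t) := by
      have h3 := ENNReal.toReal_mono hfin.ne h1
      rw [ENNReal.toReal_mul, ← ENNReal.toReal_rpow, ← ENNReal.toReal_rpow] at h3
      exact h3
    have e1 : Kt K g t = LC K L t := LMR_eq hHH hK hL t
    rw [e1]
    have h4 : volume.real K * (1 + t * Real.log (volume.real L / volume.real K)) ≤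
        volume.real K ^ (1 - t) * volume.real L ^ t := by
      have h5 : volume.real K ^ (1 - t) * volume.real L ^ t =
          volume.real K * Real.exp (t * Real.log (volume.real L / volume.real K)) := by
        rw [Real.rpow_sub vK, Real.rpow_one, mul_comm t, ← Real.rpow_def_of_pos (div_pos vL vK),
          Real.div_rpow vL.le vK.le]
        ring
      rw [h5]
      apply mul_le_mul_of_nonneg_left _ vK.le
      have := Real.add_one_le_exp (t * Real.log (volume.real L / volume.real K))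
      linarith
    rw [div_le_iff₀ ht0]
    nlinarith
  have hint : ∫ x in K, g (gg K x) = -∫ x in K, Real.log (hh L (gg K x)) := by
    rw [← integral_neg]
    refine integral_congr_ae (ae_restrict_of_ae ?_)
    filter_upwards [hGRAD n K hn hK] with x hx
    obtain ⟨-, -, -, -, h1, -⟩ := hx
    show -Real.log (hh L (gg K x) / hh K (gg K x)) = _
    rw [h1, div_one]
  rw [hint] at hle
  have hn0 : (0 : ℝ) < n := by exact_mod_cast hn
  rw [div_mul_eq_mul_div, div_le_iff₀ hn0]
  linarith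

end H354ZN
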