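import Pool.Agent.H354R3.ZN.Defs4
import Pool.Agent.H354R3.ZN.LPZ

/-!
# LPR: the `L_p`-Brunn-Minkowski inequality with equality case for bodies with `n - 2` reflections
-/

set_option autoImplicit false

open MeasureTheory Filter
open scoped Matrix Pointwise Topology

namespace H354ZN

namespace LPZ

variable {n : ℕ}

theorem LPR_flip_flip (j : Fin n) (x : EuclideanSpace ℝ (Fin n)) : flipE j (flipE j x) = x := by
  ext i
  simp only [flipE, Function.update_self, Function.update_idem, neg_neg]
  by_cases h : i = j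
  · subst h; simp
  · simp [Function.update_of_ne h]

theorem LPR_inner (j : Fin n) (x u : EuclideanSpace ℝ (Fin n)) :
    (inner ℝ (flipE j x) u : ℝ) = inner ℝ x (flipE j u) := by
  simp only [PiLp.inner_apply, flipE, RCLike.inner_apply, conj_trivial]
  refine Finset.sum_congr rfl fun i _ => ?_
  by_cases h : i = j
  · subst h; simp
  · simp [Function.update_of_ne h]

theorem LPR_hh {K : Set (EuclideanSpace ℝ (Fin n))} {j : Fin n} (hj : ∀ x ∈ K, flipE j x ∈ K)
    (u : EuclideanSpace ℝ (Fin n)) : hh K (flipE j u) = hh K u := by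
  unfold hh
  congr 1
  ext r
  constructor
  · rintro ⟨y, hy, rfl⟩
    exact ⟨flipE j y, hj y hy, LPR_inner j y u⟩
  · rintro ⟨y, hy, rfl⟩
    refine ⟨flipE j y, hj y hy, ?_⟩
    show (inner ℝ (flipE j y) (flipE j u) : ℝ) = inner ℝ y u
    rw [LPR_inner, LPR_flip_flip]

theorem LPR_Ref {p α β : ℝ} (hp : 0 < p) {K C : Set (EuclideanSpace ℝ (Fin n))} (hRK : Ref K)
    (hRC : Ref C) : Ref (Wu (cmb p α β (hh K) (hh C))) := by
  intro j hj x hx u hu
  have hu' : flipE j u ≠ 0 := by
    intro h
    apply hu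
    have h1 := LPR_flip_flip j u
    rw [h] at h1
    rw [← h1]
    ext i
    simp only [flipE]
    by_cases h2 : i = j
    · subst h2; simp
    · simp [Function.update_of_ne h2]
  have h1 := hx (flipE j u) hu'
  rw [LPR_inner]
  refine h1.trans (le_of_eq ?_)
  unfold cmb
  rw [LPR_hh (hRK j hj), LPR_hh (hRC j hj)]

end LPZ

open LPZ in
theorem t_LPR (hHH : S_HH) (hWSB : S_WSB) (hLMR : S_LMR) (hACTZ : S_ACTZ) (hGRAD : S_GRAD)
    (hGRH : S_GRH) (hDENSE : S_DENSE) (hSAMEV : S_SAMEV) : S_LPR := by
  intro n K C p α β hn2 hK hC hRK hRC hp hp1 hα hβ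
  have hn : 1 ≤ n := by omega
  have hnR : (0 : ℝ) < n := by exact_mod_cast hn
  obtain ⟨hKP, hKW, hKpos, -, -, -, -, -, -, -⟩ := hHH n K hK
  obtain ⟨hCP, hCW, hCpos, -, -, -, -, -, -, -⟩ := hHH n C hC
  have hF : PH (cmb p α β (hh K) (hh C)) := PH_cmb hp hα hβ hKP hCP
  have hset := set_eq hF
  have hset' : {x : EuclideanSpace ℝ (Fin n) | ∀ u : EuclideanSpace ℝ (Fin n), ‖u‖ = 1 →
    inner ℝ x u ≤ (α * hh K u ^ p + β * hh C u ^ p) ^ (1 / p)} = Wu (cmb p α β (hh K) (hh C)) :=
    hset
  rw [hset']
  set f := cmb p α β (hh K) (hh C) with hf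
  set M := Wu f with hMdef
  have hM : SB M := (hWSB n f hF).1
  have hRM : Ref M := LPR_Ref hp hRK hRC
  obtain ⟨-, -, hMpos, hMfin, -, -, -, -, -, -⟩ := hHH n M hM
  have hact := hACTZ n f hn hF
  have hgrad := hGRAD n M hn hM
  obtain ⟨hmeas, -, -⟩ := hGRH n M hM
  have hae : ∀ᵐ x : EuclideanSpace ℝ (Fin n), gg M x ≠ 0 ∧ f (gg M x) = 1 := by
    filter_upwards [hact, hgrad] with x h1 h2
    exact ⟨h2.2.2.1, h1⟩
  have hintK : IntegrableOn (fun x => Real.log (hh K (gg M x))) M :=
    integrable hn hF hKP hmeas hae hMfin.ne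
  have hintC : IntegrableOn (fun x => Real.log (hh C (gg M x))) M :=
    integrable hn hF hCP hmeas hae hMfin.ne
  have hLK := hLMR n M K hn2 hM hK hRM hRK
  have hLC := hLMR n M C hn2 hM hC hRM hRC
  change α * volume.real K ^ (p / n) + β * volume.real C ^ (p / n) ≤ volume.real M ^ (p / n) ∧
    (volume.real M ^ (p / n) = α * volume.real K ^ (p / n) + β * volume.real C ^ (p / n) ↔ _)
  obtain ⟨k, hk⟩ : ∃ k, k = volume.real K := ⟨_, rfl⟩
  obtain ⟨c, hc⟩ : ∃ c, c = volume.real C := ⟨_, rfl⟩
  obtain ⟨V, hV⟩ : ∃ V, V = volume.real M := ⟨_, rfl⟩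
  rw [← hk, ← hV] at hLK
  rw [← hc, ← hV] at hLC
  rw [← hk] at hKpos
  rw [← hc] at hCpos
  rw [← hV] at hMpos
  rw [← hk, ← hc, ← hV]
  obtain ⟨a, ha⟩ : ∃ a, a = α * k ^ (p / n) := ⟨_, rfl⟩
  obtain ⟨b, hb⟩ : ∃ b, b = β * c ^ (p / n) := ⟨_, rfl⟩
  have ha0 : 0 < a := by rw [ha]; positivity
  have hb0 : 0 < b := by rw [hb]; positivity
  obtain ⟨la, hla⟩ : ∃ la, la = a / (a + b) := ⟨_, rfl⟩
  obtain ⟨lb, hlb⟩ : ∃ lb, lb = b / (a + b) := ⟨_, rfl⟩
  have hla0 : 0 < la := by rw [hla]; positivity
  have hlb0 : 0 < lb := by rw [hlb]; positivity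
  have hl1 : la + lb = 1 := by rw [hla, hlb]; field_simp
  have hloga : Real.log a = Real.log α + p / n * Real.log k := by
    rw [ha, Real.log_mul hα.ne' (by positivity), Real.log_rpow hKpos]
  have hlogb : Real.log b = Real.log β + p / n * Real.log c := by
    rw [hb, Real.log_mul hβ.ne' (by positivity), Real.log_rpow hCpos]
  have hlogla : Real.log la = Real.log a - Real.log (a + b) := by
    rw [hla, Real.log_div ha0.ne' (by positivity)]
  have hloglb : Real.log lb = Real.log b - Real.log (a + b) := by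
    rw [hlb, Real.log_div hb0.ne' (by positivity)]
  -- the pointwise inequality
  have hpt : ∀ᵐ x : EuclideanSpace ℝ (Fin n),
      (la * (Real.log α - Real.log la) + lb * (Real.log β - Real.log lb) +
        p * la * Real.log (hh K (gg M x)) + p * lb * Real.log (hh C (gg M x)) ≤ 0) ∧
      (la * (Real.log α - Real.log la) + lb * (Real.log β - Real.log lb) +
        p * la * Real.log (hh K (gg M x)) + p * lb * Real.log (hh C (gg M x)) = 0 →
        α * hh K (gg M x) ^ p = la ∧ β * hh C (gg M x) ^ p = lb) := by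
    filter_upwards [hae] with x hx
    have h1 := hKP.pos _ hx.1
    have h2 := hCP.pos _ hx.1
    refine pt hα hβ hla0 hlb0 hl1 h1 h2 ?_
    have h3 : (α * hh K (gg M x) ^ p + β * hh C (gg M x) ^ p) ^ (1 / p) = 1 := hx.2
    have h4 : 0 < α * hh K (gg M x) ^ p + β * hh C (gg M x) ^ p := by positivity
    have h5 : ((α * hh K (gg M x) ^ p + β * hh C (gg M x) ^ p) ^ (1 / p)) ^ p = (1 : ℝ) ^ p := by
      rw [h3]
    rwa [← Real.rpow_mul h4.le, one_div_mul_cancel hp.ne', Real.rpow_one, Real.one_rpow] at h5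
  have hconst : IntegrableOn (fun _ : EuclideanSpace ℝ (Fin n) =>
      la * (Real.log α - Real.log la) + lb * (Real.log β - Real.log lb)) M :=
    integrableOn_const hMfin.ne
  have hI1 : IntegrableOn (fun x => la * (Real.log α - Real.log la) +
      lb * (Real.log β - Real.log lb) + p * la * Real.log (hh K (gg M x))) M :=
    hconst.add (hintK.const_mul (p * la))
  have hI2 : IntegrableOn (fun x => la * (Real.log α - Real.log la) +
      lb * (Real.log β - Real.log lb) + p * la * Real.log (hh K (gg M x)) +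
      p * lb * Real.log (hh C (gg M x))) M :=
    hI1.add (hintC.const_mul (p * lb))
  have hval : ∫ x in M, (la * (Real.log α - Real.log la) + lb * (Real.log β - Real.log lb) +
        p * la * Real.log (hh K (gg M x)) + p * lb * Real.log (hh C (gg M x))) =
      V * (la * (Real.log α - Real.log la) + lb * (Real.log β - Real.log lb)) +
        p * la * (∫ x in M, Real.log (hh K (gg M x))) +
        p * lb * (∫ x in M, Real.log (hh C (gg M x))) := by
    rw [integral_add hI1 (hintC.const_mul (p * lb)), integral_add hconst (hintK.const_mul (p * la)),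
      integral_const_mul, integral_const_mul, setIntegral_const, smul_eq_mul, ← hV]
  have hup : ∫ x in M, (la * (Real.log α - Real.log la) + lb * (Real.log β - Real.log lb) +
        p * la * Real.log (hh K (gg M x)) + p * lb * Real.log (hh C (gg M x))) ≤ 0 :=
    integral_nonpos_of_ae (ae_restrict_of_ae (hpt.mono fun x hx => hx.1))
  have hlow : V * (Real.log (a + b) - p / n * Real.log V) ≤
      ∫ x in M, (la * (Real.log α - Real.log la) + lb * (Real.log β - Real.log lb) +
        p * la * Real.log (hh K (gg M x)) + p * lb * Real.log (hh C (gg M x))) := by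
    rw [hval]
    have h1 := mul_le_mul_of_nonneg_left hLK (by positivity : 0 ≤ p * la)
    have h2 := mul_le_mul_of_nonneg_left hLC (by positivity : 0 ≤ p * lb)
    rw [Real.log_div hKpos.ne' hMpos.ne'] at h1
    rw [Real.log_div hCpos.ne' hMpos.ne'] at h2
    have h3 : V * (Real.log (a + b) - p / n * Real.log V) =
        V * (la * (Real.log α - Real.log la) + lb * (Real.log β - Real.log lb)) +
        p * la * (V / n * (Real.log k - Real.log V)) +
        p * lb * (V / n * (Real.log c - Real.log V)) := by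
      rw [hlogla, hloglb, hloga, hlogb]
      have h4 : lb = 1 - la := by linarith
      rw [h4]
      field_simp
      ring
    rw [h3]
    linarith
  have hVpn : Real.log (V ^ (p / n)) = p / n * Real.log V := Real.log_rpow hMpos _
  refine ⟨?_, ?_, ?_⟩
  · rw [← ha, ← hb]
    have h1 : V * (Real.log (a + b) - p / n * Real.log V) ≤ 0 := hlow.trans hup
    have h2 : Real.log (a + b) ≤ Real.log (V ^ (p / n)) := by
      rw [hVpn]
      by_contra h3
      push Not at h3
      have := mul_pos hMpos (sub_pos.2 h3)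
      linarith
    exact (Real.log_le_log_iff (by positivity) (by positivity)).1 h2
  · intro heq
    rw [← ha, ← hb] at heq
    have h0 : ∫ x in M, (la * (Real.log α - Real.log la) + lb * (Real.log β - Real.log lb) +
        p * la * Real.log (hh K (gg M x)) + p * lb * Real.log (hh C (gg M x))) = 0 := by
      apply le_antisymm hup
      have h1 : Real.log (a + b) - p / n * Real.log V = 0 := by rw [← heq, hVpn, sub_self]
      rw [h1, mul_zero] at hlow
      exact hlow
    have h1 : ∀ᵐ x ∂(volume.restrict M), (la * (Real.log α - Real.log la) +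
        lb * (Real.log β - Real.log lb) +
        p * la * Real.log (hh K (gg M x)) + p * lb * Real.log (hh C (gg M x))) = 0 := by
      have h2 : 0 ≤ᵐ[volume.restrict M] fun x => -(la * (Real.log α - Real.log la) +
        lb * (Real.log β - Real.log lb) +
        p * la * Real.log (hh K (gg M x)) + p * lb * Real.log (hh C (gg M x))) :=
        ae_restrict_of_ae (hpt.mono fun x hx => neg_nonneg.2 hx.1)
      have h3 := (integral_eq_zero_iff_of_nonneg_ae h2 hI2.neg).1 (by
        rw [integral_neg, h0, neg_zero])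
      exact h3.mono fun x hx => neg_eq_zero.1 hx
    rw [ae_restrict_iff' hM.comp.measurableSet] at h1
    -- constants
    have key : ∀ (γ l e : ℝ) (L : Set (EuclideanSpace ℝ (Fin n))), 0 < γ → 0 < l → 0 < e → SB L →
        volume.real L = e → l = γ * e ^ (p / n) / (a + b) → PH (hh L) →
        (∀ᵐ x : EuclideanSpace ℝ (Fin n), x ∈ M → γ * hh L (gg M x) ^ p = l) →
        0 < (l / γ) ^ (1 / p) ∧ L = (l / γ) ^ (1 / p) • M := by
      intro γ l e L hγ hl he hL hLe hle hLP hL1
      have hpos : 0 < (l / γ) ^ (1 / p) := by positivity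
      have hsub : L ⊆ (l / γ) ^ (1 / p) • M := by
        refine hDENSE n M L _ hn hM hL hpos ?_
        filter_upwards [hL1, hae] with x hx hx' hxM
        have h5 := hLP.pos _ hx'.1
        have h6 : l / γ = hh L (gg M x) ^ p := by rw [← hx hxM]; field_simp
        rw [h6, ← Real.rpow_mul h5.le, mul_one_div_cancel hp.ne', Real.rpow_one]
      refine ⟨hpos, hSAMEV n L _ hL (SB_smul hpos hM) hsub ?_⟩
      rw [vol_smul hpos, hLe, ← hV]
      have h7 : l / γ = (e / V) ^ (p / n) := by
        rw [hle, ← heq, Real.div_rpow he.le hMpos.le]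
        field_simp
      have h8 : ((l / γ) ^ (1 / p)) ^ n = e / V := by
        rw [h7, ← Real.rpow_natCast, ← Real.rpow_mul (by positivity),
          ← Real.rpow_mul (by positivity)]
        have h9 : p / n * (1 / p * n) = 1 := by field_simp
        rw [h9, Real.rpow_one]
      rw [h8]
      apply le_of_eq
      field_simp
    obtain ⟨hcK, hKeq⟩ := key α la k K hα hla0 hKpos hK hk.symm (by rw [hla, ha]) hKP (by
      filter_upwards [h1, hpt] with x hx hx' hxM
      exact (hx'.2 (hx hxM)).1)
    obtain ⟨hcC, hCeq⟩ := key β lb c C hβ hlb0 hCpos hC hc.symm (by rw [hlb, hb]) hCP (by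
      filter_upwards [h1, hpt] with x hx hx' hxM
      exact (hx'.2 (hx hxM)).2)
    refine ⟨(lb / β) ^ (1 / p) / (la / α) ^ (1 / p), by positivity, ?_⟩
    have h5 : (fun x : EuclideanSpace ℝ (Fin n) =>
        ((lb / β) ^ (1 / p) / (la / α) ^ (1 / p)) • x) '' K =
        ((lb / β) ^ (1 / p) / (la / α) ^ (1 / p)) • K := Set.image_smul
    rw [h5]
    conv_rhs => rw [hKeq]
    rw [smul_smul, div_mul_cancel₀ _ hcK.ne']
    exact hCeq
  · rintro ⟨t, ht, hCt⟩
    have hs0 : 0 < (α + β * t ^ p) ^ (1 / p) := by positivity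
    have hfs : ∀ u, f u = (α + β * t ^ p) ^ (1 / p) * hh K u := by
      intro u
      have h1 : hh C u = t * hh K u := by rw [hCt, hh_smul ht]
      have h2 := nonneg_of_PH hKP u
      show (α * hh K u ^ p + β * hh C u ^ p) ^ (1 / p) = _
      rw [h1, Real.mul_rpow ht.le h2]
      have h3 : α * hh K u ^ p + β * (t ^ p * hh K u ^ p) = (α + β * t ^ p) * hh K u ^ p := by ring
      rw [h3, Real.mul_rpow (by positivity) (by positivity), ← Real.rpow_mul h2,
        mul_one_div_cancel hp.ne', Real.rpow_one]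
    have hMK : M = (α + β * t ^ p) ^ (1 / p) • K := by
      ext x
      rw [Set.mem_smul_set_iff_inv_smul_mem₀ hs0.ne', ← hKW]
      constructor
      · intro hx u hu
        have h1 := hx u hu
        rw [hfs] at h1
        rw [real_inner_smul_left, inv_mul_le_iff₀ hs0]
        exact h1
      · intro hx u hu
        have h1 := hx u hu
        rw [real_inner_smul_left, inv_mul_le_iff₀ hs0] at h1
        rw [hfs]
        exact h1
    have hVs : V = ((α + β * t ^ p) ^ (1 / p)) ^ n * k := by
      rw [hV, hMK, vol_smul hs0, hk]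
    have hct : c = t ^ n * k := by
      have h1 : (fun x : EuclideanSpace ℝ (Fin n) => t • x) '' K = t • K := Set.image_smul
      rw [hc, hCt, h1, vol_smul ht, hk]
    have hpow : ∀ s : ℝ, 0 < s → (s ^ n * k) ^ (p / n) = s ^ p * k ^ (p / n) := by
      intro s hs
      rw [Real.mul_rpow (by positivity) hKpos.le, ← Real.rpow_natCast, ← Real.rpow_mul hs.le]
      have : (n : ℝ) * (p / n) = p := by field_simp
      rw [this]
    rw [hVs, hct, hpow _ hs0, hpow _ ht, ← Real.rpow_mul (by positivity),
      one_div_mul_cancel hp.ne', Real.rpow_one]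
    ring

end H354ZN
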