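import Pool.Agent.H354R3.ZN.Defs5
import Pool.Agent.H212R2.KLS.T1

/-!
# The log-Brunn-Minkowski inequality for even log-concave densities
-/

set_option autoImplicit false

open MeasureTheory Filter
open scoped Matrix Pointwise Topology ENNReal

namespace H354ZN

lemma mes_exp (t r q : ℝ) :
    ENNReal.ofReal (Real.exp (-r)) ^ (1 - t) * ENNReal.ofReal (Real.exp (-q)) ^ t =
      ENNReal.ofReal (Real.exp (-((1 - t) * r + t * q))) := by
  rw [ENNReal.ofReal_rpow_of_pos (Real.exp_pos _), ENNReal.ofReal_rpow_of_pos (Real.exp_pos _),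
    ← Real.exp_mul, ← Real.exp_mul, ← ENNReal.ofReal_mul (Real.exp_pos _).le, ← Real.exp_add]
  congr 2
  ring

theorem t_MES (hLB : S_LB) (hLAY : S_LAY) (hLEV : S_LEV) (hLCS : S_LCS) : S_MES := by
  intro n f K L t hn hf f0 fev fref flc hK hL rK rL ht0 ht1
  have hM : SB (LC K L t) := (hLCS n K L t hK hL ht0.le ht1.le).2.1
  obtain ⟨mF, eF⟩ := hLAY n f K hf f0 hK.comp.measurableSet
  obtain ⟨mG, eG⟩ := hLAY n f L hf f0 hL.comp.measurableSet
  obtain ⟨mH, eH⟩ := hLAY n f (LC K L t) hf f0 hM.comp.measurableSet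
  rw [eF, eG, eH]
  refine Pool.Agent.H212R2.KLS.PLt.pl1 t ht0 ht1 _ _ _ mF mG mH ?_
  intro r q
  have h := hLEV n f K L t hn (hLB n hn) hf f0 fev fref flc hK hL rK rL ht0 ht1 r q
  calc (volume (K ∩ {x | Real.exp (-r) ≤ f x}) * ENNReal.ofReal (Real.exp (-r))) ^ (1 - t) *
        (volume (L ∩ {x | Real.exp (-q) ≤ f x}) * ENNReal.ofReal (Real.exp (-q))) ^ t
      = (volume (K ∩ {x | Real.exp (-r) ≤ f x}) ^ (1 - t) *
          volume (L ∩ {x | Real.exp (-q) ≤ f x}) ^ t) *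
        (ENNReal.ofReal (Real.exp (-r)) ^ (1 - t) * ENNReal.ofReal (Real.exp (-q)) ^ t) := by
        rw [ENNReal.mul_rpow_of_nonneg _ _ (by linarith), ENNReal.mul_rpow_of_nonneg _ _ ht0.le]
        ring
    _ ≤ volume (LC K L t ∩ {x | Real.exp (-((1 - t) * r + t * q)) ≤ f x}) *
        (ENNReal.ofReal (Real.exp (-r)) ^ (1 - t) * ENNReal.ofReal (Real.exp (-q)) ^ t) :=
        mul_le_mul_left h _
    _ = _ := by rw [mes_exp]

end H354ZN
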