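import Pool.Agent.H354R3.ZN.Defs4
import Pool.Agent.H354R3.ZN.ZST

/-!
# Every symmetric convex body in the plane is a zonoid
-/

set_option autoImplicit false

open MeasureTheory Filter
open scoped Matrix Pointwise Topology ENNReal

namespace H354ZN

namespace PLZaux

/-- unit vector -/
noncomputable def uu (θ : ℝ) : EuclideanSpace ℝ (Fin 2) := WithLp.toLp 2 ![Real.cos θ, Real.sin θ]

/-- rotated unit vector -/
noncomputable def ww (θ : ℝ) : EuclideanSpace ℝ (Fin 2) := WithLp.toLp 2 ![-Real.sin θ, Real.cos θ]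

theorem inner_two (x y : EuclideanSpace ℝ (Fin 2)) : inner ℝ x y = x 0 * y 0 + x 1 * y 1 := by
  rw [PiLp.inner_apply, Fin.sum_univ_two]
  simp only [RCLike.inner_apply, conj_trivial]
  ring

theorem inner_uu_uu (a b : ℝ) : inner ℝ (uu a) (uu b) = Real.cos (a - b) := by
  rw [inner_two, Real.cos_sub]
  simp [uu]

theorem inner_ww_uu (a b : ℝ) : inner ℝ (ww a) (uu b) = Real.sin (b - a) := by
  rw [inner_two, Real.sin_sub]
  simp [uu, ww]
  ring

theorem norm_uu (a : ℝ) : ‖uu a‖ = 1 := by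
  have h : ‖uu a‖ ^ 2 = 1 := by
    rw [← real_inner_self_eq_norm_sq, inner_uu_uu, sub_self, Real.cos_zero]
  have h0 := norm_nonneg (uu a)
  nlinarith

theorem norm_ww (a : ℝ) : ‖ww a‖ = 1 := by
  have h : ‖ww a‖ ^ 2 = 1 := by
    rw [← real_inner_self_eq_norm_sq, inner_two]
    simp only [ww, Matrix.cons_val_zero, Matrix.cons_val_one]
    nlinarith [Real.sin_sq_add_cos_sq a]
  have h0 := norm_nonneg (ww a)
  nlinarith

theorem norm_uu_sub (a b : ℝ) : ‖uu a - uu b‖ ≤ |a - b| := by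
  apply abs_le_of_sq_le_sq' _ (abs_nonneg _) |>.2
  rw [@norm_sub_sq_real, norm_uu, norm_uu, inner_uu_uu, sq_abs]
  nlinarith [Real.one_sub_sq_div_two_le_cos (x := a - b)]

theorem exists_angle (v : EuclideanSpace ℝ (Fin 2)) : ∃ θ : ℝ, v = ‖v‖ • uu θ := by
  rcases eq_or_ne v 0 with rfl | hv
  · exact ⟨0, by simp⟩
  · have hn : 0 < ‖v‖ := norm_pos_iff.mpr hv
    have h : (v 0 / ‖v‖) ^ 2 + (v 1 / ‖v‖) ^ 2 = 1 := by
      have h1 : ‖v‖ ^ 2 = v 0 * v 0 + v 1 * v 1 := by
        rw [← real_inner_self_eq_norm_sq, inner_two]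
      field_simp
      rw [h1]
      ring
    obtain ⟨θ, hθ1, hθ2⟩ : ∃ θ : ℝ, Real.cos θ = v 0 / ‖v‖ ∧ Real.sin θ = v 1 / ‖v‖ := by
      set z : ℂ := ⟨v 0 / ‖v‖, v 1 / ‖v‖⟩ with hz
      have hz1 : ‖z‖ = 1 := by
        have h2 : ‖z‖ ^ 2 = 1 := by
          rw [← Complex.normSq_eq_norm_sq, Complex.normSq_apply]
          nlinarith
        have h3 := norm_nonneg z
        nlinarith
      have hz0 : z ≠ 0 := by
        intro h4
        rw [h4, norm_zero] at hz1
        exact zero_ne_one hz1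
      refine ⟨Complex.arg z, ?_, ?_⟩
      · rw [Complex.cos_arg hz0, hz1, div_one]
      · rw [Complex.sin_arg, hz1, div_one]
    refine ⟨θ, ?_⟩
    ext i
    fin_cases i
    · show v 0 = ‖v‖ * Real.cos θ
      rw [hθ1]
      field_simp
    · show v 1 = ‖v‖ * Real.sin θ
      rw [hθ2]
      field_simp

theorem uu_add_pi (θ : ℝ) : uu (θ + Real.pi) = -uu θ := by
  ext i
  fin_cases i
  · show Real.cos (θ + Real.pi) = -Real.cos θ
    exact Real.cos_add_pi θ
  · show Real.sin (θ + Real.pi) = -Real.sin θ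
    exact Real.sin_add_pi θ

theorem uu_sum (θ α : ℝ) : uu (θ - α) + uu (θ + α) = (2 * Real.cos α) • uu θ := by
  ext i
  fin_cases i
  · show Real.cos (θ - α) + Real.cos (θ + α) = (2 * Real.cos α) * Real.cos θ
    rw [Real.cos_sub, Real.cos_add]
    ring
  · show Real.sin (θ - α) + Real.sin (θ + α) = (2 * Real.cos α) * Real.sin θ
    rw [Real.sin_sub, Real.sin_add]
    ring

end PLZaux

open PLZaux ZSTaux in
theorem t_PLZ (hGRE : S_GRE) (hHDZ : S_HDZ) (hHH : S_HH) : S_PLZ := by
  intro K hK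
  obtain ⟨hPH, -, -, -, hin, -⟩ := hHH 2 K hK
  refine ⟨hK.comp, fun ε hε => ?_⟩
  obtain ⟨R, hR, hKR⟩ : ∃ R : ℝ, 0 < R ∧ ∀ x ∈ K, ‖x‖ ≤ R := hK.comp.isBounded.exists_pos_norm_le
  have hne : K.Nonempty := ⟨0, interior_subset hK.zero⟩
  -- the support function
  have hb : ∀ u, hh K u ≤ R * ‖u‖ := by
    intro u
    apply csSup_le (hne.image _)
    rintro _ ⟨x, hx, rfl⟩
    exact (real_inner_le_norm x u).trans (mul_le_mul_of_nonneg_right (hKR x hx) (norm_nonneg _))
  have hadd : ∀ u v, hh K (u + v) ≤ hh K u + hh K v := by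
    intro u v
    apply csSup_le (hne.image _)
    rintro _ ⟨x, hx, rfl⟩
    show inner ℝ x (u + v) ≤ _
    rw [inner_add_right]
    exact add_le_add ((le_abs_self _).trans (hin x hx u)) ((le_abs_self _).trans (hin x hx v))
  have hsub : ∀ u v, hh K u - hh K v ≤ R * ‖u - v‖ := by
    intro u v
    have h1 := hadd v (u - v)
    rw [add_sub_cancel] at h1
    have h2 := hb (u - v)
    linarith
  have hlip : ∀ u v, |hh K u - hh K v| ≤ R * ‖u - v‖ := by
    intro u v
    rw [abs_le]
    have h1 := hsub u v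
    have h2 := hsub v u
    rw [norm_sub_rev] at h2
    constructor <;> linarith
  have hneg : ∀ u, hh K (-u) = hh K u := by
    intro u
    have h1 := hPH.hom (-1) u (by norm_num)
    rw [neg_one_smul, abs_neg, abs_one, one_mul] at h1
    exact h1
  have hzero : hh K 0 = 0 := by
    have h1 := hPH.hom 2 0 (by norm_num)
    rw [smul_zero] at h1
    have h2 : |(2 : ℝ)| = 2 := abs_of_pos (by norm_num)
    rw [h2] at h1
    linarith
  have hhom : ∀ (c : ℝ) u, 0 ≤ c → hh K (c • u) = c * hh K u := by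
    intro c u hc
    rcases hc.eq_or_lt with rfl | hc'
    · rw [zero_smul, hzero, zero_mul]
    · rw [hPH.hom c u hc'.ne', abs_of_pos hc']
  -- the parameters
  obtain ⟨M, hM⟩ := exists_nat_gt (3 * R * Real.pi / ε + 2)
  have hM2 : 2 ≤ M := by
    have h1 : (2 : ℝ) < M := by
      have : 0 ≤ 3 * R * Real.pi / ε := by positivity
      linarith
    have h2 : 2 < M := by exact_mod_cast h1
    omega
  have hM0 : (0 : ℝ) < M := by
    have : 0 < M := by omega
    exact_mod_cast this
  set N : ℕ := 2 * M with hN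
  have hNr : (N : ℝ) = 2 * M := by rw [hN]; push_cast; ring
  set α : ℝ := Real.pi / N with hα
  have hαpos : 0 < α := by
    rw [hα, hNr]
    positivity
  have hMα : (M : ℝ) * α = Real.pi / 2 := by
    rw [hα, hNr]
    field_simp
  have hNα : (N : ℝ) * α = Real.pi := by
    rw [hNr, mul_assoc, hMα]
    ring
  have hαlt : α < Real.pi / 2 := by
    rw [← hMα]
    have : (1 : ℝ) < M := by
      have : 1 < M := by omega
      exact_mod_cast this
    nlinarith
  have hcos : 0 < Real.cos α := Real.cos_pos_of_mem_Ioo ⟨by linarith [Real.pi_pos], hαlt⟩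
  have hsin : 0 < Real.sin α := Real.sin_pos_of_pos_of_lt_pi hαpos (by linarith [Real.pi_pos])
  set h : ℤ → ℝ := fun i => hh K (uu (i * α)) with hh'
  have hper : ∀ i, h (i + N) = h i := by
    intro i
    show hh K (uu (((i + (N : ℤ) : ℤ) : ℝ) * α)) = hh K (uu (i * α))
    have e : (((i + (N : ℤ) : ℤ) : ℝ) * α) = i * α + Real.pi := by
      push_cast
      rw [add_mul, hNα]
    rw [e, uu_add_pi, hneg]
  set c : ℤ → ℝ := fun i => (h (i - 1) + h (i + 1) - 2 * Real.cos α * h i) / (2 * Real.sin α)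
    with hc
  have hcnn : ∀ i, 0 ≤ c i := by
    intro i
    apply div_nonneg _ (by positivity)
    have h1 := hadd (uu (i * α - α)) (uu (i * α + α))
    rw [uu_sum, hhom _ _ (by positivity)] at h1
    have e1 : h (i - 1) = hh K (uu (i * α - α)) := by
      show hh K (uu (((i - 1 : ℤ) : ℝ) * α)) = _
      congr 2
      push_cast
      ring
    have e2 : h (i + 1) = hh K (uu (i * α + α)) := by
      show hh K (uu (((i + 1 : ℤ) : ℝ) * α)) = _
      congr 2
      push_cast
      ring
    rw [e1, e2]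
    have e3 : h i = hh K (uu (i * α)) := rfl
    rw [e3]
    linarith
  set z : Fin N → EuclideanSpace ℝ (Fin 2) := fun i => c ((i : ℕ) : ℤ) • ww (((i : ℕ) : ℝ) * α)
    with hz
  have hZ : ∀ v, hh (ZonE z) v = ∑ i ∈ Finset.range N, c i * |inner ℝ (ww ((i : ℝ) * α)) v| := by
    intro v
    rw [hh_zonE, ← Fin.sum_univ_eq_sum_range
      (fun i : ℕ => c i * |inner ℝ (ww ((i : ℝ) * α)) v|) N]
    apply Finset.sum_congr rfl
    intro i _
    rw [hz]
    simp only
    rw [real_inner_smul_left, abs_mul, abs_of_nonneg (hcnn _)]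
  have hZu : ∀ j : ℤ, hh (ZonE z) (uu (j * α)) = h j := by
    intro j
    have h1 := hGRE N h j (by omega) hper
    rw [← hα] at h1
    rw [hZ]
    have e : ∀ i ∈ Finset.range N, c i * |inner ℝ (ww ((i : ℝ) * α)) (uu (j * α))| =
        1 / 2 * ((h ((i : ℤ) - 1) + h ((i : ℤ) + 1) - 2 * Real.cos α * h i) / Real.sin α *
          |Real.sin (((i : ℝ) - j) * α)|) := by
      intro i _
      rw [inner_ww_uu]
      have e1 : Real.sin (j * α - (i : ℝ) * α) = -Real.sin (((i : ℝ) - j) * α) := by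
        rw [← Real.sin_neg]
        congr 1
        ring
      rw [e1, abs_neg, hc]
      simp only
      field_simp
    rw [Finset.sum_congr rfl e, ← Finset.mul_sum, h1]
    ring
  have hcsum : ∑ i ∈ Finset.range N, c i ≤ 2 * R := by
    have h1 := hZu 0
    have h2 := hZu M
    rw [hZ] at h1 h2
    have h3 : h 0 ≤ R := by
      have := hb (uu (((0 : ℤ) : ℝ) * α))
      rwa [norm_uu, mul_one] at this
    have h4 : h M ≤ R := by
      have := hb (uu (((M : ℤ) : ℝ) * α))
      rwa [norm_uu, mul_one] at this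
    have h5 : ∑ i ∈ Finset.range N, c i ≤
        ∑ i ∈ Finset.range N, c i * |inner ℝ (ww ((i : ℝ) * α)) (uu (((0 : ℤ) : ℝ) * α))| +
        ∑ i ∈ Finset.range N, c i * |inner ℝ (ww ((i : ℝ) * α)) (uu (((M : ℤ) : ℝ) * α))| := by
      rw [← Finset.sum_add_distrib]
      apply Finset.sum_le_sum
      intro i _
      rw [← mul_add, inner_ww_uu, inner_ww_uu]
      have e1 : Real.sin (((0 : ℤ) : ℝ) * α - (i : ℝ) * α) = -Real.sin ((i : ℝ) * α) := by
        rw [← Real.sin_neg]
        congr 1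
        push_cast
        ring
      have e2 : Real.sin (((M : ℤ) : ℝ) * α - (i : ℝ) * α) = Real.cos ((i : ℝ) * α) := by
        have : ((M : ℤ) : ℝ) * α = Real.pi / 2 := by
          push_cast
          exact hMα
        rw [this, Real.sin_pi_div_two_sub]
      rw [e1, e2, abs_neg]
      have h6 : 1 ≤ |Real.sin ((i : ℝ) * α)| + |Real.cos ((i : ℝ) * α)| := by
        have a1 := Real.sin_sq_add_cos_sq ((i : ℝ) * α)
        have a2 := abs_nonneg (Real.sin ((i : ℝ) * α))
        have a3 := abs_nonneg (Real.cos ((i : ℝ) * α))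
        have a4 := Real.abs_sin_le_one ((i : ℝ) * α)
        have a5 := Real.abs_cos_le_one ((i : ℝ) * α)
        have a6 := sq_abs (Real.sin ((i : ℝ) * α))
        have a7 := sq_abs (Real.cos ((i : ℝ) * α))
        nlinarith
      exact le_mul_of_one_le_right (hcnn _) h6
    linarith
  have hZlip : ∀ u v, |hh (ZonE z) u - hh (ZonE z) v| ≤ 2 * R * ‖u - v‖ := by
    intro u v
    rw [hZ, hZ, ← Finset.sum_sub_distrib]
    refine (Finset.abs_sum_le_sum_abs _ _).trans ?_
    calc ∑ i ∈ Finset.range N, abs (c i * abs (inner ℝ (ww ((i : ℝ) * α)) u) -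
          c i * abs (inner ℝ (ww ((i : ℝ) * α)) v)) ≤ ∑ i ∈ Finset.range N, c i * ‖u - v‖ := by
          apply Finset.sum_le_sum
          intro i _
          rw [← mul_sub, abs_mul, abs_of_nonneg (hcnn _)]
          apply mul_le_mul_of_nonneg_left _ (hcnn _)
          refine (abs_abs_sub_abs_le_abs_sub _ _).trans ?_
          rw [← inner_sub_right]
          refine (abs_real_inner_le_norm _ _).trans ?_
          rw [norm_ww, one_mul]
      _ = (∑ i ∈ Finset.range N, c i) * ‖u - v‖ := by rw [Finset.sum_mul]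
      _ ≤ 2 * R * ‖u - v‖ := mul_le_mul_of_nonneg_right hcsum (norm_nonneg _)
  have hZhom : ∀ (r : ℝ) u, 0 ≤ r → hh (ZonE z) (r • u) = r * hh (ZonE z) u := by
    intro r u hr
    rw [hZ, hZ, Finset.mul_sum]
    apply Finset.sum_congr rfl
    intro i _
    rw [real_inner_smul_right, abs_mul, abs_of_nonneg hr]
    ring
  have hclose : ∀ u, |hh K u - hh (ZonE z) u| ≤ 3 * R * α * ‖u‖ := by
    intro u
    obtain ⟨φ, hφ⟩ := exists_angle u
    set j : ℤ := ⌊φ / α⌋ with hj
    have hj1 : |φ - j * α| ≤ α := by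
      have h1 := Int.floor_le (φ / α)
      have h2 := Int.lt_floor_add_one (φ / α)
      rw [← hj] at h1 h2
      rw [le_div_iff₀ hαpos] at h1
      rw [div_lt_iff₀ hαpos] at h2
      rw [abs_le]
      constructor <;> nlinarith
    have hd : ‖uu φ - uu (j * α)‖ ≤ α := (norm_uu_sub _ _).trans hj1
    have h3 : |hh K (uu φ) - hh (ZonE z) (uu φ)| ≤ 3 * R * α := by
      have a1 := hlip (uu φ) (uu (j * α))
      have a2 := hZlip (uu φ) (uu (j * α))
      rw [hZu] at a2
      have e3 : h j = hh K (uu (j * α)) := rfl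
      rw [← e3] at a1
      have a3 : R * ‖uu φ - uu (j * α)‖ ≤ R * α := mul_le_mul_of_nonneg_left hd hR.le
      have a4 : 2 * R * ‖uu φ - uu (j * α)‖ ≤ 2 * R * α :=
        mul_le_mul_of_nonneg_left hd (by positivity)
      rw [abs_le] at a1 a2 ⊢
      constructor <;> linarith [a1.1, a1.2, a2.1, a2.2]
    have e1 : hh K u = ‖u‖ * hh K (uu φ) := by
      conv_lhs => rw [hφ]
      exact hhom _ _ (norm_nonneg _)
    have e2 : hh (ZonE z) u = ‖u‖ * hh (ZonE z) (uu φ) := by
      conv_lhs => rw [hφ]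
      exact hZhom _ _ (norm_nonneg _)
    rw [e1, e2, ← mul_sub, abs_mul, abs_of_nonneg (norm_nonneg u), mul_comm]
    exact mul_le_mul_of_nonneg_right h3 (norm_nonneg _)
  refine ⟨ZonE z, ⟨N, z, rfl⟩, ?_⟩
  have hZne : (ZonE z).Nonempty := ⟨0, fun _ => 0, fun _ => by simp, by simp⟩
  refine lt_of_le_of_lt (hHDZ 2 K (ZonE z) (3 * R * α) hK.conv hK.comp hne (zonE_convex z)
    (zonE_compact z) hZne (by positivity) hclose) ?_
  rw [hα, hNr]
  have h1 : 3 * R * Real.pi / ε < M := by linarith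
  rw [div_lt_iff₀ hε] at h1
  have e : 3 * R * (Real.pi / (2 * M)) = 3 * R * Real.pi / (2 * M) := by ring
  rw [e, div_lt_iff₀ (by positivity)]
  nlinarith

end H354ZN
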