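import Pool.Agent.H354R3.ZN.Defs4
import Pool.Agent.H212R2.KLS.T1

/-!
# The induction step in log-BM for bodies with reflections (Prekopa-Leindler in the last coordinate)
-/

set_option autoImplicit false

open MeasureTheory Filter
open scoped Matrix Pointwise Topology ENNReal

namespace H354ZN

theorem STEP_exp (a b t : ℝ) :
    Real.exp a ^ (1 - t) * Real.exp b ^ t = Real.exp ((1 - t) * a + t * b) := by
  rw [← Real.exp_mul, ← Real.exp_mul, ← Real.exp_add]
  congr 1
  ring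

theorem t_STEP (hHH : S_HH) (hFIBV : S_FIBV) (hFIBM : S_FIBM) (hFIBS : S_FIBS) (hFIBR : S_FIBR)
    (hFLEM : S_FLEM) (hLCS : S_LCS) : S_STEP := by
  intro n hn hLB K L t hK hL hRK hRL ht0 ht1
  have t1 : 0 < 1 - t := by linarith
  obtain ⟨-, hH, hHR⟩ := hLCS (n + 1) K L t hK hL ht0.le ht1.le
  have hRH := hHR hRK hRL
  have hLK : RefL K := (hFIBR n K 0 hn hRK).1
  have hLL : RefL L := (hFIBR n L 0 hn hRL).1
  have hLH : RefL (LC K L t) := (hFIBR n (LC K L t) 0 hn hRH).1
  rw [hFIBV n K hK.comp hLK, hFIBV n L hL.comp hLL, hFIBV n (LC K L t) hH.comp hLH]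
  have hpl := Pool.Agent.H212R2.KLS.PLt.pl1 t ht0 ht1
    (fun a : ℝ => volume (fib K (Real.exp a)) * ENNReal.ofReal (Real.exp a))
    (fun a : ℝ => volume (fib L (Real.exp a)) * ENNReal.ofReal (Real.exp a))
    (fun a : ℝ => volume (fib (LC K L t) (Real.exp a)) * ENNReal.ofReal (Real.exp a))
    (hFIBM n K hK.comp) (hFIBM n L hL.comp) (hFIBM n _ hH.comp) ?_
  · rw [ENNReal.mul_rpow_of_nonneg _ _ t1.le, ENNReal.mul_rpow_of_nonneg _ _ ht0.le]
    have h2 : (2 : ℝ≥0∞) ^ (1 - t) * 2 ^ t = 2 := by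
      rw [← ENNReal.rpow_add _ _ (by norm_num) (by norm_num)]
      simp
    calc _ = ((2 : ℝ≥0∞) ^ (1 - t) * 2 ^ t) *
          ((∫⁻ a : ℝ, volume (fib K (Real.exp a)) * ENNReal.ofReal (Real.exp a)) ^ (1 - t) *
          (∫⁻ a : ℝ, volume (fib L (Real.exp a)) * ENNReal.ofReal (Real.exp a)) ^ t) := by ring
      _ ≤ _ := by
        rw [h2]
        gcongr
  · intro a b
    show (volume (fib K (Real.exp a)) * ENNReal.ofReal (Real.exp a)) ^ (1 - t) *
      (volume (fib L (Real.exp b)) * ENNReal.ofReal (Real.exp b)) ^ t ≤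
      volume (fib (LC K L t) (Real.exp ((1 - t) * a + t * b))) *
        ENNReal.ofReal (Real.exp ((1 - t) * a + t * b))
    by_cases hK0 : volume (fib K (Real.exp a)) = 0
    · rw [hK0, zero_mul, ENNReal.zero_rpow_of_pos t1, zero_mul]
      exact zero_le
    by_cases hL0 : volume (fib L (Real.exp b)) = 0
    · rw [hL0, zero_mul, ENNReal.zero_rpow_of_pos ht0, mul_zero]
      exact zero_le
    have hKS := hFIBS n K (Real.exp a) hK hLK (pos_iff_ne_zero.2 hK0)
    have hLS := hFIBS n L (Real.exp b) hL hLL (pos_iff_ne_zero.2 hL0)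
    have hKR := (hFIBR n K (Real.exp a) hn hRK).2
    have hLR := (hFIBR n L (Real.exp b) hn hRL).2
    have h1 := hLB (fib K (Real.exp a)) (fib L (Real.exp b)) t hKS hLS hKR hLR ht0 ht1
    have h2 := hFLEM n K L (Real.exp a) (Real.exp b) t hK hL hLK hLL (Real.exp_pos a)
      (Real.exp_pos b) ht0 ht1 hKS hLS
    rw [STEP_exp] at h2
    have h3 := h1.trans (measure_mono h2)
    rw [ENNReal.mul_rpow_of_nonneg _ _ t1.le, ENNReal.mul_rpow_of_nonneg _ _ ht0.le,
      ENNReal.ofReal_rpow_of_pos (Real.exp_pos a), ENNReal.ofReal_rpow_of_pos (Real.exp_pos b)]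
    calc _ = (volume (fib K (Real.exp a)) ^ (1 - t) * volume (fib L (Real.exp b)) ^ t) *
          (ENNReal.ofReal (Real.exp a ^ (1 - t)) * ENNReal.ofReal (Real.exp b ^ t)) := by ring
      _ ≤ _ := by
        rw [← ENNReal.ofReal_mul (Real.rpow_nonneg (Real.exp_pos a).le _), STEP_exp]
        gcongr

end H354ZN
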