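import Pool.Agent.H354R3.ZN.Defs4
import Pool.Agent.H354R3.ZN.UNI

/-!
# (UNR) uniqueness in the `L_p`-Minkowski problem for bodies with `n - 2` reflections

Prover: helper666 (the proof of `t_UNI` by helper676, with `S_LMR` in place of `S_LMZ`).
-/

set_option autoImplicit false

open MeasureTheory Filter
open scoped Matrix Pointwise Topology

namespace H354ZN

/-- the half -/
theorem UNR_half (hHH : S_HH) (hLMR : S_LMR) (hGRAD : S_GRAD) (hGRH : S_GRH) {n : ℕ} {p : ℝ}
    {K C : Set (EuclideanSpace ℝ (Fin n))} (hn2 : 2 ≤ n) (hp : 0 < p) (hp1 : p < 1)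
    (hK : SB K) (hC : SB C) (hRK : Ref K) (hRC : Ref C) (h : SLp p K = SLp p C) :
    IntegrableOn (fun x => Real.exp (p * Real.log (hh C (gg K x)))) K ∧
    ∫ x in K, Real.exp (p * Real.log (hh C (gg K x))) = volume.real C ∧
      volume.real K ≤ volume.real C := by
  have hn : 1 ≤ n := by omega
  have hs := UNI_s hHH hGRAD hGRH hn hK hC
  have hvK : 0 < volume.real K := (hHH n K hK).2.2.1
  have hvC : 0 < volume.real C := (hHH n C hC).2.2.1
  have hfin : volume K ≠ ⊤ := (hHH n K hK).2.2.2.1.ne
  have hmC : Measurable (hh C) := UNI_meas (hHH n C hC).1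
  have hg := (hGRH n K hK).1
  have hmeas : Measurable fun x => Real.exp (p * Real.log (hh C (gg K x))) :=
    Real.measurable_exp.comp ((Real.measurable_log.comp (hmC.comp hg)).const_mul p)
  have h1 := UNI_int hHH hGRAD hGRH (p := p) hn hK hC
  rw [h, UNI_int hHH hGRAD hGRH (p := p) hn hC hC, UNI_one hGRAD hn hC] at h1
  have hn0 : (n : ENNReal) ≠ 0 := by
    simp
    omega
  have h2 : ∫⁻ x in K, ENNReal.ofReal (hh C (gg K x) ^ p) = volume C :=
    ((ENNReal.mul_right_inj hn0 (ENNReal.natCast_ne_top n)).1 h1).symm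
  have h3 : ∫⁻ x in K, ENNReal.ofReal (Real.exp (p * Real.log (hh C (gg K x)))) = volume C := by
    rw [← h2]
    apply lintegral_congr_ae
    filter_upwards [ae_restrict_of_ae (hGRAD n K hn hK)] with x hx
    obtain ⟨-, -, hg0, -, hg1, -, -⟩ := hx
    rw [Real.rpow_def_of_pos ((hHH n C hC).1.pos _ hg0), mul_comm]
  have hi : IntegrableOn (fun x => Real.exp (p * Real.log (hh C (gg K x)))) K := by
    refine ⟨hmeas.aestronglyMeasurable, ?_⟩
    rw [hasFiniteIntegral_iff_ofReal (Eventually.of_forall fun x => (Real.exp_pos _).le), h3]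
    exact (hHH n C hC).2.2.2.1
  have h4 : ∫ x in K, Real.exp (p * Real.log (hh C (gg K x))) = volume.real C := by
    rw [integral_eq_lintegral_of_nonneg_ae (Eventually.of_forall fun x => (Real.exp_pos _).le)
      hmeas.aestronglyMeasurable, h3]
    rfl
  refine ⟨hi, h4, ?_⟩
  -- Jensen
  have hL := hLMR n K C hn2 hK hC hRK hRC
  set I : ℝ := ∫ x in K, Real.log (hh C (gg K x)) with hI
  set c : ℝ := p * I / volume.real K with hc
  have hJ : volume.real K * Real.exp c ≤ volume.real C := by
    rw [← h4]
    have h5 : ∫ x in K, (Real.exp c + Real.exp c * (p * Real.log (hh C (gg K x)) - c)) =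
        volume.real K * Real.exp c := by
      rw [integral_add, integral_const_mul, integral_sub, integral_const_mul, setIntegral_const,
        setIntegral_const, ← hI, hc]
      · simp only [smul_eq_mul]
        field_simp
        ring
      · exact hs.const_mul p
      · exact integrableOn_const hfin
      · exact integrableOn_const hfin
      · exact ((hs.const_mul p).sub (integrableOn_const hfin)).const_mul _
    rw [← h5]
    refine setIntegral_mono ((integrableOn_const hfin).add
      (((hs.const_mul p).sub (integrableOn_const hfin)).const_mul _)) hi fun x => ?_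
    have h6 := Real.add_one_le_exp (p * Real.log (hh C (gg K x)) - c)
    have h7 := mul_le_mul_of_nonneg_left h6 (Real.exp_pos c).le
    rw [← Real.exp_add, add_sub_cancel] at h7
    simp only
    linarith
  by_contra hlt
  rw [not_le] at hlt
  have hlog : Real.log (volume.real C / volume.real K) < 0 :=
    Real.log_neg (div_pos hvC hvK) ((div_lt_one hvK).2 hlt)
  have h8 : c ≤ Real.log (volume.real C / volume.real K) := by
    rw [Real.le_log_iff_exp_le (div_pos hvC hvK), le_div_iff₀ hvK]
    linarith
  have h9 : p / n * Real.log (volume.real C / volume.real K) ≤ c := by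
    rw [hc, le_div_iff₀ hvK]
    have := mul_le_mul_of_nonneg_left hL hp.le
    calc _ = p * (volume.real K / n * Real.log (volume.real C / volume.real K)) := by ring
      _ ≤ _ := this
  have hn1 : (1 : ℝ) ≤ n := by exact_mod_cast hn
  have h10 : p / n < 1 := by
    rw [div_lt_one (by linarith)]
    linarith
  nlinarith

theorem t_UNR (hHH : S_HH) (hLMR : S_LMR) (hGRAD : S_GRAD) (hGRH : S_GRH) (hDENSE : S_DENSE)
    (hSAMEV : S_SAMEV) : S_UNR := by
  intro n p K C hn2 hp hp1 hK hC hRK hRC h
  have hn : 1 ≤ n := by omega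
  obtain ⟨hi, hint, h1⟩ := UNR_half hHH hLMR hGRAD hGRH hn2 hp hp1 hK hC hRK hRC h
  obtain ⟨-, -, h2⟩ := UNR_half hHH hLMR hGRAD hGRH hn2 hp hp1 hC hK hRC hRK h.symm
  have hv : volume.real K = volume.real C := le_antisymm h1 h2
  have hs := UNI_s hHH hGRAD hGRH hn hK hC
  have hvK : 0 < volume.real K := (hHH n K hK).2.2.1
  have hfin : volume K ≠ ⊤ := (hHH n K hK).2.2.2.1.ne
  have hL := hLMR n K C hn2 hK hC hRK hRC
  rw [← hv, div_self hvK.ne', Real.log_one, mul_zero] at hL
  have hD : ∀ x, 0 ≤ Real.exp (p * Real.log (hh C (gg K x))) -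
      (1 + p * Real.log (hh C (gg K x))) := by
    intro x
    have := Real.add_one_le_exp (p * Real.log (hh C (gg K x)))
    linarith
  have hi1 : IntegrableOn (fun _ : EuclideanSpace ℝ (Fin n) => (1 : ℝ)) K :=
    integrableOn_const hfin
  have hi2 : IntegrableOn (fun x => p * Real.log (hh C (gg K x))) K := hs.const_mul p
  have hi3 : IntegrableOn (fun x => 1 + p * Real.log (hh C (gg K x))) K := hi1.add hi2
  have hDi : IntegrableOn (fun x => Real.exp (p * Real.log (hh C (gg K x))) -
      (1 + p * Real.log (hh C (gg K x)))) K := hi.sub hi3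
  have h0 : ∫ x in K, (Real.exp (p * Real.log (hh C (gg K x))) -
      (1 + p * Real.log (hh C (gg K x)))) = 0 := by
    apply le_antisymm _ (integral_nonneg hD)
    rw [integral_sub hi hi3, integral_add hi1 hi2, integral_const_mul,
      setIntegral_const, hint, hv]
    simp only [smul_eq_mul]
    nlinarith
  rw [setIntegral_eq_zero_iff_of_nonneg_ae (Eventually.of_forall hD) hDi] at h0
  have hle : ∀ᵐ x : EuclideanSpace ℝ (Fin n), x ∈ K → hh C (gg K x) ≤ 1 := by
    have h3 := (ae_restrict_iff' hK.comp.measurableSet).1 h0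
    filter_upwards [h3, hGRAD n K hn hK] with x hx hx' hxK
    obtain ⟨-, -, hg0, -, -, -, -⟩ := hx'
    have hpos := (hHH n C hC).1.pos _ hg0
    have h4 := hx hxK
    simp only [Pi.zero_apply] at h4
    by_cases h5 : p * Real.log (hh C (gg K x)) = 0
    · have h6 : Real.log (hh C (gg K x)) = 0 := by
        rcases mul_eq_zero.1 h5 with h7 | h7
        · exact absurd h7 hp.ne'
        · exact h7
      have h7 := Real.exp_log hpos
      rw [h6, Real.exp_zero] at h7
      exact h7.symm.le
    · have h6 := Real.add_one_lt_exp h5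
      linarith
  have hsub := hDENSE n K C 1 hn hK hC one_pos hle
  rw [one_smul] at hsub
  exact (hSAMEV n C K hC hK hsub hv.le).symm

end H354ZN
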