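import Pool.Agent.H354R3.ZN.All2
import Pool.Agent.H354R3.ZN.HOL
import Pool.Agent.H354R3.ZN.GRE
import Pool.Agent.H354R3.ZN.HDZ
import Pool.Agent.H354R3.ZN.PLZ
import Pool.Agent.H354R3.ZN.FIBV
import Pool.Agent.H354R3.ZN.FIBM
import Pool.Agent.H354R3.ZN.FIBS
import Pool.Agent.H354R3.ZN.FIBR
import Pool.Agent.H354R3.ZN.FLEM
import Pool.Agent.H354R3.ZN.LCS
import Pool.Agent.H354R3.ZN.LB0
import Pool.Agent.H354R3.ZN.STEP
import Pool.Agent.H354R3.ZN.LB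
import Pool.Agent.H354R3.ZN.BMR
import Pool.Agent.H354R3.ZN.LMR
import Pool.Agent.H354R3.ZN.LPR
import Pool.Agent.H354R3.ZN.UNR
import Pool.Agent.H354R3.ZN.LAY
import Pool.Agent.H354R3.ZN.CLB
import Pool.Agent.H354R3.ZN.LCM
import Pool.Agent.H354R3.ZN.LCI
import Pool.Agent.H354R3.ZN.LCE
import Pool.Agent.H354R3.ZN.LEV
import Pool.Agent.H354R3.ZN.MES
import Pool.Agent.H354R3.ZN.BCR

/-!
# log-Brunn-Minkowski for bodies with `n - 2` reflections: assembly (helper354; fibre lemma of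
helper787)
-/

set_option autoImplicit false

namespace H354ZN

/-- every symmetric convex body in the plane is a zonoid -/
theorem a_PLZ : S_PLZ := t_PLZ t_GRE t_HDZ t_HH

theorem a_FLEM : S_FLEM := t_FLEM t_HOL t_HH

theorem a_LCS : S_LCS := t_LCS t_HH t_WSB

/-- the planar log-Brunn-Minkowski inequality -/
theorem a_LB0 : S_LB0 := t_LB0 t_HH a_LCS a_PLZ a_ZMZ

theorem a_STEP : S_STEP := t_STEP t_HH t_FIBV t_FIBM t_FIBS t_FIBR a_FLEM a_LCS

/-- log-Brunn-Minkowski for bodies with `n - 2` reflections -/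
theorem a_LB : S_LB := t_LB a_LB0 a_STEP

theorem a_BMR : S_BMR := t_BMR t_HH a_LB

theorem a_LMR : S_LMR := t_LMR t_HH a_ALEX a_GRAD a_LB

theorem a_LPR : S_LPR := t_LPR t_HH t_WSB a_LMR a_ACTZ a_GRAD t_GRH a_DENSE a_SAMEV

theorem a_UNR : S_UNR := t_UNR t_HH a_LMR a_GRAD t_GRH a_DENSE a_SAMEV

theorem a_LEV : S_LEV := t_LEV t_HH a_LCS t_CLB (t_LCM t_HH) (t_LCI t_HH)

theorem a_MES : S_MES := t_MES a_LB t_LAY a_LEV a_LCS

theorem a_BCR : S_BCR := t_BCR a_MES (t_LCE t_HH)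

end H354ZN
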