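import Pool.Agent.H354R3.ZN.Defs6

/-! ZN project (helper354), task CNV (helper818): Lebesgue measure on a subspace. -/

set_option autoImplicit false

open MeasureTheory Filter
open scoped Matrix Pointwise Topology ENNReal

namespace H354ZN

theorem t_CNV : S_CNV := by
  intro k n H A hH S
  subst hH
  let e : EuclideanSpace ℝ (Fin k) ≃ₗᵢ[ℝ] (LinearMap.range A.toLinearMap) := A.equivRange
  have he : ∀ u, ((e u : LinearMap.range A.toLinearMap) : EuclideanSpace ℝ (Fin n)) = A u :=
    fun u => rfl
  have h1 : MeasurePreserving (e.toHomeomorph.toMeasurableEquiv) volume volume :=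
    e.measurePreserving
  have h2 := h1.measure_preimage_equiv
    {y : LinearMap.range A.toLinearMap | (y : EuclideanSpace ℝ (Fin n)) ∈ S}
  rw [← h2]
  rfl

end H354ZN
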