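import Pool.Agent.H354R3.ZN.Defs6

/-!
# Two-dimensional sections of rescaled cubes, from the planar log-Brunn-Minkowski inequality
-/

set_option autoImplicit false

open MeasureTheory Filter
open scoped Matrix Pointwise Topology ENNReal

namespace H354ZN

theorem cu2_sb {n : ℕ} (L : EuclideanSpace ℝ (Fin 2) →ₗ[ℝ] (Fin n → ℝ))
    (hL : Function.Injective L) (s : Fin n → ℝ) :
    SB {y : EuclideanSpace ℝ (Fin 2) | ∀ i, |L y i| ≤ Real.exp (s i)} := by
  have hc : Continuous L := LinearMap.continuous_of_finiteDimensional L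
  have hci : ∀ i, Continuous fun y => L y i := fun i => (continuous_apply i).comp hc
  refine ⟨?_, ?_, ?_, ?_⟩
  · intro y hy z hz a b ha hb hab i
    have h1 := hy i
    have h2 := hz i
    simp only [map_add, map_smul, Pi.add_apply, Pi.smul_apply, smul_eq_mul]
    calc |a * L y i + b * L z i| ≤ |a * L y i| + |b * L z i| := abs_add_le _ _
      _ = a * |L y i| + b * |L z i| := by
          rw [abs_mul, abs_mul, abs_of_nonneg ha, abs_of_nonneg hb]
      _ ≤ a * Real.exp (s i) + b * Real.exp (s i) := by gcongr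
      _ = Real.exp (s i) := by rw [← add_mul, hab, one_mul]
  · apply Metric.isCompact_of_isClosed_isBounded
    · have : {y : EuclideanSpace ℝ (Fin 2) | ∀ i, |L y i| ≤ Real.exp (s i)}
          = ⋂ i, {y | |L y i| ≤ Real.exp (s i)} := by
        ext y
        simp
      rw [this]
      exact isClosed_iInter fun i => isClosed_le (hci i).abs continuous_const
    · obtain ⟨K, hK0, hK⟩ := LinearMap.exists_antilipschitzWith L (LinearMap.ker_eq_bot.2 hL)
      refine (hK.isBounded_preimage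
        (Metric.isBounded_Icc (fun i => -Real.exp (s i)) (fun i => Real.exp (s i)))).subset ?_
      intro y hy
      refine ⟨fun i => ?_, fun i => ?_⟩
      · exact (abs_le.1 (hy i)).1
      · exact (abs_le.1 (hy i)).2
  · rw [mem_interior_iff_mem_nhds]
    refine Filter.eventually_all.2 fun i => ?_
    have h1 : Filter.Tendsto (fun y => |L y i|) (nhds 0) (nhds |L 0 i|) :=
      ((hci i).abs).tendsto 0
    have h2 : |L 0 i| < Real.exp (s i) := by
      rw [map_zero]
      simpa using Real.exp_pos (s i)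
    exact (h1.eventually_lt_const h2).mono fun y hy => le_of_lt hy
  · intro y hy i
    have := hy i
    rw [map_neg, Pi.neg_apply, abs_neg]
    exact this

theorem cu2_hh {n : ℕ} (L : EuclideanSpace ℝ (Fin 2) →ₗ[ℝ] (Fin n → ℝ)) (s : Fin n → ℝ)
    (i : Fin n) (v : EuclideanSpace ℝ (Fin 2)) (hv : ∀ y, inner ℝ y v ≤ |L y i|) :
    0 ≤ hh {y : EuclideanSpace ℝ (Fin 2) | ∀ i, |L y i| ≤ Real.exp (s i)} v ∧
    hh {y : EuclideanSpace ℝ (Fin 2) | ∀ i, |L y i| ≤ Real.exp (s i)} v ≤ Real.exp (s i) := by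
  have h0 : (0 : EuclideanSpace ℝ (Fin 2)) ∈
      {y : EuclideanSpace ℝ (Fin 2) | ∀ i, |L y i| ≤ Real.exp (s i)} := by
    intro i
    rw [map_zero]
    simpa using (Real.exp_pos (s i)).le
  have hb : ∀ r ∈ ((fun y => inner ℝ y v) ''
      {y : EuclideanSpace ℝ (Fin 2) | ∀ i, |L y i| ≤ Real.exp (s i)}), r ≤ Real.exp (s i) := by
    rintro r ⟨y, hy, rfl⟩
    exact (hv y).trans (hy i)
  unfold hh
  constructor
  · refine le_csSup ⟨_, hb⟩ ⟨0, h0, ?_⟩
    simp
  · exact csSup_le ⟨_, ⟨0, h0, rfl⟩⟩ hb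

theorem cu2_sub {n : ℕ} (L : EuclideanSpace ℝ (Fin 2) →ₗ[ℝ] (Fin n → ℝ)) (s t : Fin n → ℝ)
    (l : ℝ) (h0 : 0 < l) (h1 : l < 1) :
    LC {y : EuclideanSpace ℝ (Fin 2) | ∀ i, |L y i| ≤ Real.exp (s i)}
      {y : EuclideanSpace ℝ (Fin 2) | ∀ i, |L y i| ≤ Real.exp (t i)} (1 - l) ⊆
    {y : EuclideanSpace ℝ (Fin 2) | ∀ i, |L y i| ≤ Real.exp (l * s i + (1 - l) * t i)} := by
  intro x hx i
  -- the vector representing the functional
  set φ : EuclideanSpace ℝ (Fin 2) →L[ℝ] ℝ :=
    LinearMap.toContinuousLinearMap ((LinearMap.proj i).comp L) with hφ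
  set w : EuclideanSpace ℝ (Fin 2) := (InnerProductSpace.toDual ℝ _).symm φ with hw
  have hin : ∀ y, inner ℝ y w = L y i := by
    intro y
    rw [real_inner_comm, hw, InnerProductSpace.toDual_symm_apply]
    rfl
  have key : ∀ v : EuclideanSpace ℝ (Fin 2), v ≠ 0 → (∀ y, inner ℝ y v ≤ |L y i|) →
      inner ℝ x v ≤ Real.exp (l * s i + (1 - l) * t i) := by
    intro v hv0 hv
    have h2 := hx v hv0
    simp only [sub_sub_cancel] at h2
    obtain ⟨a1, a2⟩ := cu2_hh L s i v hv
    obtain ⟨b1, b2⟩ := cu2_hh L t i v hv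
    refine h2.trans ?_
    rw [Real.exp_add, mul_comm l, mul_comm (1 - l), Real.exp_mul, Real.exp_mul]
    exact mul_le_mul (Real.rpow_le_rpow a1 a2 h0.le) (Real.rpow_le_rpow b1 b2 (by linarith))
      (Real.rpow_nonneg b1 _) (Real.rpow_nonneg (Real.exp_pos _).le _)
  by_cases hw0 : w = 0
  · have h3 := hin x
    rw [hw0, inner_zero_right] at h3
    rw [← h3, abs_zero]
    exact (Real.exp_pos _).le
  · rw [abs_le]
    constructor
    · have h4 := key (-w) (neg_ne_zero.2 hw0) (fun y => by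
        rw [inner_neg_right, hin]
        exact neg_le_abs _)
      rw [inner_neg_right, hin] at h4
      linarith
    · have h4 := key w hw0 (fun y => by
        rw [hin]
        exact le_abs_self _)
      rwa [hin] at h4

theorem t_CU2 (_hHH : S_HH) (hLB : S_LB) : S_CU2 := by
  intro n L hL s t l h0 h1
  have hR : ∀ K : Set (EuclideanSpace ℝ (Fin 2)), Ref K := by
    intro K j hj
    have := j.2
    omega
  have h := hLB 2 le_rfl _ _ (1 - l) (cu2_sb L hL s) (cu2_sb L hL t) (hR _) (hR _)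
    (by linarith) (by linarith)
  rw [sub_sub_cancel] at h
  exact h.trans (measure_mono (cu2_sub L s t l h0 h1))

end H354ZN
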