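import Pool.Agent.H354R3.ZN.Defs6

/-!
# Measurability of the volume of sections of rescaled cubes
-/

set_option autoImplicit false

open MeasureTheory Filter

namespace H354ZN

theorem t_CUM : S_CUM := by
  intro k n L τ
  have hL : Continuous L := L.continuous_of_finiteDimensional
  have hc : IsClosed {q : (Fin n → ℝ) × EuclideanSpace ℝ (Fin k) |
      ∀ i, |L q.2 i| ≤ Real.exp (τ i + q.1 i)} := by
    have : {q : (Fin n → ℝ) × EuclideanSpace ℝ (Fin k) |
        ∀ i, |L q.2 i| ≤ Real.exp (τ i + q.1 i)} =
        ⋂ i, {q : (Fin n → ℝ) × EuclideanSpace ℝ (Fin k) |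
          |L q.2 i| ≤ Real.exp (τ i + q.1 i)} := by
      ext q
      simp
    rw [this]
    refine isClosed_iInter fun i => isClosed_le ?_ ?_
    · exact ((continuous_apply i).comp (hL.comp continuous_snd)).abs
    · exact Real.continuous_exp.comp
        (continuous_const.add ((continuous_apply i).comp continuous_fst))
  exact measurable_measure_prodMk_left hc.measurableSet

end H354ZN
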