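import Pool.Agent.H354R3.ZN.Defs5
import Pool.Agent.Results.MP_10bc19_gt.SectionsBelowTwo

/-!
# Two-dimensional sections of rescaled `ℓ_p` balls: from the cube to every `p` (helper354)
-/

set_option autoImplicit false

open MeasureTheory Filter
open scoped Matrix Pointwise Topology ENNReal
open Pool.Agent.Results.MP_10bc19_gt.SectionsBelowTwo

namespace H354ZN

/-- `k`-dimensional sections of rescaled cubes: `L` embeds `ℝ^k` in `ℝ^n` -/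
def CU (k : ℕ) : Prop := ∀ (n : ℕ) (L : EuclideanSpace ℝ (Fin k) →ₗ[ℝ] (Fin n → ℝ)),
  Function.Injective L → ∀ (s t : Fin n → ℝ) (l : ℝ), 0 < l → l < 1 →
  volume {y : EuclideanSpace ℝ (Fin k) | ∀ i, |L y i| ≤ Real.exp (s i)} ^ l *
    volume {y : EuclideanSpace ℝ (Fin k) | ∀ i, |L y i| ≤ Real.exp (t i)} ^ (1 - l) ≤
  volume {y : EuclideanSpace ℝ (Fin k) | ∀ i, |L y i| ≤ Real.exp (l * s i + (1 - l) * t i)}

/-- (CU2) -/
def S_CU2 : Prop := CU 2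

/-- the weight: the density of `log` of the radius in the mixture -/
noncomputable def wt (p a : ℝ) : ℝ≥0∞ := ENNReal.ofReal (p * Real.exp (p * a - Real.exp (p * a)))

open Classical in
/-- (MIX) `exp (-|x|^p)` is a mixture of indicators of intervals -/
def S_MIX : Prop := ∀ p x τ : ℝ, 0 < p →
  ∫⁻ a : ℝ, (if |x| ≤ Real.exp (τ + a) then 1 else 0) * wt p a =
    ENNReal.ofReal (Real.exp (-(Real.exp (-(p * τ)) * |x| ^ p)))

open Classical in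
/-- (MIXN) -/
def S_MIXN : Prop := ∀ (n : ℕ) (p : ℝ) (x τ : Fin n → ℝ), 0 < p →
  ∫⁻ a : Fin n → ℝ, (if ∀ i, |x i| ≤ Real.exp (τ i + a i) then 1 else 0) * ∏ i, wt p (a i) =
    ENNReal.ofReal (Real.exp (-∑ i, Real.exp (-(p * τ i)) * |x i| ^ p))

/-- (CUM) measurability -/
def S_CUM : Prop := ∀ (k n : ℕ) (L : EuclideanSpace ℝ (Fin k) →ₗ[ℝ] (Fin n → ℝ)) (τ : Fin n → ℝ),
  Measurable fun a : Fin n → ℝ =>
    volume {y : EuclideanSpace ℝ (Fin k) | ∀ i, |L y i| ≤ Real.exp (τ i + a i)}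

/-- (MIXG) -/
def S_MIXG : Prop := ∀ (k n : ℕ) (L : EuclideanSpace ℝ (Fin k) →ₗ[ℝ] (Fin n → ℝ)) (p : ℝ)
  (τ : Fin n → ℝ), 0 < p →
  ∫⁻ y : EuclideanSpace ℝ (Fin k),
      ENNReal.ofReal (Real.exp (-∑ i, Real.exp (-(p * τ i)) * |L y i| ^ p)) =
    ∫⁻ a : Fin n → ℝ, volume {y : EuclideanSpace ℝ (Fin k) |
      ∀ i, |L y i| ≤ Real.exp (τ i + a i)} * ∏ i, wt p (a i)

/-- (WLC) the weight is log-concave -/
def S_WLC : Prop := ∀ (n : ℕ) (p : ℝ) (a b : Fin n → ℝ), 0 < p →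
  (∏ i, wt p (a i)) ^ (1 / 2 : ℝ) * (∏ i, wt p (b i)) ^ (1 / 2 : ℝ) ≤
    ∏ i, wt p ((a i + b i) / 2)

/-- (TPK) from the cube to every exponent -/
def S_TPK : Prop := ∀ k : ℕ, CU k → ∀ (n : ℕ)
  (L : EuclideanSpace ℝ (Fin k) →ₗ[ℝ] (Fin n → ℝ)), Function.Injective L → ∀ q : ℝ, 0 < q →
  TP (volume : Measure (EuclideanSpace ℝ (Fin k))) (fun j x => |L x j| ^ q) (fun _ => 1)
    (fun _ => 1) (fun _ => 1)

/-- (SEK) sections by the images of isometric embeddings -/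
def S_SEK : Prop := ∀ k : ℕ, 1 ≤ k → CU k → ∀ (p : ℝ), 1 ≤ p → ∀ (n : ℕ)
  (A : EuclideanSpace ℝ (Fin k) →ₗᵢ[ℝ] EuclideanSpace ℝ (Fin n)),
  (∀ t : Fin n → ℝ, 0 < sectionVolume p A t) ∧
    ConcaveOn ℝ Set.univ (fun t : Fin n → ℝ => Real.log (sectionVolume p A t))

/-- (CNV) Lebesgue measure on a subspace `H` and on `ℝ^k` -/
def S_CNV : Prop := ∀ (k n : ℕ) (H : Submodule ℝ (EuclideanSpace ℝ (Fin n)))
  (A : EuclideanSpace ℝ (Fin k) →ₗᵢ[ℝ] EuclideanSpace ℝ (Fin n)),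
  LinearMap.range A.toLinearMap = H → ∀ S : Set (EuclideanSpace ℝ (Fin n)),
  volume {y : H | (y : EuclideanSpace ℝ (Fin n)) ∈ S} =
    volume {u : EuclideanSpace ℝ (Fin k) | A u ∈ S}

end H354ZN
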