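import Pool.Agent.H910R2.HS.Sec
import Pool.Agent.H354R3.ZN.Defs6

/-!
Hyperplane sections of rescaled `ℓ_p` balls are log-concave, for every `p ≥ 1`.

By Busemann's theorem `N q = |q| / vol (B ∩ q^⊥)` is a norm on `ℝⁿ` (`B` the `ℓ_p` ball); it is
invariant under changes of signs of coordinates, hence monotone in the absolute values of the
coordinates, hence `t ↦ log N (D_t q)` is convex; and
`vol (D_t B ∩ q^⊥) = exp (∑ t) |q| / N (D_t q)`.
-/

set_option autoImplicit false

open MeasureTheory Set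

namespace H354ZN.SP

/-- Euclidean space `ℝⁿ`. -/
abbrev Rn (n : ℕ) : Type := EuclideanSpace ℝ (Fin n)

/-- Linear subspaces of `ℝⁿ`. -/
abbrev Sub (n : ℕ) : Type := Submodule ℝ (Rn n)

/-- Lebesgue measure in a finite-dimensional Euclidean space, as a real number. -/
noncomputable def vol {V : Type} [NormedAddCommGroup V] [InnerProductSpace ℝ V]
    [FiniteDimensional ℝ V] [MeasurableSpace V] [BorelSpace V] (S : Set V) : ℝ := (volume S).toReal

/-- The closed unit ball of `ℓ_p^n`. -/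
def lpBall (p : ℝ) (n : ℕ) : Set (Rn n) := {x | ∑ i, |x i| ^ p ≤ 1}

/-- The map `D_t`, the diagonal matrix with entries `exp (t i)`. -/
noncomputable def scale {n : ℕ} (t : Fin n → ℝ) (x : Rn n) : Rn n :=
  WithLp.toLp 2 (fun i => Real.exp (t i) * x i)

/-- The section `D_t B_p^n ∩ H`, as a subset of `H`. -/
def lpSection {n : ℕ} (p : ℝ) (H : Sub n) (t : Fin n → ℝ) : Set H :=
  {y | (y : Rn n) ∈ scale t '' lpBall p n}

/-- `F_{p,H}(t)`: the Lebesgue measure, on the subspace `H`, of `D_t B_p^n ∩ H`. -/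
noncomputable def F {n : ℕ} (p : ℝ) (H : Sub n) (t : Fin n → ℝ) : ℝ := vol (lpSection p H t)

/-- The dimension of `H`. -/
noncomputable def dim {n : ℕ} (H : Sub n) : ℕ := Module.finrank ℝ H

theorem lp_body (p : ℝ) (hp : 1 ≤ p) (n : ℕ) : Pool.Agent.H638.IB.Body (lpBall p n) := by
  have hp0 : 0 < p := by linarith
  have hcont : Continuous (fun x : EuclideanSpace ℝ (Fin n) => ∑ i, |x i| ^ p) := by
    refine continuous_finsetSum _ fun i _ => ?_
    have h1 : Continuous (fun x : EuclideanSpace ℝ (Fin n) => |x i|) := by fun_prop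
    exact h1.rpow_const fun x => Or.inr hp0.le
  have hcl : IsClosed (lpBall p n) := isClosed_le hcont continuous_const
  have hle : ∀ x ∈ lpBall p n, ∀ i, |x i| ≤ 1 := by
    intro x hx i
    have h1 : |x i| ^ p ≤ ∑ j, |x j| ^ p :=
      Finset.single_le_sum (f := fun j => |x j| ^ p)
        (fun j _ => Real.rpow_nonneg (abs_nonneg _) _) (Finset.mem_univ i)
    have h2 : |x i| ^ p ≤ 1 := h1.trans hx
    by_contra h
    push Not at h
    exact absurd h2 (not_le.2 (Real.one_lt_rpow h hp0))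
  refine ⟨?_, ?_, ?_, ?_⟩
  · refine Metric.isCompact_of_isClosed_isBounded hcl ?_
    refine Metric.isBounded_iff_subset_closedBall (0 : EuclideanSpace ℝ (Fin n)) |>.2
      ⟨Real.sqrt n, fun x hx => ?_⟩
    rw [mem_closedBall_zero_iff, EuclideanSpace.norm_eq]
    refine Real.sqrt_le_sqrt ?_
    calc ∑ i, ‖x i‖ ^ 2 ≤ ∑ _i : Fin n, (1 : ℝ) := by
          refine Finset.sum_le_sum fun i _ => ?_
          rw [Real.norm_eq_abs]
          exact pow_le_one₀ (abs_nonneg _) (hle x hx i)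
      _ = n := by simp
  · intro x hx y hy a b ha hb hab
    have hterm : ∀ i, |(a • x + b • y) i| ^ p ≤ a * |x i| ^ p + b * |y i| ^ p := by
      intro i
      have h1 : |(a • x + b • y) i| ≤ a * |x i| + b * |y i| := by
        calc |(a • x + b • y) i| = |a * x i + b * y i| := by simp
          _ ≤ |a * x i| + |b * y i| := abs_add_le _ _
          _ = a * |x i| + b * |y i| := by
            rw [abs_mul, abs_mul, abs_of_nonneg ha, abs_of_nonneg hb]
      refine (Real.rpow_le_rpow (abs_nonneg _) h1 hp0.le).trans ?_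
      have h2 := (convexOn_rpow hp).2 (mem_Ici.2 (abs_nonneg (x i))) (mem_Ici.2 (abs_nonneg (y i)))
        ha hb hab
      simpa using h2
    change ∑ i, |(a • x + b • y) i| ^ p ≤ 1
    calc ∑ i, |(a • x + b • y) i| ^ p ≤ ∑ i, (a * |x i| ^ p + b * |y i| ^ p) :=
          Finset.sum_le_sum fun i _ => hterm i
      _ = a * ∑ i, |x i| ^ p + b * ∑ i, |y i| ^ p := by
          rw [Finset.sum_add_distrib, ← Finset.mul_sum, ← Finset.mul_sum]
      _ ≤ a * 1 + b * 1 := add_le_add (mul_le_mul_of_nonneg_left hx ha)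
          (mul_le_mul_of_nonneg_left hy hb)
      _ = 1 := by linarith
  · refine ⟨0, mem_interior.2 ⟨{x | ∑ i, |x i| ^ p < 1}, ?_,
      isOpen_lt hcont continuous_const, ?_⟩⟩
    · intro x hx
      have hx' : ∑ i, |x i| ^ p < 1 := hx
      exact hx'.le
    change ∑ i : Fin n, |(0 : EuclideanSpace ℝ (Fin n)) i| ^ p < 1
    simp [Real.zero_rpow hp0.ne']
  · intro x hx
    change ∑ i, |(-x) i| ^ p ≤ 1
    have : ∑ i, |(-x) i| ^ p = ∑ i, |x i| ^ p := by
      refine Finset.sum_congr rfl fun i _ => ?_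
      simp
    rw [this]
    exact hx

/-- `F_{p,H}` is log-concave when `dim H` is `1`, `n - 1` or `n`, in particular always when
`n ≤ 3`. -/
theorem hyper (p : ℝ) (hp : 1 ≤ p) (n : ℕ) (H : Sub n) (h1 : 1 ≤ dim H)
    (hH : n ≤ 3 ∨ dim H = 1 ∨ dim H + 1 = n ∨ dim H = n) :
    (∀ t : Fin n → ℝ, 0 < F p H t) ∧
      ∀ (s t : Fin n → ℝ) (l : ℝ), 0 ≤ l → l ≤ 1 →
        F p H s ^ l * F p H t ^ (1 - l) ≤ F p H (fun i => l * s i + (1 - l) * t i) := by
  have hu : Pool.Agent.H910.HS.Unc (lpBall p n) := by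
    intro x hx y hy
    change ∑ i, |y i| ^ p ≤ 1
    have : ∑ i, |y i| ^ p = ∑ i, |x i| ^ p := Finset.sum_congr rfl fun i _ => by rw [hy i]
    rw [this]
    exact hx
  rcases hH with h | h
  · exact Pool.Agent.H910.HS.good_small h _ (lp_body p hp n) hu H h1
  · exact Pool.Agent.H910.HS.good_all _ (lp_body p hp n) hu H h1 h



/-- two-dimensional sections -/
theorem two (hSEK : S_SEK) (hCU2 : S_CU2) (hCNV : S_CNV) (p : ℝ) (hp : 1 ≤ p) (n : ℕ) (H : Sub n)
    (h2 : dim H = 2) :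
    (∀ t : Fin n → ℝ, 0 < F p H t) ∧
      ∀ (s t : Fin n → ℝ) (l : ℝ), 0 ≤ l → l ≤ 1 →
        F p H s ^ l * F p H t ^ (1 - l) ≤ F p H (fun i => l * s i + (1 - l) * t i) := by
  obtain ⟨A, hA⟩ :=
    Pool.Agent.Results.MP_10bc19_gt.SectionsBelowTwo.exists_isometry (k := 2) H h2
  have hset : ∀ t : Fin n → ℝ, scale t '' lpBall p n =
      Pool.Agent.Results.MP_10bc19_gt.SectionsBelowTwo.scaled t
        (Pool.Agent.Results.MP_10bc19_gt.SectionsBelowTwo.lpBall p n) := by
    intro t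
    ext x
    constructor
    · rintro ⟨y, hy, rfl⟩
      exact ⟨y, hy, fun i => rfl⟩
    · rintro ⟨y, hy, h⟩
      refine ⟨y, hy, ?_⟩
      ext i
      exact (h i).symm
  have hF : ∀ t : Fin n → ℝ, F p H t =
      Pool.Agent.Results.MP_10bc19_gt.SectionsBelowTwo.sectionVolume p A t := by
    intro t
    unfold F vol lpSection Pool.Agent.Results.MP_10bc19_gt.SectionsBelowTwo.sectionVolume
    rw [hset t, hCNV 2 n H A hA]
  obtain ⟨h0, hc⟩ := hSEK 2 (by norm_num) hCU2 p hp n A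
  refine ⟨fun t => by rw [hF]; exact h0 t, fun s t l hl0 hl1 => ?_⟩
  rw [hF, hF, hF]
  have h3 := hc.2 (Set.mem_univ s) (Set.mem_univ t) hl0 (by linarith : (0 : ℝ) ≤ 1 - l)
    (by ring)
  simp only [smul_eq_mul] at h3
  have e : (l • s + (1 - l) • t) = fun i => l * s i + (1 - l) * t i := by
    ext i
    simp
  rw [e] at h3
  have p1 := h0 s
  have p2 := h0 t
  have p3 := h0 (fun i => l * s i + (1 - l) * t i)
  have h4 := Real.exp_le_exp.2 h3
  rw [Real.exp_log p3] at h4
  refine le_trans (le_of_eq ?_) h4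
  rw [Real.exp_add, Real.rpow_def_of_pos p1, Real.rpow_def_of_pos p2, mul_comm (Real.log _) l,
    mul_comm (Real.log _) (1 - l)]

/-- all sections of dimension `1`, `2`, `n - 1`, `n` -/
theorem fin (hSEK : S_SEK) (hCU2 : S_CU2) (hCNV : S_CNV) (p : ℝ) (hp : 1 ≤ p) (n : ℕ) (H : Sub n)
    (h1 : 1 ≤ dim H) (hH : n ≤ 4 ∨ dim H = 1 ∨ dim H = 2 ∨ dim H + 1 = n ∨ dim H = n) :
    (∀ t : Fin n → ℝ, 0 < F p H t) ∧
      ∀ (s t : Fin n → ℝ) (l : ℝ), 0 ≤ l → l ≤ 1 →
        F p H s ^ l * F p H t ^ (1 - l) ≤ F p H (fun i => l * s i + (1 - l) * t i) := by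
  have hle : dim H ≤ n := by
    have := Submodule.finrank_le H
    simpa [dim] using this
  by_cases h2 : dim H = 2
  · exact two hSEK hCU2 hCNV p hp n H h2
  · refine hyper p hp n H h1 ?_
    omega

end H354ZN.SP
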