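import Pool.Agent.H354R3.ZN.Defs6

/-! Task MIX (helper196): `exp (-|x|^p)` is a mixture of indicators of intervals. -/

set_option autoImplicit false

open MeasureTheory Filter
open scoped Matrix Pointwise Topology ENNReal

namespace H354ZN

theorem MIX_deriv (p a : ℝ) : HasDerivAt (fun a : ℝ => -Real.exp (-Real.exp (p * a)))
    (p * Real.exp (p * a - Real.exp (p * a))) a := by
  have h1 : HasDerivAt (fun a : ℝ => p * a) p a := by
    simpa using (hasDerivAt_id a).const_mul p
  have h2 := h1.exp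
  have h3 : HasDerivAt (fun a : ℝ => -Real.exp (-Real.exp (p * a)))
      (-(Real.exp (-Real.exp (p * a)) * -(Real.exp (p * a) * p))) a := (h2.fun_neg.exp).fun_neg
  refine h3.congr_deriv ?_
  rw [sub_eq_add_neg (p * a), Real.exp_add]
  ring

theorem MIX_tendsto {p : ℝ} (hp : 0 < p) :
    Tendsto (fun a : ℝ => -Real.exp (-Real.exp (p * a))) atTop (𝓝 0) := by
  have h1 : Tendsto (fun a : ℝ => p * a) atTop atTop := tendsto_id.const_mul_atTop hp
  have h2 := Real.tendsto_exp_atTop.comp h1
  have h3 := (Real.tendsto_exp_neg_atTop_nhds_zero.comp h2).neg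
  rw [neg_zero] at h3
  exact h3

/-- the tail integral -/
theorem MIX_tail {p : ℝ} (hp : 0 < p) (a0 : ℝ) :
    ∫⁻ a in Set.Ioi a0, wt p a = ENNReal.ofReal (Real.exp (-Real.exp (p * a0))) := by
  have hpos : ∀ x ∈ Set.Ioi a0, 0 ≤ p * Real.exp (p * x - Real.exp (p * x)) :=
    fun x _ => by positivity
  have h1 := integral_Ioi_of_hasDerivAt_of_nonneg' (a := a0) (fun x _ => MIX_deriv p x) hpos
    (MIX_tendsto hp)
  have h2 := integrableOn_Ioi_deriv_of_nonneg' (a := a0) (fun x _ => MIX_deriv p x) hpos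
    (MIX_tendsto hp)
  unfold wt
  rw [← ofReal_integral_eq_lintegral_ofReal h2
    ((ae_restrict_mem measurableSet_Ioi).mono fun x hx => hpos x hx), h1]
  congr 1
  ring

theorem MIX_meas (p : ℝ) : Measurable (wt p) := by
  unfold wt
  fun_prop

/-- the total integral -/
theorem MIX_total {p : ℝ} (hp : 0 < p) : ∫⁻ a, wt p a = 1 := by
  have hc : AECover (volume : Measure ℝ) atTop fun n : ℕ => Set.Ioi (-(n : ℝ)) :=
    aecover_Ioi (tendsto_neg_atTop_atBot.comp tendsto_natCast_atTop_atTop)
  refine hc.lintegral_eq_of_tendsto 1 (MIX_meas p).aemeasurable ?_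
  simp only [MIX_tail hp]
  have h1 : Tendsto (fun n : ℕ => Real.exp (-Real.exp (p * -(n : ℝ)))) atTop (𝓝 1) := by
    have h2 : Tendsto (fun n : ℕ => p * -(n : ℝ)) atTop atBot :=
      (tendsto_neg_atTop_atBot.comp tendsto_natCast_atTop_atTop).const_mul_atBot hp
    have h3 := (Real.tendsto_exp_atBot.comp h2).neg
    rw [neg_zero] at h3
    have h4 := (Real.continuous_exp.tendsto 0).comp h3
    rw [Real.exp_zero] at h4
    exact h4
  have h5 := (ENNReal.continuous_ofReal.tendsto 1).comp h1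
  rw [ENNReal.ofReal_one] at h5
  exact h5

theorem t_MIX : S_MIX := by
  intro p x τ hp
  by_cases hx : x = 0
  · subst hx
    have h1 : ∀ a : ℝ, |(0 : ℝ)| ≤ Real.exp (τ + a) := fun a => by
      rw [abs_zero]
      positivity
    simp only [h1, if_true, one_mul, MIX_total hp]
    rw [abs_zero, Real.zero_rpow hp.ne', mul_zero, neg_zero, Real.exp_zero, ENNReal.ofReal_one]
  · have hx' : 0 < |x| := abs_pos.2 hx
    have h1 : ∀ a : ℝ, |x| ≤ Real.exp (τ + a) ↔ a ∈ Set.Ici (Real.log |x| - τ) := by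
      intro a
      rw [Set.mem_Ici, ← Real.log_le_iff_le_exp hx']
      constructor <;> intro h <;> linarith
    have h2 : ∀ a : ℝ, (if |x| ≤ Real.exp (τ + a) then (1 : ℝ≥0∞) else 0) * wt p a =
        (Set.Ici (Real.log |x| - τ)).indicator (wt p) a := by
      intro a
      by_cases h : a ∈ Set.Ici (Real.log |x| - τ)
      · rw [if_pos ((h1 a).2 h), one_mul, Set.indicator_of_mem h]
      · rw [if_neg (fun h3 => h ((h1 a).1 h3)), zero_mul, Set.indicator_of_notMem h]
    simp only [h2]
    rw [lintegral_indicator measurableSet_Ici, setLIntegral_congr Ioi_ae_eq_Ici.symm, MIX_tail hp]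
    congr 3
    rw [mul_sub, sub_eq_neg_add, Real.exp_add, Real.rpow_def_of_pos hx', mul_comm p (Real.log |x|)]

end H354ZN
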