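import Pool.Agent.H354R3.ZN.Defs6

/-!
# Task MIXG (helper66)
-/

set_option autoImplicit false

open MeasureTheory Filter
open scoped Matrix Pointwise Topology ENNReal

namespace H354ZN

open Classical in
theorem t_MIXG (hMIXN : S_MIXN) : S_MIXG := by
  intro k n L p τ hp
  have hL : Continuous L := L.continuous_of_finiteDimensional
  have hw : Measurable (wt p) := by
    unfold wt
    exact ENNReal.measurable_ofReal.comp
      (measurable_const.mul (Real.measurable_exp.comp
        ((measurable_const.mul measurable_id).sub
          (Real.measurable_exp.comp (measurable_const.mul measurable_id)))))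
  have hW : Measurable (fun a : Fin n → ℝ => ∏ i, wt p (a i)) :=
    Finset.measurable_fun_prod _ (fun i _ => hw.comp (measurable_pi_apply i))
  have hset : MeasurableSet {q : EuclideanSpace ℝ (Fin k) × (Fin n → ℝ) |
      ∀ i, |L q.1 i| ≤ Real.exp (τ i + q.2 i)} := by
    rw [show {q : EuclideanSpace ℝ (Fin k) × (Fin n → ℝ) |
      ∀ i, |L q.1 i| ≤ Real.exp (τ i + q.2 i)} =
      ⋂ i, {q : EuclideanSpace ℝ (Fin k) × (Fin n → ℝ) | |L q.1 i| ≤ Real.exp (τ i + q.2 i)} by
        ext q
        simp only [Set.mem_ofPred_eq, Set.mem_iInter]]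
    refine (isClosed_iInter fun i => ?_).measurableSet
    refine isClosed_le ?_ ?_
    · exact continuous_abs.comp ((continuous_apply i).comp (hL.comp continuous_fst))
    · exact Real.continuous_exp.comp
        (continuous_const.add ((continuous_apply i).comp continuous_snd))
  have hjoint : Measurable (Function.uncurry fun (y : EuclideanSpace ℝ (Fin k)) (a : Fin n → ℝ) =>
      (if ∀ i, |L y i| ≤ Real.exp (τ i + a i) then (1 : ℝ≥0∞) else 0) * ∏ i, wt p (a i)) := by
    refine Measurable.mul ?_ (hW.comp measurable_snd)
    exact Measurable.ite hset measurable_const measurable_const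
  calc ∫⁻ y : EuclideanSpace ℝ (Fin k),
        ENNReal.ofReal (Real.exp (-∑ i, Real.exp (-(p * τ i)) * |L y i| ^ p))
      = ∫⁻ y : EuclideanSpace ℝ (Fin k), ∫⁻ a : Fin n → ℝ,
          (if ∀ i, |L y i| ≤ Real.exp (τ i + a i) then (1 : ℝ≥0∞) else 0) * ∏ i, wt p (a i) := by
        refine lintegral_congr fun y => ?_
        exact (hMIXN n p (L y) τ hp).symm
    _ = ∫⁻ a : Fin n → ℝ, ∫⁻ y : EuclideanSpace ℝ (Fin k),
          (if ∀ i, |L y i| ≤ Real.exp (τ i + a i) then (1 : ℝ≥0∞) else 0) * ∏ i, wt p (a i) :=
        lintegral_lintegral_swap hjoint.aemeasurable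
    _ = _ := by
        refine lintegral_congr fun a => ?_
        have hs : MeasurableSet {y : EuclideanSpace ℝ (Fin k) |
            ∀ i, |L y i| ≤ Real.exp (τ i + a i)} := measurable_prodMk_right hset
        have hm : Measurable fun y : EuclideanSpace ℝ (Fin k) =>
            (if ∀ i, |L y i| ≤ Real.exp (τ i + a i) then (1 : ℝ≥0∞) else 0) :=
          Measurable.ite hs measurable_const measurable_const
        rw [lintegral_mul_const _ hm]
        congr 1
        rw [← lintegral_indicator_one hs]
        refine lintegral_congr fun y => ?_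
        rw [Set.indicator_apply]
        rfl

end H354ZN
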