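import Pool.Agent.H354R3.ZN.Defs6

/-!
# Project ZN (helper354), task MIXN
-/

set_option autoImplicit false

open MeasureTheory Filter
open scoped Matrix Pointwise Topology ENNReal

namespace H354ZN

theorem mixn_prod (n : ℕ) (f : Fin n → ℝ → ℝ≥0∞) (hf : ∀ i, Measurable (f i)) :
    ∫⁻ a : Fin n → ℝ, ∏ i, f i (a i) = ∏ i, ∫⁻ r, f i r := by
  induction n with
  | zero => simp [volume_pi]
  | succ n ih =>
    have hg : Measurable fun y : Fin n → ℝ => ∏ i : Fin n, f (Fin.succ i) (y i) :=
      Finset.measurable_prod _ fun i _ => (hf _).comp (measurable_pi_apply i)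
    calc ∫⁻ a : Fin (n + 1) → ℝ, ∏ i, f i (a i)
        = ∫⁻ x : ℝ × (Fin n → ℝ), f 0 x.1 * ∏ i : Fin n, f (Fin.succ i) (x.2 i)
            ∂((volume : Measure ℝ).prod (Measure.pi fun _ : Fin n => (volume : Measure ℝ))) := by
          rw [volume_pi, ((measurePreserving_piFinSuccAbove
            (fun _ : Fin (n + 1) => (volume : Measure ℝ)) 0).symm).lintegral_map_equiv _
            (MeasurableEquiv.piFinSuccAbove (fun _ => ℝ) 0).symm]
          simp_rw [MeasurableEquiv.piFinSuccAbove_symm_apply, Fin.insertNthEquiv,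
            Fin.prod_univ_succ, Fin.insertNth_zero, Equiv.coe_fn_mk, Fin.cons_succ,
            Fin.cons_zero]
          rfl
      _ = (∫⁻ r, f 0 r) * ∏ i : Fin n, ∫⁻ r, f (Fin.succ i) r := by
          rw [← ih _ (fun i => hf _), volume_pi]
          exact lintegral_prod_mul (hf 0).aemeasurable hg.aemeasurable
      _ = ∏ i, ∫⁻ r, f i r := by rw [Fin.prod_univ_succ]

theorem mixn_wt (p : ℝ) : Measurable (wt p) := by
  unfold wt
  fun_prop

theorem t_MIXN (hMIX : S_MIX) : S_MIXN := by
  classical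
  intro n p x τ hp
  have h1 : ∀ a : Fin n → ℝ,
      (if ∀ i, |x i| ≤ Real.exp (τ i + a i) then (1 : ℝ≥0∞) else 0) * ∏ i, wt p (a i) =
      ∏ i, ((if |x i| ≤ Real.exp (τ i + a i) then (1 : ℝ≥0∞) else 0) * wt p (a i)) := by
    intro a
    rw [Finset.prod_mul_distrib]
    congr 1
    by_cases h : ∀ i, |x i| ≤ Real.exp (τ i + a i)
    · rw [if_pos h, Finset.prod_eq_one]
      intro i _
      rw [if_pos (h i)]
    · rw [if_neg h]
      push Not at h
      obtain ⟨i, hi⟩ := h
      symm
      apply Finset.prod_eq_zero (Finset.mem_univ i)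
      rw [if_neg (not_le.2 hi)]
  have h2 : ∀ i, ∫⁻ r : ℝ, (if |x i| ≤ Real.exp (τ i + r) then (1 : ℝ≥0∞) else 0) * wt p r =
      ENNReal.ofReal (Real.exp (-(Real.exp (-(p * τ i)) * |x i| ^ p))) := by
    intro i
    rw [← hMIX p (x i) (τ i) hp]
  have h3 := mixn_prod n
    (fun i r => (if |x i| ≤ Real.exp (τ i + r) then (1 : ℝ≥0∞) else 0) * wt p r) (by
      intro i
      apply Measurable.mul _ (mixn_wt p)
      apply Measurable.ite _ measurable_const measurable_const
      exact measurableSet_le measurable_const (by fun_prop))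
  calc _ = ∫⁻ a : Fin n → ℝ,
        ∏ i, ((if |x i| ≤ Real.exp (τ i + a i) then (1 : ℝ≥0∞) else 0) * wt p (a i)) := by
        apply lintegral_congr
        intro a
        rw [← h1 a]
    _ = ∏ i, ENNReal.ofReal (Real.exp (-(Real.exp (-(p * τ i)) * |x i| ^ p))) := by
        rw [h3]
        exact Finset.prod_congr rfl fun i _ => h2 i
    _ = _ := by
        rw [← ENNReal.ofReal_prod_of_nonneg (fun i _ => (Real.exp_pos _).le), ← Real.exp_sum,
          Finset.sum_neg_distrib]

end H354ZN
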