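import Pool.Agent.H354R3.ZN.Defs6

/-!
# Sections by the images of isometric embeddings, for every exponent
-/

set_option autoImplicit false

open MeasureTheory Filter
open scoped Matrix Pointwise Topology ENNReal
open Pool.Agent.Results.MP_10bc19_gt.SectionsBelowTwo

namespace H354ZN

theorem t_SEK (hTPK : S_TPK) : S_SEK := by
  intro k hk hCU p hp n A
  haveI : Nonempty (Fin k) := ⟨⟨0, hk⟩⟩
  haveI : Nontrivial (EuclideanSpace ℝ (Fin k)) := inferInstance
  let L : EuclideanSpace ℝ (Fin k) →ₗ[ℝ] (Fin n → ℝ) :=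
    (WithLp.linearEquiv 2 ℝ (Fin n → ℝ)).toLinearMap ∘ₗ A.toLinearMap
  have hL : Function.Injective L :=
    (WithLp.linearEquiv 2 ℝ (Fin n → ℝ)).injective.comp A.injective
  have hLdef : ∀ (x : EuclideanSpace ℝ (Fin k)) (j : Fin n), L x j = A x j := fun x j => rfl
  have hset : ∀ t : Fin n → ℝ, sectionVolume p A t
      = (volume {x | ∑ j, Real.exp (-(p * t j)) * |L x j| ^ p ≤ 1}).toReal := by
    intro t
    unfold sectionVolume
    rw [section_set p A t L hLdef]
  simp only [hset]
  exact ⟨(volume_continuous volume L hL p (by linarith)).1,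
    concave_of_TP volume L hL p hp (hTPK k hCU n L hL p (by linarith))⟩

end H354ZN
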