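import Pool.Agent.H354R3.ZN.Defs6
import Pool.Agent.PZ871.Pl

/-!
# (TPK) from sections of rescaled cubes to sections of rescaled `ℓ_q` balls, every `q > 0`
-/

set_option autoImplicit false

open MeasureTheory Filter
open scoped ENNReal
open Pool.Agent.Results.MP_10bc19_gt.SectionsBelowTwo

namespace H354ZN

theorem tpk_sq (A B C : ℝ≥0∞) (h : A ^ (1 / 2 : ℝ) * B ^ (1 / 2 : ℝ) ≤ C) : A * B ≤ C ^ 2 := by
  have e : ∀ x : ℝ≥0∞, (x ^ (1 / 2 : ℝ)) ^ 2 = x := by
    intro x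
    rw [← ENNReal.rpow_natCast, ← ENNReal.rpow_mul]
    norm_num
  calc A * B = (A ^ (1 / 2 : ℝ) * B ^ (1 / 2 : ℝ)) ^ 2 := by rw [mul_pow, e, e]
    _ ≤ C ^ 2 := by gcongr

theorem tpk_wt_meas (q : ℝ) : Measurable (wt q) := by
  unfold wt
  fun_prop

theorem tpk_prod_meas (n : ℕ) (q : ℝ) : Measurable fun a : Fin n → ℝ => ∏ i, wt q (a i) :=
  Finset.measurable_fun_prod _ fun i _ => (tpk_wt_meas q).comp (measurable_pi_apply i)

theorem t_TPK (hMIXG : S_MIXG) (hCUM : S_CUM) (hWLC : S_WLC) : S_TPK := by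
  intro k hCU n L hL q hq v v' hv hv'
  set τ : Fin n → ℝ := fun j => -Real.log (v j) / q with hτ
  set τ' : Fin n → ℝ := fun j => -Real.log (v' j) / q with hτ'
  set σ : Fin n → ℝ := fun j => (τ j + τ' j) / 2 with hσ
  have key : ∀ (w ρ : Fin n → ℝ), (∀ j, w j = Real.exp (-(q * ρ j))) →
      G (volume : Measure (EuclideanSpace ℝ (Fin k))) (fun j x => |L x j| ^ q) (fun _ => 1) w =
      ∫⁻ a : Fin n → ℝ, volume {y : EuclideanSpace ℝ (Fin k) |
      ∀ i, |L y i| ≤ Real.exp (ρ i + a i)} * ∏ i, wt q (a i) := by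
    intro w ρ hw
    rw [← hMIXG k n L q ρ hq]
    unfold G
    simp only [mul_one, hw]
  have e1 : ∀ j, v j = Real.exp (-(q * τ j)) := by
    intro j
    have : -(q * τ j) = Real.log (v j) := by
      simp only [hτ]; field_simp
    rw [this, Real.exp_log (hv j)]
  have e2 : ∀ j, v' j = Real.exp (-(q * τ' j)) := by
    intro j
    have : -(q * τ' j) = Real.log (v' j) := by
      simp only [hτ']; field_simp
    rw [this, Real.exp_log (hv' j)]
  have e3 : ∀ j, Real.sqrt (v j * v' j) = Real.exp (-(q * σ j)) := by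
    intro j
    have : v j * v' j = Real.exp (-(q * σ j)) ^ 2 := by
      rw [e1 j, e2 j, ← Real.exp_add, ← Real.exp_nat_mul]
      congr 1
      simp only [hσ]
      push_cast
      ring
    rw [this, Real.sqrt_sq (Real.exp_pos _).le]
  rw [key v τ e1, key v' τ' e2, key _ σ e3]
  refine Pool.Agent.PZ871.PLaux.pln n _ _ _ ((hCUM k n L τ).mul (tpk_prod_meas n q))
    ((hCUM k n L τ').mul (tpk_prod_meas n q)) ((hCUM k n L σ).mul (tpk_prod_meas n q)) ?_
  intro s t
  have h1 := tpk_sq _ _ _ (hWLC n q s t hq)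
  have h2 := hCU n L hL (fun i => τ i + s i) (fun i => τ' i + t i) (1 / 2) (by norm_num)
    (by norm_num)
  have e4 : (1 : ℝ) - 1 / 2 = 1 / 2 := by norm_num
  have e5 : ∀ i, (1 / 2 : ℝ) * (τ i + s i) + (1 - 1 / 2) * (τ' i + t i) =
      σ i + (s i + t i) / 2 := by
    intro i
    simp only [hσ]
    ring
  simp only [e5] at h2
  rw [e4] at h2
  have h3 := tpk_sq _ _ _ h2
  calc _ = (volume {y : EuclideanSpace ℝ (Fin k) | ∀ i, |L y i| ≤ Real.exp (τ i + s i)} *
        volume {y : EuclideanSpace ℝ (Fin k) | ∀ i, |L y i| ≤ Real.exp (τ' i + t i)}) *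
        ((∏ i, wt q (s i)) * ∏ i, wt q (t i)) := by ring
    _ ≤ (volume {y : EuclideanSpace ℝ (Fin k) |
          ∀ i, |L y i| ≤ Real.exp (σ i + (s i + t i) / 2)}) ^ 2 *
        (∏ i, wt q ((s i + t i) / 2)) ^ 2 := mul_le_mul' h3 h1
    _ = _ := by rw [mul_pow]

end H354ZN
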