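import Pool.Agent.H354R3.ZN.Defs6

/-! (WLC) the weight is log-concave -/

namespace H354ZN

open scoped ENNReal

theorem wlc_real (p a b : ℝ) (hp : 0 < p) :
    (p * Real.exp (p * a - Real.exp (p * a))) ^ (1 / 2 : ℝ) *
      (p * Real.exp (p * b - Real.exp (p * b))) ^ (1 / 2 : ℝ) ≤
    p * Real.exp (p * ((a + b) / 2) - Real.exp (p * ((a + b) / 2))) := by
  have e : ∀ c : ℝ, (p * Real.exp (p * c - Real.exp (p * c))) ^ (1 / 2 : ℝ) =
      p ^ (1 / 2 : ℝ) * Real.exp ((p * c - Real.exp (p * c)) * (1 / 2)) := by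
    intro c
    rw [Real.mul_rpow hp.le (Real.exp_pos _).le, ← Real.exp_mul]
  rw [e, e]
  have h1 : p ^ (1 / 2 : ℝ) * p ^ (1 / 2 : ℝ) = p := by
    rw [← Real.rpow_add hp]; norm_num
  have h2 : p ^ (1 / 2 : ℝ) * Real.exp ((p * a - Real.exp (p * a)) * (1 / 2)) *
      (p ^ (1 / 2 : ℝ) * Real.exp ((p * b - Real.exp (p * b)) * (1 / 2))) =
      p * Real.exp ((p * a - Real.exp (p * a)) * (1 / 2) +
        (p * b - Real.exp (p * b)) * (1 / 2)) := by
    rw [Real.exp_add]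
    calc _ = (p ^ (1 / 2 : ℝ) * p ^ (1 / 2 : ℝ)) *
        (Real.exp ((p * a - Real.exp (p * a)) * (1 / 2)) *
          Real.exp ((p * b - Real.exp (p * b)) * (1 / 2))) := by ring
      _ = _ := by rw [h1]
  rw [h2]
  apply mul_le_mul_of_nonneg_left _ hp.le
  apply Real.exp_le_exp.mpr
  have hx : Real.exp (p * a) = Real.exp (p * a / 2) ^ 2 := by
    rw [← Real.exp_nat_mul]; congr 1; push_cast; ring
  have hy : Real.exp (p * b) = Real.exp (p * b / 2) ^ 2 := by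
    rw [← Real.exp_nat_mul]; congr 1; push_cast; ring
  have hz : Real.exp (p * ((a + b) / 2)) = Real.exp (p * a / 2) * Real.exp (p * b / 2) := by
    rw [← Real.exp_add]; congr 1; ring
  rw [hx, hy, hz]
  nlinarith [sq_nonneg (Real.exp (p * a / 2) - Real.exp (p * b / 2))]

theorem wlc_one (p a b : ℝ) (hp : 0 < p) :
    (wt p a) ^ (1 / 2 : ℝ) * (wt p b) ^ (1 / 2 : ℝ) ≤ wt p ((a + b) / 2) := by
  have hpos : ∀ c : ℝ, 0 < p * Real.exp (p * c - Real.exp (p * c)) := fun c =>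
    mul_pos hp (Real.exp_pos _)
  unfold wt
  rw [ENNReal.ofReal_rpow_of_pos (hpos a), ENNReal.ofReal_rpow_of_pos (hpos b),
    ← ENNReal.ofReal_mul (Real.rpow_nonneg (hpos a).le _)]
  exact ENNReal.ofReal_le_ofReal (wlc_real p a b hp)

theorem t_WLC : S_WLC := by
  intro n p a b hp
  have hh : (0 : ℝ) ≤ 1 / 2 := by norm_num
  rw [← ENNReal.prod_rpow_of_nonneg hh, ← ENNReal.prod_rpow_of_nonneg hh,
    ← Finset.prod_mul_distrib]
  exact Finset.prod_le_prod' fun i _ => wlc_one p (a i) (b i) hp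

end H354ZN
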