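import Pool.Agent.H354R3.ZN.All3
import Pool.Agent.H354R3.ZN.CU2
import Pool.Agent.H354R3.ZN.MIX
import Pool.Agent.H354R3.ZN.MIXN
import Pool.Agent.H354R3.ZN.CUM
import Pool.Agent.H354R3.ZN.MIXG
import Pool.Agent.H354R3.ZN.WLC
import Pool.Agent.H354R3.ZN.TPK
import Pool.Agent.H354R3.ZN.SEK
import Pool.Agent.H354R3.ZN.CNV
import Pool.Agent.H354R3.ZN.FIN6

/-!
# Two-dimensional sections of rescaled `ℓ_p` balls: assembly (helper354)
-/

set_option autoImplicit false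

namespace H354ZN

theorem a_CU2 : S_CU2 := t_CU2 t_HH a_LB

theorem a_TPK : S_TPK := t_TPK (t_MIXG (t_MIXN t_MIX)) t_CUM t_WLC

theorem a_SEK : S_SEK := t_SEK a_TPK


end H354ZN
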