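import Pool.Agent.H354R3.ZN.Defs3

/-! Zonoid project, task DENSE. -/

set_option autoImplicit false

open MeasureTheory Filter
open scoped Matrix Pointwise Topology

namespace H354ZN

theorem t_DENSE (hHH : S_HH) (hGRAD : S_GRAD) (hGRH : S_GRH) : S_DENSE := by
  intro n K L c hn hK hL hc hae x hx
  obtain ⟨-, -, -, -, -, -, -, hKmem, hKpos, hKcont⟩ := hHH n K hK
  obtain ⟨-, -, -, -, hLle, -, -, -, -, -⟩ := hHH n L hL
  obtain ⟨-, -, R, hR, hRle⟩ := hGRH n K hK
  have hgr := hGRAD n K hn hK
  rw [Set.mem_smul_set_iff_inv_smul_mem₀ hc.ne', hKmem,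
    gauge_smul_of_nonneg (by positivity : (0 : ℝ) ≤ c⁻¹), smul_eq_mul, inv_mul_le_iff₀ hc, mul_one]
  by_contra hcon
  push Not at hcon
  set g := gauge K x with hg
  have hg0 : 0 < g := hc.trans hcon
  set x' : EuclideanSpace ℝ (Fin n) := (2 * g)⁻¹ • x with hx'
  have hgx' : gauge K x' = 1 / 2 := by
    rw [hx', gauge_smul_of_nonneg (by positivity), smul_eq_mul, ← hg]
    field_simp
  have hxx' : x = (2 * g) • x' := by
    rw [hx', smul_smul, mul_inv_cancel₀ (by positivity), one_smul]
  set U : Set (EuclideanSpace ℝ (Fin n)) :=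
    {y | c < 2 * g * (gauge K y - R * ‖x' - y‖) ∧ gauge K y < 1} with hU
  have hUo : IsOpen U := by
    have h1 : Continuous fun y : EuclideanSpace ℝ (Fin n) => 2 * g * (gauge K y - R * ‖x' - y‖) := by
      fun_prop
    exact (isOpen_lt continuous_const h1).inter (isOpen_lt hKcont continuous_const)
  have hUx : x' ∈ U := by
    refine ⟨?_, ?_⟩
    · change c < 2 * g * (gauge K x' - R * ‖x' - x'‖)
      rw [hgx', sub_self, norm_zero]
      linarith
    · change gauge K x' < 1
      rw [hgx']
      norm_num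
  have hpos : 0 < volume U := hUo.measure_pos volume ⟨x', hUx⟩
  have hzero : volume U = 0 := by
    have h1 : ∀ᵐ y : EuclideanSpace ℝ (Fin n), y ∉ U := by
      filter_upwards [hgr, hae] with y hy1 hy2 hyU
      obtain ⟨hyU1, hyU2⟩ := hyU
      obtain ⟨-, -, -, hin, -, -, -⟩ := hy1
      have h2 := hy2 ((hKmem y).2 hyU2.le)
      have h3 := (le_abs_self _).trans ((hLle x hx (gg K y)).trans h2)
      rw [hxx', real_inner_smul_left] at h3
      have h4 : inner ℝ x' (gg K y) = gauge K y + inner ℝ (x' - y) (gg K y) := by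
        rw [inner_sub_left, hin]
        ring
      have h5 : -(R * ‖x' - y‖) ≤ inner ℝ (x' - y) (gg K y) := by
        have h6 := abs_real_inner_le_norm (x' - y) (gg K y)
        have h7 : ‖x' - y‖ * ‖gg K y‖ ≤ R * ‖x' - y‖ := by
          rw [mul_comm]
          exact mul_le_mul_of_nonneg_right (hRle y) (norm_nonneg _)
        have h8 := neg_abs_le (inner ℝ (x' - y) (gg K y))
        linarith
      have h9 : 2 * g * (gauge K y - R * ‖x' - y‖) ≤ 2 * g * inner ℝ x' (gg K y) := by
        apply mul_le_mul_of_nonneg_left _ (by positivity)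
        linarith
      linarith
    rw [ae_iff] at h1
    simpa using h1
  exact hpos.ne' hzero

end H354ZN
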