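import Pool.Agent.H354R3.ZN.Defs

/-!
# Final forms: log-Brunn-Minkowski (and L_p, B-conjecture, sections) when the middle body is a
zonotope.  `Prop`s `S_XXX` (helper354)
-/

set_option autoImplicit false

open MeasureTheory
open scoped Matrix Pointwise

namespace H354ZN

/-- origin-symmetric convex body in Euclidean space -/
structure SB {n : ℕ} (K : Set (EuclideanSpace ℝ (Fin n))) : Prop where
  conv : Convex ℝ K
  comp : IsCompact K
  zero : (0 : EuclideanSpace ℝ (Fin n)) ∈ interior K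
  symm : ∀ x ∈ K, -x ∈ K

/-- support function -/
noncomputable def hh {n : ℕ} (K : Set (EuclideanSpace ℝ (Fin n))) (u : EuclideanSpace ℝ (Fin n)) :
    ℝ := sSup ((fun y => inner ℝ y u) '' K)

/-- the zonotope `∑ [-z_j, z_j]` in Euclidean space -/
def ZonE {n N : ℕ} (z : Fin N → EuclideanSpace ℝ (Fin n)) : Set (EuclideanSpace ℝ (Fin n)) :=
  {x | ∃ t : Fin N → ℝ, (∀ j, |t j| ≤ 1) ∧ x = ∑ j, t j • z j}

/-- `K` is a zonotope (centred at the origin): a finite sum of segments `[-z_j, z_j]` -/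
def IsZonotope {n : ℕ} (K : Set (EuclideanSpace ℝ (Fin n))) : Prop :=
  ∃ (N : ℕ) (z : Fin N → EuclideanSpace ℝ (Fin n)), K = ZonE z

/-- (ZM) the general form: `M` is the Wulff shape of a continuous positive homogeneous `f`, a
zonotope; `l i` bounds the support function of `K i`, and `∏ (l i u)^(t i) ≤ f u` -/
def S_ZM : Prop := ∀ (n q : ℕ) (f : EuclideanSpace ℝ (Fin n) → ℝ)
  (K : Fin q → Set (EuclideanSpace ℝ (Fin n)))
  (l : Fin q → EuclideanSpace ℝ (Fin n) → ℝ) (t : Fin q → ℝ), 1 ≤ n →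
  ContinuousOn f {u | u ≠ 0} → (∀ u, u ≠ 0 → 0 < f u) →
  (∀ (c : ℝ) u, 0 < c → f (c • u) = c * f u) →
  IsZonotope {x : EuclideanSpace ℝ (Fin n) | ∀ u, u ≠ 0 → inner ℝ x u ≤ f u} →
  (∀ i, IsCompact (K i)) → (∀ i, 0 < volume.real (K i)) →
  (∀ i, 0 ≤ t i) → ∑ i, t i = 1 →
  (∀ i, ∀ u, u ≠ 0 → 0 < l i u ∧ ∀ x ∈ K i, |inner ℝ x u| ≤ l i u) →
  (∀ u, u ≠ 0 → ∏ i, l i u ^ t i ≤ f u) →
  ∏ i, volume.real (K i) ^ t i ≤
    volume.real {x : EuclideanSpace ℝ (Fin n) | ∀ u, u ≠ 0 → inner ℝ x u ≤ f u}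

/-- (BM) log-Brunn-Minkowski for finitely many symmetric convex bodies if the log combination is a
zonotope -/
def S_BM : Prop := ∀ (n q : ℕ) (K : Fin q → Set (EuclideanSpace ℝ (Fin n))) (t : Fin q → ℝ),
  1 ≤ n → (∀ i, SB (K i)) → (∀ i, 0 ≤ t i) → ∑ i, t i = 1 →
  IsZonotope {x : EuclideanSpace ℝ (Fin n) |
    ∀ u : EuclideanSpace ℝ (Fin n), ‖u‖ = 1 → inner ℝ x u ≤ ∏ i, hh (K i) u ^ t i} →
  ∏ i, (volume (K i)).toReal ^ t i ≤
    (volume {x : EuclideanSpace ℝ (Fin n) |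
      ∀ u : EuclideanSpace ℝ (Fin n), ‖u‖ = 1 → inner ℝ x u ≤ ∏ i, hh (K i) u ^ t i}).toReal

/-- (BC) the B-conjecture for the uniform measure of a symmetric convex body `M`: if
`e^(θa+(1-θ)b) K ∩ M` is a zonotope -/
def S_BC : Prop := ∀ (n : ℕ) (K M : Set (EuclideanSpace ℝ (Fin n))), 1 ≤ n → SB K → SB M →
  ∀ (a b θ : ℝ), 0 < θ → θ < 1 →
    IsZonotope ((Real.exp (θ * a + (1 - θ) * b) • K) ∩ M) →
    (volume ((Real.exp a • K) ∩ M)) ^ θ * (volume ((Real.exp b • K) ∩ M)) ^ (1 - θ) ≤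
      volume ((Real.exp (θ * a + (1 - θ) * b) • K) ∩ M)

/-- (LP) the L_p-Brunn-Minkowski inequality, `0 < p ≤ 1`, for symmetric convex bodies if the
L_p-combination is a zonotope -/
def S_LP : Prop := ∀ (n : ℕ) (K C : Set (EuclideanSpace ℝ (Fin n))) (p α β : ℝ), 1 ≤ n →
  SB K → SB C → 0 < p → p ≤ 1 → 0 < α → 0 < β →
  IsZonotope {x : EuclideanSpace ℝ (Fin n) | ∀ u : EuclideanSpace ℝ (Fin n), ‖u‖ = 1 →
    inner ℝ x u ≤ (α * hh K u ^ p + β * hh C u ^ p) ^ (1 / p)} →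
  α * (volume K).toReal ^ (p / n) + β * (volume C).toReal ^ (p / n) ≤
    (volume {x : EuclideanSpace ℝ (Fin n) | ∀ u : EuclideanSpace ℝ (Fin n), ‖u‖ = 1 →
      inner ℝ x u ≤ (α * hh K u ^ p + β * hh C u ^ p) ^ (1 / p)}).toReal ^ (p / n)

/-- the section of the box with half-axes `e^(t i)` by the subspace `H` -/
def Sec {n : ℕ} (H : Submodule ℝ (EuclideanSpace ℝ (Fin n))) (t : Fin n → ℝ) :
    Set (EuclideanSpace ℝ (Fin n)) :=
  {x : EuclideanSpace ℝ (Fin n) | ∀ i, |WithLp.ofLp x i| ≤ Real.exp (t i)} ∩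
    (H : Set (EuclideanSpace ℝ (Fin n)))

/-- (SEC) sections of rescaled cubes: the inequality holds if the section in the middle is a
zonotope -/
def S_SEC : Prop := ∀ (n k : ℕ), 1 ≤ k → k ≤ n →
  ∀ H : Submodule ℝ (EuclideanSpace ℝ (Fin n)), Module.finrank ℝ H = k →
  ∀ (s t : Fin n → ℝ) (l : ℝ), 0 ≤ l → l ≤ 1 →
    IsZonotope (Sec H fun i => l * s i + (1 - l) * t i) →
    (Measure.hausdorffMeasure (k : ℝ) (Sec H s)).toReal ^ l *
      (Measure.hausdorffMeasure (k : ℝ) (Sec H t)).toReal ^ (1 - l) ≤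
      (Measure.hausdorffMeasure (k : ℝ) (Sec H fun i => l * s i + (1 - l) * t i)).toReal

/-- (T1) the strengthened log-Minkowski inequality: `K = ∑ [-z_j, z_j]` a zonotope with nonempty
interior in `ℝ^(m+1)`, `m ≥ 1`, `L` an arbitrary compact symmetric set of positive volume.
`hL u = sup {u ⬝ᵥ x : x ∈ L}`, `kk z I` is the support function of `K` at the facet normal `X z I` -/
def S_T1 : Prop := ∀ (m N : ℕ) (z : Fin N → Fin (m + 1) → ℝ) (L : Set (Fin (m + 1) → ℝ)),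
  1 ≤ m → (interior (Zon z)).Nonempty → IsCompact L → (∀ x ∈ L, -x ∈ L) →
  (interior L).Nonempty →
  ∑ A ∈ Ps (m + 1) N, 2 ^ (m + 1) * DD z A / volume.real (Zon z) *
      (∏ j ∈ A, kk z (A.erase j) / sSup ((fun x => X z (A.erase j) ⬝ᵥ x) '' L)) ^ (1 / (m : ℝ)) ≤
    (volume.real (Zon z) / volume.real L) ^ (1 / (m : ℝ)) ∧
  ∑ I ∈ Ps m N, 2 ^ (m + 1) * kk z I / volume.real (Zon z) *
      Real.log (kk z I / sSup ((fun x => X z I ⬝ᵥ x) '' L)) ≤
    Real.log (volume.real (Zon z) / volume.real L)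

/-- (VOL) the volume of a zonotope (upper bound; the lower bound is TILE) -/
def S_VOL : Prop := ∀ (m N : ℕ) (z : Fin N → Fin (m + 1) → ℝ), 0 < Dt z →
  volume.real (Zon z) ≤ 2 ^ (m + 1) * Dt z

end H354ZN
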