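import Pool.Agent.H354R3.ZN.Defs2

/-!
# From zonotopes to zonoids: log-Minkowski, log-Brunn-Minkowski, Alexandrov's variational formula,
uniqueness.  `Prop`s `S_XXX` (helper354)
-/

set_option autoImplicit false

open MeasureTheory Filter
open scoped Matrix Pointwise Topology

namespace H354ZN

/-- `K` is a zonoid: a limit of zonotopes in the Hausdorff metric -/
def IsZonoid {n : ℕ} (K : Set (EuclideanSpace ℝ (Fin n))) : Prop :=
  IsCompact K ∧ ∀ ε : ℝ, 0 < ε → ∃ Z : Set (EuclideanSpace ℝ (Fin n)),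
    IsZonotope Z ∧ Metric.hausdorffDist K Z < ε

/-- the gradient at `x` of the norm with unit ball `K`; it has the direction of the outer normal of
`K` at the boundary point `x / gauge K x`, and `h_K` of it is `1` -/
noncomputable def gg {n : ℕ} (K : Set (EuclideanSpace ℝ (Fin n))) (x : EuclideanSpace ℝ (Fin n)) :
    EuclideanSpace ℝ (Fin n) := gradient (gauge K) x

/-- Wulff shape -/
def Wu {n : ℕ} (f : EuclideanSpace ℝ (Fin n) → ℝ) : Set (EuclideanSpace ℝ (Fin n)) :=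
  {x | ∀ u : EuclideanSpace ℝ (Fin n), u ≠ 0 → inner ℝ x u ≤ f u}

/-- positive, continuous, even, homogeneous of degree 1 on `u ≠ 0` -/
structure PH {n : ℕ} (f : EuclideanSpace ℝ (Fin n) → ℝ) : Prop where
  cont : ContinuousOn f {u | u ≠ 0}
  pos : ∀ u, u ≠ 0 → 0 < f u
  hom : ∀ (c : ℝ) (u : EuclideanSpace ℝ (Fin n)), c ≠ 0 → f (c • u) = |c| * f u

/-- continuous, even, homogeneous of degree 0 on `u ≠ 0` -/
structure ZH {n : ℕ} (g : EuclideanSpace ℝ (Fin n) → ℝ) : Prop where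
  cont : ContinuousOn g {u | u ≠ 0}
  hom : ∀ (c : ℝ) (u : EuclideanSpace ℝ (Fin n)), c ≠ 0 → g (c • u) = g u

/-- the Wulff shape of `h_K e^{-t g}` -/
noncomputable def Kt {n : ℕ} (K : Set (EuclideanSpace ℝ (Fin n)))
    (g : EuclideanSpace ℝ (Fin n) → ℝ) (t : ℝ) : Set (EuclideanSpace ℝ (Fin n)) :=
  Wu fun u => hh K u * Real.exp (-(t * g u))

/-! ## basic facts on symmetric bodies -/

/-- (HH) -/
def S_HH : Prop := ∀ (n : ℕ) (K : Set (EuclideanSpace ℝ (Fin n))), SB K →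
  PH (hh K) ∧ Wu (hh K) = K ∧ 0 < volume.real K ∧ volume K < ⊤ ∧
    (∀ x ∈ K, ∀ u, |inner ℝ x u| ≤ hh K u) ∧
    (∀ u, (∀ y ∈ K, inner ℝ y u ≤ 1) ↔ hh K u ≤ 1) ∧
    (∀ u, hh K u ≤ 1 ↔ ∀ y, inner ℝ y u ≤ gauge K y) ∧
    (∀ x, x ∈ K ↔ gauge K x ≤ 1) ∧ (∀ x, x ≠ 0 → 0 < gauge K x) ∧ Continuous (gauge K)

/-- (WSB) Wulff shapes are symmetric bodies -/
def S_WSB : Prop := ∀ (n : ℕ) (f : EuclideanSpace ℝ (Fin n) → ℝ), PH f →
  SB (Wu f) ∧ ∀ u, u ≠ 0 → hh (Wu f) u ≤ f u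

/-- (SAND) a zonoid body lies between two homothetic zonotopes -/
def S_SAND : Prop := ∀ (n : ℕ) (K : Set (EuclideanSpace ℝ (Fin n))), SB K → IsZonoid K →
  ∀ ε : ℝ, 0 < ε → ε < 1 → ∃ Z : Set (EuclideanSpace ℝ (Fin n)), IsZonotope Z ∧
    ∀ u, (1 - ε) * hh K u ≤ hh Z u ∧ hh Z u ≤ (1 + ε) * hh K u

/-- (ZST) log-Brunn-Minkowski if the product of the support functions is below the support function
of a zonoid -/
def S_ZST : Prop := ∀ (n q : ℕ) (M : Set (EuclideanSpace ℝ (Fin n)))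
  (K : Fin q → Set (EuclideanSpace ℝ (Fin n)))
  (l : Fin q → EuclideanSpace ℝ (Fin n) → ℝ) (t : Fin q → ℝ), 1 ≤ n → SB M → IsZonoid M →
  (∀ i, IsCompact (K i)) → (∀ i, 0 < volume.real (K i)) →
  (∀ i, 0 ≤ t i) → ∑ i, t i = 1 →
  (∀ i, ∀ u, u ≠ 0 → 0 < l i u ∧ ∀ x ∈ K i, |inner ℝ x u| ≤ l i u) →
  (∀ u, u ≠ 0 → ∏ i, l i u ^ t i ≤ hh M u) →
  ∏ i, volume.real (K i) ^ t i ≤ volume.real M

/-! ## the gradient of the norm -/

/-- (GRAD) for almost every `x` -/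
def S_GRAD : Prop := ∀ (n : ℕ) (K : Set (EuclideanSpace ℝ (Fin n))), 1 ≤ n → SB K →
  ∀ᵐ x : EuclideanSpace ℝ (Fin n), DifferentiableAt ℝ (gauge K) x ∧ x ≠ 0 ∧ gg K x ≠ 0 ∧
    inner ℝ x (gg K x) = gauge K x ∧ hh K (gg K x) = 1 ∧ (∀ y, inner ℝ y (gg K x) ≤ gauge K y) ∧
    ∀ v, (∀ y, inner ℝ y v ≤ gauge K y) → inner ℝ x v = gauge K x → v = gg K x

/-- (GRH) -/
def S_GRH : Prop := ∀ (n : ℕ) (K : Set (EuclideanSpace ℝ (Fin n))), SB K →
  Measurable (gg K) ∧ (∀ (c : ℝ) x, 0 < c → gg K (c • x) = gg K x) ∧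
    ∃ R : ℝ, 0 < R ∧ ∀ x, ‖gg K x‖ ≤ R

/-- (VEXP) -/
def S_VEXP : Prop := ∀ (n : ℕ) (K : Set (EuclideanSpace ℝ (Fin n))), 1 ≤ n → SB K →
  Integrable (fun x : EuclideanSpace ℝ (Fin n) => Real.exp (-gauge K x)) ∧
    (n.factorial : ℝ) * volume.real K = ∫ x : EuclideanSpace ℝ (Fin n), Real.exp (-gauge K x)

/-- (POL) -/
def S_POL : Prop := ∀ (n : ℕ) (K : Set (EuclideanSpace ℝ (Fin n)))
  (G : EuclideanSpace ℝ (Fin n) → ℝ), 1 ≤ n → SB K → Measurable G → (∃ C : ℝ, ∀ x, |G x| ≤ C) →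
  (∀ (c : ℝ) x, 0 < c → G (c • x) = G x) →
  (∀ c : ℝ, 0 < c →
    Integrable (fun x : EuclideanSpace ℝ (Fin n) => Real.exp (-(c * gauge K x)) * gauge K x)) ∧
    ∫ x : EuclideanSpace ℝ (Fin n), Real.exp (-gauge K x) * gauge K x * G x =
      (n.factorial : ℝ) * n * ∫ x in K, G x

/-- (PTB) bounds for the gauge of `Kt` -/
def S_PTB : Prop := ∀ (n : ℕ) (K : Set (EuclideanSpace ℝ (Fin n)))
  (g : EuclideanSpace ℝ (Fin n) → ℝ), 1 ≤ n → SB K → ZH g →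
  (∀ t, SB (Kt K g t)) ∧ ∃ C : ℝ, 0 ≤ C ∧ ∀ t, 0 ≤ t → ∀ x,
    Real.exp (-(C * t)) * gauge K x ≤ gauge (Kt K g t) x ∧
      gauge (Kt K g t) x ≤ Real.exp (C * t) * gauge K x

/-- (PTL) the derivative of the gauge of `Kt` -/
def S_PTL : Prop := ∀ (n : ℕ) (K : Set (EuclideanSpace ℝ (Fin n)))
  (g : EuclideanSpace ℝ (Fin n) → ℝ), 1 ≤ n → SB K → ZH g →
  ∀ᵐ x : EuclideanSpace ℝ (Fin n),
    Tendsto (fun t => (gauge (Kt K g t) x - gauge K x) / t) (𝓝[>] (0 : ℝ))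
      (𝓝 (gauge K x * g (gg K x)))

/-- (ALEX) Alexandrov's variational formula -/
def S_ALEX : Prop := ∀ (n : ℕ) (K : Set (EuclideanSpace ℝ (Fin n)))
  (g : EuclideanSpace ℝ (Fin n) → ℝ), 1 ≤ n → SB K → ZH g →
  Tendsto (fun t => (volume.real K - volume.real (Kt K g t)) / t) (𝓝[>] (0 : ℝ))
    (𝓝 (n * ∫ x in K, g (gg K x)))

/-- (ACTZ) `h_M = f` at almost all normals of `M = Wu f` -/
def S_ACTZ : Prop := ∀ (n : ℕ) (f : EuclideanSpace ℝ (Fin n) → ℝ), 1 ≤ n → PH f →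
  ∀ᵐ x : EuclideanSpace ℝ (Fin n), f (gg (Wu f) x) = 1

/-- (DENSE) -/
def S_DENSE : Prop := ∀ (n : ℕ) (K L : Set (EuclideanSpace ℝ (Fin n))) (c : ℝ), 1 ≤ n → SB K →
  SB L → 0 < c → (∀ᵐ x : EuclideanSpace ℝ (Fin n), x ∈ K → hh L (gg K x) ≤ c) → L ⊆ c • K

/-- (SAMEV) -/
def S_SAMEV : Prop := ∀ (n : ℕ) (K L : Set (EuclideanSpace ℝ (Fin n))), SB K → SB L → K ⊆ L →
  volume.real L ≤ volume.real K → K = L

/-! ## results -/

/-- (LMZ) the log-Minkowski inequality for a zonoid `K` and an arbitrary symmetric body `L`: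
`∫_K log h_L(∇‖x‖_K) dx` is `∫ log (h_L/h_K) dV_K`, `V_K` the cone-volume measure -/
def S_LMZ : Prop := ∀ (n : ℕ) (K L : Set (EuclideanSpace ℝ (Fin n))), 1 ≤ n → SB K → IsZonoid K →
  SB L → volume.real K / n * Real.log (volume.real L / volume.real K) ≤
    ∫ x in K, Real.log (hh L (gg K x))

/-- (ZMZ) general form of log-Brunn-Minkowski with a zonoid in the middle -/
def S_ZMZ : Prop := ∀ (n q : ℕ) (f : EuclideanSpace ℝ (Fin n) → ℝ)
  (K : Fin q → Set (EuclideanSpace ℝ (Fin n)))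
  (l : Fin q → EuclideanSpace ℝ (Fin n) → ℝ) (t : Fin q → ℝ), 1 ≤ n → PH f → IsZonoid (Wu f) →
  (∀ i, IsCompact (K i)) → (∀ i, 0 < volume.real (K i)) →
  (∀ i, 0 ≤ t i) → ∑ i, t i = 1 →
  (∀ i, ∀ u, u ≠ 0 → 0 < l i u ∧ ∀ x ∈ K i, |inner ℝ x u| ≤ l i u) →
  (∀ u, u ≠ 0 → ∏ i, l i u ^ t i ≤ f u) →
  ∏ i, volume.real (K i) ^ t i ≤ volume.real (Wu f)

/-- (BMZ) log-Brunn-Minkowski for finitely many symmetric convex bodies if the log combination is a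
zonoid -/
def S_BMZ : Prop := ∀ (n q : ℕ) (K : Fin q → Set (EuclideanSpace ℝ (Fin n))) (t : Fin q → ℝ),
  1 ≤ n → (∀ i, SB (K i)) → (∀ i, 0 ≤ t i) → ∑ i, t i = 1 →
  IsZonoid {x : EuclideanSpace ℝ (Fin n) |
    ∀ u : EuclideanSpace ℝ (Fin n), ‖u‖ = 1 → inner ℝ x u ≤ ∏ i, hh (K i) u ^ t i} →
  ∏ i, (volume (K i)).toReal ^ t i ≤
    (volume {x : EuclideanSpace ℝ (Fin n) |
      ∀ u : EuclideanSpace ℝ (Fin n), ‖u‖ = 1 → inner ℝ x u ≤ ∏ i, hh (K i) u ^ t i}).toReal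

/-- (BCZ) the B-conjecture for the uniform measure of a symmetric convex body `M`: if
`e^(θa+(1-θ)b) K ∩ M` is a zonoid -/
def S_BCZ : Prop := ∀ (n : ℕ) (K M : Set (EuclideanSpace ℝ (Fin n))), 1 ≤ n → SB K → SB M →
  ∀ (a b θ : ℝ), 0 < θ → θ < 1 →
    IsZonoid ((Real.exp (θ * a + (1 - θ) * b) • K) ∩ M) →
    (volume ((Real.exp a • K) ∩ M)) ^ θ * (volume ((Real.exp b • K) ∩ M)) ^ (1 - θ) ≤
      volume ((Real.exp (θ * a + (1 - θ) * b) • K) ∩ M)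

/-- (SECZ) sections of rescaled cubes: the inequality holds if the section in the middle is a
zonoid -/
def S_SECZ : Prop := ∀ (n k : ℕ), 1 ≤ k → k ≤ n →
  ∀ H : Submodule ℝ (EuclideanSpace ℝ (Fin n)), Module.finrank ℝ H = k →
  ∀ (s t : Fin n → ℝ) (l : ℝ), 0 ≤ l → l ≤ 1 →
    IsZonoid (Sec H fun i => l * s i + (1 - l) * t i) →
    (Measure.hausdorffMeasure (k : ℝ) (Sec H s)).toReal ^ l *
      (Measure.hausdorffMeasure (k : ℝ) (Sec H t)).toReal ^ (1 - l) ≤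
      (Measure.hausdorffMeasure (k : ℝ) (Sec H fun i => l * s i + (1 - l) * t i)).toReal

/-- (LPZ) the L_p-Brunn-Minkowski inequality, `0 < p < 1`, with equality case, for symmetric convex
bodies if the L_p-combination is a zonoid -/
def S_LPZ : Prop := ∀ (n : ℕ) (K C : Set (EuclideanSpace ℝ (Fin n))) (p α β : ℝ), 1 ≤ n →
  SB K → SB C → 0 < p → p < 1 → 0 < α → 0 < β →
  IsZonoid {x : EuclideanSpace ℝ (Fin n) | ∀ u : EuclideanSpace ℝ (Fin n), ‖u‖ = 1 →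
    inner ℝ x u ≤ (α * hh K u ^ p + β * hh C u ^ p) ^ (1 / p)} →
  α * (volume K).toReal ^ (p / n) + β * (volume C).toReal ^ (p / n) ≤
    (volume {x : EuclideanSpace ℝ (Fin n) | ∀ u : EuclideanSpace ℝ (Fin n), ‖u‖ = 1 →
      inner ℝ x u ≤ (α * hh K u ^ p + β * hh C u ^ p) ^ (1 / p)}).toReal ^ (p / n) ∧
  ((volume {x : EuclideanSpace ℝ (Fin n) | ∀ u : EuclideanSpace ℝ (Fin n), ‖u‖ = 1 →
      inner ℝ x u ≤ (α * hh K u ^ p + β * hh C u ^ p) ^ (1 / p)}).toReal ^ (p / n) =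
    α * (volume K).toReal ^ (p / n) + β * (volume C).toReal ^ (p / n) ↔
      ∃ t : ℝ, 0 < t ∧ C = (fun x : EuclideanSpace ℝ (Fin n) => t • x) '' K)

/-- the cone-volume measure `V_K` (a measure on the unit sphere): the image of Lebesgue measure on
`K` under `x ↦ ν(x) = ∇‖x‖_K / |∇‖x‖_K|`, the outer unit normal at the boundary point `x / ‖x‖_K` -/
noncomputable def coneVol {n : ℕ} (K : Set (EuclideanSpace ℝ (Fin n))) :
    Measure (EuclideanSpace ℝ (Fin n)) :=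
  Measure.map (fun x => ‖gg K x‖⁻¹ • gg K x) (volume.restrict K)

/-- the `L_p` surface area measure of `K`: `dS_{K,p} = h_K^(1-p) dS_K = n h_K^(-p) dV_K` -/
noncomputable def SLp {n : ℕ} (p : ℝ) (K : Set (EuclideanSpace ℝ (Fin n))) :
    Measure (EuclideanSpace ℝ (Fin n)) :=
  (n : ENNReal) • (coneVol K).withDensity fun u => ENNReal.ofReal (hh K u ^ (-p))

/-- (LMC) the log-Minkowski inequality for a zonoid `K` and an arbitrary symmetric body `L` -/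
def S_LMC : Prop := ∀ (n : ℕ) (K L : Set (EuclideanSpace ℝ (Fin n))), 1 ≤ n → SB K → IsZonoid K →
  SB L → coneVol K Set.univ = volume K ∧ coneVol K (Metric.sphere 0 1)ᶜ = 0 ∧
    Integrable (fun u => Real.log (hh L u / hh K u)) (coneVol K) ∧
    1 / (n : ℝ) * Real.log (volume.real L / volume.real K) ≤
      1 / volume.real K * ∫ u, Real.log (hh L u / hh K u) ∂(coneVol K)

/-- (UNI) uniqueness in the `L_p`-Minkowski problem among zonoids -/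
def S_UNI : Prop := ∀ (n : ℕ) (p : ℝ) (K C : Set (EuclideanSpace ℝ (Fin n))), 1 ≤ n → 0 < p →
  p < 1 → SB K → SB C → IsZonoid K → IsZonoid C → SLp p K = SLp p C → K = C

end H354ZN
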