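import Pool.Agent.H354R3.ZN.Defs3

/-!
# Bodies in `ℝ^n` invariant under the reflections in `n - 2` coordinate hyperplanes: log-BM and its
consequences.  `Prop`s `S_XXX` (helper354; the fibre lemma is due to helper787)
-/

set_option autoImplicit false

open MeasureTheory Filter
open scoped Matrix Pointwise Topology ENNReal

namespace H354ZN

/-- reflection in the `j`-th coordinate hyperplane -/
noncomputable def flipE {n : ℕ} (j : Fin n) (x : EuclideanSpace ℝ (Fin n)) :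
    EuclideanSpace ℝ (Fin n) :=
  WithLp.toLp 2 (Function.update (WithLp.ofLp x) j (-(WithLp.ofLp x j)))

/-- `K` is invariant under the reflections in the coordinate hyperplanes `x_j = 0`, `j ≥ 2`
(coordinates are numbered `0, …, n-1`), that is in all coordinate hyperplanes but two -/
def Ref {n : ℕ} (K : Set (EuclideanSpace ℝ (Fin n))) : Prop :=
  ∀ j : Fin n, 2 ≤ (j : ℕ) → ∀ x ∈ K, flipE j x ∈ K

/-- the Wulff shape of `h_K^(1-t) h_L^t`: the logarithmic combination of `K` and `L` -/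
noncomputable def LC {n : ℕ} (K L : Set (EuclideanSpace ℝ (Fin n))) (t : ℝ) :
    Set (EuclideanSpace ℝ (Fin n)) :=
  Wu fun u => hh K u ^ (1 - t) * hh L u ^ t

/-- the point `(x, y)` of `ℝ^(n+1)` -/
noncomputable def snocE {n : ℕ} (x : EuclideanSpace ℝ (Fin n)) (y : ℝ) :
    EuclideanSpace ℝ (Fin (n + 1)) :=
  WithLp.toLp 2 (Fin.snoc (α := fun _ => ℝ) (WithLp.ofLp x) y)

/-- the fibre of `K` over the last coordinate `y` -/
def fib {n : ℕ} (K : Set (EuclideanSpace ℝ (Fin (n + 1)))) (y : ℝ) :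
    Set (EuclideanSpace ℝ (Fin n)) := {x | snocE x y ∈ K}

/-- invariant under the reflection in the last coordinate hyperplane -/
def RefL {n : ℕ} (K : Set (EuclideanSpace ℝ (Fin (n + 1)))) : Prop :=
  ∀ x ∈ K, flipE (Fin.last n) x ∈ K

/-! ## the plane -/

/-- (PLZ) every symmetric convex body in the plane is a zonoid -/
def S_PLZ : Prop := ∀ K : Set (EuclideanSpace ℝ (Fin 2)), SB K → IsZonoid K

/-- (HDZ) closeness of support functions gives closeness in the Hausdorff metric -/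
def S_HDZ : Prop := ∀ (n : ℕ) (K Z : Set (EuclideanSpace ℝ (Fin n))) (ε : ℝ),
  Convex ℝ K → IsCompact K → K.Nonempty → Convex ℝ Z → IsCompact Z → Z.Nonempty → 0 ≤ ε →
  (∀ u, |hh K u - hh Z u| ≤ ε * ‖u‖) → Metric.hausdorffDist K Z ≤ ε

/-- (GRE) the discrete Green identity -/
def S_GRE : Prop := ∀ (N : ℕ) (h : ℤ → ℝ) (j : ℤ), 2 ≤ N → (∀ i, h (i + N) = h i) →
  ∑ i ∈ Finset.range N, (h (i - 1) + h (i + 1) - 2 * Real.cos (Real.pi / N) * h i) /
    Real.sin (Real.pi / N) * |Real.sin ((i - j) * (Real.pi / N))| = 2 * h j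

/-! ## fibres -/

/-- (FIBV) Fubini and the substitution `y = e^a` -/
def S_FIBV : Prop := ∀ (n : ℕ) (K : Set (EuclideanSpace ℝ (Fin (n + 1)))), IsCompact K → RefL K →
  volume K = 2 * ∫⁻ a : ℝ, volume (fib K (Real.exp a)) * ENNReal.ofReal (Real.exp a)

/-- (FIBM) -/
def S_FIBM : Prop := ∀ (n : ℕ) (K : Set (EuclideanSpace ℝ (Fin (n + 1)))), IsCompact K →
  Measurable fun a : ℝ => volume (fib K (Real.exp a)) * ENNReal.ofReal (Real.exp a)

/-- (FIBS) a fibre of positive volume is a symmetric convex body -/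
def S_FIBS : Prop := ∀ (n : ℕ) (K : Set (EuclideanSpace ℝ (Fin (n + 1)))) (y : ℝ), SB K →
  RefL K → 0 < volume (fib K y) → SB (fib K y)

/-- (FIBR) reflections of fibres -/
def S_FIBR : Prop := ∀ (n : ℕ) (K : Set (EuclideanSpace ℝ (Fin (n + 1)))) (y : ℝ), 2 ≤ n → Ref K →
  RefL K ∧ Ref (fib K y)

/-- (FLEM) the fibre lemma (helper787) -/
def S_FLEM : Prop := ∀ (n : ℕ) (K L : Set (EuclideanSpace ℝ (Fin (n + 1)))) (y z t : ℝ),
  SB K → SB L → RefL K → RefL L → 0 < y → 0 < z → 0 < t → t < 1 → SB (fib K y) → SB (fib L z) →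
  LC (fib K y) (fib L z) t ⊆ fib (LC K L t) (y ^ (1 - t) * z ^ t)

/-- (HOL) -/
def S_HOL : Prop := ∀ a b c d t : ℝ, 0 ≤ a → 0 ≤ b → 0 ≤ c → 0 ≤ d → 0 < t → t < 1 →
  a ^ (1 - t) * c ^ t + b ^ (1 - t) * d ^ t ≤ (a + b) ^ (1 - t) * (c + d) ^ t

/-! ## log-BM for bodies with `n - 2` reflections -/

/-- (LB) the log-Brunn-Minkowski inequality for bodies with `n - 2` reflections, in `ℝ^n` -/
def LB2 (n : ℕ) : Prop := ∀ (K L : Set (EuclideanSpace ℝ (Fin n))) (t : ℝ), SB K → SB L → Ref K →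
  Ref L → 0 < t → t < 1 → volume K ^ (1 - t) * volume L ^ t ≤ volume (LC K L t)

/-- (LCS) the logarithmic combination is a symmetric body, with the reflections -/
def S_LCS : Prop := ∀ (n : ℕ) (K L : Set (EuclideanSpace ℝ (Fin n))) (t : ℝ), SB K → SB L →
  0 ≤ t → t ≤ 1 → PH (fun u : EuclideanSpace ℝ (Fin n) => hh K u ^ (1 - t) * hh L u ^ t) ∧
    SB (LC K L t) ∧ (Ref K → Ref L → Ref (LC K L t))

def S_LB0 : Prop := LB2 2

def S_STEP : Prop := ∀ n, 2 ≤ n → LB2 n → LB2 (n + 1)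

def S_LB : Prop := ∀ n, 2 ≤ n → LB2 n

/-- (MES) the log-Brunn-Minkowski inequality for even log-concave densities (Saroglou), for bodies
and densities with `n - 2` reflections -/
def S_MES : Prop := ∀ (n : ℕ) (f : EuclideanSpace ℝ (Fin n) → ℝ)
  (K L : Set (EuclideanSpace ℝ (Fin n))) (t : ℝ), 2 ≤ n → Measurable f → (∀ x, 0 ≤ f x) →
  (∀ x, f (-x) = f x) → (∀ j : Fin n, 2 ≤ (j : ℕ) → ∀ x, f (flipE j x) = f x) →
  (∀ (x y : EuclideanSpace ℝ (Fin n)) (s : ℝ), 0 < s → s < 1 →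
    f x ^ (1 - s) * f y ^ s ≤ f ((1 - s) • x + s • y)) →
  SB K → SB L → Ref K → Ref L → 0 < t → t < 1 →
  (∫⁻ x in K, ENNReal.ofReal (f x)) ^ (1 - t) * (∫⁻ x in L, ENNReal.ofReal (f x)) ^ t ≤
    ∫⁻ x in LC K L t, ENNReal.ofReal (f x)

/-- (BCR) the B-inequality for even log-concave densities, with `n - 2` reflections -/
def S_BCR : Prop := ∀ (n : ℕ) (f : EuclideanSpace ℝ (Fin n) → ℝ)
  (K : Set (EuclideanSpace ℝ (Fin n))), 2 ≤ n → Measurable f → (∀ x, 0 ≤ f x) →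
  (∀ x, f (-x) = f x) → (∀ j : Fin n, 2 ≤ (j : ℕ) → ∀ x, f (flipE j x) = f x) →
  (∀ (x y : EuclideanSpace ℝ (Fin n)) (s : ℝ), 0 < s → s < 1 →
    f x ^ (1 - s) * f y ^ s ≤ f ((1 - s) • x + s • y)) →
  SB K → Ref K → ∀ a b θ : ℝ, 0 < θ → θ < 1 →
  (volume.withDensity (fun x => ENNReal.ofReal (f x)) (Real.exp a • K)) ^ θ *
    (volume.withDensity (fun x => ENNReal.ofReal (f x)) (Real.exp b • K)) ^ (1 - θ) ≤
    volume.withDensity (fun x => ENNReal.ofReal (f x)) (Real.exp (θ * a + (1 - θ) * b) • K)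

/-- (LMR) the log-Minkowski inequality for bodies with `n - 2` reflections -/
def S_LMR : Prop := ∀ (n : ℕ) (K L : Set (EuclideanSpace ℝ (Fin n))), 2 ≤ n → SB K → SB L →
  Ref K → Ref L → volume.real K / n * Real.log (volume.real L / volume.real K) ≤
    ∫ x in K, Real.log (hh L (gg K x))

/-- (LPR) the `L_p`-Brunn-Minkowski inequality, `0 < p < 1`, with equality case, for bodies with
`n - 2` reflections -/
def S_LPR : Prop := ∀ (n : ℕ) (K C : Set (EuclideanSpace ℝ (Fin n))) (p α β : ℝ), 2 ≤ n →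
  SB K → SB C → Ref K → Ref C → 0 < p → p < 1 → 0 < α → 0 < β →
  α * (volume K).toReal ^ (p / n) + β * (volume C).toReal ^ (p / n) ≤
    (volume {x : EuclideanSpace ℝ (Fin n) | ∀ u : EuclideanSpace ℝ (Fin n), ‖u‖ = 1 →
      inner ℝ x u ≤ (α * hh K u ^ p + β * hh C u ^ p) ^ (1 / p)}).toReal ^ (p / n) ∧
  ((volume {x : EuclideanSpace ℝ (Fin n) | ∀ u : EuclideanSpace ℝ (Fin n), ‖u‖ = 1 →
      inner ℝ x u ≤ (α * hh K u ^ p + β * hh C u ^ p) ^ (1 / p)}).toReal ^ (p / n) =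
    α * (volume K).toReal ^ (p / n) + β * (volume C).toReal ^ (p / n) ↔
      ∃ t : ℝ, 0 < t ∧ C = (fun x : EuclideanSpace ℝ (Fin n) => t • x) '' K)

/-- (UNR) uniqueness in the `L_p`-Minkowski problem for bodies with `n - 2` reflections -/
def S_UNR : Prop := ∀ (n : ℕ) (p : ℝ) (K C : Set (EuclideanSpace ℝ (Fin n))), 2 ≤ n → 0 < p →
  p < 1 → SB K → SB C → Ref K → Ref C → SLp p K = SLp p C → K = C

/-- (BMR) the inequality in the form of the problem -/
def S_BMR : Prop := ∀ (n : ℕ) (K L : Set (EuclideanSpace ℝ (Fin n))), 2 ≤ n → SB K → SB L →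
  Ref K → Ref L → ∀ t : ℝ, 0 ≤ t → t ≤ 1 →
    (volume K).toReal ^ (1 - t) * (volume L).toReal ^ t ≤
      (volume {x : EuclideanSpace ℝ (Fin n) | ∀ u : EuclideanSpace ℝ (Fin n), ‖u‖ = 1 →
        inner ℝ x u ≤ (sSup ((fun y => inner ℝ y u) '' K)) ^ (1 - t) *
          (sSup ((fun y => inner ℝ y u) '' L)) ^ t}).toReal

end H354ZN
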