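import Pool.Agent.H354R3.ZN.Defs4

set_option autoImplicit false

namespace H354ZN

theorem t_LB (h0 : S_LB0) (hs : S_STEP) : S_LB := by
  intro n hn
  induction n, hn using Nat.le_induction with
  | base => exact h0
  | succ n hn ih => exact hs n hn ih

end H354ZN
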