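import Pool.Agent.H354R3.ZN.All3

/-!
# (LMCR) the log-Minkowski inequality in terms of the cone-volume measure, `n - 2` reflections
-/

set_option autoImplicit false

open MeasureTheory Filter
open scoped Matrix Pointwise Topology

namespace H354ZN

private theorem LMCR_meas {n : ℕ} {f : EuclideanSpace ℝ (Fin n) → ℝ} (hf : PH f) :
    Measurable f :=
  measurable_of_continuousOn_compl_singleton 0 (by
    have : ({0}ᶜ : Set (EuclideanSpace ℝ (Fin n))) = {u | u ≠ 0} := by
      ext u; simp
    rw [this]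
    exact hf.cont)

private theorem LMCR_ratio {n : ℕ} {f g : EuclideanSpace ℝ (Fin n) → ℝ} (hf : PH f) (hg : PH g)
    (v : EuclideanSpace ℝ (Fin n)) (hv : v ≠ 0) (hv1 : g v = 1) :
    f (‖v‖⁻¹ • v) / g (‖v‖⁻¹ • v) = f v := by
  have hc : ‖v‖⁻¹ ≠ 0 := inv_ne_zero (norm_ne_zero_iff.mpr hv)
  rw [hf.hom _ _ hc, hg.hom _ _ hc, hv1, mul_one, mul_comm, mul_div_assoc,
    div_self (abs_ne_zero.mpr hc), mul_one]

theorem a_LMCR (n : ℕ) (K L : Set (EuclideanSpace ℝ (Fin n))) (hn2 : 2 ≤ n) (hK : SB K)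
    (hL : SB L) (hKR : Ref K) (hLR : Ref L) :
    coneVol K Set.univ = volume K ∧ coneVol K (Metric.sphere 0 1)ᶜ = 0 ∧
    Integrable (fun u => Real.log (hh L u / hh K u)) (coneVol K) ∧
    1 / (n : ℝ) * Real.log (volume.real L / volume.real K) ≤
      1 / volume.real K * ∫ u, Real.log (hh L u / hh K u) ∂(coneVol K) := by
  have hHH : S_HH := t_HH
  have hGRAD : S_GRAD := a_GRAD
  have hGRH : S_GRH := t_GRH
  have hn : 1 ≤ n := by omega
  obtain ⟨hPK, -, hvK, hvK', -⟩ := hHH n K hK
  obtain ⟨hPL, -, -, -, -⟩ := hHH n L hL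
  obtain ⟨hgm, -, -⟩ := hGRH n K hK
  have hmeas : Measurable fun x => ‖gg K x‖⁻¹ • gg K x := hgm.norm.inv.smul hgm
  have huniv : coneVol K Set.univ = volume K := by
    unfold coneVol
    rw [Measure.map_apply hmeas MeasurableSet.univ, Set.preimage_univ, Measure.restrict_apply_univ]
  have hae : ∀ᵐ x ∂(volume.restrict K), gg K x ≠ 0 ∧ hh K (gg K x) = 1 := by
    refine ae_restrict_of_ae ?_
    filter_upwards [hGRAD n K hn hK] with x hx
    exact ⟨hx.2.2.1, hx.2.2.2.2.1⟩
  have hsph : coneVol K (Metric.sphere 0 1)ᶜ = 0 := by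
    unfold coneVol
    rw [Measure.map_apply hmeas Metric.isClosed_sphere.measurableSet.compl]
    have h1 : ∀ᵐ x ∂(volume.restrict K), ¬ (x ∈ (fun x => ‖gg K x‖⁻¹ • gg K x) ⁻¹'
        (Metric.sphere 0 1)ᶜ) := by
      filter_upwards [hae] with x hx
      rw [Set.mem_preimage, Set.mem_compl_iff, not_not, mem_sphere_zero_iff_norm, norm_smul,
        norm_inv, norm_norm]
      exact inv_mul_cancel₀ (norm_ne_zero_iff.mpr hx.1)
    have h2 := ae_iff.mp h1
    simp only [not_not] at h2
    exact h2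
  have : IsFiniteMeasure (coneVol K) := ⟨by rw [huniv]; exact hvK'⟩
  have hfm : Measurable fun u => Real.log (hh L u / hh K u) :=
    Real.measurable_log.comp ((LMCR_meas hPL).div (LMCR_meas hPK))
  have hsne : ∀ u ∈ Metric.sphere (0 : EuclideanSpace ℝ (Fin n)) 1, u ≠ 0 := by
    intro u hu h0
    rw [mem_sphere_zero_iff_norm, h0, norm_zero] at hu
    exact zero_ne_one hu
  have hint : Integrable (fun u => Real.log (hh L u / hh K u)) (coneVol K) := by
    have hcont : ContinuousOn (fun u => Real.log (hh L u / hh K u))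
        (Metric.sphere (0 : EuclideanSpace ℝ (Fin n)) 1) := by
      refine ContinuousOn.log (ContinuousOn.div (hPL.cont.mono hsne) (hPK.cont.mono hsne)
        fun u hu => (hPK.pos u (hsne u hu)).ne') fun u hu => ?_
      exact (div_pos (hPL.pos u (hsne u hu)) (hPK.pos u (hsne u hu))).ne'
    obtain ⟨C, hC⟩ := (isCompact_sphere (0 : EuclideanSpace ℝ (Fin n)) 1).exists_bound_of_continuousOn
      hcont
    refine Integrable.of_bound hfm.aestronglyMeasurable C ?_
    have h1 : ∀ᵐ u ∂(coneVol K), u ∈ Metric.sphere (0 : EuclideanSpace ℝ (Fin n)) 1 := by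
      rw [ae_iff]
      exact hsph
    filter_upwards [h1] with u hu
    exact hC u hu
  refine ⟨huniv, hsph, hint, ?_⟩
  have hI : ∫ u, Real.log (hh L u / hh K u) ∂(coneVol K) =
      ∫ x in K, Real.log (hh L (gg K x)) := by
    unfold coneVol
    rw [integral_map hmeas.aemeasurable hfm.aestronglyMeasurable]
    refine integral_congr_ae ?_
    filter_upwards [hae] with x hx
    rw [LMCR_ratio hPL hPK _ hx.1 hx.2]
  rw [hI]
  have h2 := a_LMR n K L hn2 hK hL hKR hLR
  have hn' : (0 : ℝ) < n := by exact_mod_cast hn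
  have h3 : 1 / (n : ℝ) * Real.log (volume.real L / volume.real K) =
      1 / volume.real K * (volume.real K / n * Real.log (volume.real L / volume.real K)) := by
    field_simp
  rw [h3]
  exact mul_le_mul_of_nonneg_left h2 (by positivity)

end H354ZN
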