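import Pool.Agent.H354R3.ZN.Defs

set_option autoImplicit false

open MeasureTheory
open scoped Matrix Pointwise

namespace H354ZN

theorem t_PERM0 (hDOT : S_DOT) : S_PERM0 := by
  intro m N z I j h hj
  rw [hDOT m N z I h (z j)]
  obtain ⟨i, hi⟩ : ∃ i : Fin m, I.orderEmbOfFin h i = j := by
    have : j ∈ Set.range (I.orderEmbOfFin h) := by
      rw [Finset.range_orderEmbOfFin]
      exact_mod_cast hj
    exact this
  apply Matrix.det_zero_of_row_eq (i := 0) (j := i.succ) (Fin.succ_ne_zero i).symm
  funext k
  simp only [Matrix.of_apply, rows, Fin.cons_zero, Fin.cons_succ]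
  rw [hi]

end H354ZN
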